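import Mathlib
import Pool.Agent.H805R2.Lite
import Pool.Agent.H805R2.Sanity

set_option autoImplicit false
set_option maxHeartbeats 1000000

open MeasureTheory Metric Set Filter Topology
open scoped ContDiff ComplexOrder

namespace Pool.Agent.H805K
open Pool.Agent.H805R2

variable {n : ℕ}

/-- `∂u(ζ)` -/
noncomputable def dl (u : Cn n → ℝ) (z ζ : Cn n) : ℂ :=
  (((fderiv ℝ u z ζ : ℝ) : ℂ) - Complex.I * ((fderiv ℝ u z (Complex.I • ζ) : ℝ) : ℂ)) / 2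

lemma sq_dl (u : Cn n → ℝ) (z ζ : Cn n) :
    ‖dl u z ζ‖ ^ 2 = ((fderiv ℝ u z ζ) ^ 2 + (fderiv ℝ u z (Complex.I • ζ)) ^ 2) / 4 := by
  rw [← Complex.normSq_eq_norm_sq, Complex.normSq_apply]
  have h1 : (dl u z ζ).re = fderiv ℝ u z ζ / 2 := by
    simp [dl]
  have h2 : (dl u z ζ).im = -(fderiv ℝ u z (Complex.I • ζ)) / 2 := by
    simp [dl]
  rw [h1, h2]
  ring

lemma sm_diff {f : Cn n → ℝ} (hf : ContDiff ℝ ∞ f) (z : Cn n) : DifferentiableAt ℝ f z :=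
  hf.contDiffAt.differentiableAt (by simp)

lemma dl_add {f g : Cn n → ℝ} (hf : ContDiff ℝ ∞ f) (hg : ContDiff ℝ ∞ g) (z ζ : Cn n) :
    dl (fun y => f y + g y) z ζ = dl f z ζ + dl g z ζ := by
  unfold dl
  rw [fderiv_fun_add (sm_diff hf z) (sm_diff hg z)]
  simp only [add_apply]
  push_cast; ring

lemma dl_sub {f g : Cn n → ℝ} (hf : ContDiff ℝ ∞ f) (hg : ContDiff ℝ ∞ g) (z ζ : Cn n) :
    dl (fun y => f y - g y) z ζ = dl f z ζ - dl g z ζ := by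
  unfold dl
  rw [fderiv_fun_sub (sm_diff hf z) (sm_diff hg z)]
  simp only [sub_apply]
  push_cast; ring

lemma dl_const (c : ℝ) (z ζ : Cn n) : dl (fun _ => c) z ζ = 0 := by
  unfold dl
  rw [fderiv_fun_const]
  simp

lemma levi_add' {f g : Cn n → ℝ} (hf : ContDiff ℝ ∞ f) (hg : ContDiff ℝ ∞ g) (z ζ : Cn n) :
    levi (fun y => f y + g y) z ζ = levi f z ζ + levi g z ζ :=
  levi_add (hf.of_le ss_le) (hg.of_le ss_le) z ζ

lemma levi_sub' {f g : Cn n → ℝ} (hf : ContDiff ℝ ∞ f) (hg : ContDiff ℝ ∞ g) (z ζ : Cn n) :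
    levi (fun y => f y - g y) z ζ = levi f z ζ - levi g z ζ :=
  levi_sub (hf.of_le ss_le) (hg.of_le ss_le) z ζ

lemma levi_const_mul' (c : ℝ) {f : Cn n → ℝ} (hf : ContDiff ℝ ∞ f) (z ζ : Cn n) :
    levi (fun y => c * f y) z ζ = c * levi f z ζ :=
  levi_const_mul c (hf.of_le ss_le) z ζ

lemma levi_sum {ι : Type*} (s : Finset ι) {f : ι → Cn n → ℝ} (hf : ∀ i ∈ s, ContDiff ℝ ∞ (f i))
    (z ζ : Cn n) : levi (fun y => ∑ i ∈ s, f i y) z ζ = ∑ i ∈ s, levi (f i) z ζ := by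
  classical
  induction s using Finset.induction_on with
  | empty => simp [levi_const]
  | insert a s ha ih =>
    have h1 : (fun y => ∑ i ∈ insert a s, f i y) = fun y => f a y + ∑ i ∈ s, f i y := by
      funext y; rw [Finset.sum_insert ha]
    rw [h1, levi_add' (hf a (Finset.mem_insert_self a s))
      (ContDiff.sum fun i hi => hf i (Finset.mem_insert_of_mem hi)),
      ih fun i hi => hf i (Finset.mem_insert_of_mem hi), Finset.sum_insert ha]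

lemma dl_sum {ι : Type*} (s : Finset ι) {f : ι → Cn n → ℝ} (hf : ∀ i ∈ s, ContDiff ℝ ∞ (f i))
    (z ζ : Cn n) : dl (fun y => ∑ i ∈ s, f i y) z ζ = ∑ i ∈ s, dl (f i) z ζ := by
  classical
  induction s using Finset.induction_on with
  | empty => simp [dl_const]
  | insert a s ha ih =>
    have h1 : (fun y => ∑ i ∈ insert a s, f i y) = fun y => f a y + ∑ i ∈ s, f i y := by
      funext y; rw [Finset.sum_insert ha]
    rw [h1, dl_add (hf a (Finset.mem_insert_self a s))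
      (ContDiff.sum fun i hi => hf i (Finset.mem_insert_of_mem hi)),
      ih fun i hi => hf i (Finset.mem_insert_of_mem hi), Finset.sum_insert ha]

/-! ### compositions -/

lemma D2_comp_loc {Φ Φ' : ℝ → ℝ} {c2 : ℝ} {f : Cn n → ℝ} (hf : ContDiff ℝ ∞ f) (z : Cn n)
    (h1 : ∀ᶠ x in 𝓝 (f z), HasDerivAt Φ (Φ' x) x) (h2 : HasDerivAt Φ' c2 (f z)) (ξ ζ : Cn n) :
    D2 (fun y => Φ (f y)) z ξ ζ = Φ' (f z) * D2 f z ξ ζ + c2 * (fderiv ℝ f z ξ * fderiv ℝ f z ζ) := by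
  have hfd : ∀ y, DifferentiableAt ℝ f y := fun y => sm_diff hf y
  have hfd2 : DifferentiableAt ℝ (fderiv ℝ f) z :=
    ((hf.fderiv_right (m := ∞) (by simp)).contDiffAt).differentiableAt (by simp)
  have e1 : fderiv ℝ (fun y => Φ (f y)) =ᶠ[𝓝 z] fun y => Φ' (f y) • fderiv ℝ f y := by
    have : ∀ᶠ y in 𝓝 z, HasDerivAt Φ (Φ' (f y)) (f y) := hf.continuous.continuousAt.eventually h1
    filter_upwards [this] with y hy
    exact (hy.comp_hasFDerivAt y (hfd y).hasFDerivAt).fderiv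
  have h3 : HasFDerivAt (fun y => Φ' (f y)) (c2 • fderiv ℝ f z) z :=
    h2.comp_hasFDerivAt z (hfd z).hasFDerivAt
  have h4 : HasFDerivAt (fun y => Φ' (f y) • fderiv ℝ f y)
      (Φ' (f z) • fderiv ℝ (fderiv ℝ f) z + (c2 • fderiv ℝ f z).smulRight (fderiv ℝ f z)) z :=
    h3.smul hfd2.hasFDerivAt
  unfold D2
  rw [e1.fderiv_eq, h4.fderiv]
  simp only [add_apply, smul_apply, ContinuousLinearMap.smulRight_apply, smul_eq_mul]
  ring

lemma levi_comp_loc {Φ Φ' : ℝ → ℝ} {c2 : ℝ} {f : Cn n → ℝ} (hf : ContDiff ℝ ∞ f) (z : Cn n)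
    (h1 : ∀ᶠ x in 𝓝 (f z), HasDerivAt Φ (Φ' x) x) (h2 : HasDerivAt Φ' c2 (f z)) (ζ : Cn n) :
    levi (fun y => Φ (f y)) z ζ = Φ' (f z) * levi f z ζ + c2 * ‖dl f z ζ‖ ^ 2 := by
  rw [sq_dl]
  unfold levi
  rw [D2_comp_loc hf z h1 h2, D2_comp_loc hf z h1 h2]
  ring

lemma dl_comp_loc {Φ : ℝ → ℝ} {c1 : ℝ} {f : Cn n → ℝ} (hf : ContDiff ℝ ∞ f) (z : Cn n)
    (h1 : HasDerivAt Φ c1 (f z)) (ζ : Cn n) :
    dl (fun y => Φ (f y)) z ζ = c1 * dl f z ζ := by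
  have e1 : HasFDerivAt (fun y => Φ (f y)) (c1 • fderiv ℝ f z) z :=
    h1.comp_hasFDerivAt z (sm_diff hf z).hasFDerivAt
  unfold dl
  rw [e1.fderiv]
  simp only [smul_apply, smul_eq_mul]
  push_cast; ring

lemma dl_const_mul (c : ℝ) {f : Cn n → ℝ} (hf : ContDiff ℝ ∞ f) (z ζ : Cn n) :
    dl (fun y => c * f y) z ζ = c * dl f z ζ :=
  dl_comp_loc (Φ := fun x => c * x) hf z (by simpa using (hasDerivAt_id (f z)).const_mul c) ζ

/-! ### squared moduli of holomorphic functions -/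

lemma hol_sm {h : Cn n → ℂ} (hh : ContDiff ℂ ∞ h) : ContDiff ℝ ∞ h := hh.restrict_scalars ℝ

lemma nsq_sm {h : Cn n → ℂ} (hh : ContDiff ℂ ∞ h) : ContDiff ℝ ∞ (fun y => ‖h y‖ ^ 2) :=
  (hol_sm hh).norm_sq ℝ

lemma fderiv_nsq {h : Cn n → ℂ} (hh : ContDiff ℂ ∞ h) (z ζ : Cn n) :
    fderiv ℝ (fun y => ‖h y‖ ^ 2) z ζ = 2 * inner ℝ (h z) (fderiv ℂ h z ζ) := by
  have hd : HasFDerivAt h ((fderiv ℂ h z).restrictScalars ℝ) z :=
    ((hh.contDiffAt (x := z)).differentiableAt (by simp)).hasFDerivAt.restrictScalars ℝ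
  rw [hd.norm_sq.fderiv]
  simp
  ring

lemma D2_nsq {h : Cn n → ℂ} (hh : ContDiff ℂ ∞ h) (z ξ ζ : Cn n) :
    D2 (fun y => ‖h y‖ ^ 2) z ξ ζ = 2 * (inner ℝ (fderiv ℂ h z ξ) (fderiv ℂ h z ζ) +
      inner ℝ (h z) (fderiv ℂ (fderiv ℂ h) z ξ ζ)) := by
  have hd : HasFDerivAt h ((fderiv ℂ h z).restrictScalars ℝ) z :=
    ((hh.contDiffAt (x := z)).differentiableAt (by simp)).hasFDerivAt.restrictScalars ℝ
  have hd2 : HasFDerivAt (fderiv ℂ h) (fderiv ℂ (fderiv ℂ h) z) z :=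
    (((hh.fderiv_right (m := ∞) (by simp)).contDiffAt (x := z)).differentiableAt (by simp)).hasFDerivAt
  have hd3 : HasFDerivAt (fun y => fderiv ℂ h y ζ)
      (((ContinuousLinearMap.apply ℂ ℂ ζ).comp (fderiv ℂ (fderiv ℂ h) z)).restrictScalars ℝ) z :=
    ((ContinuousLinearMap.apply ℂ ℂ ζ).hasFDerivAt.comp z hd2).restrictScalars ℝ
  have hs : DifferentiableAt ℝ (fderiv ℝ (fun y => ‖h y‖ ^ 2)) z :=
    (((nsq_sm hh).fderiv_right (m := ∞) (by simp)).contDiffAt (x := z)).differentiableAt (by simp)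
  have e1 : D2 (fun y => ‖h y‖ ^ 2) z ξ ζ = fderiv ℝ (fun y => fderiv ℝ (fun y => ‖h y‖ ^ 2) y ζ) z ξ := by
    unfold D2
    have : HasFDerivAt (fun y => fderiv ℝ (fun y => ‖h y‖ ^ 2) y ζ)
        ((ContinuousLinearMap.apply ℝ ℝ ζ).comp (fderiv ℝ (fderiv ℝ (fun y => ‖h y‖ ^ 2)) z)) z :=
      (ContinuousLinearMap.apply ℝ ℝ ζ).hasFDerivAt.comp z hs.hasFDerivAt
    rw [this.fderiv]
    rfl
  rw [e1]
  have e2 : (fun y => fderiv ℝ (fun y => ‖h y‖ ^ 2) y ζ) = fun y => 2 * inner ℝ (h y) (fderiv ℂ h y ζ) := by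
    funext y; exact fderiv_nsq hh y ζ
  rw [e2]
  have e3 := ((hd.inner ℝ hd3).const_mul (2 : ℝ))
  rw [e3.fderiv]
  simp only [smul_apply, smul_eq_mul]
  simp
  ring

lemma levi_nsq {h : Cn n → ℂ} (hh : ContDiff ℂ ∞ h) (z ζ : Cn n) :
    levi (fun y => ‖h y‖ ^ 2) z ζ = ‖fderiv ℂ h z ζ‖ ^ 2 := by
  unfold levi
  rw [D2_nsq hh, D2_nsq hh]
  have e1 : fderiv ℂ (fderiv ℂ h) z (Complex.I • ζ) (Complex.I • ζ) = - fderiv ℂ (fderiv ℂ h) z ζ ζ := by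
    rw [map_smul, map_smul, smul_apply, smul_eq_mul, smul_eq_mul, ← mul_assoc, Complex.I_mul_I]
    ring
  rw [e1, map_smul, inner_neg_right]
  simp only [real_inner_self_eq_norm_sq, norm_smul, Complex.norm_I, one_mul]
  ring

lemma dl_nsq {h : Cn n → ℂ} (hh : ContDiff ℂ ∞ h) (z ζ : Cn n) :
    dl (fun y => ‖h y‖ ^ 2) z ζ = star (h z) * fderiv ℂ h z ζ := by
  unfold dl
  rw [fderiv_nsq hh, fderiv_nsq hh, map_smul]
  apply Complex.ext
  · simp [Complex.inner]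
    ring
  · simp [Complex.inner]
    ring

/-! ### logarithms -/

lemma levi_log {N : Cn n → ℝ} (hN : ContDiff ℝ ∞ N) (z ζ : Cn n) (hz : 0 < N z) :
    levi (fun y => Real.log (N y)) z ζ = levi N z ζ / N z - ‖dl N z ζ‖ ^ 2 / (N z) ^ 2 := by
  rw [levi_comp_loc (Φ := Real.log) (Φ' := fun x => x⁻¹) (c2 := -((N z) ^ 2)⁻¹) hN z
    (by filter_upwards [lt_mem_nhds hz] with x hx using Real.hasDerivAt_log hx.ne')
    (hasDerivAt_inv hz.ne')]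
  field_simp
  ring

lemma dl_log {N : Cn n → ℝ} (hN : ContDiff ℝ ∞ N) (z ζ : Cn n) (hz : 0 < N z) :
    dl (fun y => Real.log (N y)) z ζ = dl N z ζ / N z := by
  rw [dl_comp_loc (Φ := Real.log) hN z (Real.hasDerivAt_log hz.ne')]
  push_cast
  field_simp

/-- `log (1 + |h|²)` -/
lemma levi_log_one {h : Cn n → ℂ} (hh : ContDiff ℂ ∞ h) (z ζ : Cn n) :
    levi (fun y => Real.log (1 + ‖h y‖ ^ 2)) z ζ = ‖fderiv ℂ h z ζ‖ ^ 2 / (1 + ‖h z‖ ^ 2) ^ 2 := by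
  have hN : ContDiff ℝ ∞ (fun y => 1 + ‖h y‖ ^ 2) := contDiff_const.add (nsq_sm hh)
  have hp : 0 < 1 + ‖h z‖ ^ 2 := by positivity
  rw [levi_log hN z ζ hp, levi_add' contDiff_const (nsq_sm hh), dl_add contDiff_const (nsq_sm hh),
    levi_const, dl_const, levi_nsq hh, dl_nsq hh, zero_add, zero_add, norm_mul, norm_star]
  field_simp
  ring

lemma dl_log_one {h : Cn n → ℂ} (hh : ContDiff ℂ ∞ h) (z ζ : Cn n) :
    dl (fun y => Real.log (1 + ‖h y‖ ^ 2)) z ζ =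
      star (h z) * fderiv ℂ h z ζ / ((1 + ‖h z‖ ^ 2 : ℝ) : ℂ) := by
  have hN : ContDiff ℝ ∞ (fun y => 1 + ‖h y‖ ^ 2) := contDiff_const.add (nsq_sm hh)
  have hp : 0 < 1 + ‖h z‖ ^ 2 := by positivity
  rw [dl_log hN z ζ hp, dl_add contDiff_const (nsq_sm hh), dl_const, dl_nsq hh, zero_add]

lemma norm_dl_log_one {h : Cn n → ℂ} (hh : ContDiff ℂ ∞ h) (z ζ : Cn n) :
    ‖dl (fun y => Real.log (1 + ‖h y‖ ^ 2)) z ζ‖ ≤ ‖fderiv ℂ h z ζ‖ / 2 := by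
  rw [dl_log_one hh, norm_div, norm_mul, norm_star, Complex.norm_real, Real.norm_eq_abs,
    abs_of_pos (by positivity), div_le_div_iff₀ (by positivity) two_pos]
  nlinarith [norm_nonneg (fderiv ℂ h z ζ), sq_nonneg (‖h z‖ - 1)]

end Pool.Agent.H805K
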