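import Mathlib
import Pool.Agent.H805K.Calc

set_option autoImplicit false
set_option maxHeartbeats 1000000

open MeasureTheory Metric Set Filter Topology
open scoped ContDiff ComplexOrder

namespace Pool.Agent.H805K
open Pool.Agent.H805R2

variable {n : ℕ}

/-- the square of the distance to the curve, regularised -/
noncomputable def Nf (ε : ℝ) (p q : Cn n → ℂ) (z : Cn n) : ℝ := ‖p z‖ ^ 2 + (‖q z‖ ^ 2 + ε ^ 2)

lemma Nf_sm (ε : ℝ) {p q : Cn n → ℂ} (hp : ContDiff ℂ ∞ p) (hq : ContDiff ℂ ∞ q) :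
    ContDiff ℝ ∞ (Nf ε p q) := (nsq_sm hp).add ((nsq_sm hq).add contDiff_const)

lemma Nf_pos {ε : ℝ} (hε : 0 < ε) (p q : Cn n → ℂ) (z : Cn n) : 0 < Nf ε p q z := by
  unfold Nf
  positivity

lemma Nf_levi (ε : ℝ) {p q : Cn n → ℂ} (hp : ContDiff ℂ ∞ p) (hq : ContDiff ℂ ∞ q) (z ζ : Cn n) :
    levi (Nf ε p q) z ζ = ‖fderiv ℂ p z ζ‖ ^ 2 + ‖fderiv ℂ q z ζ‖ ^ 2 := by
  unfold Nf
  rw [levi_add' (nsq_sm hp) ((nsq_sm hq).add contDiff_const), levi_add' (nsq_sm hq) contDiff_const,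
    levi_const, levi_nsq hp, levi_nsq hq, add_zero]

lemma Nf_dl (ε : ℝ) {p q : Cn n → ℂ} (hp : ContDiff ℂ ∞ p) (hq : ContDiff ℂ ∞ q) (z ζ : Cn n) :
    dl (Nf ε p q) z ζ = star (p z) * fderiv ℂ p z ζ + star (q z) * fderiv ℂ q z ζ := by
  unfold Nf
  rw [dl_add (nsq_sm hp) ((nsq_sm hq).add contDiff_const), dl_add (nsq_sm hq) contDiff_const,
    dl_const, dl_nsq hp, dl_nsq hq, add_zero]

lemma cs_two (a b x y : ℂ) : ‖star a * x + star b * y‖ ^ 2 ≤ (‖a‖ ^ 2 + ‖b‖ ^ 2) * (‖x‖ ^ 2 + ‖y‖ ^ 2) := by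
  have h1 : ‖star a * x + star b * y‖ ≤ ‖a‖ * ‖x‖ + ‖b‖ * ‖y‖ := by
    refine (norm_add_le _ _).trans ?_
    rw [norm_mul, norm_mul, norm_star, norm_star]
  have h2 : ‖star a * x + star b * y‖ ^ 2 ≤ (‖a‖ * ‖x‖ + ‖b‖ * ‖y‖) ^ 2 :=
    pow_le_pow_left₀ (norm_nonneg _) h1 2
  nlinarith [sq_nonneg (‖a‖ * ‖y‖ - ‖b‖ * ‖x‖)]

lemma Nf_dl_sq (ε : ℝ) {p q : Cn n → ℂ} (hp : ContDiff ℂ ∞ p) (hq : ContDiff ℂ ∞ q) (z ζ : Cn n) :
    ‖dl (Nf ε p q) z ζ‖ ^ 2 ≤ Nf ε p q z * (‖fderiv ℂ p z ζ‖ ^ 2 + ‖fderiv ℂ q z ζ‖ ^ 2) := by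
  rw [Nf_dl ε hp hq]
  refine (cs_two _ _ _ _).trans ?_
  apply mul_le_mul_of_nonneg_right _ (by positivity)
  unfold Nf
  nlinarith [sq_nonneg ε]

/-- `½ log (|p|² + |q|² + ε²)` -/
noncomputable def lf (ε : ℝ) (p q : Cn n → ℂ) (z : Cn n) : ℝ := (1 / 2) * Real.log (Nf ε p q z)

lemma lf_sm {ε : ℝ} (hε : 0 < ε) {p q : Cn n → ℂ} (hp : ContDiff ℂ ∞ p) (hq : ContDiff ℂ ∞ q) :
    ContDiff ℝ ∞ (lf ε p q) :=
  contDiff_const.mul ((Nf_sm ε hp hq).log fun z => (Nf_pos hε p q z).ne')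

lemma logNf_sm {ε : ℝ} (hε : 0 < ε) {p q : Cn n → ℂ} (hp : ContDiff ℂ ∞ p) (hq : ContDiff ℂ ∞ q) :
    ContDiff ℝ ∞ (fun z => Real.log (Nf ε p q z)) :=
  (Nf_sm ε hp hq).log fun z => (Nf_pos hε p q z).ne'

lemma lf_levi {ε : ℝ} (hε : 0 < ε) {p q : Cn n → ℂ} (hp : ContDiff ℂ ∞ p) (hq : ContDiff ℂ ∞ q)
    (z ζ : Cn n) : levi (lf ε p q) z ζ = (1 / 2) * ((‖fderiv ℂ p z ζ‖ ^ 2 + ‖fderiv ℂ q z ζ‖ ^ 2) / Nf ε p q z -
      ‖dl (Nf ε p q) z ζ‖ ^ 2 / (Nf ε p q z) ^ 2) := by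
  unfold lf
  rw [levi_const_mul' _ (logNf_sm hε hp hq), levi_log (Nf_sm ε hp hq) z ζ (Nf_pos hε p q z),
    Nf_levi ε hp hq]

lemma lf_dl_sq {ε : ℝ} (hε : 0 < ε) {p q : Cn n → ℂ} (hp : ContDiff ℂ ∞ p) (hq : ContDiff ℂ ∞ q)
    (z ζ : Cn n) : ‖dl (lf ε p q) z ζ‖ ^ 2 = (1 / 4) * (‖dl (Nf ε p q) z ζ‖ ^ 2 / (Nf ε p q z) ^ 2) := by
  unfold lf
  rw [dl_const_mul _ (logNf_sm hε hp hq), dl_log (Nf_sm ε hp hq) z ζ (Nf_pos hε p q z), norm_mul, norm_div,
    Complex.norm_real, Complex.norm_real, Real.norm_eq_abs, Real.norm_eq_abs,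
    abs_of_pos (Nf_pos hε p q z)]
  rw [mul_pow, div_pow]
  norm_num

/-- the profile of `b` -/
noncomputable def Gb (Γ C t : ℝ) (x : ℝ) : ℝ := -(Real.log (1 + sm (C - x) / t)) / Γ

lemma Gb_sm {Γ C t : ℝ} (ht : 0 < t) : ContDiff ℝ ∞ (Gb Γ C t) := by
  unfold Gb
  apply ContDiff.div_const
  apply ContDiff.neg
  apply ContDiff.log
  · exact contDiff_const.add ((sm_smooth.comp (contDiff_const.sub contDiff_id)).div_const t)
  · intro x
    have := sm_nonneg (C - x)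
    positivity

/-- existence of the function `b` -/
theorem exists_b {p q : Cn n → ℂ} (hp : ContDiff ℂ ∞ p) (hq : ContDiff ℂ ∞ q) {β Γ : ℝ} (hβ : 0 < β)
    (hΓ : 0 < Γ) {e r Λ : ℝ} (he : 0 < e) (hr : 0 < r) :
    ∃ (b : Cn n → ℝ) (r1 : ℝ), 0 < r1 ∧ r1 ≤ r ∧ ContDiff ℝ ∞ b ∧ (∀ z, -β ≤ b z) ∧ (∀ z, b z ≤ 0) ∧
      (∀ z, r1 ^ 2 ≤ ‖p z‖ ^ 2 + ‖q z‖ ^ 2 → -e ≤ b z) ∧
      (∀ z ∈ ball (0 : Cn n) 3, ∀ ζ, Γ * ‖dl b z ζ‖ ^ 2 ≤ levi b z ζ) ∧
      (∀ z ∈ ball (0 : Cn n) 3, ‖p z‖ ^ 2 + ‖q z‖ ^ 2 ≤ r1 ^ 2 → ∀ ζ,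
        Λ * (‖fderiv ℂ p z ζ‖ ^ 2 + ‖fderiv ℂ q z ζ‖ ^ 2) ≤ levi b z ζ) ∧
      (∀ z, p z = 0 → q z = 0 → b z = -β) ∧
      (∀ z ∈ ball (0 : Cn n) 3, ∀ ζ, fderiv ℂ p z ζ = 0 → fderiv ℂ q z ζ = 0 → levi b z ζ = 0) := by
  -- the bound `Q`
  obtain ⟨Q, hQ1, hQ⟩ : ∃ Q : ℝ, 1 ≤ Q ∧ ∀ z ∈ closedBall (0 : Cn n) 3, ‖p z‖ ^ 2 + (‖q z‖ ^ 2 + 1) ≤ Q := by
    have hc : ContinuousOn (fun z => ‖p z‖ ^ 2 + (‖q z‖ ^ 2 + 1)) (closedBall (0 : Cn n) 3) := by
      apply Continuous.continuousOn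
      have := hp.continuous
      have := hq.continuous
      fun_prop
    obtain ⟨x, hx, hmax⟩ := (isCompact_closedBall (0 : Cn n) 3).exists_isMaxOn
      ⟨0, mem_closedBall_self (by norm_num)⟩ hc
    refine ⟨‖p x‖ ^ 2 + (‖q x‖ ^ 2 + 1), ?_, fun z hz => hmax hz⟩
    have h1 : 0 ≤ ‖p x‖ ^ 2 := by positivity
    have h2 : 0 ≤ ‖q x‖ ^ 2 := by positivity
    linarith
  set C : ℝ := 2 + 1 / 2 * Real.log Q with hC
  have hlogQ : 0 ≤ Real.log Q := Real.log_nonneg hQ1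
  set a : ℝ := Real.exp (Γ * β) - 1 with ha
  have ha0 : 0 < a := by
    rw [ha]
    have := Real.add_one_lt_exp (by positivity : Γ * β ≠ 0)
    have : 0 < Γ * β := by positivity
    linarith
  -- choice of `t`
  have hlog : Tendsto (fun t : ℝ => Real.log t / t) atTop (𝓝 0) := by
    simpa using Real.tendsto_pow_log_div_mul_add_atTop 1 0 1 one_ne_zero
  have hinv : Tendsto (fun t : ℝ => t⁻¹) atTop (𝓝 0) := tendsto_inv_atTop_zero
  have ev1 : ∀ᶠ t : ℝ in atTop, 1 ≤ t := eventually_ge_atTop 1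
  have ev2 : ∀ᶠ t : ℝ in atTop, C - c0 - t * a ≤ -(2 * Real.log t) := by
    have h1 : Tendsto (fun t : ℝ => (C - c0) * t⁻¹ + 2 * (Real.log t / t)) atTop (𝓝 ((C - c0) * 0 + 2 * 0)) :=
      (hinv.const_mul _).add (hlog.const_mul _)
    rw [mul_zero, mul_zero, add_zero] at h1
    filter_upwards [h1.eventually (gt_mem_nhds ha0), eventually_gt_atTop 0] with t ht ht0
    have h2 : ((C - c0) * t⁻¹ + 2 * (Real.log t / t)) * t < a * t := mul_lt_mul_of_pos_right ht ht0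
    have h3 : ((C - c0) * t⁻¹ + 2 * (Real.log t / t)) * t = C - c0 + 2 * Real.log t := by
      field_simp
    linarith
  have ev3 : ∀ᶠ t : ℝ in atTop, (t ^ 2)⁻¹ ≤ r := by
    have h1 : Tendsto (fun t : ℝ => (t ^ 2)⁻¹) atTop (𝓝 0) :=
      (tendsto_pow_atTop (two_ne_zero)).inv_tendsto_atTop
    filter_upwards [h1.eventually (gt_mem_nhds hr)] with t ht using ht.le
  have ev4 : ∀ᶠ t : ℝ in atTop, (C + 2 * Real.log t) / t ≤ e * Γ := by
    have h1 : Tendsto (fun t : ℝ => C * t⁻¹ + 2 * (Real.log t / t)) atTop (𝓝 (C * 0 + 2 * 0)) :=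
      (hinv.const_mul _).add (hlog.const_mul _)
    rw [mul_zero, mul_zero, add_zero] at h1
    filter_upwards [h1.eventually (gt_mem_nhds (mul_pos he hΓ)), eventually_gt_atTop 0] with t ht ht0
    have h3 : (C + 2 * Real.log t) / t = C * t⁻¹ + 2 * (Real.log t / t) := by
      field_simp
    rw [h3]
    exact ht.le
  have ev5 : ∀ᶠ t : ℝ in atTop, Λ ≤ t ^ 2 / (8 * Γ * (a + 1) ^ 2) := by
    have h1 : Tendsto (fun t : ℝ => t ^ 2 / (8 * Γ * (a + 1) ^ 2)) atTop atTop :=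
      (tendsto_pow_atTop (two_ne_zero)).atTop_div_const (by positivity)
    exact h1.eventually_ge_atTop Λ
  obtain ⟨t, ht1, ht2, ht3, ht4, ht5⟩ := (ev1.and (ev2.and (ev3.and (ev4.and ev5)))).exists
  have ht0 : 0 < t := by linarith
  have hlogt : 0 ≤ Real.log t := Real.log_nonneg ht1
  have hc0 := c0_nonneg
  have hc1 := c0_le_one
  -- `ε`
  set ε : ℝ := Real.exp (C - c0 - t * a) with hε
  have hε0 : 0 < ε := Real.exp_pos _
  have hεle : ε ≤ (t ^ 2)⁻¹ := by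
    rw [hε, ← Real.exp_log (by positivity : 0 < (t ^ 2)⁻¹), Real.exp_le_exp, Real.log_inv, Real.log_pow]
    push_cast
    exact ht2
  have ht2inv : (t ^ 2)⁻¹ ≤ 1 := inv_le_one_of_one_le₀ (one_le_pow₀ ht1)
  have hε1 : ε ≤ 1 := hεle.trans ht2inv
  have hlogε : Real.log ε = C - c0 - t * a := by rw [hε, Real.log_exp]
  have hε2 : ε ^ 2 ≤ ((t ^ 2)⁻¹) ^ 2 := pow_le_pow_left₀ hε0.le hεle 2
  have hlf_ge : ∀ z, Real.log ε ≤ lf ε p q z := by
    intro z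
    unfold lf
    have h1 : Real.log (ε ^ 2) ≤ Real.log (Nf ε p q z) := by
      apply Real.log_le_log (by positivity)
      unfold Nf
      have h1 : 0 ≤ ‖p z‖ ^ 2 := by positivity
      have h2 : 0 ≤ ‖q z‖ ^ 2 := by positivity
      linarith
    rw [Real.log_pow] at h1
    push_cast at h1
    linarith
  have hlf_le : ∀ z ∈ ball (0 : Cn n) 3, lf ε p q z ≤ C - 2 := by
    intro z hz
    unfold lf
    have h1 : Real.log (Nf ε p q z) ≤ Real.log Q := by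
      apply Real.log_le_log (Nf_pos hε0 p q z)
      have h2 := hQ z (ball_subset_closedBall hz)
      unfold Nf
      have h3 : ε ^ 2 ≤ 1 := pow_le_one₀ hε0.le hε1
      linarith
    rw [hC]
    linarith
  -- `D = t + C - c0 - ℓ`
  have hDle : ∀ z, t + C - c0 - lf ε p q z ≤ t * (a + 1) := by
    intro z
    have := hlf_ge z
    rw [hlogε] at this
    linarith
  have hDge : ∀ z ∈ ball (0 : Cn n) 3, 1 ≤ t + C - c0 - lf ε p q z := by
    intro z hz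
    have := hlf_le z hz
    linarith
  have hlfs := lf_sm hε0 hp hq
  have hloc : ∀ z ∈ ball (0 : Cn n) 3, ∀ᶠ x in 𝓝 (lf ε p q z),
      HasDerivAt (Gb Γ C t) (1 / (Γ * (t + C - c0 - x))) x := by
    intro z hz
    have h1 : ∀ᶠ x in 𝓝 (lf ε p q z), x < C - 1 :=
      gt_mem_nhds (by have := hlf_le z hz; linarith)
    filter_upwards [h1] with x hx
    have hpos : 0 < t + C - c0 - x := by linarith
    have h2 : HasDerivAt (fun x : ℝ => -(Real.log (1 + (C - x - c0) / t)) / Γ)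
        (1 / (Γ * (t + C - c0 - x))) x := by
      have h3 : HasDerivAt (fun x : ℝ => 1 + (C - x - c0) / t) (-1 / t) x := by
        have := (((hasDerivAt_id x).const_sub C).sub_const c0).div_const t
        simpa using this.const_add 1
      have hne : 1 + (C - x - c0) / t ≠ 0 := by
        have : 1 + (C - x - c0) / t = (t + C - c0 - x) / t := by field_simp; ring
        rw [this]
        positivity
      have h4 := ((h3.log hne).neg).div_const Γ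
      refine h4.congr_deriv ?_
      have : 1 + (C - x - c0) / t = (t + C - c0 - x) / t := by field_simp; ring
      rw [this]
      field_simp
    refine h2.congr_of_eventuallyEq ?_
    filter_upwards [gt_mem_nhds hx] with y hy
    unfold Gb
    rw [sm_of_one_le (by linarith)]
  have hloc2 : ∀ z ∈ ball (0 : Cn n) 3, HasDerivAt (fun x => 1 / (Γ * (t + C - c0 - x)))
      (1 / (Γ * (t + C - c0 - lf ε p q z) ^ 2)) (lf ε p q z) := by
    intro z hz
    have hpos : 0 < t + C - c0 - lf ε p q z := by linarith [hDge z hz]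
    have h3 : HasDerivAt (fun x : ℝ => Γ * (t + C - c0 - x)) (-Γ) (lf ε p q z) := by
      have := ((hasDerivAt_id (lf ε p q z)).const_sub (t + C - c0)).const_mul Γ
      simpa using this
    have h4 := h3.inv (by positivity)
    simp only [one_div]
    refine h4.congr_deriv ?_
    field_simp
  set b : Cn n → ℝ := fun z => Gb Γ C t (lf ε p q z) with hb
  have hbsm : ContDiff ℝ ∞ b := (Gb_sm ht0).comp hlfs
  -- formulas
  have hlevi : ∀ z ∈ ball (0 : Cn n) 3, ∀ ζ, levi b z ζ =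
      1 / (Γ * (t + C - c0 - lf ε p q z)) * levi (lf ε p q) z ζ +
      1 / (Γ * (t + C - c0 - lf ε p q z) ^ 2) * ‖dl (lf ε p q) z ζ‖ ^ 2 := fun z hz ζ =>
    levi_comp_loc hlfs z (hloc z hz) (hloc2 z hz) ζ
  have hdl : ∀ z ∈ ball (0 : Cn n) 3, ∀ ζ, ‖dl b z ζ‖ ^ 2 =
      1 / (Γ * (t + C - c0 - lf ε p q z)) ^ 2 * ‖dl (lf ε p q) z ζ‖ ^ 2 := by
    intro z hz ζ
    have h1 := dl_comp_loc hlfs z (hloc z hz).self_of_nhds ζ
    rw [hb, h1, norm_mul, Complex.norm_real, Real.norm_eq_abs, mul_pow, sq_abs]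
    congr 1
    rw [div_pow, one_pow]
  have hlf_levi_nonneg : ∀ z ζ, 0 ≤ levi (lf ε p q) z ζ := by
    intro z ζ
    rw [lf_levi hε0 hp hq]
    have h1 := Nf_dl_sq ε hp hq z ζ
    have h2 := Nf_pos hε0 p q z
    have h3 : ‖dl (Nf ε p q) z ζ‖ ^ 2 / (Nf ε p q z) ^ 2 ≤
        (‖fderiv ℂ p z ζ‖ ^ 2 + ‖fderiv ℂ q z ζ‖ ^ 2) / Nf ε p q z := by
      rw [div_le_div_iff₀ (by positivity) h2]
      nlinarith
    linarith
  refine ⟨b, (t ^ 2)⁻¹, by positivity, ht3, hbsm, ?_, ?_, ?_, ?_, ?_, ?_, ?_⟩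
  · -- lower bound
    intro z
    have h1 : sm (C - lf ε p q z) ≤ sm (C - Real.log ε) := sm_mono (by linarith [hlf_ge z])
    have h2 : sm (C - Real.log ε) = t * a := by
      rw [sm_of_one_le, hlogε]
      · ring
      · have : Real.log ε ≤ 0 := Real.log_nonpos hε0.le hε1
        linarith
    have h3 : Real.log (1 + sm (C - lf ε p q z) / t) ≤ Γ * β := by
      rw [← Real.log_exp (Γ * β)]
      have h0 := sm_nonneg (C - lf ε p q z)
      apply Real.log_le_log (by positivity)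
      have h4 : sm (C - lf ε p q z) / t ≤ a := by
        rw [div_le_iff₀ ht0]
        linarith
      linarith
    change -β ≤ -(Real.log (1 + sm (C - lf ε p q z) / t)) / Γ
    rw [le_div_iff₀ hΓ]
    linarith
  · intro z
    change -(Real.log (1 + sm (C - lf ε p q z) / t)) / Γ ≤ 0
    have h0 := sm_nonneg (C - lf ε p q z)
    have : 0 ≤ Real.log (1 + sm (C - lf ε p q z) / t) := by
      apply Real.log_nonneg
      have : 0 ≤ sm (C - lf ε p q z) / t := by positivity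
      linarith
    apply div_nonpos_of_nonpos_of_nonneg (by linarith) hΓ.le
  · intro z hz
    have h1 : -(2 * Real.log t) ≤ lf ε p q z := by
      unfold lf
      have h2 : Real.log (((t ^ 2)⁻¹) ^ 2) ≤ Real.log (Nf ε p q z) := by
        apply Real.log_le_log (by positivity)
        unfold Nf
        have : 0 ≤ ε ^ 2 := by positivity
        linarith
      rw [Real.log_pow, Real.log_inv, Real.log_pow] at h2
      push_cast at h2
      linarith
    have h2 : sm (C - lf ε p q z) ≤ C + 2 * Real.log t := by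
      refine (sm_le_max _).trans (max_le (by linarith) ?_)
      rw [hC]
      linarith
    change -e ≤ -(Real.log (1 + sm (C - lf ε p q z) / t)) / Γ
    rw [le_div_iff₀ hΓ]
    have h0 := sm_nonneg (C - lf ε p q z)
    have h3 : Real.log (1 + sm (C - lf ε p q z) / t) ≤ sm (C - lf ε p q z) / t := by
      have := Real.log_le_sub_one_of_pos (by positivity : 0 < 1 + sm (C - lf ε p q z) / t)
      linarith
    have h4 : sm (C - lf ε p q z) / t ≤ (C + 2 * Real.log t) / t :=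
      div_le_div_of_nonneg_right h2 ht0.le
    linarith
  · intro z hz ζ
    rw [hlevi z hz, hdl z hz]
    have hD := hDge z hz
    have h1 := hlf_levi_nonneg z ζ
    have h2 : 0 ≤ 1 / (Γ * (t + C - c0 - lf ε p q z)) * levi (lf ε p q) z ζ := by positivity
    have h3 : Γ * (1 / (Γ * (t + C - c0 - lf ε p q z)) ^ 2 * ‖dl (lf ε p q) z ζ‖ ^ 2) =
        1 / (Γ * (t + C - c0 - lf ε p q z) ^ 2) * ‖dl (lf ε p q) z ζ‖ ^ 2 := by
      field_simp
    rw [h3]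
    linarith
  · intro z hz hz2 ζ
    rw [hlevi z hz, lf_dl_sq hε0 hp hq]
    set D := t + C - c0 - lf ε p q z with hD
    have hD1 : 1 ≤ D := hDge z hz
    have hD2 : D ≤ t * (a + 1) := hDle z
    set X := ‖fderiv ℂ p z ζ‖ ^ 2 + ‖fderiv ℂ q z ζ‖ ^ 2 with hX
    have hX0 : 0 ≤ X := by positivity
    have hN0 := Nf_pos hε0 p q z
    have hNle : Nf ε p q z ≤ 2 * ((t ^ 2)⁻¹) ^ 2 := by
      unfold Nf
      linarith
    set Nz := Nf ε p q z with hNz
    set Y := ‖dl (Nf ε p q) z ζ‖ ^ 2 with hY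
    have hY1 : Y ≤ Nz * X := Nf_dl_sq ε hp hq z ζ
    have hL := hlf_levi_nonneg z ζ
    have hLe := lf_levi hε0 hp hq z ζ
    have h1 : 1 / (Γ * D ^ 2) * levi (lf ε p q) z ζ ≤ 1 / (Γ * D) * levi (lf ε p q) z ζ := by
      apply mul_le_mul_of_nonneg_right _ hL
      apply one_div_le_one_div_of_le (by positivity)
      have : D ≤ D ^ 2 := by nlinarith
      exact mul_le_mul_of_nonneg_left this hΓ.le
    have h2 : X / (4 * Nz) ≤ levi (lf ε p q) z ζ + 1 / 4 * (Y / Nz ^ 2) := by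
      rw [hLe]
      have h3 : Y / Nz ^ 2 ≤ X / Nz := by
        rw [div_le_div_iff₀ (by positivity) hN0]
        nlinarith
      have h4 : X / (4 * Nz) = 1 / 4 * (X / Nz) := by field_simp
      rw [h4]
      linarith
    have h5 : Λ * X ≤ 1 / (Γ * D ^ 2) * (X / (4 * Nz)) := by
      have h6 : Λ ≤ 1 / (Γ * D ^ 2) * (1 / (4 * Nz)) := by
        refine ht5.trans ?_
        rw [← mul_one_div, one_div_mul_one_div]
        have h7 : Γ * D ^ 2 * (4 * Nz) ≤ 8 * Γ * (a + 1) ^ 2 * (t ^ 2)⁻¹ := by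
          calc Γ * D ^ 2 * (4 * Nz) ≤ Γ * (t * (a + 1)) ^ 2 * (4 * (2 * ((t ^ 2)⁻¹) ^ 2)) := by
                gcongr
            _ = 8 * Γ * (a + 1) ^ 2 * (t ^ 2)⁻¹ := by
                field_simp
                ring
        calc t ^ 2 * (1 / (8 * Γ * (a + 1) ^ 2)) = 1 / (8 * Γ * (a + 1) ^ 2 * (t ^ 2)⁻¹) := by
              field_simp
          _ ≤ 1 / (Γ * D ^ 2 * (4 * Nz)) := by
              apply one_div_le_one_div_of_le (by positivity) h7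
      calc Λ * X ≤ (1 / (Γ * D ^ 2) * (1 / (4 * Nz))) * X := mul_le_mul_of_nonneg_right h6 hX0
        _ = _ := by field_simp
    have h8 : 1 / (Γ * D ^ 2) * (X / (4 * Nz)) ≤
        1 / (Γ * D ^ 2) * (levi (lf ε p q) z ζ + 1 / 4 * (Y / Nz ^ 2)) :=
      mul_le_mul_of_nonneg_left h2 (by positivity)
    rw [mul_add] at h8
    linarith
  · intro z hz1 hz2
    have h1 : lf ε p q z = Real.log ε := by
      unfold lf Nf
      rw [hz1, hz2, norm_zero]
      have : (0 : ℝ) ^ 2 + (0 ^ 2 + ε ^ 2) = ε ^ 2 := by ring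
      rw [this, Real.log_pow]
      push_cast
      ring
    have h2 : sm (C - Real.log ε) = t * a := by
      rw [sm_of_one_le, hlogε]
      · ring
      · have : Real.log ε ≤ 0 := Real.log_nonpos hε0.le hε1
        linarith
    change -(Real.log (1 + sm (C - lf ε p q z) / t)) / Γ = -β
    rw [h1, h2, mul_div_cancel_left₀ _ ht0.ne', ha]
    have : 1 + (Real.exp (Γ * β) - 1) = Real.exp (Γ * β) := by ring
    rw [this, Real.log_exp]
    field_simp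
  · intro z hz ζ h1 h2
    rw [hlevi z hz, lf_dl_sq hε0 hp hq, lf_levi hε0 hp hq, Nf_dl ε hp hq, h1, h2]
    simp

end Pool.Agent.H805K
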