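import Mathlib

set_option autoImplicit false

namespace Pool.Agent.H805K

/-- the exponents `N 16^j` -/
def nn (N j : ℕ) : ℕ := N * 16 ^ j

/-- the even part of the lacunary curve -/
noncomputable def fe (K N : ℕ) (R : ℝ) (w : ℂ) : ℂ :=
  ((Real.sqrt K : ℝ) : ℂ)⁻¹ * ∑ j ∈ (Finset.range K).filter (fun j => Even j), (w / (R : ℂ)) ^ nn N j

/-- the odd part of the lacunary curve -/
noncomputable def fo (K N : ℕ) (R : ℝ) (w : ℂ) : ℂ :=
  ((Real.sqrt K : ℝ) : ℂ)⁻¹ * ∑ j ∈ (Finset.range K).filter (fun j => ¬ Even j), (w / (R : ℂ)) ^ nn N j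

end Pool.Agent.H805K
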