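import Mathlib
import Pool.Agent.H805K.Base

/-! Disproof of the continuous subsolution problem (MP_529c98_an), task E: lacunary sums. -/

set_option autoImplicit false
set_option maxHeartbeats 1000000

open Finset

namespace Pool.Agent.H805K

theorem lacE_low (b : ℕ → ℝ) (J : ℕ) (h : ∀ i, i < J → b i ≤ b (i + 1) / 8) (h0 : 0 ≤ b 0) :
    ∑ i ∈ range (J + 1), b i ≤ 8 / 7 * b J := by
  induction J with
  | zero => simp; linarith
  | succ J ih =>
    rw [Finset.sum_range_succ]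
    have h1 := ih (fun i hi => h i (by omega))
    have h2 := h J (by omega)
    linarith

theorem lacE_up (b : ℕ → ℝ) (hb : ∀ i, 0 ≤ b i) (m : ℕ) : ∀ J, (∀ i, J ≤ i → b (i + 1) ≤ b i / 8) →
    ∑ i ∈ range m, b (J + i) ≤ 8 / 7 * b J := by
  induction m with
  | zero => intro J _; have := hb J; simp; linarith
  | succ m ih =>
    intro J h
    rw [Finset.sum_range_succ']
    have h1 := ih (J + 1) (fun i hi => h i (by omega))
    have h2 := h J le_rfl
    have h3 : ∑ i ∈ range m, b (J + (i + 1)) = ∑ i ∈ range m, b (J + 1 + i) :=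
      Finset.sum_congr rfl fun i _ => by congr 1; omega
    rw [h3]
    simp only [add_zero]
    linarith

theorem lacE_Ico (b : ℕ → ℝ) (hb : ∀ i, 0 ≤ b i) (J K : ℕ)
    (h : J < K → ∀ i, J ≤ i → b (i + 1) ≤ b i / 8) :
    ∑ i ∈ Ico J K, b i ≤ 8 / 7 * b J := by
  rcases lt_or_ge J K with hJ | hJ
  · rw [Finset.sum_Ico_eq_sum_range]
    exact lacE_up b hb _ J (h hJ)
  · rw [Finset.Ico_eq_empty (by omega)]
    have := hb J
    simp
    linarith

/-- unimodal lacunary sequences -/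
structure Lac (b : ℕ → ℝ) : Prop where
  nonneg : ∀ i, 0 ≤ b i
  up : ∀ j, b (j + 1) ≤ b j → b (j + 2) ≤ b (j + 1) / 8
  low : ∀ j, b (j + 1) ≤ b (j + 2) → b j ≤ b (j + 1) / 8

theorem Lac.mono_low {b : ℕ → ℝ} (hb : Lac b) {J : ℕ} (h : ∀ i, i + 1 = J → b i ≤ b J) :
    ∀ d i, i + 1 + d = J → b i ≤ b (i + 1) := by
  intro d
  induction d with
  | zero => intro i hi; have e : i + 1 = J := by omega
            rw [e]; exact h i e
  | succ d ih =>
    intro i hi
    have h1 := ih (i + 1) (by omega)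
    have h2 := hb.low i h1
    have h3 := hb.nonneg (i + 1)
    linarith

theorem Lac.low8 {b : ℕ → ℝ} (hb : Lac b) {J : ℕ} (h : ∀ i, i + 1 = J → b i ≤ b J) (i : ℕ)
    (hi : i + 2 ≤ J) : b i ≤ b (i + 1) / 8 :=
  hb.low i (hb.mono_low h (J - (i + 2)) (i + 1) (by omega))

theorem Lac.mono_up {b : ℕ → ℝ} (hb : Lac b) {J : ℕ} (h : b (J + 1) ≤ b J) :
    ∀ i, J ≤ i → b (i + 1) ≤ b i := by
  intro i hi
  induction i, hi using Nat.le_induction with
  | base => exact h
  | succ i _ ih =>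
    have h1 := hb.up i ih
    have h2 := hb.nonneg (i + 1)
    have e : i + 1 + 1 = i + 2 := rfl
    rw [e]
    linarith

theorem Lac.up8 {b : ℕ → ℝ} (hb : Lac b) {J : ℕ} (h : b (J + 1) ≤ b J) (i : ℕ) (hi : J + 1 ≤ i) :
    b (i + 1) ≤ b i / 8 := by
  obtain ⟨k, rfl⟩ : ∃ k, i = k + 1 := ⟨i - 1, by omega⟩
  exact hb.up k (hb.mono_up h k (by omega))

section
variable {b : ℕ → ℝ} (hb : Lac b) {J K : ℕ} (hJ : J < K) (hmax : ∀ i, i < K → b i ≤ b J)
include hb hJ hmax

theorem Lac.s1 : ∑ i ∈ range J, b i ≤ 8 / 7 * b J := by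
  have h : ∀ i, i + 1 = J → b i ≤ b J := fun i hi => hmax i (by omega)
  rcases Nat.eq_zero_or_pos J with rfl | hJ0
  · have := hb.nonneg 0
    simp
    linarith
  · obtain ⟨m, rfl⟩ : ∃ m, J = m + 1 := ⟨J - 1, by omega⟩
    have h1 := lacE_low b m (fun i hi => hb.low8 h i (by omega)) (hb.nonneg 0)
    have h2 := h m rfl
    linarith

theorem Lac.s1' : ∑ i ∈ range (J - 1), b i ≤ 1 / 7 * b J := by
  have h : ∀ i, i + 1 = J → b i ≤ b J := fun i hi => hmax i (by omega)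
  have h0 := hb.nonneg J
  rcases lt_or_ge J 2 with hJ2 | hJ2
  · have : J - 1 = 0 := by omega
    rw [this]
    simp
    linarith
  · obtain ⟨m, rfl⟩ : ∃ m, J = m + 2 := ⟨J - 2, by omega⟩
    have e : m + 2 - 1 = m + 1 := by omega
    rw [e]
    have h1 := lacE_low b m (fun i hi => hb.low8 h i (by omega)) (hb.nonneg 0)
    have h2 := hb.low8 h m (by omega)
    have h3 := h (m + 1) rfl
    linarith

theorem Lac.s2 : ∑ i ∈ Ico (J + 1) K, b i ≤ 8 / 7 * b J := by
  have h0 := hb.nonneg J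
  rcases lt_or_ge (J + 1) K with hJ1 | hJ1
  · have h1 := hmax (J + 1) hJ1
    have h2 := lacE_Ico b hb.nonneg (J + 1) K (fun _ i hi => hb.up8 h1 i hi)
    linarith
  · rw [Finset.Ico_eq_empty (by omega)]
    simp
    linarith

theorem Lac.s2' : ∑ i ∈ Ico (J + 2) K, b i ≤ 1 / 7 * b J := by
  have h0 := hb.nonneg J
  rcases lt_or_ge (J + 1) K with hJ1 | hJ1
  · have h1 := hmax (J + 1) hJ1
    have h2 := lacE_Ico b hb.nonneg (J + 2) K (fun _ i hi => hb.up8 h1 i (by omega))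
    have h3 := hb.up8 h1 (J + 1) le_rfl
    have e : J + 1 + 1 = J + 2 := rfl
    rw [e] at h3
    linarith
  · rw [Finset.Ico_eq_empty (by omega)]
    simp
    linarith

theorem Lac.sum_le : ∑ i ∈ range K, b i ≤ 23 / 7 * b J := by
  have h1 := hb.s1 hJ hmax
  have h2 := hb.s2 hJ hmax
  have h3 : ∑ i ∈ range K, b i = ∑ i ∈ range J, b i + b J + ∑ i ∈ Ico (J + 1) K, b i := by
    rw [← Finset.sum_range_succ, Finset.sum_range_add_sum_Ico _ (by omega)]
  rw [h3]
  linarith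

end

theorem lacE_fac (N : ℕ) (hN : 2 ≤ N) (r : ℝ) (j : ℕ) :
    (nn N (j + 1) : ℝ) * r ^ (nn N (j + 1) - 1) =
      16 * r ^ (15 * nn N j) * ((nn N j : ℝ) * r ^ (nn N j - 1)) := by
  have h0 : 0 < nn N j := by unfold nn; positivity
  have h1 : nn N (j + 1) = 16 * nn N j := by unfold nn; ring
  have h2 : nn N (j + 1) - 1 = 15 * nn N j + (nn N j - 1) := by omega
  rw [h2, pow_add, h1]
  push_cast
  ring

theorem lacE_lac (N : ℕ) (hN : 2 ≤ N) (r : ℝ) (hr : 0 < r) :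
    Lac (fun j => (nn N j : ℝ) * r ^ (nn N j - 1)) := by
  have hpos : ∀ j, 0 < (nn N j : ℝ) * r ^ (nn N j - 1) := by
    intro j
    have h0 : 0 < nn N j := by unfold nn; positivity
    have h1 : (0 : ℝ) < nn N j := by exact_mod_cast h0
    positivity
  have hpow : ∀ j, r ^ (15 * nn N (j + 1)) = (r ^ (15 * nn N j)) ^ 16 := by
    intro j
    have h1 : nn N (j + 1) = 16 * nn N j := by unfold nn; ring
    rw [h1, ← pow_mul]
    congr 1
    ring
  refine ⟨fun i => (hpos i).le, ?_, ?_⟩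
  · intro j hj
    have e1 := lacE_fac N hN r j
    have e2 := lacE_fac N hN r (j + 1)
    have e3 : j + 1 + 1 = j + 2 := rfl
    rw [e3] at e2
    beta_reduce at hj ⊢
    rw [e2, hpow]
    rw [e1] at hj
    set y := r ^ (15 * nn N j) with hy
    have hy0 : 0 ≤ y := by positivity
    have h1 : 16 * y ≤ 1 := by
      by_contra hcon
      push Not at hcon
      have := mul_lt_mul_of_pos_right hcon (hpos j)
      linarith
    have h2 : y ≤ 1 / 16 := by linarith
    have h3 : y ^ 16 ≤ (1 / 16) ^ 16 := by gcongr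
    have h4 : 16 * y ^ 16 ≤ 1 / 8 := by norm_num at h3 ⊢; linarith
    have := mul_le_mul_of_nonneg_right h4 (hpos (j + 1)).le
    linarith
  · intro j hj
    have e1 := lacE_fac N hN r j
    have e2 := lacE_fac N hN r (j + 1)
    have e3 : j + 1 + 1 = j + 2 := rfl
    rw [e3] at e2
    beta_reduce at hj ⊢
    rw [e2, hpow] at hj
    rw [e1]
    set y := r ^ (15 * nn N j) with hy
    have hy0 : 0 ≤ y := by positivity
    have h1 : 1 ≤ 16 * y ^ 16 := by
      by_contra hcon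
      push Not at hcon
      have := mul_lt_mul_of_pos_right hcon (hpos (j + 1))
      linarith
    have h2 : 1 / 2 ≤ y := by
      by_contra hcon
      push Not at hcon
      have h3 : y ^ 16 ≤ (1 / 2) ^ 16 := by gcongr
      norm_num at h3
      linarith
    have := mul_le_mul_of_nonneg_right h2 (hpos j).le
    linarith

theorem lacE_exmax (b : ℕ → ℝ) (K : ℕ) (hK : 0 < K) : ∃ J, J < K ∧ ∀ i, i < K → b i ≤ b J := by
  obtain ⟨J, hJ, h⟩ := Finset.exists_max_image (range K) b ⟨0, Finset.mem_range.2 hK⟩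
  exact ⟨J, Finset.mem_range.1 hJ, fun i hi => h i (Finset.mem_range.2 hi)⟩

theorem lac1 (K N : ℕ) (hN : 2 ≤ N) (r : ℝ) (hr : 0 ≤ r) :
    (∑ j ∈ Finset.range K, (nn N j : ℝ) * r ^ (nn N j - 1)) ^ 2 ≤
      11 * ∑ j ∈ Finset.range K, ((nn N j : ℝ) * r ^ (nn N j - 1)) ^ 2 := by
  rcases hr.eq_or_lt with rfl | hr
  · have h : ∀ j, (0 : ℝ) ^ (nn N j - 1) = 0 := by
      intro j
      apply zero_pow
      have : 1 ≤ 16 ^ j := Nat.one_le_pow _ _ (by norm_num)
      have : 2 * 1 ≤ nn N j := Nat.mul_le_mul hN this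
      omega
    simp [h]
  rcases Nat.eq_zero_or_pos K with rfl | hK
  · simp
  have hb := lacE_lac N hN r hr
  obtain ⟨J, hJ, hmax⟩ := lacE_exmax (fun j => (nn N j : ℝ) * r ^ (nn N j - 1)) K hK
  have h1 := hb.sum_le hJ hmax
  have h0 : 0 ≤ ∑ j ∈ Finset.range K, (nn N j : ℝ) * r ^ (nn N j - 1) :=
    Finset.sum_nonneg fun i _ => hb.nonneg i
  have h2 : ((nn N J : ℝ) * r ^ (nn N J - 1)) ^ 2 ≤
      ∑ j ∈ Finset.range K, ((nn N j : ℝ) * r ^ (nn N j - 1)) ^ 2 :=
    Finset.single_le_sum (f := fun j => ((nn N j : ℝ) * r ^ (nn N j - 1)) ^ 2)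
      (fun i _ => sq_nonneg _) (Finset.mem_range.2 hJ)
  have h3 : (∑ j ∈ Finset.range K, (nn N j : ℝ) * r ^ (nn N j - 1)) ^ 2 ≤
      (23 / 7 * ((nn N J : ℝ) * r ^ (nn N J - 1))) ^ 2 := by
    apply pow_le_pow_left₀ h0 h1
  nlinarith

theorem lacE_sq (b : ℕ → ℝ) (hb : Lac b) {J K : ℕ} (hJ : J < K) (hmax : ∀ i, i < K → b i ≤ b J) :
    ∑ i ∈ range K, b i ^ 2 ≤ 23 / 7 * b J ^ 2 := by
  have h1 : ∑ i ∈ range K, b i ^ 2 ≤ ∑ i ∈ range K, b J * b i := by
    apply Finset.sum_le_sum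
    intro i hi
    have h2 := hmax i (Finset.mem_range.1 hi)
    have h3 := hb.nonneg i
    nlinarith
  rw [← Finset.mul_sum] at h1
  have h2 := hb.sum_le hJ hmax
  have h3 := hb.nonneg J
  nlinarith

theorem lacE_class (b : ℕ → ℝ) (hb : Lac b) (z : ℕ → ℂ) (hz : ∀ i, ‖z i‖ = b i) {J K : ℕ}
    (hJ : J < K) (hmax : ∀ i, i < K → b i ≤ b J) (P : ℕ → Prop) [DecidablePred P]
    (hP : P J) (hP1 : ¬ P (J + 1)) (hP2 : ∀ i, i + 1 = J → ¬ P i) :
    5 / 7 * b J ≤ ‖∑ j ∈ (range K).filter P, z j‖ := by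
  have hmem : J ∈ (range K).filter P := Finset.mem_filter.2 ⟨Finset.mem_range.2 hJ, hP⟩
  rw [← Finset.add_sum_erase _ _ hmem]
  have h1 : ‖∑ j ∈ ((range K).filter P).erase J, z j‖ ≤ 2 / 7 * b J := by
    calc ‖∑ j ∈ ((range K).filter P).erase J, z j‖ ≤ ∑ j ∈ ((range K).filter P).erase J, ‖z j‖ :=
          norm_sum_le _ _
      _ = ∑ j ∈ ((range K).filter P).erase J, b j := Finset.sum_congr rfl fun j _ => hz j
      _ ≤ ∑ j ∈ range (J - 1) ∪ Ico (J + 2) K, b j := by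
          apply Finset.sum_le_sum_of_subset_of_nonneg
          · intro j hj
            rw [Finset.mem_erase, Finset.mem_filter, Finset.mem_range] at hj
            rw [Finset.mem_union, Finset.mem_range, Finset.mem_Ico]
            obtain ⟨hne, hlt, hPj⟩ := hj
            have h3 : j ≠ J + 1 := fun h => hP1 (h ▸ hPj)
            have h4 : j + 1 ≠ J := fun h => hP2 j h hPj
            omega
          · intro j _ _
            exact hb.nonneg j
      _ ≤ ∑ j ∈ range (J - 1), b j + ∑ j ∈ Ico (J + 2) K, b j := by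
          rw [← Finset.sum_union_inter]
          have : 0 ≤ ∑ i ∈ range (J - 1) ∩ Ico (J + 2) K, b i :=
            Finset.sum_nonneg fun i _ => hb.nonneg i
          linarith
      _ ≤ 2 / 7 * b J := by
          have := hb.s1' hJ hmax
          have := hb.s2' hJ hmax
          linarith
  have h2 : ‖z J‖ ≤ ‖z J + ∑ j ∈ ((range K).filter P).erase J, z j‖ +
      ‖∑ j ∈ ((range K).filter P).erase J, z j‖ := by
    have := norm_sub_le (z J + ∑ j ∈ ((range K).filter P).erase J, z j)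
      (∑ j ∈ ((range K).filter P).erase J, z j)
    rwa [add_sub_cancel_right] at this
  rw [hz] at h2
  linarith

theorem lac2 (K N : ℕ) (hN : 2 ≤ N) (W : ℂ) :
    ∑ j ∈ Finset.range K, ((nn N j : ℝ) * ‖W‖ ^ (nn N j - 1)) ^ 2 ≤
      8 * (‖∑ j ∈ (Finset.range K).filter (fun j => Even j), (nn N j : ℂ) * W ^ (nn N j - 1)‖ ^ 2 +
        ‖∑ j ∈ (Finset.range K).filter (fun j => ¬ Even j), (nn N j : ℂ) * W ^ (nn N j - 1)‖ ^ 2) := by
  have hnn : 0 ≤ 8 * (‖∑ j ∈ (Finset.range K).filter (fun j => Even j),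
      (nn N j : ℂ) * W ^ (nn N j - 1)‖ ^ 2 +
        ‖∑ j ∈ (Finset.range K).filter (fun j => ¬ Even j),
          (nn N j : ℂ) * W ^ (nn N j - 1)‖ ^ 2) := by positivity
  rcases (norm_nonneg W).eq_or_lt with hr | hr
  · have h : ∀ j, ‖W‖ ^ (nn N j - 1) = 0 := by
      intro j
      rw [← hr]
      apply zero_pow
      have : 1 ≤ 16 ^ j := Nat.one_le_pow _ _ (by norm_num)
      have : 2 * 1 ≤ nn N j := Nat.mul_le_mul hN this
      omega
    simpa [h] using hnn
  rcases Nat.eq_zero_or_pos K with rfl | hK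
  · simp
  have hb := lacE_lac N hN ‖W‖ hr
  obtain ⟨J, hJ, hmax⟩ := lacE_exmax (fun j => (nn N j : ℝ) * ‖W‖ ^ (nn N j - 1)) K hK
  have h1 := lacE_sq _ hb hJ hmax
  have hz : ∀ i, ‖(nn N i : ℂ) * W ^ (nn N i - 1)‖ = (nn N i : ℝ) * ‖W‖ ^ (nn N i - 1) := by
    intro i
    rw [norm_mul, norm_pow, Complex.norm_natCast]
  set S := (nn N J : ℝ) * ‖W‖ ^ (nn N J - 1) with hS
  have hS0 : 0 ≤ S := hb.nonneg J
  by_cases hpar : Even J
  · have h2 := lacE_class _ hb (fun i => (nn N i : ℂ) * W ^ (nn N i - 1)) hz hJ hmax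
      (fun j => Even j) hpar (by simpa [Nat.even_add_one] using hpar)
      (fun i hi => by rw [← hi] at hpar; simpa [Nat.even_add_one] using hpar)

    rw [← hS] at h2
    have h3 : (5 / 7 * S) ^ 2 ≤ ‖∑ j ∈ (Finset.range K).filter (fun j => Even j),
      (nn N j : ℂ) * W ^ (nn N j - 1)‖ ^ 2 := pow_le_pow_left₀ (by positivity) h2 2
    have h4 : 0 ≤ ‖∑ j ∈ (Finset.range K).filter (fun j => ¬ Even j),
          (nn N j : ℂ) * W ^ (nn N j - 1)‖ ^ 2 := by positivity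
    nlinarith
  · have h2 := lacE_class _ hb (fun i => (nn N i : ℂ) * W ^ (nn N i - 1)) hz hJ hmax
      (fun j => ¬ Even j) hpar (by simpa [Nat.even_add_one] using hpar)
      (fun i hi => by rw [← hi] at hpar; simpa [Nat.even_add_one] using hpar)

    rw [← hS] at h2
    have h3 : (5 / 7 * S) ^ 2 ≤ ‖∑ j ∈ (Finset.range K).filter (fun j => ¬ Even j),
      (nn N j : ℂ) * W ^ (nn N j - 1)‖ ^ 2 := pow_le_pow_left₀ (by positivity) h2 2
    have h4 : 0 ≤ ‖∑ j ∈ (Finset.range K).filter (fun j => Even j),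
          (nn N j : ℂ) * W ^ (nn N j - 1)‖ ^ 2 := by positivity
    nlinarith

end Pool.Agent.H805K
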