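import Mathlib
import Pool.Agent.H805K.E

/-! Disproof of the continuous subsolution problem (MP_529c98_an), task F: geometry of the
lacunary curve. -/

set_option autoImplicit false
set_option maxHeartbeats 1000000

open Finset Filter Topology

namespace Pool.Agent.H805K

theorem le_nn (N j : ℕ) : N ≤ nn N j := by
  unfold nn
  exact Nat.le_mul_of_pos_right N (by positivity)

theorem nn_mono (N : ℕ) {i j : ℕ} (h : i ≤ j) : nn N i ≤ nn N j := by
  unfold nn
  exact Nat.mul_le_mul_left N (Nat.pow_le_pow_right (by norm_num) h)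

theorem cg_small (P : ℕ → Prop) [DecidablePred P] (K N : ℕ) (z : ℂ) (q : ℝ) (hq0 : 0 ≤ q)
    (hq1 : q ≤ 1) (hz : ‖z‖ ≤ q) : ‖∑ j ∈ (range K).filter P, z ^ nn N j‖ ≤ K * q ^ N := by
  calc ‖∑ j ∈ (range K).filter P, z ^ nn N j‖ ≤ ∑ j ∈ (range K).filter P, ‖z ^ nn N j‖ :=
        norm_sum_le _ _
    _ ≤ ∑ j ∈ (range K).filter P, q ^ N := by
        apply Finset.sum_le_sum
        intro j _
        rw [norm_pow]
        calc ‖z‖ ^ nn N j ≤ q ^ nn N j := pow_le_pow_left₀ (norm_nonneg _) hz _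
          _ ≤ q ^ N := pow_le_pow_of_le_one hq0 hq1 (le_nn N j)
    _ = (((range K).filter P).card : ℝ) * q ^ N := by rw [Finset.sum_const, nsmul_eq_mul]
    _ ≤ K * q ^ N := by
        have h1 : ((range K).filter P).card ≤ K := by
          simpa using Finset.card_filter_le (range K) P
        have h2 : (((range K).filter P).card : ℝ) ≤ K := by exact_mod_cast h1
        exact mul_le_mul_of_nonneg_right h2 (by positivity)

theorem cg_large (P : ℕ → Prop) [DecidablePred P] (m N : ℕ) (z : ℂ) (hz : 1 ≤ ‖z‖)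
    (hP : P (m + 1)) (hP' : ¬ P m) (hX : ((m + 2 : ℕ) : ℝ) + 1 ≤ ‖z‖ ^ N) :
    ‖z‖ ^ N ≤ ‖∑ j ∈ (range (m + 2)).filter P, z ^ nn N j‖ := by
  have hmem : m + 1 ∈ (range (m + 2)).filter P :=
    Finset.mem_filter.2 ⟨Finset.mem_range.2 (by omega), hP⟩
  rw [← Finset.add_sum_erase _ _ hmem]
  set X : ℝ := ‖z‖ ^ nn N m with hXd
  have hX1 : ‖z‖ ^ N ≤ X := pow_le_pow_right₀ hz (le_nn N m)
  have htop : ‖z ^ nn N (m + 1)‖ = X ^ 16 := by
    rw [norm_pow, hXd, ← pow_mul]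
    congr 1
    unfold nn
    ring
  have hoth : ‖∑ j ∈ ((range (m + 2)).filter P).erase (m + 1), z ^ nn N j‖ ≤ (m + 2 : ℕ) * X := by
    calc ‖∑ j ∈ ((range (m + 2)).filter P).erase (m + 1), z ^ nn N j‖
        ≤ ∑ j ∈ ((range (m + 2)).filter P).erase (m + 1), ‖z ^ nn N j‖ := norm_sum_le _ _
      _ ≤ ∑ j ∈ ((range (m + 2)).filter P).erase (m + 1), X := by
          apply Finset.sum_le_sum
          intro j hj
          rw [Finset.mem_erase, Finset.mem_filter, Finset.mem_range] at hj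
          rw [norm_pow]
          exact pow_le_pow_right₀ hz (nn_mono N (by omega))
      _ = ((((range (m + 2)).filter P).erase (m + 1)).card : ℝ) * X := by
          rw [Finset.sum_const, nsmul_eq_mul]
      _ ≤ (m + 2 : ℕ) * X := by
          have h1 : (((range (m + 2)).filter P).erase (m + 1)).card ≤ m + 2 := by
            calc (((range (m + 2)).filter P).erase (m + 1)).card ≤ ((range (m + 2)).filter P).card :=
                  Finset.card_erase_le
              _ ≤ (range (m + 2)).card := Finset.card_filter_le _ _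
              _ = m + 2 := by simp
          have h2 : ((((range (m + 2)).filter P).erase (m + 1)).card : ℝ) ≤ (m + 2 : ℕ) := by
            exact_mod_cast h1
          exact mul_le_mul_of_nonneg_right h2 (by positivity)
  have htri : ‖z ^ nn N (m + 1)‖ ≤
      ‖z ^ nn N (m + 1) + ∑ j ∈ ((range (m + 2)).filter P).erase (m + 1), z ^ nn N j‖ +
      ‖∑ j ∈ ((range (m + 2)).filter P).erase (m + 1), z ^ nn N j‖ := by
    have := norm_sub_le
      (z ^ nn N (m + 1) + ∑ j ∈ ((range (m + 2)).filter P).erase (m + 1), z ^ nn N j)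
      (∑ j ∈ ((range (m + 2)).filter P).erase (m + 1), z ^ nn N j)
    rwa [add_sub_cancel_right] at this
  have hXm : ((m + 2 : ℕ) : ℝ) + 1 ≤ X := hX.trans hX1
  have hm0 : (0 : ℝ) ≤ ((m + 2 : ℕ) : ℝ) := Nat.cast_nonneg _
  have hX11 : 1 ≤ X := by linarith
  have h15 : X ≤ X ^ 15 := by
    calc X = X ^ 1 := (pow_one X).symm
      _ ≤ X ^ 15 := pow_le_pow_right₀ hX11 (by norm_num)
  have h16 : X ^ 16 = X * X ^ 15 := by ring
  have hkey : X ≤ X ^ 16 - (m + 2 : ℕ) * X := by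
    rw [h16]
    nlinarith
  rw [htop] at htri
  linarith

theorem fe_eq (K N : ℕ) (R : ℝ) (w : ℂ) : fe K N R w = ((Real.sqrt K : ℝ) : ℂ)⁻¹ *
    ∑ j ∈ (Finset.range K).filter (fun j => Even j), (w / (R : ℂ)) ^ nn N j := rfl

theorem norm_sqrtinv (K : ℕ) : ‖((Real.sqrt K : ℝ) : ℂ)⁻¹‖ = (Real.sqrt K)⁻¹ := by
  rw [norm_inv, Complex.norm_real, Real.norm_of_nonneg (Real.sqrt_nonneg _)]

theorem continuous_fe (K N : ℕ) (R : ℝ) : Continuous (fe K N R) := by
  unfold fe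
  fun_prop

theorem continuous_fo (K N : ℕ) (R : ℝ) : Continuous (fo K N R) := by
  unfold fo
  fun_prop

theorem finite_zeros_fo (K : ℕ) (hK : 2 ≤ K) (N : ℕ) {R : ℝ} (hR : 0 < R) :
    {w : ℂ | fo K N R w = 0}.Finite := by
  classical
  have hRC : (R : ℂ) ≠ 0 := by exact_mod_cast hR.ne'
  have hK0 : (0 : ℝ) < K := by exact_mod_cast (by omega : 0 < K)
  have hsq : ((Real.sqrt K : ℝ) : ℂ)⁻¹ ≠ 0 := by
    apply inv_ne_zero
    exact_mod_cast (Real.sqrt_pos.2 hK0).ne'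
  set Pp : Polynomial ℂ := ∑ j ∈ (Finset.range K).filter (fun j => ¬ Even j),
    (Polynomial.C ((R : ℂ)⁻¹) * Polynomial.X) ^ nn N j with hPp
  have hev : ∀ w : ℂ, Pp.eval w =
      ∑ j ∈ (Finset.range K).filter (fun j => ¬ Even j), (w / (R : ℂ)) ^ nn N j := by
    intro w
    rw [hPp, Polynomial.eval_finset_sum]
    refine Finset.sum_congr rfl fun j _ => ?_
    rw [Polynomial.eval_pow, Polynomial.eval_mul, Polynomial.eval_C, Polynomial.eval_X]
    congr 1
    rw [div_eq_mul_inv, mul_comm]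
  have hne : Pp ≠ 0 := by
    intro h0
    have h1 := hev (R : ℂ)
    rw [h0, Polynomial.eval_zero, div_self hRC] at h1
    simp only [one_pow, Finset.sum_const, nsmul_eq_mul, mul_one] at h1
    have h2 : ((Finset.range K).filter (fun j => ¬ Even j)).card = 0 := by
      exact_mod_cast h1.symm
    rw [Finset.card_eq_zero] at h2
    have h3 : 1 ∈ (Finset.range K).filter (fun j => ¬ Even j) :=
      Finset.mem_filter.2 ⟨Finset.mem_range.2 (by omega), by decide⟩
    rw [h2] at h3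
    simp at h3
  refine (Pp.roots.toFinset.finite_toSet).subset ?_
  intro w hw
  have hw' : fo K N R w = 0 := hw
  unfold fo at hw'
  rw [← hev w] at hw'
  have h4 : Pp.eval w = 0 := (mul_eq_zero.1 hw').resolve_left hsq
  simp only [Finset.mem_coe, Multiset.mem_toFinset]
  exact (Polynomial.mem_roots hne).2 h4

theorem curve_geom (K : ℕ) (hK : 2 ≤ K) {rm rp R η : ℝ} (hrm : 0 < rm) (hrmR : rm < R) (hRrp : R < rp)
    (hη : 0 < η) : ∃ N : ℕ, 2 ≤ N ∧
      (∀ w : ℂ, ‖w‖ ≤ rm → ‖fe K N R w‖ ≤ η ∧ ‖fo K N R w‖ ≤ η) ∧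
      (∀ w : ℂ, rp ≤ ‖w‖ → 5 ≤ ‖fe K N R w‖ ∨ 5 ≤ ‖fo K N R w‖) ∧
      ∃ c : ℂ, ‖c‖ ≤ η ∧ ∃ d : ℝ, 0 < d ∧
        ∀ w : ℂ, ‖w‖ ≤ 3 → 2 * d ≤ ‖c + fe K N R w‖ ∨ 2 * d ≤ ‖fo K N R w‖ := by
  have hR : 0 < R := hrm.trans hrmR
  have hK1 : (1 : ℝ) ≤ K := by exact_mod_cast (by omega : 1 ≤ K)
  have hK0 : (0 : ℝ) < K := by linarith
  have hsq1 : 1 ≤ Real.sqrt K := Real.one_le_sqrt.2 hK1
  have hsqi : (Real.sqrt K)⁻¹ ≤ 1 := inv_le_one_of_one_le₀ hsq1
  have hsqi0 : 0 < (Real.sqrt K)⁻¹ := by positivity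
  have hq0 : 0 ≤ rm / R := by positivity
  have hq0' : rm / R < 1 := (div_lt_one hR).2 hrmR
  have hq1 : 1 < rp / R := (one_lt_div hR).2 hRrp
  have t1 : Tendsto (fun N : ℕ => (K : ℝ) * (rm / R) ^ N) atTop (𝓝 0) := by
    have := (tendsto_pow_atTop_nhds_zero_of_lt_one hq0 hq0').const_mul (K : ℝ)
    rwa [mul_zero] at this
  have t2 : Tendsto (fun N : ℕ => (rp / R) ^ N) atTop atTop :=
    tendsto_pow_atTop_atTop_of_one_lt hq1
  obtain ⟨N, h1, h2, h3, hN⟩ := ((t1.eventually (ge_mem_nhds hη)).and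
    ((t2.eventually_ge_atTop ((K : ℝ) + 1)).and ((t2.eventually_ge_atTop (5 * Real.sqrt K)).and
      (eventually_ge_atTop 2)))).exists
  have hnorm : ∀ w : ℂ, ‖w / (R : ℂ)‖ = ‖w‖ / R := by
    intro w
    rw [norm_div, Complex.norm_real, Real.norm_of_nonneg hR.le]
  refine ⟨N, hN, ?_, ?_, ?_⟩
  · intro w hw
    have hz : ‖w / (R : ℂ)‖ ≤ rm / R := by
      rw [hnorm]
      gcongr
    have key : ∀ (P : ℕ → Prop) [DecidablePred P], ‖((Real.sqrt K : ℝ) : ℂ)⁻¹ *
        ∑ j ∈ (Finset.range K).filter P, (w / (R : ℂ)) ^ nn N j‖ ≤ η := by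
      intro P _
      rw [norm_mul, norm_sqrtinv]
      have h4 := cg_small P K N (w / (R : ℂ)) (rm / R) hq0 hq0'.le hz
      calc (Real.sqrt K)⁻¹ * ‖∑ j ∈ (Finset.range K).filter P, (w / (R : ℂ)) ^ nn N j‖
          ≤ 1 * (K * (rm / R) ^ N) := mul_le_mul hsqi h4 (norm_nonneg _) zero_le_one
        _ ≤ η := by rw [one_mul]; exact h1
    exact ⟨key _, key _⟩
  · intro w hw
    have hz : rp / R ≤ ‖w / (R : ℂ)‖ := by
      rw [hnorm]
      gcongr
    have hz1 : 1 ≤ ‖w / (R : ℂ)‖ := hq1.le.trans hz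
    have hzN : (rp / R) ^ N ≤ ‖w / (R : ℂ)‖ ^ N := pow_le_pow_left₀ (by positivity) hz N
    obtain ⟨m, rfl⟩ : ∃ m, K = m + 2 := ⟨K - 2, by omega⟩
    have key : ∀ (P : ℕ → Prop) [DecidablePred P], P (m + 1) → ¬ P m →
        5 ≤ ‖((Real.sqrt ((m + 2 : ℕ) : ℝ) : ℝ) : ℂ)⁻¹ *
        ∑ j ∈ (Finset.range (m + 2)).filter P, (w / (R : ℂ)) ^ nn N j‖ := by
      intro P _ hP hP'
      rw [norm_mul, norm_sqrtinv]
      have h4 := cg_large P m N (w / (R : ℂ)) hz1 hP hP' (h2.trans hzN)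
      have h5 : 5 * Real.sqrt ((m + 2 : ℕ) : ℝ) ≤
          ‖∑ j ∈ (Finset.range (m + 2)).filter P, (w / (R : ℂ)) ^ nn N j‖ :=
        h3.trans (hzN.trans h4)
      rw [inv_mul_eq_div, le_div_iff₀ (by positivity)]
      exact h5
    by_cases hpar : Even m
    · right
      exact key (fun j => ¬ Even j) (by simpa [Nat.even_add_one] using hpar) (by simpa using hpar)
    · left
      exact key (fun j => Even j) (by simpa [Nat.even_add_one] using hpar) hpar
  · have hfin := finite_zeros_fo K hK N hR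
    have hfin2 : ((fun w => - fe K N R w) '' {w : ℂ | fo K N R w = 0}).Finite := hfin.image _
    have hinf : (Metric.closedBall (0 : ℂ) η).Infinite := by
      have h5 : (Metric.ball (0 : ℂ) η).Infinite :=
        infinite_of_mem_nhds (0 : ℂ) (Metric.ball_mem_nhds _ hη)
      exact h5.mono Metric.ball_subset_closedBall
    obtain ⟨c, hc, hc'⟩ := (hinf.diff hfin2).nonempty
    refine ⟨c, by simpa using hc, ?_⟩
    have hcont : Continuous (fun w => max ‖c + fe K N R w‖ ‖fo K N R w‖) := by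
      have := continuous_fe K N R
      have := continuous_fo K N R
      fun_prop
    have hpos : ∀ w : ℂ, 0 < max ‖c + fe K N R w‖ ‖fo K N R w‖ := by
      intro w
      by_cases h0 : fo K N R w = 0
      · apply lt_max_of_lt_left
        rw [norm_pos_iff]
        intro h6
        apply hc'
        exact ⟨w, h0, (eq_neg_of_add_eq_zero_left h6).symm⟩
      · exact lt_max_of_lt_right (norm_pos_iff.2 h0)
    obtain ⟨w0, -, hmin⟩ := (isCompact_closedBall (0 : ℂ) 3).exists_isMinOn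
      ⟨0, by simp⟩ hcont.continuousOn
    refine ⟨max ‖c + fe K N R w0‖ ‖fo K N R w0‖ / 2, half_pos (hpos w0), ?_⟩
    intro w hw
    have h7 := hmin (show w ∈ Metric.closedBall (0 : ℂ) 3 by simpa using hw)
    have h8 : max ‖c + fe K N R w0‖ ‖fo K N R w0‖ ≤ max ‖c + fe K N R w‖ ‖fo K N R w‖ := h7
    rcases le_max_iff.1 h8 with h9 | h9
    · left; linarith
    · right; linarith

end Pool.Agent.H805K
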