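import Mathlib
import Pool.Agent.H805R2.Mat
import Pool.Agent.H805K.Calc

set_option autoImplicit false
set_option maxHeartbeats 1000000

open MeasureTheory Metric Set Filter Topology Matrix
open scoped ContDiff ComplexOrder

namespace Pool.Agent.H805K
open Pool.Agent.H805R2

variable {n : ℕ}

/-- monotonicity of the determinant on positive semidefinite matrices -/
lemma det_mono_psd {ι : Type*} [Fintype ι] [DecidableEq ι] (A B : Matrix ι ι ℂ) (hB : B.PosSemidef)
    (h : (A - B).PosSemidef) : B.det.re ≤ A.det.re := by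
  have key : ∀ e : ℝ, 0 < e → (B + (e : ℂ) • (1 : Matrix ι ι ℂ)).det.re ≤ (A + (e : ℂ) • (1 : Matrix ι ι ℂ)).det.re := by
    intro e he
    have he' : (0 : ℂ) < (e : ℂ) := by exact_mod_cast he
    have h1 : ((e : ℂ) • (1 : Matrix ι ι ℂ)).PosDef := Matrix.PosDef.one.smul he'
    have hA : A.PosSemidef := by
      have := h.add hB
      rwa [sub_add_cancel] at this
    have hBe : (B + (e : ℂ) • (1 : Matrix ι ι ℂ)).PosDef := Matrix.PosDef.posSemidef_add hB h1
    have hAe : (A + (e : ℂ) • (1 : Matrix ι ι ℂ)).PosDef := Matrix.PosDef.posSemidef_add hA h1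
    refine Gram.det_mono _ _ hAe hBe.posSemidef ?_
    intro c
    have h2 := (Complex.nonneg_iff.1 (h.dotProduct_mulVec_nonneg c)).1
    have e1 : star c ⬝ᵥ (A - B) *ᵥ c = star c ⬝ᵥ (A + (e : ℂ) • (1 : Matrix ι ι ℂ)) *ᵥ c -
        star c ⬝ᵥ (B + (e : ℂ) • (1 : Matrix ι ι ℂ)) *ᵥ c := by
      rw [← dotProduct_sub, ← sub_mulVec]
      congr 2
      abel
    rw [e1, Complex.sub_re] at h2
    unfold Gram.qf
    linarith
  have hcA : Continuous fun e : ℝ => (A + (e : ℂ) • (1 : Matrix ι ι ℂ)).det.re := by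
    apply Complex.continuous_re.comp
    apply Continuous.matrix_det
    fun_prop
  have hcB : Continuous fun e : ℝ => (B + (e : ℂ) • (1 : Matrix ι ι ℂ)).det.re := by
    apply Complex.continuous_re.comp
    apply Continuous.matrix_det
    fun_prop
  have hA0 : Tendsto (fun e : ℝ => (A + (e : ℂ) • (1 : Matrix ι ι ℂ)).det.re) (𝓝[>] 0) (𝓝 A.det.re) := by
    have := (hcA.tendsto 0).mono_left (nhdsWithin_le_nhds (s := Ioi 0))
    simpa using this
  have hB0 : Tendsto (fun e : ℝ => (B + (e : ℂ) • (1 : Matrix ι ι ℂ)).det.re) (𝓝[>] 0) (𝓝 B.det.re) := by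
    have := (hcB.tendsto 0).mono_left (nhdsWithin_le_nhds (s := Ioi 0))
    simpa using this
  refine le_of_tendsto_of_tendsto hB0 hA0 ?_
  filter_upwards [self_mem_nhdsWithin] with e he using key e he

/-- superadditivity of the determinant, for a multiple of the identity -/
lemma det_add_smul_one (A : Matrix (Fin 3) (Fin 3) ℂ) (hA : A.PosSemidef) {e : ℝ} (he : 0 ≤ e) :
    A.det.re + e ^ 3 ≤ (A + (e : ℂ) • (1 : Matrix (Fin 3) (Fin 3) ℂ)).det.re := by
  have hdiag : ∀ i, 0 ≤ (A i i).re := fun i => (Complex.nonneg_iff.1 (hA.diag_nonneg (i := i))).1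
  have hm : ∀ i j : Fin 3, i ≠ j → 0 ≤ (A i i * A j j - A i j * A j i).re := by
    intro i j hij
    have h1 := hA.submatrix (fun k : Fin 2 => if k = 0 then i else j)
    have h2 := (Complex.nonneg_iff.1 h1.det_nonneg).1
    rw [det_fin_two] at h2
    simpa using h2
  have h01 := hm 0 1 (by decide)
  have h02 := hm 0 2 (by decide)
  have h12 := hm 1 2 (by decide)
  have e1 : (A + (e : ℂ) • (1 : Matrix (Fin 3) (Fin 3) ℂ)).det = A.det +
      (e : ℂ) * ((A 0 0 * A 1 1 - A 0 1 * A 1 0) + (A 0 0 * A 2 2 - A 0 2 * A 2 0) +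
        (A 1 1 * A 2 2 - A 1 2 * A 2 1)) + (e : ℂ) ^ 2 * (A 0 0 + A 1 1 + A 2 2) + (e : ℂ) ^ 3 := by
    rw [det_fin_three, det_fin_three]
    simp [Matrix.one_apply]
    ring
  rw [e1]
  have e2 : ((e : ℂ) ^ 2).re = e ^ 2 ∧ ((e : ℂ) ^ 2).im = 0 := by
    rw [← Complex.ofReal_pow]; exact ⟨Complex.ofReal_re _, Complex.ofReal_im _⟩
  have e3 : ((e : ℂ) ^ 3).re = e ^ 3 := by
    rw [← Complex.ofReal_pow]; exact Complex.ofReal_re _
  simp only [Complex.add_re, Complex.mul_re, Complex.ofReal_re, Complex.ofReal_im, zero_mul, sub_zero,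
    e2.1, e2.2, e3]
  simp only [Complex.sub_re, Complex.mul_re] at h01 h02 h12 ⊢
  have := hdiag 0
  have := hdiag 1
  have := hdiag 2
  have : 0 ≤ e * (((A 0 0).re * (A 1 1).re - (A 0 0).im * (A 1 1).im - ((A 0 1).re * (A 1 0).re - (A 0 1).im * (A 1 0).im)) +
    ((A 0 0).re * (A 2 2).re - (A 0 0).im * (A 2 2).im - ((A 0 2).re * (A 2 0).re - (A 0 2).im * (A 2 0).im)) +
    ((A 1 1).re * (A 2 2).re - (A 1 1).im * (A 2 2).im - ((A 1 2).re * (A 2 1).re - (A 1 2).im * (A 2 1).im))) := by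
    apply mul_nonneg he; linarith
  have : 0 ≤ e ^ 2 * ((A 0 0).re + (A 1 1).re + (A 2 2).re) := by positivity
  linarith

/-- the elementary matrix in the direction `z₀` -/
noncomputable def E00 : Matrix (Fin 3) (Fin 3) ℂ := Matrix.of fun i j => if i = 0 ∧ j = 0 then 1 else 0

/-- the minor in the directions `z₁, z₂` -/
noncomputable def mnr (H : Matrix (Fin 3) (Fin 3) ℂ) : ℂ := H 1 1 * H 2 2 - H 1 2 * H 2 1

lemma det_E00_add (H : Matrix (Fin 3) (Fin 3) ℂ) (hdet : H.det = 0) (A B : ℂ) :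
    (A • E00 + B • H).det = A * B ^ 2 * mnr H := by
  have h1 : (A • E00 + B • H).det = B ^ 3 * H.det + A * B ^ 2 * mnr H := by
    rw [det_fin_three, det_fin_three, mnr]
    simp [E00]
    ring
  rw [h1, hdet]
  ring

lemma hess_sub_psd {u v : Cn n → ℝ} (hu : ContDiff ℝ ∞ u) (hv : ContDiff ℝ ∞ v) (z : Cn n)
    (h : ∀ ζ, levi v z ζ ≤ levi u z ζ) : (hess u z - hess v z).PosSemidef := by
  have h1 : hess (fun y => u y + (-1 : ℝ) * v y) z = hess u z - hess v z := by
    rw [hess_add_smul u v hu hv (-1) z]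
    push_cast
    rw [neg_one_smul, sub_eq_add_neg]
  rw [← h1, psd_iff (hu.add (contDiff_const.mul hv))]
  intro ζ
  rw [levi_add' hu (contDiff_const.mul hv), levi_const_mul' _ hv]
  linarith [h ζ]

end Pool.Agent.H805K
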