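import Mathlib
import Pool.Agent.H805K.Base
import Pool.Agent.H805K.Det

set_option autoImplicit false
set_option maxHeartbeats 1000000

open MeasureTheory Metric Set Filter Topology
open scoped ContDiff ComplexOrder

namespace Pool.Agent.H805K
open Pool.Agent.H805R2

/-! ### coordinates and monomials -/

lemma coord_sm (i : Fin 3) : ContDiff ℂ ∞ (fun z : Cn 3 => z i) :=
  (EuclideanSpace.proj i : Cn 3 →L[ℂ] ℂ).contDiff

lemma coord_fd (i : Fin 3) (z ζ : Cn 3) : fderiv ℂ (fun z : Cn 3 => z i) z ζ = ζ i := by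
  have : HasFDerivAt (fun z : Cn 3 => z i) (EuclideanSpace.proj i : Cn 3 →L[ℂ] ℂ) z :=
    (EuclideanSpace.proj i : Cn 3 →L[ℂ] ℂ).hasFDerivAt
  rw [this.fderiv]
  rfl

/-- a function of `z₀` -/
lemma fd_comp0 {f : ℂ → ℂ} {f' : ℂ} {z : Cn 3} (h : HasDerivAt f f' (z 0)) (ζ : Cn 3) :
    fderiv ℂ (fun z : Cn 3 => f (z 0)) z ζ = f' * ζ 0 := by
  have h1 : HasFDerivAt (fun z : Cn 3 => z 0) (EuclideanSpace.proj 0 : Cn 3 →L[ℂ] ℂ) z :=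
    (EuclideanSpace.proj 0 : Cn 3 →L[ℂ] ℂ).hasFDerivAt
  have h2 : HasFDerivAt (fun z : Cn 3 => f (z 0)) _ z := h.comp_hasFDerivAt z h1
  rw [h2.fderiv]
  rfl

lemma mono_sm (R : ℝ) (m : ℕ) : ContDiff ℂ ∞ (fun z : Cn 3 => (z 0 / (R : ℂ)) ^ m) :=
  ((coord_sm 0).div_const _).pow m

lemma mono_deriv (R : ℝ) (m : ℕ) (w : ℂ) :
    HasDerivAt (fun w : ℂ => (w / (R : ℂ)) ^ m) ((m : ℂ) * (w / (R : ℂ)) ^ (m - 1) / (R : ℂ)) w := by
  have h := ((hasDerivAt_id w).div_const (R : ℂ)).pow m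
  refine h.congr_deriv ?_
  simp only [id]
  ring

/-! ### the curve -/

/-- derivative of `fe` -/
noncomputable def dfe (K N : ℕ) (R : ℝ) (w : ℂ) : ℂ :=
  ((Real.sqrt K : ℝ) : ℂ)⁻¹ * ((∑ j ∈ (Finset.range K).filter (fun j => Even j),
    (nn N j : ℂ) * (w / (R : ℂ)) ^ (nn N j - 1)) / (R : ℂ))

/-- derivative of `fo` -/
noncomputable def dfo (K N : ℕ) (R : ℝ) (w : ℂ) : ℂ :=
  ((Real.sqrt K : ℝ) : ℂ)⁻¹ * ((∑ j ∈ (Finset.range K).filter (fun j => ¬ Even j),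
    (nn N j : ℂ) * (w / (R : ℂ)) ^ (nn N j - 1)) / (R : ℂ))

lemma fe_deriv (K N : ℕ) (R : ℝ) (w : ℂ) : HasDerivAt (fe K N R) (dfe K N R w) w := by
  unfold fe dfe
  apply HasDerivAt.const_mul
  rw [Finset.sum_div]
  exact HasDerivAt.fun_sum fun j _ => mono_deriv R (nn N j) w

lemma fo_deriv (K N : ℕ) (R : ℝ) (w : ℂ) : HasDerivAt (fo K N R) (dfo K N R w) w := by
  unfold fo dfo
  apply HasDerivAt.const_mul
  rw [Finset.sum_div]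
  exact HasDerivAt.fun_sum fun j _ => mono_deriv R (nn N j) w

lemma fe_sm (K N : ℕ) (R : ℝ) : ContDiff ℂ ∞ (fun z : Cn 3 => fe K N R (z 0)) := by
  unfold fe
  exact contDiff_const.mul (ContDiff.sum fun j _ => mono_sm R (nn N j))

lemma fo_sm (K N : ℕ) (R : ℝ) : ContDiff ℂ ∞ (fun z : Cn 3 => fo K N R (z 0)) := by
  unfold fo
  exact contDiff_const.mul (ContDiff.sum fun j _ => mono_sm R (nn N j))

/-- the two equations of the curve -/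
noncomputable def P1 (K N : ℕ) (R : ℝ) (c : ℂ) (z : Cn 3) : ℂ := z 1 - c - fe K N R (z 0)
noncomputable def P2 (K N : ℕ) (R : ℝ) (z : Cn 3) : ℂ := z 2 - fo K N R (z 0)

lemma P1_sm (K N : ℕ) (R : ℝ) (c : ℂ) : ContDiff ℂ ∞ (P1 K N R c) :=
  ((coord_sm 1).sub contDiff_const).sub (fe_sm K N R)

lemma P2_sm (K N : ℕ) (R : ℝ) : ContDiff ℂ ∞ (P2 K N R) := (coord_sm 2).sub (fo_sm K N R)

lemma P1_fd (K N : ℕ) (R : ℝ) (c : ℂ) (z ζ : Cn 3) :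
    fderiv ℂ (P1 K N R c) z ζ = ζ 1 - dfe K N R (z 0) * ζ 0 := by
  have h1 : DifferentiableAt ℂ (fun z : Cn 3 => z 1) z := (coord_sm 1).contDiffAt.differentiableAt (by simp)
  have h2 : DifferentiableAt ℂ (fun z : Cn 3 => fe K N R (z 0)) z :=
    (fe_sm K N R).contDiffAt.differentiableAt (by simp)
  unfold P1
  rw [fderiv_fun_sub (h1.sub_const c) h2, fderiv_sub_const, sub_apply, coord_fd, fd_comp0 (fe_deriv K N R (z 0))]

lemma P2_fd (K N : ℕ) (R : ℝ) (z ζ : Cn 3) :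
    fderiv ℂ (P2 K N R) z ζ = ζ 2 - dfo K N R (z 0) * ζ 0 := by
  have h1 : DifferentiableAt ℂ (fun z : Cn 3 => z 2) z := (coord_sm 2).contDiffAt.differentiableAt (by simp)
  have h2 : DifferentiableAt ℂ (fun z : Cn 3 => fo K N R (z 0)) z :=
    (fo_sm K N R).contDiffAt.differentiableAt (by simp)
  unfold P2
  rw [fderiv_fun_sub h1 h2, sub_apply, coord_fd, fd_comp0 (fo_deriv K N R (z 0))]

/-! ### the function `T` -/

noncomputable def Tf (K N : ℕ) (R : ℝ) (z : Cn 3) : ℝ :=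
  ∑ j ∈ Finset.range K, (Real.log (1 + ‖(z 0 / (R : ℂ)) ^ nn N j‖ ^ 2) - Real.log 2)

lemma log_one_sm {n : ℕ} {h : Cn n → ℂ} (hh : ContDiff ℂ ∞ h) :
    ContDiff ℝ ∞ (fun y => Real.log (1 + ‖h y‖ ^ 2)) :=
  (contDiff_const.add (nsq_sm hh)).log fun z => by positivity

lemma Tf_sm (K N : ℕ) (R : ℝ) : ContDiff ℝ ∞ (Tf K N R) :=
  ContDiff.sum fun j _ => (log_one_sm (mono_sm R (nn N j))).sub contDiff_const

lemma sub_const_sm {n : ℕ} {f : Cn n → ℝ} (hf : ContDiff ℝ ∞ f) (c : ℝ) (z ζ : Cn n) :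
    levi (fun y => f y - c) z ζ = levi f z ζ := by
  rw [levi_sub' hf contDiff_const, levi_const, sub_zero]

/-- the quantity controlling all first and second derivatives -/
noncomputable def gg (K N : ℕ) (R : ℝ) (w : ℂ) : ℝ :=
  (∑ j ∈ Finset.range K, ((nn N j : ℝ) * ‖w / (R : ℂ)‖ ^ (nn N j - 1)) ^ 2) / (R ^ 2 * K)

lemma gg_nonneg (K N : ℕ) (R : ℝ) (w : ℂ) : 0 ≤ gg K N R w := by
  unfold gg
  positivity

lemma gg_cont (K N : ℕ) (R : ℝ) : Continuous (gg K N R) := by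
  unfold gg
  fun_prop

lemma norm_mono_fd (R : ℝ) (hR : 0 < R) (m : ℕ) (w ζ0 : ℂ) :
    ‖(m : ℂ) * (w / (R : ℂ)) ^ (m - 1) / (R : ℂ) * ζ0‖ = (m : ℝ) * ‖w / (R : ℂ)‖ ^ (m - 1) / R * ‖ζ0‖ := by
  rw [norm_mul, norm_div, norm_mul, norm_pow, Complex.norm_natCast, Complex.norm_real, Real.norm_eq_abs,
    abs_of_pos hR]

lemma Tf_levi (K N : ℕ) {R : ℝ} (hR : 0 < R) (z ζ : Cn 3) : levi (Tf K N R) z ζ =
    ∑ j ∈ Finset.range K, ((nn N j : ℝ) * ‖z 0 / (R : ℂ)‖ ^ (nn N j - 1) / R * ‖ζ 0‖) ^ 2 /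
      (1 + ‖(z 0 / (R : ℂ)) ^ nn N j‖ ^ 2) ^ 2 := by
  unfold Tf
  rw [levi_sum _ fun j _ => (log_one_sm (mono_sm R (nn N j))).sub contDiff_const]
  apply Finset.sum_congr rfl
  intro j _
  rw [sub_const_sm (log_one_sm (mono_sm R (nn N j))), levi_log_one (mono_sm R (nn N j)),
    fd_comp0 (mono_deriv R (nn N j) (z 0)), norm_mono_fd R hR]

lemma sum_eq_gg (K N : ℕ) {R : ℝ} (hR : 0 < R) (hK : 0 < K) (w ζ0 : ℂ) :
    ∑ j ∈ Finset.range K, ((nn N j : ℝ) * ‖w / (R : ℂ)‖ ^ (nn N j - 1) / R * ‖ζ0‖) ^ 2 =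
      K * gg K N R w * ‖ζ0‖ ^ 2 := by
  have hK' : (0 : ℝ) < K := by exact_mod_cast hK
  unfold gg
  have e1 : ∀ j ∈ Finset.range K, ((nn N j : ℝ) * ‖w / (R : ℂ)‖ ^ (nn N j - 1) / R * ‖ζ0‖) ^ 2 =
      ((nn N j : ℝ) * ‖w / (R : ℂ)‖ ^ (nn N j - 1)) ^ 2 * (‖ζ0‖ ^ 2 / R ^ 2) := by
    intro j _
    field_simp
  rw [Finset.sum_congr rfl e1, ← Finset.sum_mul]
  field_simp

lemma Tf_levi_nonneg (K N : ℕ) {R : ℝ} (hR : 0 < R) (z ζ : Cn 3) : 0 ≤ levi (Tf K N R) z ζ := by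
  rw [Tf_levi K N hR]
  positivity

lemma Tf_levi_le (K N : ℕ) {R : ℝ} (hR : 0 < R) (hK : 0 < K) (z ζ : Cn 3) :
    levi (Tf K N R) z ζ ≤ K * gg K N R (z 0) * ‖ζ 0‖ ^ 2 := by
  rw [Tf_levi K N hR, ← sum_eq_gg K N hR hK]
  apply Finset.sum_le_sum
  intro j _
  apply div_le_self (by positivity)
  have : 0 ≤ ‖(z 0 / (R : ℂ)) ^ nn N j‖ ^ 2 := by positivity
  nlinarith

lemma Tf_levi_ge (K N : ℕ) {R : ℝ} (hR : 0 < R) (hK : 0 < K) (z ζ : Cn 3) (hz : ‖z 0‖ ≤ R) :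
    K * gg K N R (z 0) * ‖ζ 0‖ ^ 2 / 4 ≤ levi (Tf K N R) z ζ := by
  rw [Tf_levi K N hR, ← sum_eq_gg K N hR hK, Finset.sum_div]
  apply Finset.sum_le_sum
  intro j _
  apply div_le_div_of_nonneg_left (by positivity) (by positivity)
  have h1 : ‖(z 0 / (R : ℂ)) ^ nn N j‖ ≤ 1 := by
    rw [norm_pow]
    apply pow_le_one₀ (norm_nonneg _)
    rw [norm_div, Complex.norm_real, Real.norm_eq_abs, abs_of_pos hR]
    exact (div_le_one hR).2 hz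
  have h2 : ‖(z 0 / (R : ℂ)) ^ nn N j‖ ^ 2 ≤ 1 := pow_le_one₀ (norm_nonneg _) h1
  have h3 : 0 ≤ ‖(z 0 / (R : ℂ)) ^ nn N j‖ ^ 2 := by positivity
  nlinarith

lemma Tf_dl_norm (K N : ℕ) {R : ℝ} (hR : 0 < R) (z ζ : Cn 3) : ‖dl (Tf K N R) z ζ‖ ≤
    (∑ j ∈ Finset.range K, (nn N j : ℝ) * ‖z 0 / (R : ℂ)‖ ^ (nn N j - 1)) / (2 * R) * ‖ζ 0‖ := by
  unfold Tf
  rw [dl_sum _ fun j _ => (log_one_sm (mono_sm R (nn N j))).sub contDiff_const]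
  refine (norm_sum_le _ _).trans ?_
  rw [Finset.sum_div, Finset.sum_mul]
  apply Finset.sum_le_sum
  intro j _
  rw [dl_sub (log_one_sm (mono_sm R (nn N j))) contDiff_const, dl_const, sub_zero]
  refine (norm_dl_log_one (mono_sm R (nn N j)) z ζ).trans (le_of_eq ?_)
  rw [fd_comp0 (mono_deriv R (nn N j) (z 0)), norm_mono_fd R hR]
  field_simp

/-! ### values of `T` -/

lemma Tf_ge (K N : ℕ) (R : ℝ) (z : Cn 3) : -(K * Real.log 2) ≤ Tf K N R z := by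
  unfold Tf
  have h1 : ∀ j ∈ Finset.range K, -Real.log 2 ≤ Real.log (1 + ‖(z 0 / (R : ℂ)) ^ nn N j‖ ^ 2) - Real.log 2 := by
    intro j _
    have : 0 ≤ Real.log (1 + ‖(z 0 / (R : ℂ)) ^ nn N j‖ ^ 2) :=
      Real.log_nonneg (by have : 0 ≤ ‖(z 0 / (R : ℂ)) ^ nn N j‖ ^ 2 := by positivity
                          linarith)
    linarith
  refine le_trans (le_of_eq ?_) (Finset.sum_le_sum h1)
  rw [Finset.sum_const, Finset.card_range, nsmul_eq_mul]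
  ring

lemma Tf_le_zero (K N : ℕ) {R : ℝ} (hR : 0 < R) (z : Cn 3) (hz : ‖z 0‖ ≤ R) : Tf K N R z ≤ 0 := by
  unfold Tf
  apply Finset.sum_nonpos
  intro j _
  have h1 : ‖(z 0 / (R : ℂ)) ^ nn N j‖ ≤ 1 := by
    rw [norm_pow]
    apply pow_le_one₀ (norm_nonneg _)
    rw [norm_div, Complex.norm_real, Real.norm_eq_abs, abs_of_pos hR]
    exact (div_le_one hR).2 hz
  have h2 : ‖(z 0 / (R : ℂ)) ^ nn N j‖ ^ 2 ≤ 1 := pow_le_one₀ (norm_nonneg _) h1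
  have h3 : 0 ≤ ‖(z 0 / (R : ℂ)) ^ nn N j‖ ^ 2 := by positivity
  have := Real.log_le_log (by positivity) (by linarith : 1 + ‖(z 0 / (R : ℂ)) ^ nn N j‖ ^ 2 ≤ 2)
  linarith

lemma Tf_eq_zero (K N : ℕ) {R : ℝ} (hR : 0 < R) (z : Cn 3) (hz : ‖z 0‖ = R) : Tf K N R z = 0 := by
  unfold Tf
  apply Finset.sum_eq_zero
  intro j _
  have h1 : ‖(z 0 / (R : ℂ)) ^ nn N j‖ = 1 := by
    rw [norm_pow, norm_div, Complex.norm_real, Real.norm_eq_abs, abs_of_pos hR, hz, div_self hR.ne', one_pow]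
  rw [h1]
  norm_num

lemma nn_pos {N : ℕ} (hN : 2 ≤ N) (j : ℕ) : 2 ≤ nn N j := by
  unfold nn
  calc 2 ≤ N := hN
    _ = N * 1 := (mul_one N).symm
    _ ≤ N * 16 ^ j := Nat.mul_le_mul_left N (Nat.one_le_pow _ _ (by norm_num))

lemma Tf_center (K : ℕ) {N : ℕ} (hN : 2 ≤ N) (R : ℝ) (z : Cn 3) (hz : z 0 = 0) :
    Tf K N R z = -(K * Real.log 2) := by
  unfold Tf
  have h1 : ∀ j ∈ Finset.range K, Real.log (1 + ‖(z 0 / (R : ℂ)) ^ nn N j‖ ^ 2) - Real.log 2 = -Real.log 2 := by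
    intro j _
    have := nn_pos hN j
    rw [hz, zero_div, zero_pow (by omega)]
    simp
  rw [Finset.sum_congr rfl h1, Finset.sum_const, Finset.card_range, nsmul_eq_mul]
  ring

end Pool.Agent.H805K
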