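import Mathlib
import Pool.Agent.H805K.Fun
import Pool.Agent.H805K.E
import Pool.Agent.H805K.F

set_option autoImplicit false
set_option maxHeartbeats 1000000

open MeasureTheory Metric Set Filter Topology
open scoped ContDiff ComplexOrder

namespace Pool.Agent.H805K
open Pool.Agent.H805R2

lemma Tf_dl_sq_le (K N : ℕ) (hN : 2 ≤ N) {R : ℝ} (hR : 0 < R) (hK : 0 < K) (z ζ : Cn 3) :
    ‖dl (Tf K N R) z ζ‖ ^ 2 ≤ 11 / 4 * (K * gg K N R (z 0) * ‖ζ 0‖ ^ 2) := by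
  have hK' : (0 : ℝ) < K := by exact_mod_cast hK
  have h1 := Tf_dl_norm K N hR z ζ
  have h2 := pow_le_pow_left₀ (norm_nonneg _) h1 2
  refine h2.trans ?_
  have h3 := lac1 K N hN ‖z 0 / (R : ℂ)‖ (norm_nonneg _)
  set A := ∑ j ∈ Finset.range K, (nn N j : ℝ) * ‖z 0 / (R : ℂ)‖ ^ (nn N j - 1) with hA
  set B := ∑ j ∈ Finset.range K, ((nn N j : ℝ) * ‖z 0 / (R : ℂ)‖ ^ (nn N j - 1)) ^ 2 with hB
  have e1 : gg K N R (z 0) = B / (R ^ 2 * K) := rfl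
  rw [e1, mul_pow, div_pow]
  have e2 : 11 / 4 * (K * (B / (R ^ 2 * K)) * ‖ζ 0‖ ^ 2) = (11 * B) / (2 * R) ^ 2 * ‖ζ 0‖ ^ 2 := by
    field_simp
    ring
  rw [e2]
  gcongr

lemma df_sum (K N : ℕ) {R : ℝ} (hR : 0 < R) (hK : 0 < K) (w : ℂ) :
    ‖dfe K N R w‖ ^ 2 + ‖dfo K N R w‖ ^ 2 =
      (‖∑ j ∈ (Finset.range K).filter (fun j => Even j), (nn N j : ℂ) * (w / (R : ℂ)) ^ (nn N j - 1)‖ ^ 2 +
        ‖∑ j ∈ (Finset.range K).filter (fun j => ¬ Even j), (nn N j : ℂ) * (w / (R : ℂ)) ^ (nn N j - 1)‖ ^ 2) /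
        (R ^ 2 * K) := by
  have hK' : (0 : ℝ) < K := by exact_mod_cast hK
  have hs : Real.sqrt K ^ 2 = K := Real.sq_sqrt hK'.le
  have hs0 : 0 < Real.sqrt K := Real.sqrt_pos.2 hK'
  unfold dfe dfo
  rw [norm_mul, norm_mul, norm_inv, Complex.norm_real, Real.norm_eq_abs, abs_of_pos hs0, norm_div, norm_div,
    Complex.norm_real, Real.norm_eq_abs, abs_of_pos hR]
  set X := ‖∑ j ∈ (Finset.range K).filter (fun j => Even j), (nn N j : ℂ) * (w / (R : ℂ)) ^ (nn N j - 1)‖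
  set Y := ‖∑ j ∈ (Finset.range K).filter (fun j => ¬ Even j), (nn N j : ℂ) * (w / (R : ℂ)) ^ (nn N j - 1)‖
  rw [mul_pow, mul_pow, inv_pow, hs, div_pow, div_pow]
  field_simp

lemma df_ge (K N : ℕ) (hN : 2 ≤ N) {R : ℝ} (hR : 0 < R) (hK : 0 < K) (w : ℂ) :
    gg K N R w / 8 ≤ ‖dfe K N R w‖ ^ 2 + ‖dfo K N R w‖ ^ 2 := by
  have hK' : (0 : ℝ) < K := by exact_mod_cast hK
  rw [df_sum K N hR hK, gg, div_div, div_le_div_iff₀ (by positivity) (by positivity)]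
  have h := lac2 K N hN (w / (R : ℂ))
  have h2 := mul_le_mul_of_nonneg_right h (by positivity : 0 ≤ R ^ 2 * (K : ℝ))
  nlinarith

lemma norm_sum_filter_le (K N : ℕ) (P : ℕ → Prop) [DecidablePred P] (W : ℂ) :
    ‖∑ j ∈ (Finset.range K).filter P, (nn N j : ℂ) * W ^ (nn N j - 1)‖ ≤
      ∑ j ∈ (Finset.range K).filter P, (nn N j : ℝ) * ‖W‖ ^ (nn N j - 1) := by
  refine (norm_sum_le _ _).trans (le_of_eq ?_)
  apply Finset.sum_congr rfl
  intro j _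
  rw [norm_mul, norm_pow, Complex.norm_natCast]

lemma df_le (K N : ℕ) (hN : 2 ≤ N) {R : ℝ} (hR : 0 < R) (hK : 0 < K) (w : ℂ) :
    ‖dfe K N R w‖ ^ 2 + ‖dfo K N R w‖ ^ 2 ≤ 11 * gg K N R w := by
  have hK' : (0 : ℝ) < K := by exact_mod_cast hK
  rw [df_sum K N hR hK, gg, ← mul_div_assoc]
  apply div_le_div_of_nonneg_right _ (by positivity)
  refine le_trans ?_ (lac1 K N hN ‖w / (R : ℂ)‖ (norm_nonneg _))
  have h1 := norm_sum_filter_le K N (fun j => Even j) (w / (R : ℂ))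
  have h2 := norm_sum_filter_le K N (fun j => ¬ Even j) (w / (R : ℂ))
  rw [← Finset.sum_filter_add_sum_filter_not (Finset.range K) (fun j => Even j)]
  have h3 : 0 ≤ ∑ j ∈ (Finset.range K).filter (fun j => Even j), (nn N j : ℝ) * ‖w / (R : ℂ)‖ ^ (nn N j - 1) := by
    positivity
  have h4 : 0 ≤ ∑ j ∈ (Finset.range K).filter (fun j => ¬ Even j), (nn N j : ℝ) * ‖w / (R : ℂ)‖ ^ (nn N j - 1) := by
    positivity
  have h5 := pow_le_pow_left₀ (norm_nonneg _) h1 2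
  have h6 := pow_le_pow_left₀ (norm_nonneg _) h2 2
  nlinarith [mul_nonneg h3 h4]

end Pool.Agent.H805K
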