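import Mathlib
import Pool.Agent.H805K.Calc

set_option autoImplicit false
set_option maxHeartbeats 1000000

open MeasureTheory Metric Set Filter Topology
open scoped ContDiff ComplexOrder

namespace Pool.Agent.H805K
open Pool.Agent.H805R2

variable {n : ℕ}

/-- `s(x) = (1 + e^{-x})^{-1/2}` -/
noncomputable def sg (x : ℝ) : ℝ := Real.sqrt (1 / (1 + Real.exp (-x)))

lemma sg_sq (x : ℝ) : sg x ^ 2 = 1 / (1 + Real.exp (-x)) := by
  unfold sg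
  have := Real.exp_pos (-x)
  exact Real.sq_sqrt (by positivity)

lemma sg_pos (x : ℝ) : 0 < sg x := by
  unfold sg
  have := Real.exp_pos (-x)
  positivity

lemma sg_sq_lt (x : ℝ) : sg x ^ 2 < 1 := by
  rw [sg_sq]
  have := Real.exp_pos (-x)
  rw [div_lt_one (by positivity)]
  linarith

lemma sg_lt (x : ℝ) : sg x < 1 := by
  have h1 := sg_pos x
  have h2 := sg_sq_lt x
  nlinarith

lemma sg_deriv (x : ℝ) : HasDerivAt sg (sg x * (1 - sg x ^ 2) / 2) x := by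
  have he := Real.exp_pos (-x)
  have h1 : HasDerivAt (fun x : ℝ => 1 + Real.exp (-x)) (-Real.exp (-x)) x := by
    have h := ((Real.hasDerivAt_exp (-x)).comp x (hasDerivAt_neg x))
    have h2 := h.const_add 1
    simpa using h2
  have h2 : HasDerivAt (fun x : ℝ => 1 / (1 + Real.exp (-x))) (Real.exp (-x) / (1 + Real.exp (-x)) ^ 2) x := by
    have := h1.inv (by positivity)
    simp only [one_div]
    refine this.congr_deriv ?_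
    ring
  have h3 := h2.sqrt (by positivity)
  refine h3.congr_deriv ?_
  change Real.exp (-x) / (1 + Real.exp (-x)) ^ 2 / (2 * sg x) = sg x * (1 - sg x ^ 2) / 2
  have hs := sg_pos x
  rw [div_div, div_eq_div_iff (by positivity) (by norm_num)]
  have e1 : sg x * (1 - sg x ^ 2) * ((1 + Real.exp (-x)) ^ 2 * (2 * sg x)) =
      2 * (sg x ^ 2 * (1 - sg x ^ 2) * (1 + Real.exp (-x)) ^ 2) := by ring
  rw [e1, sg_sq]
  field_simp
  ring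

lemma sg_sm : ContDiff ℝ ∞ sg := by
  unfold sg
  apply ContDiff.sqrt
  · apply ContDiff.div contDiff_const
    · exact contDiff_const.add (Real.contDiff_exp.comp contDiff_neg)
    · intro x
      have := Real.exp_pos (-x)
      positivity
  · intro x
    have := Real.exp_pos (-x)
    positivity

/-- first and second derivatives of `2 s` -/
noncomputable def k1 (x : ℝ) : ℝ := sg x - sg x ^ 3
noncomputable def k2 (x : ℝ) : ℝ := (1 - 3 * sg x ^ 2) * (sg x - sg x ^ 3) / 2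

lemma kk_deriv (x : ℝ) : HasDerivAt (fun x => 2 * sg x) (k1 x) x := by
  refine ((sg_deriv x).const_mul 2).congr_deriv ?_
  unfold k1
  ring

lemma k1_deriv (x : ℝ) : HasDerivAt k1 (k2 x) x := by
  refine ((sg_deriv x).sub ((sg_deriv x).pow 3)).congr_deriv ?_
  unfold k2
  norm_num
  ring

lemma k2_deriv (x : ℝ) : HasDerivAt k2
    ((1 - 12 * sg x ^ 2 + 15 * sg x ^ 4) * (sg x * (1 - sg x ^ 2)) / 4) x := by
  have h1 := (((sg_deriv x).pow 2).const_mul 3).const_sub 1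
  have h2 := (h1.mul ((sg_deriv x).sub ((sg_deriv x).pow 3))).div_const 2
  refine h2.congr_deriv ?_
  norm_num
  ring

lemma k1_pos (x : ℝ) : 0 < k1 x := by
  unfold k1
  have h1 := sg_pos x
  have h2 := sg_sq_lt x
  nlinarith [mul_pos h1 (by linarith : 0 < 1 - sg x ^ 2)]

lemma k1_le (x : ℝ) : k1 x ≤ 1 := by
  unfold k1
  have h1 := sg_pos x
  have h2 := sg_lt x
  nlinarith [pow_pos h1 3]

lemma k2_abs (x : ℝ) : |k2 x| ≤ k1 x := by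
  have h0 := k1_pos x
  have e : k2 x = (1 - 3 * sg x ^ 2) / 2 * k1 x := by unfold k2 k1; ring
  rw [e, abs_mul, abs_of_pos h0]
  have h1 : |(1 - 3 * sg x ^ 2) / 2| ≤ 1 := by
    have h2 := sg_sq_lt x
    have h3 : 0 ≤ sg x ^ 2 := sq_nonneg _
    rw [abs_le]
    constructor <;> linarith
  nlinarith

lemma k1_lip (x y : ℝ) : |k1 x - k1 y| ≤ |x - y| := by
  have h := Convex.norm_image_sub_le_of_norm_hasDerivWithin_le (f := k1) (f' := k2) (s := univ) (C := 1)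
    (x := y) (y := x) (fun z _ => (k1_deriv z).hasDerivWithinAt)
    (fun z _ => by
      rw [Real.norm_eq_abs]
      exact (k2_abs z).trans (k1_le z)) convex_univ (mem_univ _) (mem_univ _)
  simpa using h

lemma k2_lip (x y : ℝ) : |k2 x - k2 y| ≤ 7 * |x - y| := by
  have h := Convex.norm_image_sub_le_of_norm_hasDerivWithin_le (f := k2)
    (f' := fun x => (1 - 12 * sg x ^ 2 + 15 * sg x ^ 4) * (sg x * (1 - sg x ^ 2)) / 4) (s := univ) (C := 7)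
    (x := y) (y := x) (fun z _ => (k2_deriv z).hasDerivWithinAt)
    (fun z _ => by
      rw [Real.norm_eq_abs]
      have h1 := sg_pos z
      have h2 := sg_lt z
      have h3 := sg_sq_lt z
      have h4 : 0 ≤ sg z ^ 2 := sq_nonneg _
      have h5 : 0 ≤ sg z ^ 4 := by positivity
      have h6 : sg z ^ 4 ≤ 1 := by
        have : sg z ^ 4 = (sg z ^ 2) ^ 2 := by ring
        rw [this]
        exact pow_le_one₀ h4 h3.le
      have h7 : |1 - 12 * sg z ^ 2 + 15 * sg z ^ 4| ≤ 28 := by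
        rw [abs_le]
        constructor <;> linarith
      have h8 : |sg z * (1 - sg z ^ 2)| ≤ 1 := by
        rw [abs_mul, abs_of_pos h1, abs_of_pos (by linarith : 0 < 1 - sg z ^ 2)]
        nlinarith
      rw [abs_div, abs_mul]
      have h9 : |1 - 12 * sg z ^ 2 + 15 * sg z ^ 4| * |sg z * (1 - sg z ^ 2)| ≤ 28 * 1 :=
        mul_le_mul h7 h8 (abs_nonneg _) (by norm_num)
      rw [abs_of_pos (by norm_num : (0 : ℝ) < 4)]
      linarith) convex_univ (mem_univ _) (mem_univ _)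
  simpa using h

lemma sg_mono : Monotone sg := by
  apply monotone_of_deriv_nonneg (fun x => (sg_deriv x).differentiableAt)
  intro x
  rw [(sg_deriv x).deriv]
  have h1 := sg_pos x
  have h2 := sg_sq_lt x
  have : 0 < sg x * (1 - sg x ^ 2) := mul_pos h1 (by linarith)
  linarith

/-- `log (1 + e^{-x})` -/
noncomputable def sp (x : ℝ) : ℝ := Real.log (1 + Real.exp (-x))

lemma sp_sm : ContDiff ℝ ∞ sp := by
  unfold sp
  apply ContDiff.log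
  · exact contDiff_const.add (Real.contDiff_exp.comp contDiff_neg)
  · intro x
    have := Real.exp_pos (-x)
    positivity

lemma sp_deriv (x : ℝ) : HasDerivAt sp (-(1 - sg x ^ 2)) x := by
  have he := Real.exp_pos (-x)
  have h1 : HasDerivAt (fun x : ℝ => 1 + Real.exp (-x)) (-Real.exp (-x)) x := by
    have h := ((Real.hasDerivAt_exp (-x)).comp x (hasDerivAt_neg x))
    have h2 := h.const_add 1
    simpa using h2
  refine (h1.log (by positivity)).congr_deriv ?_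
  rw [sg_sq]
  field_simp
  ring

lemma sp_deriv2 (x : ℝ) : HasDerivAt (fun x => -(1 - sg x ^ 2)) (sg x ^ 2 * (1 - sg x ^ 2)) x := by
  refine ((((sg_deriv x).pow 2).const_sub 1).neg).congr_deriv ?_
  norm_num
  ring

/-! ### pointwise inequalities -/

lemma tri1 (a β : ℂ) : ‖a - β‖ ^ 2 ≤ 2 * ‖a‖ ^ 2 + 2 * ‖β‖ ^ 2 := by
  have h : ‖a - β‖ ≤ ‖a‖ + ‖β‖ := norm_sub_le a β
  nlinarith [norm_nonneg (a - β), sq_nonneg (‖a‖ - ‖β‖)]

lemma tri2 (a β : ℂ) : |‖a - β‖ ^ 2 - ‖a‖ ^ 2| ≤ 2 * ‖a‖ * ‖β‖ + ‖β‖ ^ 2 := by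
  have h : ‖a - β‖ ≤ ‖a‖ + ‖β‖ := norm_sub_le a β
  have h2 : ‖a‖ - ‖β‖ ≤ ‖a - β‖ := norm_sub_norm_le a β
  have h3 : ‖β‖ - ‖a‖ ≤ ‖a - β‖ := by
    have := norm_sub_norm_le β a
    rwa [norm_sub_rev] at this
  have h4 := norm_nonneg a
  have h5 := norm_nonneg β
  have h6 := norm_nonneg (a - β)
  rw [abs_le]
  constructor
  · rcases le_total ‖a‖ ‖β‖ with h7 | h7
    · nlinarith
    · nlinarith
  · nlinarith

/-- outside the tube -/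
lemma alg_out {t L Γ q1 q1T q2 q2T e : ℝ} {a β : ℂ} (hΓ : 2 ≤ Γ) (ht : 0 ≤ t)
    (hL : Γ * ‖β‖ ^ 2 ≤ L) (h1 : 0 ≤ q1) (h1' : q1 ≤ 1) (h2 : |q2| ≤ q1) (hd1 : |q1 - q1T| ≤ e)
    (hd2 : |q2 - q2T| ≤ 7 * e) :
    -(e * t + 7 * e * ‖a‖ ^ 2 + 2 / Γ * ‖a‖ ^ 2) ≤
      -(q1 * (t - L) + q2 * ‖a - β‖ ^ 2 - q1T * t - q2T * ‖a‖ ^ 2) := by
  have hΓ0 : 0 < Γ := by linarith
  have e1 : (q1 - q1T) * t ≤ e * t := mul_le_mul_of_nonneg_right ((le_abs_self _).trans hd1) ht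
  have e2 : (q2 - q2T) * ‖a‖ ^ 2 ≤ 7 * e * ‖a‖ ^ 2 :=
    mul_le_mul_of_nonneg_right ((le_abs_self _).trans hd2) (by positivity)
  have e3 : q2 * (‖a - β‖ ^ 2 - ‖a‖ ^ 2) ≤ q1 * (2 * ‖a‖ * ‖β‖ + ‖β‖ ^ 2) := by
    calc q2 * (‖a - β‖ ^ 2 - ‖a‖ ^ 2) ≤ |q2 * (‖a - β‖ ^ 2 - ‖a‖ ^ 2)| := le_abs_self _
      _ = |q2| * |‖a - β‖ ^ 2 - ‖a‖ ^ 2| := abs_mul _ _
      _ ≤ q1 * (2 * ‖a‖ * ‖β‖ + ‖β‖ ^ 2) := by
          apply mul_le_mul h2 (tri2 a β) (abs_nonneg _) h1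
  have e4 : 2 * ‖a‖ * ‖β‖ + ‖β‖ ^ 2 ≤ L + 2 / Γ * ‖a‖ ^ 2 := by
    have h5 : 2 * ‖a‖ * ‖β‖ ≤ Γ / 2 * ‖β‖ ^ 2 + 2 / Γ * ‖a‖ ^ 2 := by
      have h6 : 0 ≤ (Γ / 2) * (‖β‖ - 2 / Γ * ‖a‖) ^ 2 := by positivity
      have h7 : (Γ / 2) * (‖β‖ - 2 / Γ * ‖a‖) ^ 2 = Γ / 2 * ‖β‖ ^ 2 + 2 / Γ * ‖a‖ ^ 2 - 2 * ‖a‖ * ‖β‖ := by
        field_simp
        ring
      linarith
    have h8 : ‖β‖ ^ 2 ≤ Γ / 2 * ‖β‖ ^ 2 := by nlinarith [sq_nonneg ‖β‖]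
    nlinarith
  have e5 : q1 * (2 * ‖a‖ * ‖β‖ + ‖β‖ ^ 2) ≤ q1 * L + 2 / Γ * ‖a‖ ^ 2 := by
    have h6 : q1 * (2 * ‖a‖ * ‖β‖ + ‖β‖ ^ 2) ≤ q1 * (L + 2 / Γ * ‖a‖ ^ 2) :=
      mul_le_mul_of_nonneg_left e4 h1
    have h7 : q1 * (2 / Γ * ‖a‖ ^ 2) ≤ 1 * (2 / Γ * ‖a‖ ^ 2) :=
      mul_le_mul_of_nonneg_right h1' (by positivity)
    nlinarith
  nlinarith

/-- inside the tube -/
lemma alg_in {t L Γ q1 q1T q2 q2T : ℝ} {a β : ℂ} (hΓ : 0 < Γ) (ht : 0 ≤ t)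
    (hL : Γ * ‖β‖ ^ 2 ≤ L) (h1 : 0 ≤ q1) (h1' : q1 ≤ 1) (h2 : |q2| ≤ q1) (h1T : 0 ≤ q1T) (h2T : |q2T| ≤ 1) :
    q1 * (1 - 2 / Γ) * L - t - 3 * ‖a‖ ^ 2 ≤
      -(q1 * (t - L) + q2 * ‖a - β‖ ^ 2 - q1T * t - q2T * ‖a‖ ^ 2) := by
  have e1 : q2 * ‖a - β‖ ^ 2 ≤ q1 * (2 * ‖a‖ ^ 2 + 2 * ‖β‖ ^ 2) := by
    calc q2 * ‖a - β‖ ^ 2 ≤ q1 * ‖a - β‖ ^ 2 :=
          mul_le_mul_of_nonneg_right ((le_abs_self _).trans h2) (by positivity)
      _ ≤ _ := mul_le_mul_of_nonneg_left (tri1 a β) h1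
  have e2 : q1 * ‖β‖ ^ 2 ≤ q1 * (L / Γ) := by
    apply mul_le_mul_of_nonneg_left _ h1
    rw [le_div_iff₀ hΓ]
    linarith
  have e3 : q1 * t ≤ 1 * t := mul_le_mul_of_nonneg_right h1' ht
  have e4 : q1 * ‖a‖ ^ 2 ≤ 1 * ‖a‖ ^ 2 := mul_le_mul_of_nonneg_right h1' (by positivity)
  have e5 : -(1 * ‖a‖ ^ 2) ≤ q2T * ‖a‖ ^ 2 := by
    have : -1 ≤ q2T := (abs_le.1 h2T).1
    nlinarith [sq_nonneg ‖a‖]
  have e6 : 0 ≤ q1T * t := mul_nonneg h1T ht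
  have e7 : q1 * (1 - 2 / Γ) * L = q1 * L - 2 * (q1 * (L / Γ)) := by
    field_simp
  rw [e7]
  nlinarith

/-- upper bound for the Levi form of `Φ` -/
lemma alg_phi {t L Γ s : ℝ} {a β : ℂ} (hΓ : 8 ≤ Γ) (hL : Γ * ‖β‖ ^ 2 ≤ L)
    (hs : 0 ≤ s) (hs1 : s ≤ 1) :
    s * t + (1 - s) * L + s * (1 - s) * ‖a - β‖ ^ 2 ≤ s * (t + 2 * ‖a‖ ^ 2) + (1 - s) * (5 / 4) * L := by
  have hΓ0 : 0 < Γ := by linarith
  have e1 : s * (1 - s) * ‖a - β‖ ^ 2 ≤ s * (1 - s) * (2 * ‖a‖ ^ 2 + 2 * ‖β‖ ^ 2) :=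
    mul_le_mul_of_nonneg_left (tri1 a β) (mul_nonneg hs (by linarith))
  have e2 : s * (1 - s) * ‖a‖ ^ 2 ≤ s * ‖a‖ ^ 2 := by
    apply mul_le_mul_of_nonneg_right _ (by positivity)
    nlinarith
  have e3 : s * (1 - s) * ‖β‖ ^ 2 ≤ (1 - s) * (L / 8) := by
    have h1 : ‖β‖ ^ 2 ≤ L / 8 := by nlinarith [sq_nonneg ‖β‖]
    have h2 : s * (1 - s) * ‖β‖ ^ 2 ≤ 1 * (1 - s) * ‖β‖ ^ 2 := by
      apply mul_le_mul_of_nonneg_right _ (by positivity)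
      nlinarith
    have h3 : (1 - s) * ‖β‖ ^ 2 ≤ (1 - s) * (L / 8) := mul_le_mul_of_nonneg_left h1 (by linarith)
    linarith
  nlinarith

end Pool.Agent.H805K
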