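import Mathlib
import Pool.Agent.H805K.Det
import Pool.Agent.H805K.Fun

set_option autoImplicit false
set_option maxHeartbeats 1000000

open MeasureTheory Metric Set Filter Topology Matrix
open scoped ContDiff ComplexOrder

namespace Pool.Agent.H805K
open Pool.Agent.H805R2

lemma levi_z0 (z ζ : Cn 3) : levi (fun y : Cn 3 => ‖y 0‖ ^ 2) z ζ = ‖ζ 0‖ ^ 2 := by
  rw [levi_nsq (coord_sm 0), coord_fd]

lemma hess_z0 (z : Cn 3) : hess (fun y : Cn 3 => ‖y 0‖ ^ 2) z = E00 := by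
  have hsm : ContDiff ℝ 2 (fun y : Cn 3 => ‖y 0‖ ^ 2) := (nsq_sm (coord_sm 0)).of_le ss_le
  have hD : ∀ ξ ζ : Cn 3, fderiv ℝ (fderiv ℝ (fun y : Cn 3 => ‖y 0‖ ^ 2)) z ξ ζ =
      2 * inner ℝ (ξ 0) (ζ 0) := by
    intro ξ ζ
    have h := D2_nsq (coord_sm 0) z ξ ζ
    rw [D2, coord_fd, coord_fd] at h
    rw [h]
    have h0 : fderiv ℂ (fun z : Cn 3 => z 0) = fun _ => (EuclideanSpace.proj 0 : Cn 3 →L[ℂ] ℂ) := by
      funext y
      exact (EuclideanSpace.proj 0 : Cn 3 →L[ℂ] ℂ).hasFDerivAt.fderiv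
    rw [h0, fderiv_fun_const]
    simp
  ext j k
  rw [hess_eq_sesq hsm, sesq, hD, hD, hD, hD]
  fin_cases j <;> fin_cases k <;> simp [bas, E00, Complex.inner]
  norm_num

/-- determinant from below -/
lemma quad_low {u b : Cn 3 → ℝ} (hu : ContDiff ℝ ∞ u) (hb : ContDiff ℝ ∞ b) {z : Cn 3} {A B : ℝ}
    (hA : 0 ≤ A) (hB : 0 ≤ B) (hbp : (hess b z).PosSemidef) (hdet : (hess b z).det = 0)
    (h : ∀ ζ, A * ‖ζ 0‖ ^ 2 + B * levi b z ζ ≤ levi u z ζ) :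
    A * B ^ 2 * (mnr (hess b z)).re ≤ (hess u z).det.re := by
  have hz0 : ContDiff ℝ ∞ (fun y : Cn 3 => ‖y 0‖ ^ 2) := nsq_sm (coord_sm 0)
  have hw : ContDiff ℝ ∞ (fun y : Cn 3 => A * ‖y 0‖ ^ 2 + B * b y) :=
    (contDiff_const.mul hz0).add (contDiff_const.mul hb)
  have hwl : ∀ ζ, levi (fun y : Cn 3 => A * ‖y 0‖ ^ 2 + B * b y) z ζ = A * ‖ζ 0‖ ^ 2 + B * levi b z ζ := by
    intro ζ
    rw [levi_add' (contDiff_const.mul hz0) (contDiff_const.mul hb), levi_const_mul' _ hz0,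
      levi_const_mul' _ hb, levi_z0]
  have hwh : hess (fun y : Cn 3 => A * ‖y 0‖ ^ 2 + B * b y) z = (A : ℂ) • E00 + (B : ℂ) • hess b z := by
    rw [hess_add_smul (fun y : Cn 3 => A * ‖y 0‖ ^ 2) b (contDiff_const.mul hz0) hb, hess_const_mul A hz0,
      hess_z0]
  have h1 := hess_sub_psd hu hw z (fun ζ => by rw [hwl]; exact h ζ)
  have h2 : (hess (fun y : Cn 3 => A * ‖y 0‖ ^ 2 + B * b y) z).PosSemidef := by
    rw [psd_iff hw]
    intro ζ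
    rw [hwl]
    have := (psd_iff hb z).1 hbp ζ
    positivity
  have h3 := det_mono_psd _ _ h2 h1
  rw [hwh, det_E00_add _ hdet] at h3
  have e1 : ((A : ℂ) * (B : ℂ) ^ 2 * mnr (hess b z)).re = A * B ^ 2 * (mnr (hess b z)).re := by
    rw [← Complex.ofReal_pow, ← Complex.ofReal_mul, Complex.re_ofReal_mul]
  rwa [e1] at h3

/-- determinant from above -/
lemma quad_up {u b : Cn 3 → ℝ} (hu : ContDiff ℝ ∞ u) (hb : ContDiff ℝ ∞ b) {z : Cn 3} {A B : ℝ}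
    (hup : (hess u z).PosSemidef) (hdet : (hess b z).det = 0)
    (h : ∀ ζ, levi u z ζ ≤ A * ‖ζ 0‖ ^ 2 + B * levi b z ζ) :
    (hess u z).det.re ≤ A * B ^ 2 * (mnr (hess b z)).re := by
  have hz0 : ContDiff ℝ ∞ (fun y : Cn 3 => ‖y 0‖ ^ 2) := nsq_sm (coord_sm 0)
  have hw : ContDiff ℝ ∞ (fun y : Cn 3 => A * ‖y 0‖ ^ 2 + B * b y) :=
    (contDiff_const.mul hz0).add (contDiff_const.mul hb)
  have hwl : ∀ ζ, levi (fun y : Cn 3 => A * ‖y 0‖ ^ 2 + B * b y) z ζ = A * ‖ζ 0‖ ^ 2 + B * levi b z ζ := by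
    intro ζ
    rw [levi_add' (contDiff_const.mul hz0) (contDiff_const.mul hb), levi_const_mul' _ hz0,
      levi_const_mul' _ hb, levi_z0]
  have hwh : hess (fun y : Cn 3 => A * ‖y 0‖ ^ 2 + B * b y) z = (A : ℂ) • E00 + (B : ℂ) • hess b z := by
    rw [hess_add_smul (fun y : Cn 3 => A * ‖y 0‖ ^ 2) b (contDiff_const.mul hz0) hb, hess_const_mul A hz0,
      hess_z0]
  have h1 := hess_sub_psd hw hu z (fun ζ => by rw [hwl]; exact h ζ)
  have h3 := det_mono_psd _ _ hup h1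
  rw [hwh, det_E00_add _ hdet] at h3
  have e1 : ((A : ℂ) * (B : ℂ) ^ 2 * mnr (hess b z)).re = A * B ^ 2 * (mnr (hess b z)).re := by
    rw [← Complex.ofReal_pow, ← Complex.ofReal_mul, Complex.re_ofReal_mul]
  rwa [e1] at h3

lemma mnr_nonneg {H : Matrix (Fin 3) (Fin 3) ℂ} (hH : H.PosSemidef) : 0 ≤ (mnr H).re := by
  have h1 := hH.submatrix (fun k : Fin 2 => if k = 0 then (1 : Fin 3) else 2)
  have h2 := (Complex.nonneg_iff.1 h1.det_nonneg).1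
  rw [det_fin_two] at h2
  simpa [mnr] using h2

/-- degenerate direction -/
lemma det_zero_of_levi {n : ℕ} {b : Cn n → ℝ} (hb : ContDiff ℝ ∞ b) {z ζ : Cn n} (hp : (hess b z).PosSemidef)
    (hζ : ζ ≠ 0) (h : levi b z ζ = 0) : (hess b z).det = 0 := by
  have h1 := levi_eq_qf (hb.of_le ss_le) z ζ
  rw [h, Complex.ofReal_zero] at h1
  have h2 := (hp.dotProduct_mulVec_zero_iff (fun k => star (ζ k))).1 h1.symm
  rw [← Matrix.exists_mulVec_eq_zero_iff]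
  refine ⟨fun k => star (ζ k), ?_, h2⟩
  intro h3
  apply hζ
  ext k
  have := congrFun h3 k
  simpa using this

end Pool.Agent.H805K
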