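import Mathlib
import Pool.Agent.H805K.Quad
import Pool.Agent.H805K.Bounds
import Pool.Agent.H805K.Prof

set_option autoImplicit false
set_option maxHeartbeats 1000000

open MeasureTheory Metric Set Filter Topology
open scoped ContDiff ComplexOrder

namespace Pool.Agent.H805K
open Pool.Agent.H805R2

/-- the small function `v` -/
noncomputable def vf (δ : ℝ) (T b : Cn 3 → ℝ) (z : Cn 3) : ℝ := -δ * (2 * sg (T z - b z) - 2 * sg (T z))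

/-- the potential `Φ` of the measure -/
noncomputable def Phi (m : ℝ) (T b : Cn 3 → ℝ) (z : Cn 3) : ℝ := m * (T z + sp (T z - b z))

section
variable {T b : Cn 3 → ℝ} (hT : ContDiff ℝ ∞ T) (hb : ContDiff ℝ ∞ b)
include hT hb

lemma vf_sm (δ : ℝ) : ContDiff ℝ ∞ (vf δ T b) := by
  unfold vf
  exact contDiff_const.mul (((contDiff_const.mul sg_sm).comp (hT.sub hb)).sub
    ((contDiff_const.mul sg_sm).comp hT))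

lemma vf_levi (δ : ℝ) (z ζ : Cn 3) : levi (vf δ T b) z ζ =
    δ * (-(k1 (T z - b z) * (levi T z ζ - levi b z ζ) + k2 (T z - b z) * ‖dl T z ζ - dl b z ζ‖ ^ 2 -
      k1 (T z) * levi T z ζ - k2 (T z) * ‖dl T z ζ‖ ^ 2)) := by
  have hD : ContDiff ℝ ∞ (fun y => T y - b y) := hT.sub hb
  have e1 : levi (fun y => 2 * sg (T y - b y)) z ζ = k1 (T z - b z) * (levi T z ζ - levi b z ζ) +
      k2 (T z - b z) * ‖dl T z ζ - dl b z ζ‖ ^ 2 := by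
    rw [levi_comp_loc (Φ := fun x => 2 * sg x) (Φ' := k1) hD z (Eventually.of_forall fun x => kk_deriv x)
      (k1_deriv _), levi_sub' hT hb, dl_sub hT hb]
  have e2 : levi (fun y => 2 * sg (T y)) z ζ = k1 (T z) * levi T z ζ + k2 (T z) * ‖dl T z ζ‖ ^ 2 :=
    levi_comp_loc (Φ := fun x => 2 * sg x) (Φ' := k1) hT z (Eventually.of_forall fun x => kk_deriv x)
      (k1_deriv _) ζ
  have s1 : ContDiff ℝ ∞ (fun y => 2 * sg (T y - b y)) := (contDiff_const.mul sg_sm).comp hD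
  have s2 : ContDiff ℝ ∞ (fun y => 2 * sg (T y)) := (contDiff_const.mul sg_sm).comp hT
  unfold vf
  rw [levi_const_mul' _ (s1.sub s2), levi_sub' s1 s2, e1, e2]
  ring

lemma Phi_sm (m : ℝ) : ContDiff ℝ ∞ (Phi m T b) := by
  unfold Phi
  exact contDiff_const.mul (hT.add (sp_sm.comp (hT.sub hb)))

lemma Phi_levi (m : ℝ) (z ζ : Cn 3) : levi (Phi m T b) z ζ =
    m * (sg (T z - b z) ^ 2 * levi T z ζ + (1 - sg (T z - b z) ^ 2) * levi b z ζ +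
      sg (T z - b z) ^ 2 * (1 - sg (T z - b z) ^ 2) * ‖dl T z ζ - dl b z ζ‖ ^ 2) := by
  have hD : ContDiff ℝ ∞ (fun y => T y - b y) := hT.sub hb
  have s1 : ContDiff ℝ ∞ (fun y => sp (T y - b y)) := sp_sm.comp hD
  unfold Phi
  rw [levi_const_mul' _ (hT.add s1), levi_add' hT s1,
    levi_comp_loc (Φ := sp) (Φ' := fun x => -(1 - sg x ^ 2)) hD z (Eventually.of_forall fun x => sp_deriv x)
      (sp_deriv2 _), levi_sub' hT hb, dl_sub hT hb]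
  ring

end

lemma vf_le {δ : ℝ} (hδ : 0 ≤ δ) (T b : Cn 3 → ℝ) (z : Cn 3) (h : b z ≤ 0) : vf δ T b z ≤ 0 := by
  unfold vf
  have := sg_mono (by linarith : T z ≤ T z - b z)
  nlinarith

lemma vf_ge {δ : ℝ} (hδ : 0 ≤ δ) (T b : Cn 3 → ℝ) (z : Cn 3) : -(2 * δ) ≤ vf δ T b z := by
  unfold vf
  have h1 := sg_lt (T z - b z)
  have h2 := sg_pos (T z)
  nlinarith

lemma Phi_nonneg_levi {m : ℝ} (hm : 0 ≤ m) {T b : Cn 3 → ℝ} (hT : ContDiff ℝ ∞ T) (hb : ContDiff ℝ ∞ b)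
    (z ζ : Cn 3) (h1 : 0 ≤ levi T z ζ) (h2 : 0 ≤ levi b z ζ) : 0 ≤ levi (Phi m T b) z ζ := by
  rw [Phi_levi hT hb]
  have h3 := sg_sq_lt (T z - b z)
  have h4 : 0 ≤ 1 - sg (T z - b z) ^ 2 := by linarith
  positivity

/-- Levi form outside the tube -/
lemma vf_out {δ Γ e G : ℝ} (hδ : 0 ≤ δ) (hΓ : 2 ≤ Γ) (he : 0 ≤ e) {T b : Cn 3 → ℝ}
    (hT : ContDiff ℝ ∞ T) (hb : ContDiff ℝ ∞ b) (z ζ : Cn 3)
    (hT0 : 0 ≤ levi T z ζ) (hT1 : levi T z ζ ≤ G * ‖ζ 0‖ ^ 2) (hT2 : ‖dl T z ζ‖ ^ 2 ≤ 11 / 4 * (G * ‖ζ 0‖ ^ 2))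
    (hL : Γ * ‖dl b z ζ‖ ^ 2 ≤ levi b z ζ) (hb0 : b z ≤ 0) (hbe : -e ≤ b z) :
    -(δ * (81 / 4 * e + 11 / (2 * Γ)) * G * ‖ζ 0‖ ^ 2) ≤ levi (vf δ T b) z ζ := by
  rw [vf_levi hT hb]
  have hdist : |T z - b z - T z| ≤ e := by
    rw [show T z - b z - T z = -b z by ring, abs_neg, abs_le]
    constructor <;> linarith
  have h := alg_out (t := levi T z ζ) (L := levi b z ζ) (Γ := Γ) (q1 := k1 (T z - b z)) (q1T := k1 (T z))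
    (q2 := k2 (T z - b z)) (q2T := k2 (T z)) (e := e) (a := dl T z ζ) (β := dl b z ζ) hΓ hT0 hL (k1_pos _).le
    (k1_le _) (k2_abs _) ((k1_lip _ _).trans hdist) ((k2_lip _ _).trans (by linarith))
  have h2 := mul_le_mul_of_nonneg_left h hδ
  refine le_trans ?_ h2
  have hΓ0 : 0 < Γ := by linarith
  have h3 : e * levi T z ζ ≤ e * (G * ‖ζ 0‖ ^ 2) := mul_le_mul_of_nonneg_left hT1 he
  have h4 : 7 * e * ‖dl T z ζ‖ ^ 2 ≤ 7 * e * (11 / 4 * (G * ‖ζ 0‖ ^ 2)) :=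
    mul_le_mul_of_nonneg_left hT2 (by positivity)
  have h5 : 2 / Γ * ‖dl T z ζ‖ ^ 2 ≤ 2 / Γ * (11 / 4 * (G * ‖ζ 0‖ ^ 2)) :=
    mul_le_mul_of_nonneg_left hT2 (by positivity)
  have h6 : δ * (e * levi T z ζ + 7 * e * ‖dl T z ζ‖ ^ 2 + 2 / Γ * ‖dl T z ζ‖ ^ 2) ≤
      δ * (e * (G * ‖ζ 0‖ ^ 2) + 7 * e * (11 / 4 * (G * ‖ζ 0‖ ^ 2)) + 2 / Γ * (11 / 4 * (G * ‖ζ 0‖ ^ 2))) :=
    mul_le_mul_of_nonneg_left (by linarith) hδ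
  have h7 : δ * (e * (G * ‖ζ 0‖ ^ 2) + 7 * e * (11 / 4 * (G * ‖ζ 0‖ ^ 2)) + 2 / Γ * (11 / 4 * (G * ‖ζ 0‖ ^ 2))) =
      δ * (81 / 4 * e + 11 / (2 * Γ)) * G * ‖ζ 0‖ ^ 2 := by
    field_simp
    ring
  linarith

/-- Levi form inside the tube -/
lemma vf_in {K δ Γ Λ kmin g : ℝ} (hK : 0 < K) (hδ : δ = 1 / (600 * K)) (hΓ : 8 ≤ Γ)
    {T b : Cn 3 → ℝ} (hT : ContDiff ℝ ∞ T) (hb : ContDiff ℝ ∞ b) (z ζ : Cn 3) {x1 x2 d1 d2 : ℂ}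
    (hx1 : ζ 1 = x1 + d1 * ζ 0) (hx2 : ζ 2 = x2 + d2 * ζ 0) (hg : g / 8 ≤ ‖d1‖ ^ 2 + ‖d2‖ ^ 2) (hg0 : 0 ≤ g)
    (hT0 : 0 ≤ levi T z ζ) (hT1 : levi T z ζ ≤ K * g * ‖ζ 0‖ ^ 2)
    (hT2 : ‖dl T z ζ‖ ^ 2 ≤ 11 / 4 * (K * g * ‖ζ 0‖ ^ 2))
    (hL : Γ * ‖dl b z ζ‖ ^ 2 ≤ levi b z ζ) (hΛ : Λ * (‖x1‖ ^ 2 + ‖x2‖ ^ 2) ≤ levi b z ζ)
    (hkmin : 0 < kmin) (hk : kmin ≤ k1 (T z - b z)) (hΛk : 1 ≤ Λ * (δ * kmin)) :
    g / 64 * ‖ζ 0‖ ^ 2 + δ * k1 (T z - b z) / 4 * levi b z ζ ≤ 1 / 2 * ‖ζ‖ ^ 2 + levi (vf δ T b) z ζ := by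
  have hδ0 : 0 < δ := by rw [hδ]; positivity
  have hL0 : 0 ≤ levi b z ζ := le_trans (by positivity) hL
  rw [vf_levi hT hb]
  have h2T : |k2 (T z)| ≤ 1 := (k2_abs _).trans (k1_le _)
  have h := alg_in (t := levi T z ζ) (L := levi b z ζ) (Γ := Γ) (q1 := k1 (T z - b z)) (q1T := k1 (T z))
    (q2 := k2 (T z - b z)) (q2T := k2 (T z)) (a := dl T z ζ) (β := dl b z ζ) (by linarith) hT0 hL (k1_pos _).le
    (k1_le _) (k2_abs _) (k1_pos _).le h2T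
  have h2 := mul_le_mul_of_nonneg_left h hδ0.le
  have hn : ‖ζ‖ ^ 2 = ‖ζ 0‖ ^ 2 + ‖ζ 1‖ ^ 2 + ‖ζ 2‖ ^ 2 := by
    rw [EuclideanSpace.norm_sq_eq, Fin.sum_univ_three]
  have tri : ∀ x y : ℂ, ‖y‖ ^ 2 / 2 - ‖x‖ ^ 2 ≤ ‖x + y‖ ^ 2 := by
    intro x y
    have h3 : ‖y‖ ≤ ‖x + y‖ + ‖x‖ := by
      have := norm_sub_le (x + y) x
      rwa [add_sub_cancel_left] at this
    nlinarith [norm_nonneg y, norm_nonneg x, norm_nonneg (x + y), sq_nonneg (‖x + y‖ - ‖x‖)]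
  have hz1 : ‖d1‖ ^ 2 * ‖ζ 0‖ ^ 2 / 2 - ‖x1‖ ^ 2 ≤ ‖ζ 1‖ ^ 2 := by
    have := tri x1 (d1 * ζ 0)
    rw [norm_mul, mul_pow] at this
    rwa [hx1]
  have hz2 : ‖d2‖ ^ 2 * ‖ζ 0‖ ^ 2 / 2 - ‖x2‖ ^ 2 ≤ ‖ζ 2‖ ^ 2 := by
    have := tri x2 (d2 * ζ 0)
    rw [norm_mul, mul_pow] at this
    rwa [hx2]
  set q := k1 (T z - b z) with hq
  set L := levi b z ζ with hLdef
  set X := ‖x1‖ ^ 2 + ‖x2‖ ^ 2 with hX
  have hX0 : 0 ≤ X := by positivity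
  have hXL : X ≤ δ * q * L := by
    have h3 : X ≤ Λ * (δ * kmin) * X := by nlinarith
    have h4 : Λ * (δ * kmin) * X = δ * kmin * (Λ * X) := by ring
    have h5 : δ * kmin * (Λ * X) ≤ δ * kmin * L := mul_le_mul_of_nonneg_left hΛ (by positivity)
    have h6 : δ * kmin * L ≤ δ * q * L := by
      apply mul_le_mul_of_nonneg_right _ hL0
      exact mul_le_mul_of_nonneg_left hk hδ0.le
    linarith
  have hdK : δ * K = 1 / 600 := by rw [hδ]; field_simp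
  have hz0 : 0 ≤ ‖ζ 0‖ ^ 2 := by positivity
  have hT3 : δ * (levi T z ζ + 3 * ‖dl T z ζ‖ ^ 2) ≤ 37 / 2400 * g * ‖ζ 0‖ ^ 2 := by
    have h3 : levi T z ζ + 3 * ‖dl T z ζ‖ ^ 2 ≤ 37 / 4 * (K * g * ‖ζ 0‖ ^ 2) := by linarith
    calc δ * (levi T z ζ + 3 * ‖dl T z ζ‖ ^ 2) ≤ δ * (37 / 4 * (K * g * ‖ζ 0‖ ^ 2)) :=
          mul_le_mul_of_nonneg_left h3 hδ0.le
      _ = 37 / 4 * (δ * K) * g * ‖ζ 0‖ ^ 2 := by ring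
      _ = _ := by rw [hdK]; ring
  have h2Γ : q * (1 - 2 / Γ) * L ≥ q * (3 / 4) * L := by
    have h3 : 2 / Γ ≤ 1 / 4 := by
      rw [div_le_div_iff₀ (by linarith) (by norm_num)]
      linarith
    apply mul_le_mul_of_nonneg_right _ hL0
    exact mul_le_mul_of_nonneg_left (by linarith) (k1_pos _).le
  have h2Γ' := mul_le_mul_of_nonneg_left h2Γ hδ0.le
  have hfg : g / 8 * ‖ζ 0‖ ^ 2 ≤ (‖d1‖ ^ 2 + ‖d2‖ ^ 2) * ‖ζ 0‖ ^ 2 := mul_le_mul_of_nonneg_right hg hz0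
  have hgz : 0 ≤ g * ‖ζ 0‖ ^ 2 := mul_nonneg hg0 hz0
  have hqL : 0 ≤ δ * q * L := le_trans hX0 hXL
  rw [hn]
  nlinarith

/-- upper bound for the Levi form of `Φ` -/
lemma Phi_up {K m Γ g : ℝ} (hm : 0 ≤ m) (hΓ : 8 ≤ Γ)
    {T b : Cn 3 → ℝ} (hT : ContDiff ℝ ∞ T) (hb : ContDiff ℝ ∞ b) (z ζ : Cn 3)
    (hT1 : levi T z ζ ≤ K * g * ‖ζ 0‖ ^ 2)
    (hT2 : ‖dl T z ζ‖ ^ 2 ≤ 11 / 4 * (K * g * ‖ζ 0‖ ^ 2))
    (hL : Γ * ‖dl b z ζ‖ ^ 2 ≤ levi b z ζ) :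
    levi (Phi m T b) z ζ ≤ m * (13 / 2) * (K * g) * sg (T z - b z) ^ 2 * ‖ζ 0‖ ^ 2 +
      m * (5 / 4) * (1 - sg (T z - b z) ^ 2) * levi b z ζ := by
  rw [Phi_levi hT hb]
  have h3 := sg_sq_lt (T z - b z)
  have h4 : 0 ≤ sg (T z - b z) ^ 2 := sq_nonneg _
  have h := alg_phi (t := levi T z ζ) (L := levi b z ζ) (Γ := Γ) (s := sg (T z - b z) ^ 2)
    (a := dl T z ζ) (β := dl b z ζ) hΓ hL h4 h3.le
  have h5 := mul_le_mul_of_nonneg_left h hm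
  refine h5.trans ?_
  have h6 : sg (T z - b z) ^ 2 * (levi T z ζ + 2 * ‖dl T z ζ‖ ^ 2) ≤
      sg (T z - b z) ^ 2 * (13 / 2 * (K * g * ‖ζ 0‖ ^ 2)) :=
    mul_le_mul_of_nonneg_left (by linarith) h4
  have h7 := mul_le_mul_of_nonneg_left h6 hm
  nlinarith

end Pool.Agent.H805K
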