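import Mathlib
import Pool.Agent.H805K.Block1
import Pool.Agent.H805K.Bfun

set_option autoImplicit false
set_option maxHeartbeats 1000000

open MeasureTheory Metric Set Filter Topology
open scoped ContDiff ComplexOrder

namespace Pool.Agent.H805K
open Pool.Agent.H805R2

/-- the constant `α` -/
noncomputable def alp : ℝ := Real.log 2 / (Real.log 2 + 1 / 44)

/-- the universal depth -/
noncomputable def cst : ℝ := 1 / 2000 * (alp / 88)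

lemma alp_half : 1 / 2 ≤ alp := by
  have h := Real.log_two_gt_d9
  unfold alp
  rw [div_le_div_iff₀ (by norm_num) (by linarith)]
  linarith

lemma alp_le_one : alp ≤ 1 := by
  have h := Real.log_two_gt_d9
  unfold alp
  rw [div_le_one (by linarith)]
  linarith

lemma alp_eq : alp * (Real.log 2 + 1 / 44) = Real.log 2 := by
  have h := Real.log_two_gt_d9
  unfold alp
  field_simp

lemma cst_pos : 0 < cst := by
  unfold cst
  have := alp_half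
  positivity

/-- A building block: everything about one spiralling curve that is needed later. -/
structure Blk (rm rp η : ℝ) where
  v : Cn 3 → ℝ
  N : Set (Cn 3)
  U : Set (Cn 3)
  ρ : Cn 3 → ℝ
  h : Cn 3 → ℝ
  V : Cn 3 → ℝ
  y : Cn 3
  d : ℝ
  v_sm : ContDiff ℝ ∞ v
  v_le : ∀ z, v z ≤ 0
  v_ge : ∀ z, -η ≤ v z
  v_out : ∀ z ∈ ball (0 : Cn 3) 3, z ∉ N → ∀ ζ, -(η * ‖ζ‖ ^ 2) ≤ levi v z ζ
  v_in : ∀ z ∈ ball (0 : Cn 3) 3, z ∈ N → ∀ ζ, 0 ≤ levi (fun y => 3 / 4 * ‖y‖ ^ 2 + v y) z ζ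
  v_det : ∀ z ∈ U, ρ z ≤ (hess (fun y => 3 / 4 * ‖y‖ ^ 2 + v y) z).det.re
  N_rp : ∀ z ∈ N, z ∈ ball (0 : Cn 3) 3 → ‖z 0‖ < rp
  N_rm : ∀ z ∈ N, z ∈ ball (0 : Cn 3) 3 → ‖z 0‖ ≤ rm → ‖z 1‖ ^ 2 + ‖z 2‖ ^ 2 < η ^ 2
  d_pos : 0 < d
  N_d : ∀ z ∈ N, z ∈ ball (0 : Cn 3) 3 → d ^ 2 ≤ ‖z 1‖ ^ 2 + ‖z 2‖ ^ 2
  U_open : IsOpen U
  U_N : U ⊆ N
  U_ball : U ⊆ ball (0 : Cn 3) 2
  ρ_cont : Continuous ρ
  ρ_pos : ∀ z ∈ U, 0 < ρ z
  h_sm : ContDiff ℝ ∞ h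
  h_bd : ∀ z ∈ frontier U, 0 ≤ h z
  h_det : ∀ z ∈ U, (hess h z).PosSemidef → (hess h z).det.re < ρ z
  y_mem : y ∈ U
  y_norm : ‖y‖ ≤ η
  h_y : h y ≤ -cst
  V_sm : ContDiff ℝ ∞ V
  V_psd : ∀ z ∈ ball (0 : Cn 3) 3, (hess V z).PosSemidef
  V_le : ∀ z ∈ ball (0 : Cn 3) 3, V z ≤ 0
  V_0 : -η ≤ V 0
  V_det : ∀ z ∈ U, ρ z ≤ (hess V z).det.re

lemma nz_sm : ContDiff ℝ ∞ (fun z : Cn 3 => ‖z‖ ^ 2) := contDiff_norm_sq ℝ

lemma nz_levi (z ζ : Cn 3) : levi (fun z : Cn 3 => ‖z‖ ^ 2) z ζ = ‖ζ‖ ^ 2 := by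
  have e : (fun z : Cn 3 => ‖z‖ ^ 2) = fun z => ∑ i : Fin 3, ‖z i‖ ^ 2 := by
    funext z
    exact EuclideanSpace.norm_sq_eq z
  rw [e, levi_sum _ fun i _ => nsq_sm (coord_sm i), EuclideanSpace.norm_sq_eq]
  apply Finset.sum_congr rfl
  intro i _
  rw [levi_nsq (coord_sm i), coord_fd]

lemma nz_hess (z : Cn 3) : hess (fun z : Cn 3 => ‖z‖ ^ 2) z = 1 := by
  have h := nsq_hess z
  rw [← h]
  have := hess_add_const (-1) (nz_sm) z
  simp only [← sub_eq_add_neg] at this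
  rw [this]

/-- adding a multiple of the identity -/
lemma det_add_nz {u : Cn 3 → ℝ} (hu : ContDiff ℝ ∞ u) (z : Cn 3) {e : ℝ} (he : 0 ≤ e)
    (hp : (hess u z).PosSemidef) :
    (hess u z).det.re + e ^ 3 ≤ (hess (fun y => u y + e * ‖y‖ ^ 2) z).det.re := by
  rw [hess_add_smul u _ hu nz_sm e z, nz_hess]
  exact det_add_smul_one _ hp he

lemma norm_sq3 (z : Cn 3) : ‖z‖ ^ 2 = ‖z 0‖ ^ 2 + ‖z 1‖ ^ 2 + ‖z 2‖ ^ 2 := by
  rw [EuclideanSpace.norm_sq_eq, Fin.sum_univ_three]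

lemma norm_coord_le (z : Cn 3) (i : Fin 3) : ‖z i‖ ≤ ‖z‖ := PiLp.norm_apply_le z i

/-- the function `h` -/
noncomputable def hf (K N : ℕ) (R : ℝ) (b : Cn 3 → ℝ) (z : Cn 3) : ℝ :=
  Phi (1 / (2000 * K)) (Tf K N R) b z + ((-(alp / (2000 * K))) * Tf K N R z +
    (alp / 88000 * (‖fe K N R (z 0)‖ ^ 2 + ‖fo K N R (z 0)‖ ^ 2) +
      1 / 2000 * (Real.log 2 - alp * Real.log 2 - alp / 44 + alp / 176)))

lemma hf_sm (K N : ℕ) (R : ℝ) {b : Cn 3 → ℝ} (hb : ContDiff ℝ ∞ b) : ContDiff ℝ ∞ (hf K N R b) := by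
  unfold hf
  exact (Phi_sm (Tf_sm K N R) hb _).add ((contDiff_const.mul (Tf_sm K N R)).add
    ((contDiff_const.mul ((nsq_sm (fe_sm K N R)).add (nsq_sm (fo_sm K N R)))).add contDiff_const))

lemma hf_levi (K N : ℕ) (R : ℝ) {b : Cn 3 → ℝ} (hb : ContDiff ℝ ∞ b) (z ζ : Cn 3) :
    levi (hf K N R b) z ζ = levi (Phi (1 / (2000 * K)) (Tf K N R) b) z ζ -
      alp / (2000 * K) * levi (Tf K N R) z ζ +
      alp / 88000 * ((‖dfe K N R (z 0)‖ ^ 2 + ‖dfo K N R (z 0)‖ ^ 2) * ‖ζ 0‖ ^ 2) := by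
  have s1 := Phi_sm (Tf_sm K N R) hb (1 / (2000 * K))
  have s2 : ContDiff ℝ ∞ (fun z : Cn 3 => (-(alp / (2000 * K))) * Tf K N R z) :=
    contDiff_const.mul (Tf_sm K N R)
  have s3 : ContDiff ℝ ∞ (fun z : Cn 3 => ‖fe K N R (z 0)‖ ^ 2 + ‖fo K N R (z 0)‖ ^ 2) :=
    (nsq_sm (fe_sm K N R)).add (nsq_sm (fo_sm K N R))
  have s4 : ContDiff ℝ ∞ (fun z : Cn 3 => alp / 88000 * (‖fe K N R (z 0)‖ ^ 2 + ‖fo K N R (z 0)‖ ^ 2) +
      1 / 2000 * (Real.log 2 - alp * Real.log 2 - alp / 44 + alp / 176)) :=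
    (contDiff_const.mul s3).add contDiff_const
  unfold hf
  rw [levi_add' s1 (s2.add s4), levi_add' s2 s4, levi_const_mul' _ (Tf_sm K N R),
    levi_add' (contDiff_const.mul s3) contDiff_const, levi_const, levi_const_mul' _ s3,
    levi_add' (nsq_sm (fe_sm K N R)) (nsq_sm (fo_sm K N R)), levi_nsq (fe_sm K N R), levi_nsq (fo_sm K N R),
    fd_comp0 (fe_deriv K N R (z 0)), fd_comp0 (fo_deriv K N R (z 0)), norm_mul, norm_mul]
  ring

lemma hf_levi_le (K N : ℕ) (hN : 2 ≤ N) {R : ℝ} (hR : 0 < R) (hK : 0 < K) {b : Cn 3 → ℝ}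
    (hb : ContDiff ℝ ∞ b) (z ζ : Cn 3) (hz : ‖z 0‖ ≤ R) :
    levi (hf K N R b) z ζ ≤ levi (Phi (1 / (2000 * K)) (Tf K N R) b) z ζ := by
  have hK' : (0 : ℝ) < K := by exact_mod_cast hK
  rw [hf_levi K N R hb]
  have h1 := Tf_levi_ge K N hR hK z ζ hz
  have h2 := df_le K N hN hR hK (z 0)
  have h3 : (‖dfe K N R (z 0)‖ ^ 2 + ‖dfo K N R (z 0)‖ ^ 2) * ‖ζ 0‖ ^ 2 ≤ 11 * gg K N R (z 0) * ‖ζ 0‖ ^ 2 :=
    mul_le_mul_of_nonneg_right h2 (by positivity)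
  have ha : 0 < alp := by have := alp_half; linarith
  have h4 : alp / 88000 * ((‖dfe K N R (z 0)‖ ^ 2 + ‖dfo K N R (z 0)‖ ^ 2) * ‖ζ 0‖ ^ 2) ≤
      alp / 88000 * (11 * gg K N R (z 0) * ‖ζ 0‖ ^ 2) := mul_le_mul_of_nonneg_left h3 (by positivity)
  have h5 : alp / (2000 * K) * (K * gg K N R (z 0) * ‖ζ 0‖ ^ 2 / 4) ≤
      alp / (2000 * K) * levi (Tf K N R) z ζ := mul_le_mul_of_nonneg_left h1 (by positivity)
  have h6 : alp / (2000 * K) * (K * gg K N R (z 0) * ‖ζ 0‖ ^ 2 / 4) =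
      alp / 88000 * (11 * gg K N R (z 0) * ‖ζ 0‖ ^ 2) := by
    field_simp
    ring
  linarith

/-- elementary bounds for `Φ` -/
lemma Phi_ge_T {m : ℝ} (hm : 0 ≤ m) (T b : Cn 3 → ℝ) (z : Cn 3) : m * T z ≤ Phi m T b z := by
  unfold Phi
  apply mul_le_mul_of_nonneg_left _ hm
  have : 0 ≤ sp (T z - b z) := Real.log_nonneg (by have := Real.exp_pos (-(T z - b z)); linarith)
  linarith

lemma Phi_ge_b {m : ℝ} (hm : 0 ≤ m) (T b : Cn 3 → ℝ) (z : Cn 3) : m * b z ≤ Phi m T b z := by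
  unfold Phi
  apply mul_le_mul_of_nonneg_left _ hm
  have : -(T z - b z) ≤ sp (T z - b z) := by
    unfold sp
    rw [← Real.log_exp (-(T z - b z))]
    conv_rhs => rw [Real.log_exp]
    exact Real.log_le_log (Real.exp_pos _) (by linarith)
  linarith

/-- boundary values of `h` -/
lemma hf_bd (K N : ℕ) {R : ℝ} (hR : 0 < R) (hK : 0 < K) {b : Cn 3 → ℝ} (z : Cn 3)
    (hz : ‖z 0‖ ≤ R)
    (h : (-(1 / 352) ≤ b z) ∨ (‖z 0‖ = R) ∨ (1 ≤ ‖fe K N R (z 0)‖ ^ 2 + ‖fo K N R (z 0)‖ ^ 2)) :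
    0 ≤ hf K N R b z := by
  have hK' : (1 : ℝ) ≤ K := by exact_mod_cast hK
  have hK0 : (0 : ℝ) < K := by linarith
  have hm : (0 : ℝ) ≤ 1 / (2000 * K) := by positivity
  have hP1 := Phi_ge_T hm (Tf K N R) b z
  have hP2 := Phi_ge_b hm (Tf K N R) b z
  have hT0 := Tf_le_zero K N hR z hz
  have hT1 := Tf_ge K N R z
  have ha := alp_half
  have ha1 := alp_le_one
  have hae := alp_eq
  have hf0 : 0 ≤ alp / 88000 * (‖fe K N R (z 0)‖ ^ 2 + ‖fo K N R (z 0)‖ ^ 2) := by positivity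
  have hTneg : 0 ≤ -(alp / (2000 * K)) * Tf K N R z := by
    have h1 : 0 ≤ alp / (2000 * K) := by positivity
    nlinarith
  unfold hf
  rcases h with h | h | h
  · have h2 : 1 / (2000 * (K : ℝ)) * b z ≥ -(1 / 2000 * (1 / 352)) := by
      have h3 : 1 / (2000 * (K : ℝ)) ≤ 1 / 2000 := by
        apply one_div_le_one_div_of_le (by norm_num)
        linarith
      rcases le_total 0 (b z) with h4 | h4
      · have : 0 ≤ 1 / (2000 * (K : ℝ)) * b z := mul_nonneg hm h4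
        linarith
      · have h5 : 1 / (2000 * (K : ℝ)) * b z ≥ 1 / 2000 * b z := mul_le_mul_of_nonpos_right h3 h4
        linarith
    linarith
  · have h1 := Tf_eq_zero K N hR z h
    rw [h1] at hP1 ⊢
    linarith
  · have h1 : 1 / (2000 * (K : ℝ)) * Tf K N R z + -(alp / (2000 * K)) * Tf K N R z =
        1 / 2000 * ((1 - alp) * (Tf K N R z / K)) := by
      field_simp
      ring
    have h2 : -Real.log 2 ≤ Tf K N R z / K := by
      rw [le_div_iff₀ hK0]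
      linarith
    have h3 : (1 - alp) * (-Real.log 2) ≤ (1 - alp) * (Tf K N R z / K) :=
      mul_le_mul_of_nonneg_left h2 (by linarith)
    have h4 : alp / 88000 * 1 ≤ alp / 88000 * (‖fe K N R (z 0)‖ ^ 2 + ‖fo K N R (z 0)‖ ^ 2) :=
      mul_le_mul_of_nonneg_left h (by positivity)
    nlinarith

lemma fe_zero (K : ℕ) {N : ℕ} (hN : 2 ≤ N) (R : ℝ) : fe K N R 0 = 0 := by
  unfold fe
  rw [Finset.sum_eq_zero, mul_zero]
  intro j _
  have := nn_pos hN j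
  rw [zero_div, zero_pow (by omega)]

lemma fo_zero (K : ℕ) {N : ℕ} (hN : 2 ≤ N) (R : ℝ) : fo K N R 0 = 0 := by
  unfold fo
  rw [Finset.sum_eq_zero, mul_zero]
  intro j _
  have := nn_pos hN j
  rw [zero_div, zero_pow (by omega)]

/-- the value of `h` at the centre -/
lemma hf_center (K : ℕ) {N : ℕ} (hN : 2 ≤ N) (R : ℝ) (hK : 250 ≤ K) {b : Cn 3 → ℝ} (z : Cn 3)
    (hz : z 0 = 0) (hbz : b z = -(K : ℝ)) : hf K N R b z ≤ -cst := by
  have hK' : (250 : ℝ) ≤ K := by exact_mod_cast hK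
  have hK0 : (0 : ℝ) < K := by linarith
  have hT := Tf_center K hN R z hz
  have hl1 := Real.log_two_lt_d9
  have hl0 := Real.log_two_gt_d9
  have h1 : Phi (1 / (2000 * K)) (Tf K N R) b z ≤ -(1 / 2000) * Real.log 2 + 1 / 2000 * (Real.log 2 / K) := by
    unfold Phi
    rw [hT, hbz]
    have h2 : sp (-(K * Real.log 2) - -(K : ℝ)) ≤ Real.log 2 := by
      unfold sp
      apply Real.log_le_log (by positivity)
      have h3 : Real.exp (-(-(K * Real.log 2) - -(K : ℝ))) ≤ 1 := by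
        rw [Real.exp_le_one_iff]
        nlinarith
      linarith
    have h3 : 1 / (2000 * (K : ℝ)) * (-(K * Real.log 2) + sp (-(K * Real.log 2) - -(K : ℝ))) ≤
        1 / (2000 * (K : ℝ)) * (-(K * Real.log 2) + Real.log 2) :=
      mul_le_mul_of_nonneg_left (by linarith) (by positivity)
    refine h3.trans (le_of_eq ?_)
    field_simp
  have ha := alp_half
  have h2 : Real.log 2 / K ≤ 1 / 352 := by
    rw [div_le_div_iff₀ hK0 (by norm_num)]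
    linarith
  have e1 : -(alp / (2000 * (K : ℝ))) * Tf K N R z = 1 / 2000 * (alp * Real.log 2) := by
    rw [hT]
    field_simp
  have e2 : alp / 88000 * (‖fe K N R (z 0)‖ ^ 2 + ‖fo K N R (z 0)‖ ^ 2) = 0 := by
    rw [hz, fe_zero K hN R, fo_zero K hN R]
    simp
  unfold hf cst
  rw [e1, e2]
  linarith

end Pool.Agent.H805K
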