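import Mathlib
import Pool.Agent.H805K.Block2

set_option autoImplicit false
set_option maxHeartbeats 2000000

open MeasureTheory Metric Set Filter Topology
open scoped ContDiff ComplexOrder

namespace Pool.Agent.H805K
open Pool.Agent.H805R2

lemma ax1 {a b r : ℝ} (h : a ^ 2 + b ^ 2 ≤ r ^ 2) : a ^ 2 ≤ r ^ 2 := by nlinarith [sq_nonneg b]
lemma ax2 {K l T b T1 : ℝ} (h4 : -(K * l) ≤ T) (hl : l < 1) (hK : 0 < K) (h3 : b ≤ 0) : -K ≤ T - b := by
  nlinarith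
lemma ax3 {G η : ℝ} (hη : 0 < η) : G ≤ (8 + G / η) * η := by
  rw [add_mul, div_mul_cancel₀ _ hη.ne']
  nlinarith
lemma ax4 {G Γ η : ℝ} (h : G ≤ Γ * η) : 11 * G ≤ 11 / 2 * η * (2 * Γ) := by nlinarith
lemma ax5 {x e G g Γ η : ℝ} (h1 : x ≤ (81 / 4 * e + 11 / (2 * Γ)) * G) (h2 : e * G ≤ η)
    (h3 : 11 / (2 * Γ) * G ≤ 11 / 2 * η) (hη : 0 < η) : 1 / 600 * x ≤ η := by nlinarith
lemma ax6 {x y η : ℝ} (hx : x ≤ (3 / 4 * η) ^ 2) (hy : y ≤ (1 / 2 * η) ^ 2) (hη : 0 < η) : x + y < η ^ 2 := by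
  nlinarith [sq_nonneg η, mul_pos hη hη]
lemma ax7 {x y d : ℝ} (h : d ^ 2 ≤ x ^ 2) : d ^ 2 ≤ x ^ 2 + y ^ 2 := by nlinarith [sq_nonneg y]
lemma ax7' {x y d : ℝ} (h : d ^ 2 ≤ x ^ 2) : d ^ 2 ≤ y ^ 2 + x ^ 2 := by nlinarith [sq_nonneg y]
lemma ax8 {x : ℝ} (h : 2 ≤ x) : 4 ≤ x ^ 2 := by nlinarith
lemma ax9 {a b x y z : ℝ} (h4 : 4 ≤ x + y + z) (h6 : x ≤ 1) (h11 : y ≤ (1 / 2 + a) ^ 2)
    (h12 : z ≤ (1 / 4 + b) ^ 2) : 1 ≤ a ^ 2 + b ^ 2 := by
  nlinarith [sq_nonneg (a - 1 / 2), sq_nonneg (b - 1 / 4)]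
lemma ax10 {x : ℝ} (h : x < 3) (h0 : 0 ≤ x) : x ^ 2 ≤ 9 := by nlinarith
lemma ax11 {A G η : ℝ} (hη : 0 < η) (hA : 1 ≤ A) (h : 36 * G ≤ A * η) : G ≤ η / 36 * A ^ 2 := by
  have h9 : A ≤ A ^ 2 := by nlinarith
  nlinarith

/-- **Existence of blocks.** -/
theorem exists_blk {rm rp η : ℝ} (hrm : 0 < rm) (hrmp : rm < rp) (hrp : rp < 1) (hη : 0 < η) (hη1 : η ≤ 1) :
    Nonempty (Blk rm rp η) := by
  -- the number of terms
  obtain ⟨K, hK⟩ : ∃ K : ℕ, max 250 (1 / (300 * η)) ≤ K := exists_nat_ge _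
  have hK250 : (250 : ℝ) ≤ K := (le_max_left _ _).trans hK
  have hKη : 1 / (300 * η) ≤ K := (le_max_right _ _).trans hK
  have hKn : 250 ≤ K := by exact_mod_cast hK250
  have hKpos : 0 < K := by omega
  have hK0 : (0 : ℝ) < K := by linarith
  -- the radius and the curve
  set R : ℝ := (rm + rp) / 2 with hR
  have hR0 : 0 < R := by rw [hR]; linarith
  have hR1 : R < 1 := by rw [hR]; linarith
  obtain ⟨N, hN, hNrm, hNrp, c, hc, d0, hd0, hd⟩ := curve_geom K (by omega) (rm := rm) (rp := rp) (R := R)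
    (η := η / 4) hrm (by rw [hR]; linarith) (by rw [hR]; linarith) (by positivity)
  set T : Cn 3 → ℝ := Tf K N R with hT
  have hTs : ContDiff ℝ ∞ T := Tf_sm K N R
  have hp := P1_sm K N R c
  have hq := P2_sm K N R
  -- bounds on the ball
  obtain ⟨G, hG0, hG⟩ : ∃ G : ℝ, 0 ≤ G ∧ ∀ w : ℂ, ‖w‖ ≤ 3 → gg K N R w ≤ G := by
    obtain ⟨x, hx, hmax⟩ := (isCompact_closedBall (0 : ℂ) 3).exists_isMaxOn
      ⟨0, mem_closedBall_self (by norm_num)⟩ (gg_cont K N R).continuousOn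
    refine ⟨gg K N R x, gg_nonneg _ _ _ _, fun w hw => hmax (by simpa using hw)⟩
  obtain ⟨T1, hT1⟩ : ∃ T1 : ℝ, ∀ z ∈ ball (0 : Cn 3) 3, T z ≤ T1 := by
    obtain ⟨x, hx, hmax⟩ := (isCompact_closedBall (0 : Cn 3) 3).exists_isMaxOn
      ⟨0, mem_closedBall_self (by norm_num)⟩ hTs.continuous.continuousOn
    exact ⟨T x, fun z hz => hmax (ball_subset_closedBall hz)⟩
  -- parameters
  set δ : ℝ := 1 / (600 * K) with hδ
  have hδ0 : 0 < δ := by rw [hδ]; positivity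
  have h2δ : 2 * δ ≤ η := by
    rw [hδ]
    rw [div_le_iff₀ (by positivity)] at hKη
    rw [mul_one_div, div_le_iff₀ (by positivity)]
    linarith
  have hδK : δ * K = 1 / 600 := by rw [hδ]; field_simp
  set Γ : ℝ := 8 + G / η with hΓ
  have hGη : 0 ≤ G / η := by positivity
  have hΓ8 : 8 ≤ Γ := by linarith
  set A : ℝ := 36 * G / η + 1 with hA
  have hA1 : 1 ≤ A := by
    rw [hA]
    have : 0 ≤ 36 * G / η := by positivity
    linarith
  set e : ℝ := min (1 / 352) (min (η / (G + 1)) (η / (2 * A))) with he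
  have he0 : 0 < e := by
    rw [he]
    refine lt_min (by norm_num) (lt_min (by positivity) (by positivity))
  have he1 : e ≤ 1 / 352 := min_le_left _ _
  have he2 : e ≤ η / (G + 1) := (min_le_right _ _).trans (min_le_left _ _)
  have he3 : e ≤ η / (2 * A) := (min_le_right _ _).trans (min_le_right _ _)
  obtain ⟨kmin, hkmin0, hkmin⟩ : ∃ kmin : ℝ, 0 < kmin ∧ ∀ x ∈ Icc (-(K : ℝ)) (T1 + K), kmin ≤ k1 x := by
    rcases (Icc (-(K : ℝ)) (T1 + K)).eq_empty_or_nonempty with h | h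
    · exact ⟨1, one_pos, fun x hx => by rw [h] at hx; exact absurd hx (notMem_empty x)⟩
    · have hc : Continuous k1 := continuous_iff_continuousAt.2 fun x => (k1_deriv x).continuousAt
      obtain ⟨x, hx, hmin⟩ := isCompact_Icc.exists_isMinOn h hc.continuousOn
      exact ⟨k1 x, k1_pos x, fun y hy => hmin hy⟩
  -- the function `b`
  obtain ⟨b, r1, hr1, hr1le, hbs, hbge, hble, hbe, hbΓ, hbΛ, hbc, hbz⟩ := exists_b hp hq (β := (K : ℝ))
    (Γ := Γ) hK0 (by linarith) (e := e) (r := min d0 (η / 4)) (Λ := 1 / (δ * kmin)) he0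
    (lt_min hd0 (by positivity))
  have hr1d : r1 ≤ d0 := hr1le.trans (min_le_left _ _)
  have hr1η : r1 ≤ η / 4 := hr1le.trans (min_le_right _ _)
  set p := P1 K N R c with hpdef
  set q := P2 K N R with hqdef
  -- coordinates in terms of `p`, `q`
  have hz1 : ∀ z : Cn 3, z 1 = p z + (c + fe K N R (z 0)) := fun z => by
    rw [hpdef, P1]; ring
  have hz2 : ∀ z : Cn 3, z 2 = q z + fo K N R (z 0) := fun z => by
    rw [hqdef, P2]; ring
  have hcoord : ∀ z ∈ ball (0 : Cn 3) 3, ∀ i, ‖z i‖ < 3 := by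
    intro z hz i
    have h1 : ‖z‖ < 3 := by simpa using hz
    exact (norm_coord_le z i).trans_lt h1
  have hpr : ∀ z, ‖p z‖ ^ 2 + ‖q z‖ ^ 2 ≤ r1 ^ 2 → ‖p z‖ ≤ r1 ∧ ‖q z‖ ≤ r1 := by
    intro z hz
    constructor
    · exact le_of_sq_le_sq (ax1 hz) hr1.le
    · exact le_of_sq_le_sq (ax1 (by rw [add_comm]; exact hz)) hr1.le
  -- facts on the Levi forms
  have hTl0 : ∀ z ζ, 0 ≤ levi T z ζ := Tf_levi_nonneg K N hR0
  have hTl1 : ∀ z ζ, levi T z ζ ≤ K * gg K N R (z 0) * ‖ζ 0‖ ^ 2 := Tf_levi_le K N hR0 hKpos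
  have hTd : ∀ z ζ, ‖dl T z ζ‖ ^ 2 ≤ 11 / 4 * (K * gg K N R (z 0) * ‖ζ 0‖ ^ 2) :=
    Tf_dl_sq_le K N hN hR0 hKpos
  have hbl0 : ∀ z ∈ ball (0 : Cn 3) 3, ∀ ζ, 0 ≤ levi b z ζ := fun z hz ζ =>
    le_trans (by positivity) (hbΓ z hz ζ)
  have hbp : ∀ z ∈ ball (0 : Cn 3) 3, (hess b z).PosSemidef := fun z hz =>
    (psd_iff hbs z).2 (hbl0 z hz)
  have hbdet : ∀ z ∈ ball (0 : Cn 3) 3, (hess b z).det = 0 := by
    intro z hz
    set ζ : Cn 3 := WithLp.toLp 2 ![1, dfe K N R (z 0), dfo K N R (z 0)] with hζ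
    have e0 : ζ 0 = 1 := by simp [hζ]
    have e1 : ζ 1 = dfe K N R (z 0) := by simp [hζ]
    have e2 : ζ 2 = dfo K N R (z 0) := by simp [hζ]
    apply det_zero_of_levi hbs (hbp z hz) (ζ := ζ)
    · intro h
      rw [h] at e0
      simp at e0
    · apply hbz z hz ζ
      · rw [hpdef, P1_fd, e0, e1]; ring
      · rw [hqdef, P2_fd, e0, e2]; ring
  have hmn : ∀ z ∈ ball (0 : Cn 3) 3, 0 ≤ (mnr (hess b z)).re := fun z hz => mnr_nonneg (hbp z hz)
  -- the basic inequality in the tube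
  have hin : ∀ z ∈ ball (0 : Cn 3) 3, ‖p z‖ ^ 2 + ‖q z‖ ^ 2 ≤ r1 ^ 2 → ∀ ζ,
      gg K N R (z 0) / 64 * ‖ζ 0‖ ^ 2 + δ * k1 (T z - b z) / 4 * levi b z ζ ≤
        1 / 2 * ‖ζ‖ ^ 2 + levi (vf δ T b) z ζ := by
    intro z hz hzN ζ
    have hD : T z - b z ∈ Icc (-(K : ℝ)) (T1 + K) := by
      have h1 := hT1 z hz
      have h2 := hbge z
      have h3 := hble z
      have h4 : -(K * Real.log 2) ≤ T z := Tf_ge K N R z
      have h5 := Real.log_two_lt_d9
      constructor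
      · exact ax2 (T1 := T1) h4 (by linarith) hK0 h3
      · linarith
    refine vf_in (K := K) (Γ := Γ) (Λ := 1 / (δ * kmin)) (kmin := kmin) hK0 hδ hΓ8 hTs hbs z ζ
      (x1 := fderiv ℂ p z ζ) (x2 := fderiv ℂ q z ζ) (d1 := dfe K N R (z 0)) (d2 := dfo K N R (z 0))
      ?_ ?_ (df_ge K N hN hR0 hKpos (z 0)) (gg_nonneg _ _ _ _) (hTl0 z ζ) (hTl1 z ζ) (hTd z ζ)
      (hbΓ z hz ζ) (hbΛ z hz hzN ζ) hkmin0 (hkmin _ hD) ?_
    · rw [hpdef, P1_fd]; ring
    · rw [hqdef, P2_fd]; ring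
    · rw [one_div, inv_mul_cancel₀ (by positivity)]
  have hvs : ContDiff ℝ ∞ (vf δ T b) := vf_sm hTs hbs δ
  have hΦs : ContDiff ℝ ∞ (Phi (1 / (2000 * K)) T b) := Phi_sm hTs hbs _
  have hm0 : (0 : ℝ) ≤ 1 / (2000 * K) := by positivity
  have hΦp : ∀ z ∈ ball (0 : Cn 3) 3, (hess (Phi (1 / (2000 * K)) T b) z).PosSemidef := fun z hz =>
    (psd_iff hΦs z).2 fun ζ => Phi_nonneg_levi hm0 hTs hbs z ζ (hTl0 z ζ) (hbl0 z hz ζ)
  -- upper bound for the determinant of `Φ`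
  have hΦdet : ∀ z ∈ ball (0 : Cn 3) 3, (hess (Phi (1 / (2000 * K)) T b) z).det.re ≤
      1 / (2000 * K) * (13 / 2) * (K * gg K N R (z 0)) * sg (T z - b z) ^ 2 *
        (1 / (2000 * K) * (5 / 4) * (1 - sg (T z - b z) ^ 2)) ^ 2 * (mnr (hess b z)).re := by
    intro z hz
    refine quad_up hΦs hbs (hΦp z hz) (hbdet z hz) ?_
    intro ζ
    exact Phi_up (Γ := Γ) hm0 hΓ8 hTs hbs z ζ (hTl1 z ζ) (hTd z ζ) (hbΓ z hz ζ)
  set s0 : ℝ := (η / 36) ^ 3 with hs0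
  have hs0p : 0 < s0 := by positivity
  have hs0le : s0 ≤ (1 / 4) ^ 3 := by
    rw [hs0]
    apply pow_le_pow_left₀ (by positivity)
    linarith
  set U : Set (Cn 3) := {z | ‖p z‖ ^ 2 + ‖q z‖ ^ 2 < r1 ^ 2 ∧ ‖z 0‖ < R ∧ ‖z‖ < 2} with hU
  have hpc := hp.continuous
  have hqc := hq.continuous
  have hUo : IsOpen U := by
    have o1 : IsOpen {z : Cn 3 | ‖p z‖ ^ 2 + ‖q z‖ ^ 2 < r1 ^ 2} := isOpen_lt (by fun_prop) continuous_const
    have o2 : IsOpen {z : Cn 3 | ‖z 0‖ < R} := isOpen_lt (by fun_prop) continuous_const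
    have o3 : IsOpen {z : Cn 3 | ‖z‖ < 2} := isOpen_lt (by fun_prop) continuous_const
    exact o1.inter (o2.inter o3)
  have hUb : ∀ z ∈ U, z ∈ ball (0 : Cn 3) 3 := fun z hz => by
    rw [mem_ball_zero_iff]
    linarith [hz.2.2]
  have hΦc : Continuous fun z => (hess (Phi (1 / (2000 * K)) T b) z).det.re := det_hess_continuous hΦs
  have hgG : ∀ z ∈ ball (0 : Cn 3) 3, gg K N R (z 0) ≤ G := fun z hz => hG _ (hcoord z hz 0).le
  -- `V`
  set V : Cn 3 → ℝ := fun z => A * b z + (η / 18) * (‖z‖ ^ 2 - 9) with hV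
  have hn9 : ContDiff ℝ ∞ (fun z : Cn 3 => ‖z‖ ^ 2 - 9) := nz_sm.sub contDiff_const
  have hVs : ContDiff ℝ ∞ V := (contDiff_const.mul hbs).add (contDiff_const.mul hn9)
  have hVl : ∀ z ζ, levi V z ζ = A * levi b z ζ + η / 18 * ‖ζ‖ ^ 2 := by
    intro z ζ
    rw [hV, levi_add' (contDiff_const.mul hbs) (contDiff_const.mul hn9), levi_const_mul' _ hbs,
      levi_const_mul' _ hn9, sub_const_sm nz_sm, nz_levi]
  have hw : ContDiff ℝ ∞ (fun y : Cn 3 => 1 / 2 * ‖y‖ ^ 2 + vf δ T b y) := (contDiff_const.mul nz_sm).add hvs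
  have hwl : ∀ z ζ, levi (fun y : Cn 3 => 1 / 2 * ‖y‖ ^ 2 + vf δ T b y) z ζ =
      1 / 2 * ‖ζ‖ ^ 2 + levi (vf δ T b) z ζ := by
    intro z ζ
    rw [levi_add' (contDiff_const.mul nz_sm) hvs, levi_const_mul' _ nz_sm, nz_levi]
  have hsplit : (fun y : Cn 3 => 3 / 4 * ‖y‖ ^ 2 + vf δ T b y) =
      fun y => (1 / 2 * ‖y‖ ^ 2 + vf δ T b y) + 1 / 4 * ‖y‖ ^ 2 := by
    funext y; ring
  have hk1sq : ∀ x, k1 x ^ 2 = sg x ^ 2 * (1 - sg x ^ 2) ^ 2 := fun x => by unfold k1; ring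
  refine ⟨{
    v := vf δ T b
    N := {z | ‖p z‖ ^ 2 + ‖q z‖ ^ 2 ≤ r1 ^ 2}
    U := U
    ρ := fun z => (hess (Phi (1 / (2000 * K)) T b) z).det.re + s0
    h := hf K N R b
    V := V
    y := WithLp.toLp 2 ![0, c, 0]
    d := d0
    v_sm := hvs
    v_le := fun z => vf_le hδ0.le T b z (hble z)
    v_ge := fun z => by have := vf_ge hδ0.le T b z; linarith
    v_out := ?_
    v_in := ?_
    v_det := ?_
    N_rp := ?_
    N_rm := ?_
    d_pos := hd0
    N_d := ?_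
    U_open := hUo
    U_N := by
      intro z hz
      change ‖p z‖ ^ 2 + ‖q z‖ ^ 2 ≤ r1 ^ 2
      exact hz.1.le
    U_ball := fun z hz => by
      rw [mem_ball_zero_iff]
      exact hz.2.2
    ρ_cont := hΦc.add continuous_const
    ρ_pos := fun z hz => by
      have := det_hess_nonneg (hΦp z (hUb z hz))
      linarith
    h_sm := hf_sm K N R hbs
    h_bd := ?_
    h_det := ?_
    y_mem := ?_
    y_norm := ?_
    h_y := ?_
    V_sm := hVs
    V_psd := ?_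
    V_le := ?_
    V_0 := ?_
    V_det := ?_ }⟩
  · -- v_out
    intro z hz hzN ζ
    have hzN' : r1 ^ 2 ≤ ‖p z‖ ^ 2 + ‖q z‖ ^ 2 := (not_le.1 hzN).le
    have hg := hgG z hz
    have hg0 := gg_nonneg K N R (z 0)
    have h := vf_out (δ := δ) (Γ := Γ) (e := e) (G := K * gg K N R (z 0)) hδ0.le (by linarith) he0.le hTs hbs z ζ
      (hTl0 z ζ) (hTl1 z ζ) (hTd z ζ) (hbΓ z hz ζ) (hble z) (hbe z hzN')
    refine le_trans ?_ h
    apply neg_le_neg
    have e1 : δ * (81 / 4 * e + 11 / (2 * Γ)) * (K * gg K N R (z 0)) * ‖ζ 0‖ ^ 2 =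
        1 / 600 * ((81 / 4 * e + 11 / (2 * Γ)) * gg K N R (z 0)) * ‖ζ 0‖ ^ 2 := by
      rw [← hδK]; ring
    rw [e1]
    have h1 : (81 / 4 * e + 11 / (2 * Γ)) * gg K N R (z 0) ≤ (81 / 4 * e + 11 / (2 * Γ)) * G :=
      mul_le_mul_of_nonneg_left hg (by positivity)
    have h2 : e * G ≤ η := by
      calc e * G ≤ η / (G + 1) * G := mul_le_mul_of_nonneg_right he2 hG0
        _ = η * (G / (G + 1)) := by ring
        _ ≤ η * 1 := by
            apply mul_le_mul_of_nonneg_left _ hη.le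
            rw [div_le_one (by positivity)]
            linarith
        _ = η := mul_one η
    have h3 : 11 / (2 * Γ) * G ≤ 11 / 2 * η := by
      have h4 : G ≤ Γ * η := ax3 hη
      rw [div_mul_eq_mul_div, div_le_iff₀ (by positivity)]
      exact ax4 h4
    have h5 : 1 / 600 * ((81 / 4 * e + 11 / (2 * Γ)) * gg K N R (z 0)) ≤ η := ax5 (g := 0) h1 h2 h3 hη
    have h6 : ‖ζ 0‖ ^ 2 ≤ ‖ζ‖ ^ 2 := pow_le_pow_left₀ (norm_nonneg _) (norm_coord_le ζ 0) 2
    calc 1 / 600 * ((81 / 4 * e + 11 / (2 * Γ)) * gg K N R (z 0)) * ‖ζ 0‖ ^ 2 ≤ η * ‖ζ 0‖ ^ 2 :=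
          mul_le_mul_of_nonneg_right h5 (by positivity)
      _ ≤ η * ‖ζ‖ ^ 2 := mul_le_mul_of_nonneg_left h6 hη.le
  · -- v_in
    intro z hz hzN ζ
    rw [levi_add' (contDiff_const.mul nz_sm) hvs, levi_const_mul' _ nz_sm, nz_levi]
    have h := hin z hz hzN ζ
    have h1 : 0 ≤ gg K N R (z 0) / 64 * ‖ζ 0‖ ^ 2 := by
      have := gg_nonneg K N R (z 0)
      positivity
    have h2 : 0 ≤ δ * k1 (T z - b z) / 4 * levi b z ζ := by
      have := hbl0 z hz ζ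
      have := k1_pos (T z - b z)
      positivity
    have h3 : 0 ≤ ‖ζ‖ ^ 2 := by positivity
    linarith
  · -- v_det
    intro z hz
    have hzb := hUb z hz
    rw [hsplit]
    have hwp : (hess (fun y : Cn 3 => 1 / 2 * ‖y‖ ^ 2 + vf δ T b y) z).PosSemidef := by
      rw [psd_iff hw]
      intro ζ
      rw [hwl]
      have h := hin z hzb hz.1.le ζ
      have h1 : 0 ≤ gg K N R (z 0) / 64 * ‖ζ 0‖ ^ 2 := by
        have := gg_nonneg K N R (z 0)
        positivity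
      have h2 : 0 ≤ δ * k1 (T z - b z) / 4 * levi b z ζ := by
        have := hbl0 z hzb ζ
        have := k1_pos (T z - b z)
        positivity
      linarith
    have h1 := det_add_nz hw z (by norm_num : (0 : ℝ) ≤ 1 / 4) hwp
    have h2 := quad_low (A := gg K N R (z 0) / 64) (B := δ * k1 (T z - b z) / 4) hw hbs
      (by have := gg_nonneg K N R (z 0); positivity) (by have := k1_pos (T z - b z); positivity)
      (hbp z hzb) (hbdet z hzb) (fun ζ => by rw [hwl]; exact hin z hzb hz.1.le ζ)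
    have h3 := hΦdet z hzb
    have h4 : 1 / (2000 * (K : ℝ)) * (13 / 2) * (K * gg K N R (z 0)) * sg (T z - b z) ^ 2 *
        (1 / (2000 * K) * (5 / 4) * (1 - sg (T z - b z) ^ 2)) ^ 2 * (mnr (hess b z)).re ≤
        gg K N R (z 0) / 64 * (δ * k1 (T z - b z) / 4) ^ 2 * (mnr (hess b z)).re := by
      apply mul_le_mul_of_nonneg_right _ (hmn z hzb)
      have e1 : gg K N R (z 0) / 64 * (δ * k1 (T z - b z) / 4) ^ 2 =
          1 / (1024 * 360000) * (gg K N R (z 0) * (sg (T z - b z) ^ 2 * (1 - sg (T z - b z) ^ 2) ^ 2) / K ^ 2) := by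
        rw [div_pow, mul_pow, hk1sq, hδ]
        field_simp
        ring
      have e2 : 1 / (2000 * (K : ℝ)) * (13 / 2) * (K * gg K N R (z 0)) * sg (T z - b z) ^ 2 *
          (1 / (2000 * K) * (5 / 4) * (1 - sg (T z - b z) ^ 2)) ^ 2 = 325 / 32 / 8000000000 *
          (gg K N R (z 0) * (sg (T z - b z) ^ 2 * (1 - sg (T z - b z) ^ 2) ^ 2) / K ^ 2) := by
        field_simp
        ring
      rw [e1, e2]
      apply mul_le_mul_of_nonneg_right (by norm_num)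
      have := gg_nonneg K N R (z 0)
      positivity
    linarith
  · -- N_rp
    intro z hzN hz
    by_contra hcon
    obtain ⟨h1, h2⟩ := hpr z hzN
    rcases hNrp (z 0) (not_lt.1 hcon) with h3 | h3
    · have h4 : fe K N R (z 0) = z 1 - p z - c := by rw [hz1 z]; ring
      have h5 : ‖fe K N R (z 0)‖ ≤ ‖z 1‖ + ‖p z‖ + ‖c‖ := by
        rw [h4]
        exact (norm_sub_le _ _).trans (add_le_add_left (norm_sub_le _ _) _)
      have h6 := hcoord z hz 1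
      linarith
    · have h4 : fo K N R (z 0) = z 2 - q z := by rw [hz2 z]; ring
      have h5 : ‖fo K N R (z 0)‖ ≤ ‖z 2‖ + ‖q z‖ := by
        rw [h4]
        exact norm_sub_le _ _
      have h6 := hcoord z hz 2
      linarith
  · -- N_rm
    intro z hzN hz hzrm
    obtain ⟨h1, h2⟩ := hpr z hzN
    obtain ⟨h3, h4⟩ := hNrm (z 0) hzrm
    have h5 : ‖z 1‖ ≤ 3 / 4 * η := by
      rw [hz1 z]
      have := norm_add_le (p z) (c + fe K N R (z 0))
      have := norm_add_le c (fe K N R (z 0))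
      linarith
    have h6 : ‖z 2‖ ≤ 1 / 2 * η := by
      rw [hz2 z]
      have := norm_add_le (q z) (fo K N R (z 0))
      linarith
    have h7 := pow_le_pow_left₀ (norm_nonneg _) h5 2
    have h8 := pow_le_pow_left₀ (norm_nonneg _) h6 2
    exact ax6 h7 h8 hη
  · -- N_d
    intro z hzN hz
    obtain ⟨h1, h2⟩ := hpr z hzN
    have h0 : ‖z 0‖ ≤ 3 := (hcoord z hz 0).le
    rcases hd (z 0) h0 with h3 | h3
    · have h4 : c + fe K N R (z 0) = z 1 - p z := by rw [hz1 z]; ring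
      have h5 : ‖c + fe K N R (z 0)‖ ≤ ‖z 1‖ + ‖p z‖ := by
        rw [h4]
        exact norm_sub_le _ _
      have h6 : d0 ≤ ‖z 1‖ := by linarith
      exact ax7 (pow_le_pow_left₀ hd0.le h6 2)
    · have h4 : fo K N R (z 0) = z 2 - q z := by rw [hz2 z]; ring
      have h5 : ‖fo K N R (z 0)‖ ≤ ‖z 2‖ + ‖q z‖ := by
        rw [h4]
        exact norm_sub_le _ _
      have h6 : d0 ≤ ‖z 2‖ := by linarith
      exact ax7' (pow_le_pow_left₀ hd0.le h6 2)
  · -- h_bd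
    intro z hz
    have hcl : z ∈ closure U := frontier_subset_closure hz
    have hnU : z ∉ U := by
      have := hz.2
      rwa [hUo.interior_eq] at this
    have hC : IsClosed {z : Cn 3 | ‖p z‖ ^ 2 + ‖q z‖ ^ 2 ≤ r1 ^ 2 ∧ ‖z 0‖ ≤ R ∧ ‖z‖ ≤ 2} := by
      have o1 : IsClosed {z : Cn 3 | ‖p z‖ ^ 2 + ‖q z‖ ^ 2 ≤ r1 ^ 2} := isClosed_le (by fun_prop) continuous_const
      have o2 : IsClosed {z : Cn 3 | ‖z 0‖ ≤ R} := isClosed_le (by fun_prop) continuous_const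
      have o3 : IsClosed {z : Cn 3 | ‖z‖ ≤ 2} := isClosed_le (by fun_prop) continuous_const
      exact o1.inter (o2.inter o3)
    have hsub : U ⊆ {z : Cn 3 | ‖p z‖ ^ 2 + ‖q z‖ ^ 2 ≤ r1 ^ 2 ∧ ‖z 0‖ ≤ R ∧ ‖z‖ ≤ 2} := by
      intro x hx
      exact ⟨hx.1.le, hx.2.1.le, hx.2.2.le⟩
    obtain ⟨h1, h2, h3⟩ := closure_minimal hsub hC hcl
    apply hf_bd K N hR0 hKpos z h2
    by_cases c1 : r1 ^ 2 ≤ ‖p z‖ ^ 2 + ‖q z‖ ^ 2
    · left
      have := hbe z c1
      linarith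
    · by_cases c2 : R ≤ ‖z 0‖
      · right; left
        exact le_antisymm h2 c2
      · right; right
        have c3 : 2 ≤ ‖z‖ := by
          by_contra h
          exact hnU ⟨not_le.1 c1, not_le.1 c2, not_le.1 h⟩
        have h4 := norm_sq3 z
        have h5 : 4 ≤ ‖z‖ ^ 2 := ax8 c3
        have h6 : ‖z 0‖ ^ 2 ≤ 1 := pow_le_one₀ (norm_nonneg _) (h2.trans hR1.le)
        obtain ⟨h7, h8⟩ := hpr z h1
        have h9 : ‖z 1‖ ≤ 1 / 2 + ‖fe K N R (z 0)‖ := by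
          rw [hz1 z]
          have := norm_add_le (p z) (c + fe K N R (z 0))
          have := norm_add_le c (fe K N R (z 0))
          linarith
        have h10 : ‖z 2‖ ≤ 1 / 4 + ‖fo K N R (z 0)‖ := by
          rw [hz2 z]
          have := norm_add_le (q z) (fo K N R (z 0))
          linarith
        have h11 := pow_le_pow_left₀ (norm_nonneg _) h9 2
        have h12 := pow_le_pow_left₀ (norm_nonneg _) h10 2
        rw [h4] at h5
        exact ax9 h5 h6 h11 h12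
  · -- h_det
    intro z hz hhp
    have h1 := hess_sub_psd hΦs (hf_sm K N R hbs) z
      (fun ζ => hf_levi_le K N hN hR0 hKpos hbs z ζ hz.2.1.le)
    have h2 := det_mono_psd _ _ hhp h1
    linarith
  · -- y_mem
    have e0 : (WithLp.toLp 2 ![0, c, 0] : Cn 3) 0 = 0 := by simp
    have e1 : (WithLp.toLp 2 ![0, c, 0] : Cn 3) 1 = c := by simp
    have e2 : (WithLp.toLp 2 ![0, c, 0] : Cn 3) 2 = 0 := by simp
    refine ⟨?_, ?_, ?_⟩
    · rw [hpdef, hqdef, P1, P2, e0, e1, e2, fe_zero K hN R, fo_zero K hN R]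
      have : (0 : ℝ) < r1 ^ 2 := by positivity
      simpa using this
    · rw [e0, norm_zero]
      exact hR0
    · have h1 := norm_sq3 (WithLp.toLp 2 ![0, c, 0])
      rw [e0, e1, e2, norm_zero] at h1
      have h2 : ‖(WithLp.toLp 2 ![0, c, 0] : Cn 3)‖ = ‖c‖ := by
        have h3 : ‖(WithLp.toLp 2 ![0, c, 0] : Cn 3)‖ ^ 2 = ‖c‖ ^ 2 := by rw [h1]; ring
        exact (sq_eq_sq₀ (norm_nonneg _) (norm_nonneg _)).1 h3
      rw [h2]
      linarith
  · -- y_norm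
    have e0 : (WithLp.toLp 2 ![0, c, 0] : Cn 3) 0 = 0 := by simp
    have e1 : (WithLp.toLp 2 ![0, c, 0] : Cn 3) 1 = c := by simp
    have e2 : (WithLp.toLp 2 ![0, c, 0] : Cn 3) 2 = 0 := by simp
    have h1 := norm_sq3 (WithLp.toLp 2 ![0, c, 0])
    rw [e0, e1, e2, norm_zero] at h1
    have h2 : ‖(WithLp.toLp 2 ![0, c, 0] : Cn 3)‖ = ‖c‖ := by
      have h3 : ‖(WithLp.toLp 2 ![0, c, 0] : Cn 3)‖ ^ 2 = ‖c‖ ^ 2 := by rw [h1]; ring
      exact (sq_eq_sq₀ (norm_nonneg _) (norm_nonneg _)).1 h3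
    rw [h2]
    linarith
  · -- h_y
    have e0 : (WithLp.toLp 2 ![0, c, 0] : Cn 3) 0 = 0 := by simp
    have e1 : (WithLp.toLp 2 ![0, c, 0] : Cn 3) 1 = c := by simp
    have e2 : (WithLp.toLp 2 ![0, c, 0] : Cn 3) 2 = 0 := by simp
    apply hf_center K hN R hKn _ e0
    apply hbc
    · rw [hpdef, P1, e0, e1, fe_zero K hN R]; ring
    · rw [hqdef, P2, e0, e2, fo_zero K hN R]; ring
  · -- V_psd
    intro z hz
    rw [psd_iff hVs]
    intro ζ
    rw [hVl]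
    have := hbl0 z hz ζ
    positivity
  · -- V_le
    intro z hz
    have h1 := hble z
    have h2 : ‖z‖ < 3 := by simpa using hz
    have h3 : ‖z‖ ^ 2 ≤ 9 := ax10 h2 (norm_nonneg z)
    have h4 : A * b z ≤ 0 := mul_nonpos_of_nonneg_of_nonpos (by linarith) h1
    have h5 : η / 18 * (‖z‖ ^ 2 - 9) ≤ 0 :=
      mul_nonpos_of_nonneg_of_nonpos (by positivity) (by linarith)
    change A * b z + η / 18 * (‖z‖ ^ 2 - 9) ≤ 0
    linarith
  · -- V_0
    have h1 : r1 ^ 2 ≤ ‖p 0‖ ^ 2 + ‖q 0‖ ^ 2 := by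
      have hp0 : p 0 = -(c + fe K N R 0) := by
        rw [hpdef, P1]
        simp
        ring
      have hq0 : q 0 = -(fo K N R 0) := by
        rw [hqdef, P2]
        simp
      rw [hp0, hq0, norm_neg, norm_neg]
      rcases hd 0 (by simp) with h | h
      · have h2 : r1 ≤ ‖c + fe K N R 0‖ := by linarith
        exact ax7 (pow_le_pow_left₀ hr1.le h2 2)
      · have h2 : r1 ≤ ‖fo K N R 0‖ := by linarith
        exact ax7' (pow_le_pow_left₀ hr1.le h2 2)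
    have h2 := hbe 0 h1
    have h3 : A * e ≤ η / 2 := by
      rw [le_div_iff₀ (by positivity)] at he3
      linarith
    change -η ≤ A * b 0 + η / 18 * (‖(0 : Cn 3)‖ ^ 2 - 9)
    rw [norm_zero]
    have h4 : A * (-e) ≤ A * b 0 := mul_le_mul_of_nonneg_left h2 (by linarith)
    linarith
  · -- V_det
    intro z hz
    have hzb := hUb z hz
    have hw2 : ContDiff ℝ ∞ (fun y : Cn 3 => A * b y + η / 36 * (‖y‖ ^ 2 - 18)) :=
      (contDiff_const.mul hbs).add (contDiff_const.mul (nz_sm.sub contDiff_const))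
    have hw2l : ∀ ζ, levi (fun y : Cn 3 => A * b y + η / 36 * (‖y‖ ^ 2 - 18)) z ζ =
        A * levi b z ζ + η / 36 * ‖ζ‖ ^ 2 := by
      intro ζ
      rw [levi_add' (contDiff_const.mul hbs) (contDiff_const.mul (nz_sm.sub contDiff_const)),
        levi_const_mul' _ hbs, levi_const_mul' _ (nz_sm.sub contDiff_const), sub_const_sm nz_sm, nz_levi]
    have hVe : V = fun y => (A * b y + η / 36 * (‖y‖ ^ 2 - 18)) + η / 36 * ‖y‖ ^ 2 := by
      funext y
      rw [hV]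
      ring
    have hwp : (hess (fun y : Cn 3 => A * b y + η / 36 * (‖y‖ ^ 2 - 18)) z).PosSemidef := by
      rw [psd_iff hw2]
      intro ζ
      rw [hw2l]
      have := hbl0 z hzb ζ
      positivity
    have h1 := det_add_nz hw2 z (by positivity : (0 : ℝ) ≤ η / 36) hwp
    rw [← hVe] at h1
    have h2 := quad_low (A := η / 36) (B := A) hw2 hbs (by positivity) (by linarith) (hbp z hzb)
      (hbdet z hzb) (fun ζ => by
        rw [hw2l]
        have h3 : ‖ζ 0‖ ^ 2 ≤ ‖ζ‖ ^ 2 := pow_le_pow_left₀ (norm_nonneg _) (norm_coord_le ζ 0) 2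
        have h4 : η / 36 * ‖ζ 0‖ ^ 2 ≤ η / 36 * ‖ζ‖ ^ 2 := mul_le_mul_of_nonneg_left h3 (by positivity)
        linarith)
    have h3 := hΦdet z hzb
    have hg := hgG z hzb
    have hg0 := gg_nonneg K N R (z 0)
    have h4 : 1 / (2000 * (K : ℝ)) * (13 / 2) * (K * gg K N R (z 0)) * sg (T z - b z) ^ 2 *
        (1 / (2000 * K) * (5 / 4) * (1 - sg (T z - b z) ^ 2)) ^ 2 * (mnr (hess b z)).re ≤
        η / 36 * A ^ 2 * (mnr (hess b z)).re := by
      apply mul_le_mul_of_nonneg_right _ (hmn z hzb)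
      have hs1 := sg_sq_lt (T z - b z)
      have hs2 : 0 ≤ sg (T z - b z) ^ 2 := sq_nonneg _
      have h5 : (1 / (2000 * (K : ℝ)) * (5 / 4) * (1 - sg (T z - b z) ^ 2)) ^ 2 ≤ 1 := by
        apply pow_le_one₀
        · have : 0 ≤ 1 - sg (T z - b z) ^ 2 := by linarith
          positivity
        · have h6 : 1 / (2000 * (K : ℝ)) ≤ 1 / 2000 := by
            apply one_div_le_one_div_of_le (by norm_num)
            linarith
          have h7 : 1 / (2000 * (K : ℝ)) * (5 / 4) ≤ 1 := by linarith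
          have h8 : 1 / (2000 * (K : ℝ)) * (5 / 4) * (1 - sg (T z - b z) ^ 2) ≤ 1 * 1 :=
            mul_le_mul h7 (by linarith) (by linarith) (by norm_num)
          linarith
      have h6 : 1 / (2000 * (K : ℝ)) * (13 / 2) * (K * gg K N R (z 0)) * sg (T z - b z) ^ 2 ≤ G := by
        have e1 : 1 / (2000 * (K : ℝ)) * (13 / 2) * (K * gg K N R (z 0)) * sg (T z - b z) ^ 2 =
            13 / 4000 * (gg K N R (z 0) * sg (T z - b z) ^ 2) := by
          field_simp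
          ring
        rw [e1]
        have h7 : gg K N R (z 0) * sg (T z - b z) ^ 2 ≤ G * 1 := mul_le_mul hg hs1.le hs2 hG0
        linarith
      have h7 : G ≤ η / 36 * A ^ 2 := by
        have h8 : 36 * G / η ≤ A := by rw [hA]; linarith
        rw [div_le_iff₀ hη] at h8
        exact ax11 hη hA1 h8
      have h8 : 0 ≤ 1 / (2000 * (K : ℝ)) * (13 / 2) * (K * gg K N R (z 0)) * sg (T z - b z) ^ 2 := by
        positivity
      calc 1 / (2000 * (K : ℝ)) * (13 / 2) * (K * gg K N R (z 0)) * sg (T z - b z) ^ 2 *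
        (1 / (2000 * K) * (5 / 4) * (1 - sg (T z - b z) ^ 2)) ^ 2 ≤ G * 1 :=
            mul_le_mul h6 h5 (by positivity) hG0
        _ ≤ _ := by linarith
    linarith

end Pool.Agent.H805K
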