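import Mathlib
import Pool.Agent.H805K.Block3

set_option autoImplicit false
set_option maxHeartbeats 1000000

open MeasureTheory Metric Set Filter Topology
open scoped ContDiff ComplexOrder

namespace Pool.Agent.H805K
open Pool.Agent.H805R2

/-- radii of the annuli -/
noncomputable def sr (m : ℕ) : ℝ := 1 - 1 / ((m : ℝ) + 2)

lemma sr_pos (m : ℕ) : 0 < sr m := by
  unfold sr
  have h : (0 : ℝ) ≤ m := Nat.cast_nonneg m
  have : 1 / ((m : ℝ) + 2) < 1 := by
    rw [div_lt_one (by positivity)]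
    linarith
  linarith

lemma sr_lt_one (m : ℕ) : sr m < 1 := by
  unfold sr
  have h : (0 : ℝ) ≤ m := Nat.cast_nonneg m
  have : 0 < 1 / ((m : ℝ) + 2) := by positivity
  linarith

lemma sr_strictMono : StrictMono sr := by
  apply strictMono_nat_of_lt_succ
  intro m
  unfold sr
  have h : (0 : ℝ) ≤ m := Nat.cast_nonneg m
  push_cast
  have : 1 / ((m : ℝ) + 1 + 2) < 1 / ((m : ℝ) + 2) := by
    apply one_div_lt_one_div_of_lt <;> linarith
  linarith

/-- a choice of blocks -/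
noncomputable def blkOf (m : ℕ) (η : {x : ℝ // 0 < x ∧ x ≤ 1}) : Blk (sr m) (sr (m + 1)) η.1 :=
  (exists_blk (sr_pos m) (sr_strictMono (Nat.lt_succ_self m)) (sr_lt_one _) η.2.1 η.2.2).some

/-- the next parameter -/
noncomputable def nxt (m : ℕ) (η : {x : ℝ // 0 < x ∧ x ≤ 1}) : {x : ℝ // 0 < x ∧ x ≤ 1} :=
  ⟨min (η.1 / 2) (blkOf m η).d, lt_min (half_pos η.2.1) (blkOf m η).d_pos,
    (min_le_left _ _).trans ((half_le_self η.2.1.le).trans η.2.2)⟩

noncomputable def etaSeq (η0 : {x : ℝ // 0 < x ∧ x ≤ 1}) : ℕ → {x : ℝ // 0 < x ∧ x ≤ 1}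
  | 0 => η0
  | m + 1 => nxt m (etaSeq η0 m)

/-- the sequence of blocks -/
theorem exists_seq {η0 : ℝ} (h0 : 0 < η0) (h1 : η0 ≤ 1) :
    ∃ (η : ℕ → ℝ) (B : ∀ m, Blk (sr m) (sr (m + 1)) (η m)), (∀ m, 0 < η m) ∧ (∀ m, η m ≤ η0 / 2 ^ m) ∧
      ∀ m m', m < m' → η m' ≤ (B m).d := by
  set E := etaSeq ⟨η0, h0, h1⟩ with hE
  have hstep : ∀ m, (E (m + 1)).1 = min ((E m).1 / 2) (blkOf m (E m)).d := fun m => rfl
  have hle : ∀ m, (E (m + 1)).1 ≤ (E m).1 / 2 := fun m => by rw [hstep]; exact min_le_left _ _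
  have hanti : Antitone fun m => (E m).1 := antitone_nat_of_succ_le fun m =>
    (hle m).trans (half_le_self (E m).2.1.le)
  refine ⟨fun m => (E m).1, fun m => blkOf m (E m), fun m => (E m).2.1, ?_, ?_⟩
  · intro m
    induction m with
    | zero => simp [hE, etaSeq]
    | succ m ih =>
      refine (hle m).trans ?_
      rw [pow_succ, ← div_div]
      exact div_le_div_of_nonneg_right ih (by norm_num)
  · intro m m' hmm
    have h2 : (E m').1 ≤ (E (m + 1)).1 := hanti hmm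
    refine h2.trans ?_
    rw [hstep]
    exact min_le_right _ _

/-- tubes are pairwise disjoint -/
lemma tubes_disjoint {η : ℕ → ℝ} (B : ∀ m, Blk (sr m) (sr (m + 1)) (η m)) (hη : ∀ m, 0 < η m)
    (hd : ∀ m m', m < m' → η m' ≤ (B m).d) {m m' : ℕ} (hmm : m ≠ m') {z : Cn 3}
    (hz : z ∈ ball (0 : Cn 3) 3) (h1 : z ∈ (B m).N) : z ∉ (B m').N := by
  have key : ∀ m m', m < m' → z ∈ (B m).N → z ∈ (B m').N → False := by
    intro m m' hlt h1 h2
    have h3 := (B m).N_rp z h1 hz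
    have h4 : ‖z 0‖ ≤ sr m' := h3.le.trans (sr_strictMono.monotone hlt)
    have h5 := (B m').N_rm z h2 hz h4
    have h6 := (B m).N_d z h1 hz
    have h7 := hd m m' hlt
    have h8 := pow_le_pow_left₀ (hη m').le h7 2
    linarith
  intro h2
  rcases lt_or_gt_of_ne hmm with h | h
  · exact key m m' h h1 h2
  · exact key m' m h h2 h1

end Pool.Agent.H805K
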