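import Mathlib
import Pool.Agent.H805K.Seq

set_option autoImplicit false
set_option maxHeartbeats 1000000

open MeasureTheory Metric Set Filter Topology
open scoped ContDiff ComplexOrder

namespace Pool.Agent.H805K
open Pool.Agent.H805R2

/-- a system of blocks with pairwise disjoint tubes -/
structure Sys where
  η0 : ℝ
  η : ℕ → ℝ
  B : ∀ m, Blk (sr m) (sr (m + 1)) (η m)
  h0 : 0 < η0
  h1 : η0 ≤ cst / 16
  hη : ∀ m, 0 < η m
  hle : ∀ m, η m ≤ η0 / 2 ^ m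
  hd : ∀ m m', m < m' → η m' ≤ (B m).d

lemma cst_le : cst ≤ 1 / 2000 := by
  unfold cst
  have := alp_le_one
  linarith

theorem exists_sys : Nonempty Sys := by
  have h := cst_pos
  have h2 := cst_le
  obtain ⟨η, B, h3, h4, h5⟩ := exists_seq (η0 := cst / 16) (by positivity) (by linarith)
  exact ⟨⟨cst / 16, η, B, by positivity, le_rfl, h3, h4, h5⟩⟩

namespace Sys
variable (S : Sys)

lemma sum_geo (k : ℕ) : ∑ m ∈ Finset.range k, S.η m ≤ 2 * S.η0 := by
  have h1 : ∑ m ∈ Finset.range k, S.η m ≤ ∑ m ∈ Finset.range k, S.η0 * (1 / 2) ^ m := by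
    apply Finset.sum_le_sum
    intro m _
    refine (S.hle m).trans (le_of_eq ?_)
    rw [div_pow, one_pow]
    ring
  refine h1.trans ?_
  rw [← Finset.mul_sum, mul_comm]
  apply mul_le_mul_of_nonneg_right _ S.h0.le
  have h2 : Summable fun m : ℕ => ((1 : ℝ) / 2) ^ m := summable_geometric_two
  have h3 := h2.sum_le_tsum (Finset.range k) (fun m _ => by positivity)
  rwa [tsum_geometric_two] at h3

lemma two_eta : 2 * S.η0 ≤ 1 / 8 := by
  have := S.h1
  have := cst_le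
  linarith

lemma summable_eta : Summable S.η := by
  refine Summable.of_nonneg_of_le (fun m => (S.hη m).le) (fun m => S.hle m) ?_
  have h2 : Summable fun m : ℕ => S.η0 * ((1 : ℝ) / 2) ^ m := summable_geometric_two.mul_left _
  refine h2.congr fun m => ?_
  rw [div_pow, one_pow]
  ring

lemma disj {m m' : ℕ} (hmm : m ≠ m') {z : Cn 3} (hz : z ∈ ball (0 : Cn 3) 3) (h1 : z ∈ (S.B m).N) :
    z ∉ (S.B m').N := tubes_disjoint S.B S.hη S.hd hmm hz h1

lemma U_ball3 (m : ℕ) {z : Cn 3} (hz : z ∈ (S.B m).U) : z ∈ ball (0 : Cn 3) 3 :=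
  ball_subset_ball (by norm_num) ((S.B m).U_ball hz)

/-- the partial sums of the `v`'s -/
noncomputable def vs (k : ℕ) (z : Cn 3) : ℝ := ∑ m ∈ Finset.range k, (S.B m).v z

lemma vs_sm (k : ℕ) : ContDiff ℝ ∞ (S.vs k) := ContDiff.sum fun m _ => (S.B m).v_sm

lemma vs_levi (k : ℕ) (z ζ : Cn 3) : levi (S.vs k) z ζ = ∑ m ∈ Finset.range k, levi (S.B m).v z ζ :=
  levi_sum _ (fun m _ => (S.B m).v_sm) z ζ

lemma vs_ge (k : ℕ) (z : Cn 3) : -(1 / 8) ≤ S.vs k z := by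
  have h1 : ∑ m ∈ Finset.range k, (-S.η m) ≤ S.vs k z := Finset.sum_le_sum fun m _ => (S.B m).v_ge z
  rw [Finset.sum_neg_distrib] at h1
  have := S.sum_geo k
  have := S.two_eta
  linarith

lemma vs_le (k : ℕ) (z : Cn 3) : S.vs k z ≤ 0 := Finset.sum_nonpos fun m _ => (S.B m).v_le z

/-- the Levi form outside all tubes -/
lemma vs_levi_out (k : ℕ) {z : Cn 3} (hz : z ∈ ball (0 : Cn 3) 3) (h : ∀ m < k, z ∉ (S.B m).N) (ζ : Cn 3) :
    -(1 / 8 * ‖ζ‖ ^ 2) ≤ levi (S.vs k) z ζ := by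
  rw [vs_levi]
  have h1 : ∑ m ∈ Finset.range k, (-(S.η m * ‖ζ‖ ^ 2)) ≤ ∑ m ∈ Finset.range k, levi (S.B m).v z ζ :=
    Finset.sum_le_sum fun m hm => (S.B m).v_out z hz (h m (Finset.mem_range.1 hm)) ζ
  rw [Finset.sum_neg_distrib, ← Finset.sum_mul] at h1
  have h2 := S.sum_geo k
  have h3 := S.two_eta
  have h4 : (∑ m ∈ Finset.range k, S.η m) * ‖ζ‖ ^ 2 ≤ 1 / 8 * ‖ζ‖ ^ 2 :=
    mul_le_mul_of_nonneg_right (by linarith) (by positivity)
  linarith

/-- the Levi form inside a tube -/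
lemma vs_levi_in (k : ℕ) {z : Cn 3} (hz : z ∈ ball (0 : Cn 3) 3) {m : ℕ} (hm : m < k) (h : z ∈ (S.B m).N)
    (ζ : Cn 3) : levi (S.B m).v z ζ - 1 / 8 * ‖ζ‖ ^ 2 ≤ levi (S.vs k) z ζ := by
  rw [vs_levi, ← Finset.add_sum_erase _ _ (Finset.mem_range.2 hm)]
  have h1 : ∑ j ∈ (Finset.range k).erase m, (-(S.η j * ‖ζ‖ ^ 2)) ≤
      ∑ j ∈ (Finset.range k).erase m, levi (S.B j).v z ζ :=
    Finset.sum_le_sum fun j hj => (S.B j).v_out z hz
      (S.disj (Finset.ne_of_mem_erase hj).symm hz h) ζ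
  rw [Finset.sum_neg_distrib, ← Finset.sum_mul] at h1
  have h2 : ∑ j ∈ (Finset.range k).erase m, S.η j ≤ ∑ j ∈ Finset.range k, S.η j :=
    Finset.sum_le_sum_of_subset_of_nonneg (Finset.erase_subset _ _) fun j _ _ => (S.hη j).le
  have h3 := S.sum_geo k
  have h4 := S.two_eta
  have h5 : (∑ j ∈ (Finset.range k).erase m, S.η j) * ‖ζ‖ ^ 2 ≤ 1 / 8 * ‖ζ‖ ^ 2 :=
    mul_le_mul_of_nonneg_right (by linarith) (by positivity)
  linarith

/-- inner potential -/
noncomputable def av (k : ℕ) (z : Cn 3) : ℝ := (‖z‖ ^ 2 - 10) + S.vs k z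

lemma av_sm (k : ℕ) : ContDiff ℝ ∞ (S.av k) := (nz_sm.sub contDiff_const).add (S.vs_sm k)

lemma av_levi (k : ℕ) (z ζ : Cn 3) : levi (S.av k) z ζ = ‖ζ‖ ^ 2 + levi (S.vs k) z ζ := by
  unfold av
  rw [levi_add' (nz_sm.sub contDiff_const) (S.vs_sm k), sub_const_sm nz_sm, nz_levi]

lemma w_sm (m : ℕ) : ContDiff ℝ ∞ (fun y : Cn 3 => 3 / 4 * ‖y‖ ^ 2 + (S.B m).v y) :=
  (contDiff_const.mul nz_sm).add (S.B m).v_sm

lemma w_levi (m : ℕ) (z ζ : Cn 3) : levi (fun y : Cn 3 => 3 / 4 * ‖y‖ ^ 2 + (S.B m).v y) z ζ =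
    3 / 4 * ‖ζ‖ ^ 2 + levi (S.B m).v z ζ := by
  rw [levi_add' (contDiff_const.mul nz_sm) (S.B m).v_sm, levi_const_mul' _ nz_sm, nz_levi]

lemma av_ge_w (k : ℕ) {z : Cn 3} (hz : z ∈ ball (0 : Cn 3) 3) {m : ℕ} (hm : m < k) (h : z ∈ (S.B m).N)
    (ζ : Cn 3) : levi (fun y : Cn 3 => 3 / 4 * ‖y‖ ^ 2 + (S.B m).v y) z ζ ≤ levi (S.av k) z ζ := by
  rw [av_levi, w_levi]
  have h1 := S.vs_levi_in k hz hm h ζ
  have : 0 ≤ ‖ζ‖ ^ 2 := by positivity
  linarith

lemma av_psd (k : ℕ) {z : Cn 3} (hz : z ∈ ball (0 : Cn 3) 3) : (hess (S.av k) z).PosSemidef := by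
  rw [psd_iff (S.av_sm k)]
  intro ζ
  by_cases h : ∃ m < k, z ∈ (S.B m).N
  · obtain ⟨m, hm, hzm⟩ := h
    exact ((S.B m).v_in z hz hzm ζ).trans (S.av_ge_w k hz hm hzm ζ)
  · push Not at h
    rw [av_levi]
    have h1 := S.vs_levi_out k hz h ζ
    have : 0 ≤ ‖ζ‖ ^ 2 := by positivity
    linarith

lemma av_det (k : ℕ) {m : ℕ} (hm : m < k) {z : Cn 3} (hz : z ∈ (S.B m).U) :
    (S.B m).ρ z ≤ (hess (S.av k) z).det.re := by
  have hz3 := S.U_ball3 m hz
  have hzN := (S.B m).U_N hz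
  refine ((S.B m).v_det z hz).trans ?_
  apply det_mono_psd
  · rw [psd_iff (S.w_sm m)]
    exact (S.B m).v_in z hz3 hzN
  · exact hess_sub_psd (S.av_sm k) (S.w_sm m) z (S.av_ge_w k hz3 hm hzN)

/-- outer potential -/
noncomputable def b0 (z : Cn 3) : ℝ := 3 * (‖z‖ ^ 2 - 9)

lemma b0_sm : ContDiff ℝ ∞ b0 := contDiff_const.mul (nz_sm.sub contDiff_const)

lemma b0_hess (z : Cn 3) : hess b0 z = (3 : ℂ) • (1 : Matrix (Fin 3) (Fin 3) ℂ) := by
  unfold b0
  rw [hess_const_mul 3 (nz_sm.sub contDiff_const)]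
  have := hess_add_const (-9) nz_sm z
  simp only [← sub_eq_add_neg] at this
  rw [this, nz_hess]
  norm_num

lemma b0_psd (z : Cn 3) : (hess b0 z).PosSemidef := by
  rw [b0_hess]
  exact Matrix.PosSemidef.one.smul (by norm_num)

lemma b0_det (z : Cn 3) : (hess b0 z).det.re = 27 := by
  rw [b0_hess, Matrix.det_smul, Matrix.det_one]
  norm_num

/-- the approximations of the subsolution -/
noncomputable def us (k : ℕ) : Cn 3 → ℝ := glue 1 b0 (S.av k)

lemma us_sm (k : ℕ) : ContDiff ℝ ∞ (S.us k) := glue_smooth 1 b0_sm (S.av_sm k)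

lemma us_psd (k : ℕ) : ∀ z ∈ ball (0 : Cn 3) 3, (hess (S.us k) z).PosSemidef := fun z hz =>
  glue_psd one_pos b0_sm (S.av_sm k) z (b0_psd z) (S.av_psd k hz)

lemma us_off (k : ℕ) (z : Cn 3) (hz : z ∉ closedBall (0 : Cn 3) (59 / 20)) : S.us k z = b0 z := by
  apply glue_of_le one_pos
  have h1 : 59 / 20 < ‖z‖ := by
    rw [mem_closedBall_zero_iff] at hz
    exact not_le.1 hz
  have h2 := S.vs_le k z
  have h3 : (59 / 20) ^ 2 ≤ ‖z‖ ^ 2 := pow_le_pow_left₀ (by norm_num) h1.le 2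
  unfold av b0
  linarith

lemma us_in (k : ℕ) (z : Cn 3) (hz : z ∈ ball (0 : Cn 3) 2) : S.us k z = S.av k z - c0 := by
  have h : S.us k z = S.av k z - c0 * 1 := by
    apply glue_of_ge one_pos
    have h1 : ‖z‖ < 2 := by simpa using hz
    have h2 := S.vs_ge k z
    have h3 : ‖z‖ ^ 2 ≤ 2 ^ 2 := pow_le_pow_left₀ (norm_nonneg _) h1.le 2
    unfold av b0
    linarith
  rw [h, mul_one]

lemma us_hess_in (k : ℕ) (z : Cn 3) (hz : z ∈ ball (0 : Cn 3) 2) : hess (S.us k) z = hess (S.av k) z := by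
  rw [← hess_add_const (-c0) (S.av_sm k) z]
  apply hess_congr
  filter_upwards [isOpen_ball.mem_nhds hz] with y hy
  rw [S.us_in k y hy]
  ring

lemma us_det (k : ℕ) {m : ℕ} (hm : m < k) {z : Cn 3} (hz : z ∈ (S.B m).U) :
    (S.B m).ρ z ≤ (hess (S.us k) z).det.re := by
  rw [S.us_hess_in k z ((S.B m).U_ball hz)]
  exact S.av_det k hm hz

lemma glue_mono {a a' : Cn 3 → ℝ} {z : Cn 3} (h : a z ≤ a' z) : glue 1 b0 a z ≤ glue 1 b0 a' z := by
  unfold glue
  have : sm ((a z - b0 z) / 1) ≤ sm ((a' z - b0 z) / 1) := sm_mono (by simp; exact h)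
  linarith

lemma us_anti (z : Cn 3) : Antitone fun k => S.us k z := by
  apply antitone_nat_of_succ_le
  intro k
  apply glue_mono
  unfold av vs
  rw [Finset.sum_range_succ]
  have := (S.B k).v_le z
  linarith

/-- the limit -/
noncomputable def vinf (z : Cn 3) : ℝ := ∑' m, (S.B m).v z
noncomputable def ainf (z : Cn 3) : ℝ := (‖z‖ ^ 2 - 10) + S.vinf z
noncomputable def uinf : Cn 3 → ℝ := glue 1 b0 S.ainf

lemma v_abs (m : ℕ) (z : Cn 3) : ‖(S.B m).v z‖ ≤ S.η m := by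
  rw [Real.norm_eq_abs, abs_le]
  have h1 := (S.B m).v_le z
  have h2 := (S.B m).v_ge z
  have h3 := S.hη m
  constructor <;> linarith

lemma vs_unif : TendstoUniformly S.vs S.vinf atTop :=
  tendstoUniformly_tsum_nat S.summable_eta fun m z => S.v_abs m z

lemma sm_lip (x y : ℝ) : |sm x - sm y| ≤ |x - y| := by
  have key : ∀ x y : ℝ, y ≤ x → |sm x - sm y| ≤ |x - y| := by
    intro x y h
    have h1 := sm_mono h
    have h2 := sm_sub_mono h
    simp only at h2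
    rw [abs_of_nonneg (by linarith), abs_of_nonneg (by linarith)]
    linarith
  rcases le_total y x with h | h
  · exact key x y h
  · rw [abs_sub_comm, abs_sub_comm x y]
    exact key y x h

lemma us_unif : TendstoUniformly S.us S.uinf atTop := by
  have h := S.vs_unif
  rw [Metric.tendstoUniformly_iff] at h ⊢
  intro ε hε
  filter_upwards [h ε hε] with k hk z
  have h1 := hk z
  rw [Real.dist_eq] at h1 ⊢
  refine lt_of_le_of_lt ?_ h1
  have e1 : S.uinf z - S.us k z = sm ((S.ainf z - b0 z) / 1) - sm ((S.av k z - b0 z) / 1) := by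
    unfold uinf us glue
    ring
  rw [e1]
  refine (sm_lip _ _).trans (le_of_eq ?_)
  unfold ainf av
  congr 1
  ring

lemma us_lim (z : Cn 3) : Tendsto (fun k => S.us k z) atTop (𝓝 (S.uinf z)) :=
  S.us_unif.tendsto_at z

lemma uinf_cont : Continuous S.uinf :=
  S.us_unif.continuous (Eventually.frequently (Eventually.of_forall fun k => (S.us_sm k).continuous))

lemma uinf_off (z : Cn 3) (hz : z ∉ closedBall (0 : Cn 3) (59 / 20)) : S.uinf z = b0 z := by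
  refine tendsto_nhds_unique (S.us_lim z) ?_
  have : (fun k => S.us k z) = fun _ => b0 z := funext fun k => S.us_off k z hz
  rw [this]
  exact tendsto_const_nhds

lemma uinf_bdry : ∀ w ∈ frontier (ball (0 : Cn 3) 3), Tendsto S.uinf (𝓝[ball (0 : Cn 3) 3] w) (𝓝 0) := by
  intro w hw
  rw [frontier_ball _ (by norm_num)] at hw
  have hw3 : ‖w‖ = 3 := by simpa using hw
  have h1 : S.uinf w = 0 := by
    rw [S.uinf_off w (by rw [mem_closedBall_zero_iff, hw3]; norm_num)]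
    unfold b0
    rw [hw3]
    norm_num
  have h2 := (S.uinf_cont.tendsto w)
  rw [h1] at h2
  exact h2.mono_left nhdsWithin_le_nhds

end Sys

end Pool.Agent.H805K
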