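import Mathlib
import Pool.Agent.H805R2.Approx

set_option autoImplicit false
set_option maxHeartbeats 1000000

open MeasureTheory Metric Set Filter Topology
open scoped ContDiff ComplexOrder

namespace Pool.Agent.H805K
open Pool.Agent.H805R2

variable {n : ℕ}

namespace TaskC

lemma maD_nonneg {v : Cn n → ℝ} {z : Cn n} (h : (hess v z).PosSemidef) : 0 ≤ maDensity v z := by
  unfold maDensity
  have := det_hess_nonneg h
  have := Real.pi_pos
  positivity

lemma maD_continuous {v : Cn n → ℝ} (hv : ContDiff ℝ ∞ v) : Continuous (maDensity v) :=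
  continuous_const.mul (det_hess_continuous hv)

lemma maD_integrableOn {v : Cn n → ℝ} (hv : ContDiff ℝ ∞ v) {Ω : Set (Cn n)}
    (hΩb : Bornology.IsBounded Ω) : IntegrableOn (maDensity v) Ω :=
  ((maD_continuous hv).continuousOn.integrableOn_compact hΩb.isCompact_closure).mono_set
    subset_closure

/-- the total mass does not depend on the approximant -/
lemma mass_eq {Ω : Set (Cn n)} (hΩb : Bornology.IsBounded Ω)
    {u b0 : Cn n → ℝ} {C0 : Set (Cn n)} (hC0 : IsCompact C0) (hC0Ω : C0 ⊆ Ω)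
    (hb0 : ContDiff ℝ ∞ b0) (hu : ContDiff ℝ ∞ u) (hoff : ∀ z, z ∉ C0 → u z = b0 z) :
    ∫ z in Ω, maDensity u z = ∫ z in Ω, maDensity b0 z := by
  have hst := stokes_on b0 u hb0 hu C0 hC0 hoff
  have h1 : ∫ z in C0, maDensity u z = ∫ z in C0, maDensity b0 z := by
    unfold maDensity
    rw [integral_const_mul, integral_const_mul, hst]
  have h2 : ∫ z in Ω \ C0, maDensity u z = ∫ z in Ω \ C0, maDensity b0 z := by
    have hEq : ∀ z, z ∉ C0 → maDensity u z = maDensity b0 z := by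
      intro z hz
      unfold maDensity
      have : u =ᶠ[𝓝 z] b0 := by
        filter_upwards [hC0.isClosed.isOpen_compl.mem_nhds hz] with w hw
        exact hoff w hw
      rw [hess_congr this]
    by_cases hΩm : NullMeasurableSet (Ω \ C0) volume
    · exact setIntegral_congr_fun₀ hΩm fun z hz => hEq z hz.2
    · refine integral_congr_ae ?_
      have : ∀ᵐ z ∂(volume.restrict (Ω \ C0)), z ∉ C0 := by
        have h3 : (volume.restrict (Ω \ C0)) C0 = 0 := by
          rw [Measure.restrict_apply hC0.measurableSet]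
          have : C0 ∩ (Ω \ C0) = ∅ := by
            ext z
            simp
          rw [this, measure_empty]
        exact measure_eq_zero_iff_ae_notMem.1 h3
      filter_upwards [this] with z hz
      exact hEq z hz
  have hsum : ∀ v : Cn n → ℝ, ContDiff ℝ ∞ v → ∫ z in Ω, maDensity v z =
      (∫ z in C0, maDensity v z) + ∫ z in Ω \ C0, maDensity v z := by
    intro v hv
    have hi := maD_integrableOn hv hΩb
    have := integral_inter_add_sdiff (μ := volume) (s := Ω) (t := C0) hC0.measurableSet hi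
    rw [← this, Set.inter_eq_right.2 hC0Ω]
  rw [hsum u hu, hsum b0 hb0, h1, h2]

/-- the measure with the density of `v` on `Ω` -/
noncomputable def P (Ω : Set (Cn n)) (v : Cn n → ℝ) : Measure (Cn n) :=
  (volume.restrict Ω).withDensity fun z => ((Real.toNNReal (maDensity v z) : NNReal) : ENNReal)

lemma P_univ {Ω : Set (Cn n)} (hΩ : IsOpen Ω) (hΩb : Bornology.IsBounded Ω) {v : Cn n → ℝ}
    (hv : ContDiff ℝ ∞ v) (hpsd : ∀ z ∈ Ω, (hess v z).PosSemidef) :
    P Ω v univ = ENNReal.ofReal (∫ z in Ω, maDensity v z) := by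
  rw [P, withDensity_apply _ MeasurableSet.univ, Measure.restrict_univ,
    ofReal_integral_eq_lintegral_ofReal (maD_integrableOn hv hΩb)]
  · rfl
  · filter_upwards [ae_restrict_mem hΩ.measurableSet] with z hz
    exact maD_nonneg (hpsd z hz)

lemma P_compl {Ω : Set (Cn n)} (v : Cn n → ℝ) : P Ω v (closure Ω)ᶜ = 0 := by
  rw [P, withDensity_apply _ isClosed_closure.measurableSet.compl,
    Measure.restrict_restrict isClosed_closure.measurableSet.compl]
  have : (closure Ω)ᶜ ∩ Ω = ∅ := by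
    ext z
    simp only [mem_inter_iff, mem_compl_iff, mem_empty_iff_false, iff_false, not_and]
    intro h h'
    exact h (subset_closure h')
  rw [this, Measure.restrict_empty, lintegral_zero_measure]

lemma integral_P {Ω : Set (Cn n)} (hΩ : IsOpen Ω) {v : Cn n → ℝ}
    (hv : ContDiff ℝ ∞ v) (hpsd : ∀ z ∈ Ω, (hess v z).PosSemidef) {χ : Cn n → ℝ}
    (hs : tsupport χ ⊆ Ω) : ∫ z, χ z ∂(P Ω v) = ∫ z, χ z * maDensity v z := by
  have hm : Measurable fun z => Real.toNNReal (maDensity v z) :=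
    (maD_continuous hv).measurable.real_toNNReal
  rw [P, integral_withDensity_eq_integral_smul hm]
  have h1 : ∫ z in Ω, Real.toNNReal (maDensity v z) • χ z = ∫ z in Ω, χ z * maDensity v z := by
    refine setIntegral_congr_fun hΩ.measurableSet fun z hz => ?_
    simp only [NNReal.smul_def, smul_eq_mul]
    rw [Real.coe_toNNReal _ (maD_nonneg (hpsd z hz)), mul_comm]
  rw [h1]
  refine setIntegral_eq_integral_of_forall_compl_eq_zero fun z hz => ?_
  rw [image_eq_zero_of_notMem_tsupport (fun h => hz (hs h)), zero_mul]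

/-- comparison of finite measures by test functions -/
lemma compare_measures {Ω : Set (Cn n)} (hΩ : IsOpen Ω) (μ' ν : Measure (Cn n))
    [IsFiniteMeasure μ'] [IsFiniteMeasure ν]
    (h : ∀ χ : Cn n → ℝ, Continuous χ → HasCompactSupport χ → tsupport χ ⊆ Ω →
      (∀ z, 0 ≤ χ z) → ∫ z, χ z ∂μ' ≤ ∫ z, χ z ∂ν)
    (E : Set (Cn n)) (hE : MeasurableSet E) (hEΩ : E ⊆ Ω) : μ' E ≤ ν E := by
  have hK : ∀ K : Set (Cn n), IsCompact K → K ⊆ Ω → μ' K ≤ ν K := by
    intro K hK hKΩ
    rw [K.measure_eq_iInf_isOpen ν]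
    refine le_iInf fun V => le_iInf fun hKV => le_iInf fun hV => ?_
    obtain ⟨χ, hχ, hχc, hχs, hχ1, hχ01⟩ := cutoff hK (hV.inter hΩ) (subset_inter hKV hKΩ)
    have hb : ∀ (ρ : Measure (Cn n)) [IsFiniteMeasure ρ], Integrable χ ρ := fun ρ _ =>
      hχ.continuous.integrable_of_hasCompactSupport hχc
    have h1 : μ' K ≤ ENNReal.ofReal (∫ z, χ z ∂μ') := by
      rw [ofReal_integral_eq_lintegral_ofReal (hb μ') (Eventually.of_forall fun z => (hχ01 z).1)]
      calc μ' K = ∫⁻ _ in K, 1 ∂μ' := by rw [setLIntegral_one]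
        _ ≤ ∫⁻ z in K, ENNReal.ofReal (χ z) ∂μ' := by
            refine setLIntegral_mono' hK.measurableSet fun z hz => ?_
            rw [hχ1 z hz, ENNReal.ofReal_one]
        _ ≤ _ := setLIntegral_le_lintegral _ _
    have h2 : ENNReal.ofReal (∫ z, χ z ∂ν) ≤ ν V := by
      rw [ofReal_integral_eq_lintegral_ofReal (hb ν) (Eventually.of_forall fun z => (hχ01 z).1)]
      calc ∫⁻ z, ENNReal.ofReal (χ z) ∂ν ≤ ∫⁻ z, V.indicator 1 z ∂ν := by
            refine lintegral_mono fun z => ?_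
            by_cases hz : z ∈ V
            · rw [indicator_of_mem hz, Pi.one_apply]
              exact ENNReal.ofReal_le_one.2 (hχ01 z).2
            · rw [indicator_of_notMem hz,
                image_eq_zero_of_notMem_tsupport (fun h' => hz (hχs h').1), ENNReal.ofReal_zero]
        _ = ν V := lintegral_indicator_one hV.measurableSet
    refine h1.trans (le_trans (ENNReal.ofReal_le_ofReal ?_) h2)
    exact h χ hχ.continuous hχc (hχs.trans inter_subset_right) fun z => (hχ01 z).1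
  rw [hE.measure_eq_iSup_isCompact_of_ne_top (measure_ne_top μ' E)]
  refine iSup_le fun K => iSup_le fun hKE => iSup_le fun hKc => ?_
  exact (hK K hKc (hKE.trans hEΩ)).trans (measure_mono hKE)

end TaskC

open TaskC in
theorem exists_MA {Ω : Set (Cn n)} (hΩ : IsOpen Ω) (hΩb : Bornology.IsBounded Ω)
    {u : ℕ → Cn n → ℝ} {b0 uinf : Cn n → ℝ} {C0 : Set (Cn n)} (hC0 : IsCompact C0) (hC0Ω : C0 ⊆ Ω)
    (hb0 : ContDiff ℝ ∞ b0) (hu : ∀ k, ContDiff ℝ ∞ (u k))
    (hpsd : ∀ k, ∀ z ∈ Ω, (hess (u k) z).PosSemidef) (hoff : ∀ k, ∀ z, z ∉ C0 → u k z = b0 z)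
    (hmass : 0 < ∫ z in Ω, maDensity b0 z)
    (hanti : ∀ z ∈ Ω, Antitone fun k => u k z)
    (hlim : ∀ z ∈ Ω, Tendsto (fun k => u k z) atTop (𝓝 (uinf z))) :
    ∃ ν : Measure (Cn n), IsFiniteMeasure ν ∧ IsMongeAmpere Ω uinf ν ∧
      ∀ (μ' : Measure (Cn n)), IsFiniteMeasure μ' → ∀ k0 : ℕ,
        (∀ j ≥ k0, ∀ χ : Cn n → ℝ, Continuous χ → HasCompactSupport χ → tsupport χ ⊆ Ω →
          (∀ z, 0 ≤ χ z) → ∫ z, χ z ∂μ' ≤ ∫ z, χ z * maDensity (u j) z) →
        ∀ E, MeasurableSet E → E ⊆ Ω → μ' E ≤ ν E := by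
  set m : ℝ := ∫ z in Ω, maDensity b0 z with hm
  have hPu : ∀ k, P Ω (u k) univ = ENNReal.ofReal m := fun k => by
    rw [P_univ hΩ hΩb (hu k) (hpsd k), mass_eq hΩb hC0 hC0Ω hb0 (hu k) (hoff k)]
  have hm0 : ENNReal.ofReal m ≠ 0 := by
    rw [Ne, ENNReal.ofReal_eq_zero, not_le]
    exact hmass
  have hmt : ENNReal.ofReal m ≠ ⊤ := ENNReal.ofReal_ne_top
  have hprob : ∀ k, IsProbabilityMeasure ((ENNReal.ofReal m)⁻¹ • P Ω (u k)) := fun k =>
    ⟨by rw [Measure.smul_apply, hPu k, smul_eq_mul, ENNReal.inv_mul_cancel hm0 hmt]⟩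
  set Q : ℕ → ProbabilityMeasure (Cn n) := fun k => ⟨(ENNReal.ofReal m)⁻¹ • P Ω (u k), hprob k⟩
    with hQ
  have hcomp : IsCompact {μ : ProbabilityMeasure (Cn n) | ∀ _j : ℕ, μ (closure Ω)ᶜ ≤ 0} :=
    isCompact_setOfPred_probabilityMeasure_mass_eq_compl_isCompact_le (u := fun _ => 0)
      (K := fun _ => closure Ω) tendsto_const_nhds (fun _ => hΩb.isCompact_closure)
      (Or.inl inferInstance)
  have hmem : ∀ k, Q k ∈ {μ : ProbabilityMeasure (Cn n) | ∀ _j : ℕ, μ (closure Ω)ᶜ ≤ 0} := by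
    intro k _
    have h1 : ((Q k : ProbabilityMeasure (Cn n)) : Measure (Cn n)) (closure Ω)ᶜ = 0 := by
      change ((ENNReal.ofReal m)⁻¹ • P Ω (u k)) (closure Ω)ᶜ = 0
      rw [Measure.smul_apply, P_compl, smul_zero]
    rw [nonpos_iff_eq_zero]
    exact (ProbabilityMeasure.null_iff_toMeasure_null _ _).2 h1
  obtain ⟨Q0, -, sub, hsub, hconv⟩ := hcomp.isSeqCompact hmem
  rw [ProbabilityMeasure.tendsto_iff_forall_integral_tendsto] at hconv
  set ν : Measure (Cn n) := ENNReal.ofReal m • (Q0 : Measure (Cn n)) with hν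
  have hνfin : IsFiniteMeasure ν := ⟨by
    rw [hν, Measure.smul_apply, measure_univ, smul_eq_mul, mul_one]
    exact ENNReal.ofReal_lt_top⟩
  have hlimχ : ∀ χ : Cn n → ℝ, Continuous χ → HasCompactSupport χ → tsupport χ ⊆ Ω →
      Tendsto (fun k => ∫ z, χ z * maDensity (u (sub k)) z) atTop (𝓝 (∫ z, χ z ∂ν)) := by
    intro χ hχ hχc hχs
    obtain ⟨B, hB⟩ := hχc.exists_bound_of_continuous hχ
    have h1 := hconv (BoundedContinuousFunction.ofNormedAddCommGroup χ hχ B hB)
    simp only [BoundedContinuousFunction.coe_ofNormedAddCommGroup, Function.comp] at h1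
    have h2 := h1.const_mul m
    have e1 : m * ∫ z, χ z ∂(Q0 : Measure (Cn n)) = ∫ z, χ z ∂ν := by
      rw [hν, integral_smul_measure, ENNReal.toReal_ofReal hmass.le, smul_eq_mul]
    rw [e1] at h2
    refine h2.congr fun k => ?_
    have e2 : ∫ z, χ z ∂(Q (sub k) : Measure (Cn n)) =
        m⁻¹ * ∫ z, χ z * maDensity (u (sub k)) z := by
      change ∫ z, χ z ∂((ENNReal.ofReal m)⁻¹ • P Ω (u (sub k))) = _
      rw [integral_smul_measure, ENNReal.toReal_inv, ENNReal.toReal_ofReal hmass.le, smul_eq_mul,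
        integral_P hΩ (hu _) (hpsd _) hχs]
    rw [e2, ← mul_assoc, mul_inv_cancel₀ hmass.ne', one_mul]
  refine ⟨ν, hνfin, ⟨fun K _ _ => measure_lt_top ν K, fun U hU hUc hUΩ => ?_⟩, ?_⟩
  · have hUΩ' : U ⊆ Ω := subset_closure.trans hUΩ
    refine ⟨fun k => u (sub k), fun k => (hu _).contDiffOn, fun k z hz => hpsd _ z (hUΩ' hz),
      fun z hz => (hanti z (hUΩ' hz)).comp_monotone hsub.monotone,
      fun z hz => (hlim z (hUΩ' hz)).comp hsub.tendsto_atTop, fun χ hχ hχc hχs => ?_⟩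
    exact hlimχ χ hχ hχc (hχs.trans hUΩ')
  · intro μ' hμ' k0 h
    refine compare_measures hΩ μ' ν fun χ hχ hχc hχs hχ0 => ?_
    refine ge_of_tendsto (hlimχ χ hχ hχc hχs) ?_
    filter_upwards [eventually_ge_atTop k0] with k hk
    exact h (sub k) (hk.trans (hsub.le_apply)) χ hχ hχc hχs hχ0

end Pool.Agent.H805K
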