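import Mathlib
import Pool.Agent.H805R2.Defs
import Pool.Agent.H805R2.Compare

set_option autoImplicit false
set_option maxHeartbeats 1000000

open MeasureTheory Metric Set Filter Topology
open scoped ContDiff ComplexOrder

namespace Pool.Agent.H805K
open Pool.Agent.H805R2

variable {n : ℕ}

/-- differentiation under the integral sign, everything continuous -/
lemma hasDerivAt_param {F F' : ℝ → ℝ → ℝ} (hF : Continuous (Function.uncurry F))
    (hF' : Continuous (Function.uncurry F')) (h : ∀ r θ, HasDerivAt (fun r => F r θ) (F' r θ) r)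
    (a b r0 : ℝ) : HasDerivAt (fun r => ∫ θ in a..b, F r θ) (∫ θ in a..b, F' r0 θ) r0 := by
  have hK : IsCompact (Icc (r0 - 1) (r0 + 1) ×ˢ uIcc a b) := isCompact_Icc.prod isCompact_uIcc
  obtain ⟨C, hC⟩ := hK.exists_bound_of_continuousOn hF'.continuousOn
  refine (intervalIntegral.hasDerivAt_integral_of_dominated_loc_of_deriv_le (bound := fun _ => C)
    (F := F) (F' := F') (s := Icc (r0 - 1) (r0 + 1)) (Icc_mem_nhds (by linarith) (by linarith))
    ?_ ?_ ?_ ?_ ?_ ?_).2
  · refine Eventually.of_forall fun r => ?_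
    have : Continuous (F r) := hF.comp (continuous_const.prodMk continuous_id)
    exact this.aestronglyMeasurable
  · have : Continuous (F r0) := hF.comp (continuous_const.prodMk continuous_id)
    exact this.intervalIntegrable _ _
  · have : Continuous (F' r0) := hF'.comp (continuous_const.prodMk continuous_id)
    exact this.aestronglyMeasurable
  · refine Eventually.of_forall fun t ht r hr => ?_
    exact hC (r, t) ⟨hr, uIoc_subset_uIcc ht⟩
  · exact continuous_const.intervalIntegrable _ _
  · exact Eventually.of_forall fun t _ r _ => h r t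

/-- the submean inequality for smooth functions with nonnegative Levi form along a disc -/
lemma submean_aux {u : Cn n → ℝ} (hu : ContDiff ℝ ∞ u) (a b : Cn n)
    (h : ∀ ζ : ℂ, ‖ζ‖ ≤ 1 → ∀ ξ, 0 ≤ levi u (a + ζ • b) ξ) :
    2 * Real.pi * u a ≤ ∫ θ in (0 : ℝ)..2 * Real.pi, u (a + Complex.exp (θ * Complex.I) • b) := by
  set v : ℝ → Cn n := fun θ => Complex.exp (θ * Complex.I) • b with hv
  set w : ℝ → Cn n := fun θ => Complex.I • v θ with hw
  have hvc : Continuous v := by
    simp only [hv]; fun_prop
  have hwc : Continuous w := by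
    simp only [hw]; fun_prop
  have hvd : ∀ θ, HasDerivAt v (w θ) θ := by
    intro θ
    have h1 : HasDerivAt (fun θ : ℝ => Complex.exp (θ * Complex.I))
        (Complex.exp (θ * Complex.I) * (1 * Complex.I)) θ :=
      ((Complex.ofRealCLM.hasDerivAt (x := θ)).mul_const Complex.I).cexp
    refine (h1.smul_const b).congr_deriv ?_
    simp only [hw, hv, smul_smul]
    congr 1
    ring
  have hwd : ∀ θ, HasDerivAt w (-v θ) θ := by
    intro θ
    refine ((hvd θ).const_smul Complex.I).congr_deriv ?_
    simp only [hw, smul_smul, Complex.I_mul_I, neg_smul, one_smul]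
  set D : Cn n → (Cn n →L[ℝ] ℝ) := fderiv ℝ u with hD
  set DD : Cn n → (Cn n →L[ℝ] Cn n →L[ℝ] ℝ) := fderiv ℝ D with hDD
  have hDs : ContDiff ℝ ∞ D := hu.fderiv_right (by simp)
  have hDDs : ContDiff ℝ ∞ DD := hDs.fderiv_right (by simp)
  have hDc : Continuous D := hDs.continuous
  have hDDc : Continuous DD := hDDs.continuous
  have hud : ∀ z, HasFDerivAt u (D z) z := fun z => (hu.differentiable (by simp) z).hasFDerivAt
  have hDd : ∀ z, HasFDerivAt D (DD z) z := fun z => (hDs.differentiable (by simp) z).hasFDerivAt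
  -- the functions
  set J : ℝ → ℝ → ℝ := fun r θ => u (a + r • v θ) with hJ
  set p : ℝ → ℝ → ℝ := fun r θ => D (a + r • v θ) (v θ) with hp
  set q : ℝ → ℝ → ℝ := fun r θ => D (a + r • v θ) (w θ) with hq
  have hrd : ∀ r θ, HasDerivAt (fun r : ℝ => a + r • v θ) (v θ) r := by
    intro r θ
    refine (((hasDerivAt_id r).smul_const (v θ)).const_add a).congr_deriv ?_
    exact one_smul _ _
  have hθd : ∀ r θ : ℝ, HasDerivAt (fun θ : ℝ => a + r • v θ) (r • w θ) θ := by
    intro r θ
    exact ((hvd θ).const_smul r).const_add a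
  have hJr : ∀ r θ, HasDerivAt (fun r => J r θ) (p r θ) r := by
    intro r θ
    exact (hud _).comp_hasDerivAt r (hrd r θ)
  have hpr : ∀ r θ, HasDerivAt (fun r => p r θ) (DD (a + r • v θ) (v θ) (v θ)) r := by
    intro r θ
    have h1 := (hDd (a + r • v θ)).comp_hasDerivAt r (hrd r θ)
    refine (h1.clm_apply (hasDerivAt_const r (v θ))).congr_deriv ?_
    simp
  have hqθ : ∀ r θ, HasDerivAt (fun θ => q r θ)
      (r * DD (a + r • v θ) (w θ) (w θ) - p r θ) θ := by
    intro r θ
    have h1 := (hDd (a + r • v θ)).comp_hasDerivAt θ (hθd r θ)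
    refine (h1.clm_apply (hwd θ)).congr_deriv ?_
    simp only [map_smul, map_neg, smul_apply, smul_eq_mul, hp, Function.comp_apply]
    ring
  set L : ℝ → ℝ → ℝ := fun r θ => 4 * levi u (a + r • v θ) (v θ) with hL
  have hLe : ∀ r θ, L r θ = DD (a + r • v θ) (v θ) (v θ) + DD (a + r • v θ) (w θ) (w θ) := by
    intro r θ
    simp only [hL, levi, D2, hw, hDD, hD]
    ring
  have hz : Continuous fun x : ℝ × ℝ => a + x.1 • v x.2 := by fun_prop
  have hJc : Continuous (Function.uncurry J) := hu.continuous.comp hz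
  have hpc : Continuous (Function.uncurry p) :=
    (hDc.comp hz).clm_apply (hvc.comp continuous_snd)
  have hDvc : Continuous fun x : ℝ × ℝ => DD (a + x.1 • v x.2) (v x.2) (v x.2) :=
    ((hDDc.comp hz).clm_apply (hvc.comp continuous_snd)).clm_apply (hvc.comp continuous_snd)
  have hDwc : Continuous fun x : ℝ × ℝ => DD (a + x.1 • v x.2) (w x.2) (w x.2) :=
    ((hDDc.comp hz).clm_apply (hwc.comp continuous_snd)).clm_apply (hwc.comp continuous_snd)
  -- `S r θ = r p`
  set S : ℝ → ℝ → ℝ := fun r θ => r * p r θ with hS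
  set S' : ℝ → ℝ → ℝ := fun r θ => p r θ + r * DD (a + r • v θ) (v θ) (v θ) with hS'
  have hSr : ∀ r θ, HasDerivAt (fun r => S r θ) (S' r θ) r := by
    intro r θ
    refine ((hasDerivAt_id r).mul (hpr r θ)).congr_deriv ?_
    simp [hS']
  have hSc : Continuous (Function.uncurry S) := continuous_fst.mul hpc
  have hSc' : Continuous (Function.uncurry S') := hpc.add (continuous_fst.mul hDvc)
  have h2π : (0 : ℝ) ≤ 2 * Real.pi := by positivity
  -- integral of S' 
  have hIS : ∀ r : ℝ, 0 ≤ r → r ≤ 1 → 0 ≤ ∫ θ in (0 : ℝ)..2 * Real.pi, S' r θ := by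
    intro r hr0 hr1
    have hQ : ∫ θ in (0 : ℝ)..2 * Real.pi, (r * DD (a + r • v θ) (w θ) (w θ) - p r θ) = 0 := by
      rw [intervalIntegral.integral_eq_sub_of_hasDerivAt (fun θ _ => hqθ r θ)]
      · have : v (2 * Real.pi) = v 0 := by
          simp only [hv]
          push_cast
          rw [Complex.exp_two_pi_mul_I]
          simp
        simp only [hq, hw, this, sub_self]
      · apply Continuous.intervalIntegrable
        have h1 : Continuous fun θ : ℝ => (r, θ) := by fun_prop
        exact (continuous_const.mul (hDwc.comp h1)).sub (hpc.comp h1)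
    have hsum : ∀ θ, S' r θ + (r * DD (a + r • v θ) (w θ) (w θ) - p r θ) = r * L r θ := by
      intro θ
      rw [hLe]
      simp only [hS']
      ring
    have h1 : Continuous fun θ : ℝ => (r, θ) := by fun_prop
    have e1 : ∫ θ in (0 : ℝ)..2 * Real.pi, S' r θ = ∫ θ in (0 : ℝ)..2 * Real.pi, r * L r θ := by
      have i1 : IntervalIntegrable (fun θ => S' r θ) volume 0 (2 * Real.pi) :=
        (hSc'.comp h1).intervalIntegrable _ _
      have i2 : IntervalIntegrable (fun θ => r * DD (a + r • v θ) (w θ) (w θ) - p r θ) volume 0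
          (2 * Real.pi) :=
        ((continuous_const.mul (hDwc.comp h1)).sub (hpc.comp h1)).intervalIntegrable _ _
      have h3 := intervalIntegral.integral_add i1 i2
      rw [hQ, add_zero] at h3
      rw [← h3]
      simp only [hsum]
    rw [e1]
    apply intervalIntegral.integral_nonneg h2π
    intro θ _
    apply mul_nonneg hr0
    simp only [hL]
    apply mul_nonneg (by norm_num)
    have hr : (r • v θ : Cn n) = ((r : ℂ) * Complex.exp (θ * Complex.I)) • b := by
      simp only [hv, ← Complex.coe_smul, smul_smul]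
    rw [hr]
    apply h
    rw [norm_mul, Complex.norm_exp_ofReal_mul_I, mul_one, Complex.norm_real, Real.norm_eq_abs,
      abs_of_nonneg hr0]
    exact hr1
  -- P
  set P : ℝ → ℝ := fun r => ∫ θ in (0 : ℝ)..2 * Real.pi, S r θ with hP
  have hPd : ∀ r, HasDerivAt P (∫ θ in (0 : ℝ)..2 * Real.pi, S' r θ) r := fun r =>
    hasDerivAt_param hSc hSc' hSr _ _ r
  have hPmono : MonotoneOn P (Icc 0 1) := by
    apply monotoneOn_of_deriv_nonneg (convex_Icc 0 1)
    · exact fun r _ => (hPd r).continuousAt.continuousWithinAt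
    · exact fun r _ => (hPd r).differentiableAt.differentiableWithinAt
    · intro r hr
      rw [interior_Icc] at hr
      rw [(hPd r).deriv]
      exact hIS r hr.1.le hr.2.le
  have hP0 : P 0 = 0 := by
    simp [hP, hS]
  have hJd : ∀ r, HasDerivAt (fun r => ∫ θ in (0 : ℝ)..2 * Real.pi, J r θ)
      (∫ θ in (0 : ℝ)..2 * Real.pi, p r θ) r := fun r =>
    hasDerivAt_param hJc hpc hJr _ _ r
  have hJmono : MonotoneOn (fun r => ∫ θ in (0 : ℝ)..2 * Real.pi, J r θ) (Icc 0 1) := by
    apply monotoneOn_of_deriv_nonneg (convex_Icc 0 1)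
    · exact fun r _ => (hJd r).continuousAt.continuousWithinAt
    · exact fun r _ => (hJd r).differentiableAt.differentiableWithinAt
    · intro r hr
      rw [interior_Icc] at hr
      rw [(hJd r).deriv]
      have h1 : 0 ≤ P r := by
        rw [← hP0]
        exact hPmono (left_mem_Icc.2 zero_le_one) ⟨hr.1.le, hr.2.le⟩ hr.1.le
      have h2 : P r = r * ∫ θ in (0 : ℝ)..2 * Real.pi, p r θ := by
        simp only [hP, hS, intervalIntegral.integral_const_mul]
      rw [h2] at h1
      exact nonneg_of_mul_nonneg_right h1 hr.1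
  have hfin := hJmono (left_mem_Icc.2 zero_le_one) (right_mem_Icc.2 zero_le_one) zero_le_one
  simp only [hJ, zero_smul, add_zero, intervalIntegral.integral_const, sub_zero, smul_eq_mul,
    one_smul] at hfin
  exact hfin

/-- multiplication by a unimodular scalar is an isometry -/
noncomputable def rot (c : ℂ) (hc : ‖c‖ = 1) : Cn n ≃ₗᵢ[ℝ] Cn n where
  toFun z := c • z
  invFun z := c⁻¹ • z
  map_add' := smul_add c
  map_smul' t z := by
    simp only [RingHom.id_apply]
    exact smul_comm c t z
  left_inv z := by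
    have : c ≠ 0 := by
      rintro rfl
      simp at hc
    exact inv_smul_smul₀ this z
  right_inv z := by
    have : c ≠ 0 := by
      rintro rfl
      simp at hc
    exact smul_inv_smul₀ this z
  norm_map' z := by
    change ‖c • z‖ = ‖z‖
    rw [norm_smul, hc, one_mul]

lemma integral_ball_rot (c : ℂ) (hc : ‖c‖ = 1) (u : Cn n → ℝ) (r : ℝ) :
    ∫ z in ball (0 : Cn n) r, u (c • z) = ∫ z in ball (0 : Cn n) r, u z := by
  have h1 : MeasurePreserving (rot (n := n) c hc) volume volume :=
    (rot (n := n) c hc).measurePreserving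
  have h2 := h1.setIntegral_preimage_emb (rot (n := n) c hc).toHomeomorph.measurableEmbedding u
    (ball (0 : Cn n) r)
  have h3 : (rot (n := n) c hc) ⁻¹' ball (0 : Cn n) r = ball (0 : Cn n) r := by
    ext z
    rw [mem_preimage, mem_ball_zero_iff, mem_ball_zero_iff, LinearIsometryEquiv.norm_map]
  rw [h3] at h2
  exact h2

theorem psh_of_smooth {Ω : Set (Cn n)} (hΩ : IsOpen Ω) {u : Cn n → ℝ} (hu : ContDiff ℝ ∞ u)
    (h : ∀ z ∈ Ω, (hess u z).PosSemidef) : PSH Ω (fun z => ((u z : ℝ) : EReal)) := by
  refine ⟨?_, fun z _ => EReal.coe_lt_top _, ?_⟩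
  · exact (continuous_coe_real_ereal.comp hu.continuous).continuousOn.upperSemicontinuousOn
  · intro a b hab φ hφ hle
    have h1 : ∀ ζ : ℂ, ‖ζ‖ = 1 → u (a + ζ • b) ≤ φ ζ := fun ζ hζ =>
      EReal.coe_le_coe_iff.1 (hle ζ hζ)
    have h2 := submean_aux hu a b (fun ζ hζ =>
      (hess_posSemidef_iff (hu.of_le ss_le) _).1 (h _ (hab ζ hζ)))
    have h3 : ∫ θ in (0 : ℝ)..2 * Real.pi, u (a + Complex.exp (θ * Complex.I) • b) ≤
        ∫ θ in (0 : ℝ)..2 * Real.pi, φ (circleMap 0 1 θ) := by
      apply intervalIntegral.integral_mono_on (by positivity)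
      · apply Continuous.intervalIntegrable
        exact hu.continuous.comp (by fun_prop)
      · apply Continuous.intervalIntegrable
        exact hφ.comp (continuous_circleMap 0 1)
      · intro θ _
        have e : circleMap 0 1 θ = Complex.exp (θ * Complex.I) := by simp [circleMap]
        rw [e]
        exact h1 _ (Complex.norm_exp_ofReal_mul_I θ)
    have h4 : u a ≤ Real.circleAverage φ 0 1 := by
      rw [Real.circleAverage, smul_eq_mul]
      have hpi : 0 < 2 * Real.pi := by positivity
      have := h2.trans h3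
      rw [inv_mul_eq_div, le_div_iff₀ hpi]
      linarith
    exact EReal.coe_le_coe_iff.2 h4

theorem psh_of_unif {Ω : Set (Cn n)} {u : ℕ → Cn n → ℝ} {uinf : Cn n → ℝ}
    (hpsh : ∀ k, PSH Ω (fun z => ((u k z : ℝ) : EReal))) (hunif : TendstoUniformlyOn u uinf atTop Ω)
    (hc : ContinuousOn uinf Ω) : PSH Ω (fun z => ((uinf z : ℝ) : EReal)) := by
  refine ⟨?_, fun z _ => EReal.coe_lt_top _, ?_⟩
  · exact (continuous_coe_real_ereal.comp_continuousOn hc).upperSemicontinuousOn
  · intro a b hab φ hφ hle
    have h1 : ∀ ζ : ℂ, ‖ζ‖ = 1 → uinf (a + ζ • b) ≤ φ ζ := fun ζ hζ =>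
      EReal.coe_le_coe_iff.1 (hle ζ hζ)
    have haΩ : a ∈ Ω := by
      have := hab 0 (by simp)
      simpa using this
    have key : ∀ ε : ℝ, 0 < ε → uinf a ≤ Real.circleAverage φ 0 1 + 2 * ε := by
      intro ε hε
      obtain ⟨k, hk⟩ := ((Metric.tendstoUniformlyOn_iff.1 hunif) ε hε).exists
      have h2 := (hpsh k).2.2 a b hab (fun ζ => φ ζ + ε) (hφ.add continuous_const) (by
        intro ζ hζ
        apply EReal.coe_le_coe_iff.2
        have h3 := hk _ (hab ζ hζ.le)
        rw [Real.dist_eq, abs_lt] at h3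
        have := h1 ζ hζ
        linarith [h3.1, h3.2])
      have h4 : u k a ≤ Real.circleAverage (fun ζ => φ ζ + ε) 0 1 := EReal.coe_le_coe_iff.1 h2
      have h5 : Real.circleAverage (fun ζ => φ ζ + ε) 0 1 = Real.circleAverage φ 0 1 + ε := by
        rw [show (fun ζ => φ ζ + ε) = φ + fun _ => ε from rfl, Real.circleAverage_add,
          Real.circleAverage_const]
        · exact hφ.continuousOn.circleIntegrable'
        · exact continuous_const.continuousOn.circleIntegrable'
      have h6 := hk a haΩ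
      rw [Real.dist_eq, abs_lt] at h6
      linarith [h6.1, h6.2]
    have h7 : uinf a ≤ Real.circleAverage φ 0 1 := by
      apply le_of_forall_pos_le_add
      intro ε hε
      have := key (ε / 2) (by linarith)
      linarith
    exact EReal.coe_le_coe_iff.2 h7

theorem ball_mean {u : Cn n → ℝ} (hu : ContDiff ℝ ∞ u) {r R : ℝ} (hr : 0 < r) (hrR : r < R)
    (h : ∀ z ∈ ball (0 : Cn n) R, (hess u z).PosSemidef) :
    (volume (ball (0 : Cn n) r)).toReal * u 0 ≤ ∫ z in ball (0 : Cn n) r, u z := by
  have hpi : 0 < 2 * Real.pi := by positivity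
  have h1 : ∀ z ∈ ball (0 : Cn n) r,
      2 * Real.pi * u 0 ≤ ∫ θ in (0 : ℝ)..2 * Real.pi, u (Complex.exp (θ * Complex.I) • z) := by
    intro z hz
    have := submean_aux hu 0 z (fun ζ hζ =>
      (hess_posSemidef_iff (hu.of_le ss_le) _).1 (h _ (by
        rw [zero_add, mem_ball_zero_iff, norm_smul]
        rw [mem_ball_zero_iff] at hz
        have : ‖ζ‖ * ‖z‖ ≤ 1 * ‖z‖ := mul_le_mul_of_nonneg_right hζ (norm_nonneg z)
        linarith)))
    simpa using this
  -- rotation invariance
  have hrot : ∀ θ : ℝ, ∫ z in ball (0 : Cn n) r, u (Complex.exp (θ * Complex.I) • z) =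
      ∫ z in ball (0 : Cn n) r, u z := by
    intro θ
    exact integral_ball_rot _ (Complex.norm_exp_ofReal_mul_I θ) u r
  have hcont : Continuous fun x : Cn n × ℝ => u (Complex.exp (x.2 * Complex.I) • x.1) :=
    hu.continuous.comp (by fun_prop)
  have h2 : ∫ _z in ball (0 : Cn n) r, 2 * Real.pi * u 0 ≤
      ∫ z in ball (0 : Cn n) r, ∫ θ in (0 : ℝ)..2 * Real.pi, u (Complex.exp (θ * Complex.I) • z) := by
    apply setIntegral_mono_on
    · apply integrableOn_const (measure_ball_lt_top.ne)
    · have hc : Continuous fun z : Cn n =>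
          ∫ θ in (0 : ℝ)..2 * Real.pi, u (Complex.exp (θ * Complex.I) • z) :=
        intervalIntegral.continuous_parametric_intervalIntegral_of_continuous' hcont 0 (2 * Real.pi)
      exact (hc.continuousOn.integrableOn_compact (isCompact_closedBall 0 r)).mono_set
        ball_subset_closedBall
    · exact measurableSet_ball
    · exact h1
  have h3 : ∫ z in ball (0 : Cn n) r, ∫ θ in (0 : ℝ)..2 * Real.pi, u (Complex.exp (θ * Complex.I) • z)
      = ∫ θ in (0 : ℝ)..2 * Real.pi, ∫ z in ball (0 : Cn n) r, u (Complex.exp (θ * Complex.I) • z) := by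
    symm
    apply intervalIntegral_integral_swap
    have h4 : Continuous (Function.uncurry fun (θ : ℝ) (z : Cn n) =>
        u (Complex.exp (θ * Complex.I) • z)) := hu.continuous.comp (by fun_prop)
    rw [Measure.prod_restrict]
    have h5 : IsCompact (uIcc 0 (2 * Real.pi) ×ˢ closedBall (0 : Cn n) r) :=
      isCompact_uIcc.prod (isCompact_closedBall 0 r)
    exact (h4.continuousOn.integrableOn_compact h5).mono_set
      (prod_mono uIoc_subset_uIcc ball_subset_closedBall)
  rw [h3] at h2
  simp only [hrot] at h2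
  rw [setIntegral_const, intervalIntegral.integral_const] at h2
  simp only [smul_eq_mul, sub_zero, Measure.real] at h2
  have h4 : 2 * Real.pi * ((volume (ball (0 : Cn n) r)).toReal * u 0) ≤
      2 * Real.pi * ∫ z in ball (0 : Cn n) r, u z := by
    calc _ = (volume (ball (0 : Cn n) r)).toReal * (2 * Real.pi * u 0) := by ring
      _ ≤ _ := h2
  exact le_of_mul_le_mul_left h4 hpi

end Pool.Agent.H805K
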