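import Mathlib
import Pool.Agent.H805K.Asm1
import Pool.Agent.H805K.C
import Pool.Agent.H805K.TaskD

set_option autoImplicit false
set_option maxHeartbeats 1000000

open MeasureTheory Metric Set Filter Topology
open scoped ContDiff ComplexOrder

namespace Pool.Agent.H805K
open Pool.Agent.H805R2

/-- the normalising constant of the Monge-Ampère measure in `ℂ³` -/
noncomputable def kap : ℝ := ((Nat.factorial 3 : ℕ) : ℝ) * (2 / Real.pi) ^ 3

lemma kap_pos : 0 < kap := by
  unfold kap
  have := Real.pi_pos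
  positivity

lemma maDensity_eq (v : Cn 3 → ℝ) (z : Cn 3) : maDensity v z = kap * (hess v z).det.re := rfl

namespace Sys
variable (S : Sys)

/-- the measure carried by the `m`-th tube -/
noncomputable def mum (m : ℕ) : Measure (Cn 3) :=
  (volume.restrict (S.B m).U).withDensity fun z => ENNReal.ofReal (kap * (S.B m).ρ z)

/-- the full measure -/
noncomputable def mu : Measure (Cn 3) := Measure.sum S.mum

/-- its partial sums -/
noncomputable def mup (k : ℕ) : Measure (Cn 3) := ∑ m ∈ Finset.range k, S.mum m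

lemma mup_apply (k : ℕ) (E : Set (Cn 3)) : S.mup k E = ∑ m ∈ Finset.range k, S.mum m E := by
  unfold mup
  rw [Measure.finsetSum_apply]

lemma mu_apply {E : Set (Cn 3)} (hE : MeasurableSet E) : S.mu E = ⨆ k, S.mup k E := by
  unfold mu
  rw [Measure.sum_apply _ hE, ENNReal.tsum_eq_iSup_nat]
  simp only [mup_apply]

lemma mum_apply (m : ℕ) {E : Set (Cn 3)} (hE : MeasurableSet E) :
    S.mum m E = ∫⁻ z in E ∩ (S.B m).U, ENNReal.ofReal (kap * (S.B m).ρ z) := by
  unfold mum
  rw [withDensity_apply _ hE, Measure.restrict_restrict hE]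

lemma mup_le_dens (k : ℕ) {j : ℕ} (hj : k ≤ j) {E : Set (Cn 3)} (hE : MeasurableSet E) :
    S.mup k E ≤ ∫⁻ z in E ∩ ball (0 : Cn 3) 3, ENNReal.ofReal (maDensity (S.us j) z) := by
  rw [mup_apply]
  have h1 : ∀ m ∈ Finset.range k, S.mum m E ≤
      ∫⁻ z in E ∩ (S.B m).U, ENNReal.ofReal (maDensity (S.us j) z) := by
    intro m hm
    rw [S.mum_apply m hE]
    apply setLIntegral_mono' (hE.inter (S.B m).U_open.measurableSet)
    intro z hz
    apply ENNReal.ofReal_le_ofReal
    rw [maDensity_eq]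
    exact mul_le_mul_of_nonneg_left (S.us_det j ((Finset.mem_range.1 hm).trans_le hj) hz.2) kap_pos.le
  refine (Finset.sum_le_sum h1).trans ?_
  rw [← lintegral_biUnion_finset]
  · apply lintegral_mono_set
    intro z hz
    simp only [mem_iUnion] at hz
    obtain ⟨m, hm, hz⟩ := hz
    exact ⟨hz.1, S.U_ball3 m hz.2⟩
  · intro m hm m' hm' hmm
    rw [Function.onFun, Set.disjoint_left]
    intro z hz hz'
    exact S.disj hmm (S.U_ball3 m hz.2) ((S.B m).U_N hz.2) ((S.B m').U_N hz'.2)
  · intro m _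
    exact hE.inter (S.B m).U_open.measurableSet

lemma mup_le_P (k : ℕ) {j : ℕ} (hj : k ≤ j) : S.mup k ≤ TaskC.P (ball (0 : Cn 3) 3) (S.us j) := by
  rw [Measure.le_iff]
  intro E hE
  refine (S.mup_le_dens k hj hE).trans (le_of_eq ?_)
  rw [TaskC.P, withDensity_apply _ hE, Measure.restrict_restrict hE]
  rfl

lemma P_finite (j : ℕ) : IsFiniteMeasure (TaskC.P (ball (0 : Cn 3) 3) (S.us j)) := by
  refine ⟨?_⟩
  rw [TaskC.P_univ isOpen_ball isBounded_ball (S.us_sm j) (S.us_psd j)]
  exact ENNReal.ofReal_lt_top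

lemma mup_finite (k : ℕ) : IsFiniteMeasure (S.mup k) := by
  have := S.P_finite k
  exact ⟨(S.mup_le_P k le_rfl univ).trans_lt (measure_lt_top _ _)⟩

theorem exists_nu : ∃ ν : Measure (Cn 3), IsFiniteMeasure ν ∧ IsMongeAmpere (ball (0 : Cn 3) 3) S.uinf ν ∧
    ∀ E, MeasurableSet E → E ⊆ ball (0 : Cn 3) 3 → S.mu E ≤ ν E := by
  have hmass : 0 < ∫ z in ball (0 : Cn 3) 3, maDensity b0 z := by
    have h1 : ∀ z, maDensity b0 z = kap * 27 := fun z => by rw [maDensity_eq, b0_det]
    simp only [h1]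
    rw [setIntegral_const, smul_eq_mul]
    apply mul_pos
    · rw [measureReal_def]
      exact ENNReal.toReal_pos (measure_ball_pos volume _ (by norm_num)).ne' measure_ball_lt_top.ne
    · have := kap_pos
      positivity
  obtain ⟨ν, hν1, hν2, hν3⟩ := exists_MA (Ω := ball (0 : Cn 3) 3) isOpen_ball isBounded_ball (u := S.us)
    (b0 := b0) (uinf := S.uinf) (isCompact_closedBall (0 : Cn 3) (59 / 20))
    (closedBall_subset_ball (by norm_num)) b0_sm S.us_sm S.us_psd S.us_off hmass
    (fun z _ => S.us_anti z) (fun z _ => S.us_lim z)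
  refine ⟨ν, hν1, hν2, ?_⟩
  intro E hE hEΩ
  rw [S.mu_apply hE]
  apply iSup_le
  intro k
  refine hν3 (S.mup k) (S.mup_finite k) k ?_ E hE hEΩ
  intro j hj χ hχc hχs hχΩ hχ0
  rw [← TaskC.integral_P isOpen_ball (S.us_sm j) (S.us_psd j) hχΩ]
  have := S.P_finite j
  exact integral_mono_measure (S.mup_le_P k hj) (Eventually.of_forall hχ0)
    (hχc.integrable_of_hasCompactSupport hχs)

lemma uinf_psh : PSH (ball (0 : Cn 3) 3) (fun z => ((S.uinf z : ℝ) : EReal)) :=
  psh_of_unif (fun k => psh_of_smooth isOpen_ball (S.us_sm k) (S.us_psd k))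
    S.us_unif.tendstoUniformlyOn S.uinf_cont.continuousOn

lemma mu_finite : IsFiniteMeasure S.mu := by
  obtain ⟨ν, hν1, _, hν3⟩ := S.exists_nu
  refine ⟨?_⟩
  have h1 : S.mu (ball (0 : Cn 3) 3)ᶜ = 0 := by
    rw [S.mu_apply isOpen_ball.measurableSet.compl]
    simp only [mup_apply, ENNReal.iSup_eq_zero]
    intro k
    apply Finset.sum_eq_zero
    intro m _
    rw [S.mum_apply m isOpen_ball.measurableSet.compl]
    have : (ball (0 : Cn 3) 3)ᶜ ∩ (S.B m).U = ∅ := by
      rw [eq_empty_iff_forall_notMem]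
      rintro z ⟨h1, h2⟩
      exact h1 (S.U_ball3 m h2)
    rw [this, Measure.restrict_empty, lintegral_zero_measure]
  rw [← measure_add_measure_compl (isOpen_ball (x := (0 : Cn 3)) (ε := 3)).measurableSet, h1, add_zero]
  exact (hν3 _ isOpen_ball.measurableSet Subset.rfl).trans_lt (measure_lt_top _ _)

lemma mu_compl : S.mu (ball (0 : Cn 3) 3)ᶜ = 0 := by
  rw [S.mu_apply isOpen_ball.measurableSet.compl]
  simp only [mup_apply, ENNReal.iSup_eq_zero]
  intro k
  apply Finset.sum_eq_zero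
  intro m _
  rw [S.mum_apply m isOpen_ball.measurableSet.compl]
  have : (ball (0 : Cn 3) 3)ᶜ ∩ (S.B m).U = ∅ := by
    rw [eq_empty_iff_forall_notMem]
    rintro z ⟨h1, h2⟩
    exact h1 (S.U_ball3 m h2)
  rw [this, Measure.restrict_empty, lintegral_zero_measure]

lemma mum_le_mu (m : ℕ) : S.mum m ≤ S.mu := Measure.le_sum _ m

lemma mu_pos : 0 < S.mu (ball (0 : Cn 3) 3) := by
  have h1 : 0 < S.mum 0 (ball (0 : Cn 3) 3) := by
    rw [S.mum_apply 0 isOpen_ball.measurableSet]
    have e : ball (0 : Cn 3) 3 ∩ (S.B 0).U = (S.B 0).U := inter_eq_right.2 fun z hz => S.U_ball3 0 hz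
    rw [e]
    rw [setLIntegral_pos_iff]
    · have h2 : Function.support (fun z => ENNReal.ofReal (kap * (S.B 0).ρ z)) ∩ (S.B 0).U = (S.B 0).U := by
        apply inter_eq_right.2
        intro z hz
        rw [Function.mem_support]
        have := (S.B 0).ρ_pos z hz
        have := kap_pos
        exact (ENNReal.ofReal_pos.2 (by positivity)).ne'
      rw [h2]
      exact (S.B 0).U_open.measure_pos volume ⟨(S.B 0).y, (S.B 0).y_mem⟩
    · exact (continuous_const.mul (S.B 0).ρ_cont).measurable.ennreal_ofReal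
  exact h1.trans_le (S.mum_le_mu 0 _)

end Sys

end Pool.Agent.H805K
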