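import Mathlib
import Pool.Agent.H805R2.Approx
import Pool.Agent.H805R2.Lite

/-! Task B: comparison from below (`lower_cmp`). -/

set_option autoImplicit false
set_option maxHeartbeats 1000000
set_option linter.unusedVariables false

open MeasureTheory Metric Set Filter Topology
open scoped ContDiff ComplexOrder

namespace Pool.Agent.H805K
open Pool.Agent.H805R2

variable {n : ℕ}

/-- global smooth approximants of a continuous Monge-Ampère potential near a compact set (no sign
assumption) -/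
lemma extract' {Ω : Set (Cn n)} (hΩ : IsOpen Ω) {u : Cn n → ℝ} {μ : Measure (Cn n)}
    (hMA : IsMongeAmpere Ω u μ) {K : Set (Cn n)} (hK : IsCompact K) (hKΩ : K ⊆ Ω) :
    ∃ (U : Set (Cn n)) (v : ℕ → Cn n → ℝ), IsOpen U ∧ K ⊆ U ∧ U ⊆ Ω ∧
      (∀ k, ContDiff ℝ ∞ (v k)) ∧
      (∀ k, ∀ z ∈ U, (hess (v k) z).PosSemidef) ∧
      (∀ k, ∀ z ∈ U, u z ≤ v k z) ∧
      (∀ z ∈ U, Antitone fun k => v k z) ∧
      (∀ z ∈ U, Tendsto (fun k => v k z) atTop (𝓝 (u z))) ∧
      ∀ χ : Cn n → ℝ, Continuous χ → HasCompactSupport χ → tsupport χ ⊆ U →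
        Tendsto (fun k => ∫ z, χ z * maDensity (v k) z) atTop (𝓝 (∫ z, χ z ∂μ)) := by
  obtain ⟨K1, hK1, hKK1, hK1Ω⟩ := exists_compact_between hK hΩ hKΩ
  obtain ⟨K2, hK2, hK12, hK2Ω⟩ := exists_compact_between hK1 hΩ hK1Ω
  set V := interior K2 with hVdef
  have hV : IsOpen V := isOpen_interior
  have hclV : closure V ⊆ K2 := closure_minimal interior_subset hK2.isClosed
  obtain ⟨w, hw1, hw2, hw3, hw4, hw5⟩ := hMA.2 V hV (hK2.of_isClosed_subset isClosed_closure hclV)
    (hclV.trans hK2Ω)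
  obtain ⟨χ0, hχs, hχc, hχV, hχ1, hχ01⟩ := cutoff hK1 hV hK12
  have hVΩ : V ⊆ Ω := interior_subset.trans hK2Ω
  set U := interior K1 with hUdef
  have hUV : U ⊆ V := interior_subset.trans hK12
  have hwu : ∀ k, ∀ z ∈ V, u z ≤ w k z := fun k z hz => (hw3 z hz).le_of_tendsto (hw4 z hz) k
  have heq : ∀ k, ∀ z ∈ U, χ0 z * w k z = w k z := fun k z hz => by
    rw [hχ1 z (interior_subset hz), one_mul]
  have hhess : ∀ k, ∀ z ∈ U, hess (fun z => χ0 z * w k z) z = hess (w k) z := by
    intro k z hz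
    apply hess_congr
    filter_upwards [isOpen_interior.mem_nhds hz] with y hy
    exact heq k y hy
  refine ⟨U, fun k z => χ0 z * w k z, isOpen_interior, hKK1, hUV.trans hVΩ, ?_, ?_, ?_, ?_, ?_, ?_⟩
  · exact fun k => cutoff_mul_smooth hV hχs (hw1 k) hχV
  · intro k z hz
    rw [hhess k z hz]
    exact hw2 k z (hUV hz)
  · intro k z hz
    simp only [heq _ z hz]
    exact hwu k z (hUV hz)
  · intro z hz
    simp only [heq _ z hz]
    exact hw3 z (hUV hz)
  · intro z hz
    simp only [heq _ z hz]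
    exact hw4 z (hUV hz)
  · intro χ hχc' hχcs hχU
    have h1 := hw5 χ hχc' hχcs (hχU.trans hUV)
    refine h1.congr fun k => ?_
    apply integral_congr_ae
    refine Eventually.of_forall fun z => ?_
    simp only
    by_cases hz : z ∈ tsupport χ
    · rw [maDensity, maDensity, hhess k z (hχU hz)]
    · rw [image_eq_zero_of_notMem_tsupport hz, zero_mul, zero_mul]

/-- sublevel sets are compact -/
lemma sub_compact {Ω : Set (Cn n)} (hΩ : IsOpen Ω) (hΩb : Bornology.IsBounded Ω)
    {φ V : Cn n → ℝ} (hφ : ContinuousOn φ Ω)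
    (hbd : ∀ w ∈ frontier Ω, Tendsto φ (𝓝[Ω] w) (𝓝 0)) (hV : Continuous V)
    (hV0 : ∀ z ∈ Ω, V z ≤ 0) {t : ℝ} (ht : 0 < t) : IsCompact {z | z ∈ Ω ∧ φ z + t ≤ V z} := by
  obtain ⟨C, hC, hCΩ, hCt⟩ := bdry_compact hΩ hΩb hbd t ht
  have h1 : {z | z ∈ Ω ∧ φ z + t ≤ V z} = {z | z ∈ C ∧ φ z + t ≤ V z} := by
    ext z
    constructor
    · rintro ⟨hz, h⟩
      refine ⟨?_, h⟩
      by_contra hzC
      have := hCt z hz hzC
      have := hV0 z hz
      linarith
    · rintro ⟨hz, h⟩
      exact ⟨hCΩ hz, h⟩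
  rw [h1]
  apply hC.of_isClosed_subset _ (fun z hz => hz.1)
  have h2 : ContinuousOn (fun z => V z - (φ z + t)) C :=
    hV.continuousOn.sub ((hφ.mono hCΩ).add continuousOn_const)
  have h3 := h2.preimage_isClosed_of_isClosed hC.isClosed (isClosed_Ici (a := (0 : ℝ)))
  convert h3 using 1
  ext z
  simp [sub_nonneg]

theorem lower_cmp (hn : 0 < n) {Ω : Set (Cn n)} (hΩ : IsOpen Ω) (hΩb : Bornology.IsBounded Ω)
    {φ : Cn n → ℝ} {μ : Measure (Cn n)} (hφ : ContinuousOn φ Ω)
    (hbd : ∀ w ∈ frontier Ω, Tendsto φ (𝓝[Ω] w) (𝓝 0)) (hMA : IsMongeAmpere Ω φ μ)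
    {V : Cn n → ℝ} (hV : ContDiff ℝ ∞ V) (hVpsd : ∀ z ∈ Ω, (hess V z).PosSemidef)
    (hV0 : ∀ z ∈ Ω, V z ≤ 0) {s s' : ℝ} (hs : 0 < s) (hss : s < s') :
    ∫ z in {z | z ∈ Ω ∧ φ z + s' ≤ V z}, maDensity V z ≤ (μ {z | z ∈ Ω ∧ φ z + s ≤ V z}).toReal := by
  set A : ℝ → Set (Cn n) := fun t => {z | z ∈ Ω ∧ φ z + t ≤ V z} with hA
  change ∫ z in A s', maDensity V z ≤ (μ (A s)).toReal
  have hAc : ∀ t, 0 < t → IsCompact (A t) := fun t ht =>
    sub_compact hΩ hΩb hφ hbd hV.continuous hV0 ht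
  have hAΩ : ∀ t, A t ⊆ Ω := fun t z hz => hz.1
  have hAmono : ∀ t t', t ≤ t' → A t' ⊆ A t := fun t t' htt z hz => ⟨hz.1, by
    have := hz.2
    linarith⟩
  set s1 := (2 * s + s') / 3 with hs1
  set s2 := (s + 2 * s') / 3 with hs2
  have h01 : s < s1 := by rw [hs1]; linarith
  have h12 : s1 < s2 := by rw [hs1, hs2]; linarith
  have h23 : s2 < s' := by rw [hs2]; linarith
  obtain ⟨U, v, hU, hKU, hUΩ, hv1, hv2, hv3, hv4, hv5, hv6⟩ := extract' hΩ hMA (hAc s hs) (hAΩ s)
  -- the open set between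
  set O : Set (Cn n) := {z | z ∈ Ω ∧ φ z + s < V z} with hOdef
  have hO : IsOpen O := by
    have h2 : ContinuousOn (fun z => V z - (φ z + s)) Ω :=
      hV.continuous.continuousOn.sub (hφ.add continuousOn_const)
    have h3 := h2.isOpen_inter_preimage hΩ (isOpen_Ioi (a := (0 : ℝ)))
    convert h3 using 1
    ext z
    simp [hOdef, sub_pos]
  have hOA : O ⊆ A s := fun z hz => ⟨hz.1, hz.2.le⟩
  have hCO : A s1 ⊆ O := fun z hz => ⟨hz.1, by
    have := hz.2
    linarith⟩
  set η := (s' - s2) / 3 with hη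
  have hη0 : 0 < η := by rw [hη]; linarith
  obtain ⟨k0, hk0⟩ := dini_lt v φ (fun z => φ z + η) (K := A s) (hAc s hs)
    (fun k => (hv1 k).continuous.continuousOn) (fun z hz => hv4 z (hKU hz))
    (fun z hz => hv5 z (hKU hz)) ((hφ.mono (hAΩ s)).add continuousOn_const)
    (fun z _ => by linarith)
  obtain ⟨χ, hχs, hχc, hχO, hχ1, hχ01⟩ := cutoff (hAc s1 (hs.trans h01)) hO hCO
  obtain ⟨χ1, hχ1s, hχ1c, hχ1U, hχ11, hχ101⟩ := cutoff (hAc s hs) hU hKU
  have key : ∀ k ≥ k0, ∫ z in A s', maDensity V z ≤ ∫ z, χ z * maDensity (v k) z := by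
    intro k hk
    set a : Cn n → ℝ := fun z => V z + (-s2) with ha
    have has : ContDiff ℝ ∞ a := hV.add contDiff_const
    set ψ : Cn n → ℝ := fun z => v k z + χ1 z * (glue η (v k) a z - v k z) with hψ
    have hψs : ContDiff ℝ ∞ ψ :=
      (hv1 k).add (hχ1s.mul ((glue_smooth η (hv1 k) has).sub (hv1 k)))
    have hoff : ∀ z, z ∉ A s1 → ψ z = v k z := by
      intro z hz
      rw [hψ]
      simp only
      by_cases hzU : z ∈ U
      · have h1 : a z ≤ v k z := by
          have h2 : ¬ (φ z + s1 ≤ V z) := fun h => hz ⟨hUΩ hzU, h⟩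
          have h3 := hv3 k z hzU
          rw [ha]
          simp only
          linarith
        rw [glue_of_le hη0 h1, sub_self, mul_zero, add_zero]
      · rw [image_eq_zero_of_notMem_tsupport (fun h => hzU (hχ1U h)), zero_mul, add_zero]
    have hst := stokes_on (v k) ψ (hv1 k) hψs (A s1) (hAc s1 (hs.trans h01)) hoff
    have hst' : ∫ z in A s1, maDensity ψ z = ∫ z in A s1, maDensity (v k) z := by
      simp only [maDensity]
      rw [integral_const_mul, integral_const_mul, hst]
    have hψO : ∀ z ∈ O, hess ψ z = hess (glue η (v k) a) z := by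
      intro z hz
      apply hess_congr
      filter_upwards [hO.mem_nhds hz] with y hy
      rw [hψ]
      simp only
      rw [hχ11 y (hOA hy)]
      ring
    have hpsd : ∀ z ∈ O, (hess ψ z).PosSemidef := by
      intro z hz
      rw [hψO z hz]
      refine glue_psd hη0 (hv1 k) has z (hv2 k z (hKU (hOA hz))) ?_
      rw [ha, hess_add_const (-s2) hV z]
      exact hVpsd z hz.1
    have heqV : ∀ z ∈ A s', maDensity ψ z = maDensity V z := by
      intro z hz
      have hzs : z ∈ A s := hAmono s s' hss.le hz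
      have hzO : z ∈ O := hCO (hAmono s1 s' (h12.trans h23).le hz)
      have h1 := hk0 k hk z hzs
      have h2 : v k z + η < a z := by
        have := hz.2
        rw [ha]
        simp only
        have h3 : η * 3 = s' - s2 := by rw [hη]; ring
        linarith
      have h3 : hess (glue η (v k) a) z = hess V z := by
        rw [← hess_add_const (-s2 - c0 * η) hV z]
        apply hess_congr
        have hcont : Continuous fun y => a y - (v k y + η) :=
          has.continuous.sub ((hv1 k).continuous.add continuous_const)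
        have := hcont.continuousAt.eventually (lt_mem_nhds (by linarith : 0 < a z - (v k z + η)))
        filter_upwards [this] with y hy
        rw [glue_of_ge hη0 (by linarith : v k y + η ≤ a y), ha]
        ring
      rw [maDensity, maDensity, hψO z hzO, h3]
    have hint : IntegrableOn (maDensity ψ) (A s1) :=
      (maDensity_continuous hψs).continuousOn.integrableOn_compact (hAc s1 (hs.trans h01))
    calc ∫ z in A s', maDensity V z = ∫ z in A s', maDensity ψ z :=
          (setIntegral_congr_fun (hAc s' (hs.trans hss)).measurableSet heqV).symm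
      _ ≤ ∫ z in A s1, maDensity ψ z := by
          apply setIntegral_mono_set hint
          · refine (ae_restrict_iff' (hAc s1 (hs.trans h01)).measurableSet).2
              (Eventually.of_forall fun z hz => ?_)
            exact maDensity_nonneg (hpsd z (hCO hz))
          · exact LE.le.eventuallyLE (hAmono s1 s' (h12.trans h23).le)
      _ = ∫ z in A s1, maDensity (v k) z := hst'
      _ = ∫ z in A s1, (fun _ => (1 : ℝ)) z * maDensity (v k) z := by simp only [one_mul]
      _ ≤ ∫ z, χ z * maDensity (v k) z :=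
          setInt_le_cut (hv1 k) hχs.continuous hχc (hAc s1 (hs.trans h01))
            (hχO.trans (hOA.trans hKU)) (hv2 k) (fun z => (hχ01 z).1) (fun _ => 1)
            (fun z hz => (hχ1 z hz).ge) continuous_const
            ((hCO.trans hOA).trans hKU)
  have hlim := hv6 χ hχs.continuous hχc (hχO.trans (hOA.trans hKU))
  have h1 : ∫ z in A s', maDensity V z ≤ ∫ z, χ z ∂μ :=
    ge_of_tendsto hlim (eventually_atTop.2 ⟨k0, key⟩)
  refine h1.trans ?_
  have hμ : μ (A s) < ⊤ := hMA.1 (A s) (hAc s hs) (hAΩ s)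
  have h2 : ∫ z, χ z ∂μ = ∫ z in A s, χ z ∂μ := by
    refine (setIntegral_eq_integral_of_forall_compl_eq_zero fun z hz => ?_).symm
    exact image_eq_zero_of_notMem_tsupport (fun h => hz (hOA (hχO h)))
  rw [h2]
  have h3 : ∫ z in A s, χ z ∂μ ≤ ∫ z in A s, (1 : ℝ) ∂μ := by
    have : IsFiniteMeasure (μ.restrict (A s)) := ⟨by rwa [Measure.restrict_apply_univ]⟩
    apply integral_mono_of_nonneg (Eventually.of_forall fun z => (hχ01 z).1) (integrable_const _)
      (Eventually.of_forall fun z => (hχ01 z).2)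
  refine h3.trans ?_
  simp [Measure.real]

end Pool.Agent.H805K
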