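import Mathlib
import Pool.Agent.H805R2.Defs

set_option autoImplicit false
set_option maxHeartbeats 1000000

open MeasureTheory Metric Set Filter Topology
open scoped ContDiff ComplexOrder

namespace Pool.Agent.H805K
open Pool.Agent.H805R2

variable {n : ℕ}

lemma fderiv_cmul (c : ℂ) (f : Cn n → ℂ) (z : Cn n) :
    fderiv ℝ (fun w => c * f w) z = c • fderiv ℝ f z := by
  have := congrFun (fderiv_const_smul_field (𝕜 := ℝ) (R := ℂ) (f := f) c) z
  exact this

lemma wd_cmul (j : Fin n) (c : ℂ) (f : Cn n → ℂ) (z : Cn n) :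
    wd j (fun w => c * f w) z = c * wd j f z := by
  simp only [wd, fderiv_cmul, smul_apply, smul_eq_mul]
  ring

lemma wdb_cmul (j : Fin n) (c : ℂ) (f : Cn n → ℂ) (z : Cn n) :
    wdb j (fun w => c * f w) z = c * wdb j f z := by
  simp only [wdb, fderiv_cmul, smul_apply, smul_eq_mul]
  ring

lemma hess_rmul (t : ℝ) (f : Cn n → ℝ) (z : Cn n) :
    hess (fun y => t * f y) z = (t : ℂ) • hess f z := by
  ext j k
  simp only [hess, Matrix.of_apply, Matrix.smul_apply, smul_eq_mul]
  have h1 : (fun w => ((t * f w : ℝ) : ℂ)) = fun w => (t : ℂ) * ((f w : ℝ) : ℂ) := by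
    funext w; push_cast; rfl
  have h2 : (wdb k fun w => ((t * f w : ℝ) : ℂ)) = fun w => (t : ℂ) * wdb k (fun w => (f w : ℂ)) w := by
    funext w
    rw [h1, wdb_cmul]
  rw [h2, wd_cmul]

lemma maDensity_rmul (t : ℝ) (f : Cn n → ℝ) (z : Cn n) :
    maDensity (fun y => t * f y) z = t ^ n * maDensity f z := by
  simp only [maDensity, hess_rmul, Matrix.det_smul, Fintype.card_fin]
  rw [← Complex.ofReal_pow, Complex.re_ofReal_mul]
  ring

theorem ma_scale {Ω : Set (Cn n)} {u : Cn n → ℝ} {μ : Measure (Cn n)} (h : IsMongeAmpere Ω u μ) {t : ℝ}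
    (ht : 0 ≤ t) : IsMongeAmpere Ω (fun z => t * u z) (ENNReal.ofReal (t ^ n) • μ) := by
  refine ⟨?_, ?_⟩
  · intro K hK hKΩ
    rw [Measure.smul_apply, smul_eq_mul]
    exact ENNReal.mul_lt_top ENNReal.ofReal_lt_top (h.1 K hK hKΩ)
  · intro U hU hUc hUΩ
    obtain ⟨v, h1, h2, h3, h4, h5⟩ := h.2 U hU hUc hUΩ
    refine ⟨fun k z => t * v k z, fun k => contDiffOn_const.mul (h1 k), ?_, ?_, ?_, ?_⟩
    · intro k z hz
      rw [hess_rmul]
      exact (h2 k z hz).smul (by exact_mod_cast ht)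
    · intro z hz i j hij
      exact mul_le_mul_of_nonneg_left (h3 z hz hij) ht
    · intro z hz
      exact (h4 z hz).const_mul t
    · intro χ hχ hχc hχU
      have h6 := (h5 χ hχ hχc hχU).const_mul (t ^ n)
      rw [integral_smul_measure, ENNReal.toReal_ofReal (pow_nonneg ht n), smul_eq_mul]
      refine h6.congr fun k => ?_
      rw [← integral_const_mul]
      congr 1
      funext z
      rw [maDensity_rmul]
      ring

end Pool.Agent.H805K
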