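import Mathlib
import Pool.Agent.H805R2.Lite

/-!
Comparison from above: an upper barrier `h` with `(dd^c h)ⁿ` smaller than the density of the
Monge-Ampère measure of `φ` (at the points where `h` is plurisubharmonic) and `φ ≤ h` on the
boundary satisfies `φ ≤ h` inside.
-/

set_option autoImplicit false
set_option maxHeartbeats 1000000

open MeasureTheory Metric Set Filter Topology
open scoped ContDiff ComplexOrder

namespace Pool.Agent.H805K.Up
open Pool.Agent.H805R2

variable {n : ℕ}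

/-- local smooth approximants near a point -/
lemma extract_pt {Ω : Set (Cn n)} {φ : Cn n → ℝ} {μ : Measure (Cn n)}
    (hMA : IsMongeAmpere Ω φ μ) {U : Set (Cn n)} (hU : IsOpen U) (hcl : IsCompact (closure U))
    (hUΩ : closure U ⊆ Ω) {x : Cn n} (hx : x ∈ U) :
    ∃ (V : Set (Cn n)) (v : ℕ → Cn n → ℝ), IsOpen V ∧ x ∈ V ∧ V ⊆ U ∧
      (∀ k, ContDiff ℝ ∞ (v k)) ∧
      (∀ k, ∀ z ∈ V, (hess (v k) z).PosSemidef) ∧
      (∀ z ∈ V, Antitone fun k => v k z) ∧
      (∀ z ∈ V, Tendsto (fun k => v k z) atTop (𝓝 (φ z))) ∧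
      ∀ χ : Cn n → ℝ, Continuous χ → HasCompactSupport χ → tsupport χ ⊆ V →
        Tendsto (fun k => ∫ z, χ z * maDensity (v k) z) atTop (𝓝 (∫ z, χ z ∂μ)) := by
  obtain ⟨w, hw1, hw2, hw3, hw4, hw5⟩ := hMA.2 U hU hcl hUΩ
  obtain ⟨K1, hK1, hxK1, hK1U⟩ := exists_compact_between (isCompact_singleton (x := x)) hU
    (singleton_subset_iff.2 hx)
  obtain ⟨χ0, hχs, hχc, hχU, hχ1, hχ01⟩ := cutoff hK1 hU hK1U
  have hVU : interior K1 ⊆ U := interior_subset.trans hK1U
  have heq : ∀ k, ∀ z ∈ interior K1, χ0 z * w k z = w k z := fun k z hz => by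
    rw [hχ1 z (interior_subset hz), one_mul]
  have hhess : ∀ k, ∀ z ∈ interior K1, hess (fun z => χ0 z * w k z) z = hess (w k) z := by
    intro k z hz
    apply hess_congr
    filter_upwards [isOpen_interior.mem_nhds hz] with y hy
    exact heq k y hy
  refine ⟨interior K1, fun k z => χ0 z * w k z, isOpen_interior, hxK1 rfl, hVU, ?_, ?_, ?_, ?_, ?_⟩
  · exact fun k => cutoff_mul_smooth hU hχs (hw1 k) hχU
  · intro k z hz
    rw [hhess k z hz]
    exact hw2 k z (hVU hz)
  · intro z hz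
    simp only [heq _ z hz]
    exact hw3 z (hVU hz)
  · intro z hz
    simp only [heq _ z hz]
    exact hw4 z (hVU hz)
  · intro χ hχc' hχcs hχV
    refine (hw5 χ hχc' hχcs (hχV.trans hVU)).congr fun k => ?_
    apply integral_congr_ae
    refine Eventually.of_forall fun z => ?_
    simp only
    by_cases hz : z ∈ tsupport χ
    · rw [maDensity, maDensity, hhess k z (hχV hz)]
    · rw [image_eq_zero_of_notMem_tsupport hz, zero_mul, zero_mul]

/-- the squared distance to `x` -/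
noncomputable def sqd (x z : Cn n) : ℝ := ‖z - x‖ ^ 2

lemma sqd_smooth (x : Cn n) : ContDiff ℝ ∞ (sqd x) :=
  (contDiff_norm_sq ℝ).comp (contDiff_id.sub contDiff_const)

lemma sqd_D2 (x z ξ : Cn n) : D2 (sqd x) z ξ ξ = 2 * ‖ξ‖ ^ 2 := by
  have h1 : fderiv ℝ (sqd x) = fun z => (2 : ℝ) • innerSL ℝ (z - x) := by
    funext y
    have e1 : HasFDerivAt (fun z : Cn n => ‖z‖ ^ 2) (2 • (innerSL ℝ (y - x))) (y - x) :=
      (hasStrictFDerivAt_norm_sq (y - x)).hasFDerivAt
    have e2 : HasFDerivAt (fun z : Cn n => z - x) (ContinuousLinearMap.id ℝ (Cn n)) y :=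
      (hasFDerivAt_id y).sub_const x
    have e3 := e1.comp y e2
    have e4 : fderiv ℝ (sqd x) y = (2 • (innerSL ℝ (y - x))).comp (ContinuousLinearMap.id ℝ (Cn n)) :=
      e3.fderiv
    rw [e4]
    ext w
    simp [two_smul]
  have h2 : HasFDerivAt (fun z : Cn n => (2 : ℝ) • innerSL ℝ (z - x)) ((2 : ℝ) • innerSL ℝ) z := by
    have e2 : HasFDerivAt (fun z : Cn n => z - x) (ContinuousLinearMap.id ℝ (Cn n)) z :=
      (hasFDerivAt_id z).sub_const x
    have e3 := ((innerSL ℝ).hasFDerivAt.comp z e2).const_smul (2 : ℝ)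
    exact e3
  unfold D2
  rw [h1, h2.fderiv]
  change (2 : ℝ) * inner ℝ ξ ξ = _
  rw [real_inner_self_eq_norm_sq]

lemma sqd_levi (x z ζ : Cn n) : levi (sqd x) z ζ = ‖ζ‖ ^ 2 := by
  unfold levi
  rw [sqd_D2, sqd_D2, norm_smul, Complex.norm_I, one_mul]
  ring

lemma levi_he {h : Cn n → ℝ} (hh : ContDiff ℝ ∞ h) (ε : ℝ) (x z ζ : Cn n) :
    levi (fun z => h z + ε * sqd x z) z ζ = levi h z ζ + ε * ‖ζ‖ ^ 2 := by
  have h2 : ContDiff ℝ 2 (sqd x) := (sqd_smooth x).of_le ss_le
  rw [levi_add (hh.of_le ss_le) (contDiff_const.mul h2), levi_const_mul _ h2, sqd_levi]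

/-- second derivative test -/
lemma D2_nonpos {F : Cn n → ℝ} (hF : ContDiff ℝ 2 F) {y : Cn n} (h : IsLocalMax F y) (ξ : Cn n) :
    D2 F y ξ ξ ≤ 0 := by
  by_contra hcon
  push Not at hcon
  have hd : ∀ y, DifferentiableAt ℝ F y := fun y => (hF.differentiable (by norm_num)).differentiableAt
  have hd2 : ∀ y, DifferentiableAt ℝ (fderiv ℝ F) y := fun y =>
    ((hF.fderiv_right (m := 1) (by norm_num)).differentiable (by norm_num)).differentiableAt
  have hline : ∀ τ : ℝ, HasDerivAt (fun τ : ℝ => y + τ • ξ) ξ τ := by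
    intro τ
    simpa using ((hasDerivAt_id τ).smul_const ξ).const_add y
  set g : ℝ → ℝ := fun τ => F (y + τ • ξ) with hg
  have hg1 : ∀ τ, HasDerivAt g (fderiv ℝ F (y + τ • ξ) ξ) τ := fun τ =>
    (hd (y + τ • ξ)).hasFDerivAt.comp_hasDerivAt τ (hline τ)
  have hdg : deriv g = fun τ => fderiv ℝ F (y + τ • ξ) ξ := funext fun τ => (hg1 τ).deriv
  have hg2 : ∀ τ, HasDerivAt (deriv g) (D2 F (y + τ • ξ) ξ ξ) τ := by
    intro τ
    rw [hdg]
    have e1 : HasDerivAt (fun τ : ℝ => fderiv ℝ F (y + τ • ξ)) (fderiv ℝ (fderiv ℝ F) (y + τ • ξ) ξ) τ :=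
      (hd2 (y + τ • ξ)).hasFDerivAt.comp_hasDerivAt τ (hline τ)
    have := (ContinuousLinearMap.apply ℝ ℝ ξ).hasFDerivAt.comp_hasDerivAt τ e1
    exact this
  have hy0 : y + (0 : ℝ) • ξ = y := by rw [zero_smul, add_zero]
  have hcont : Continuous fun τ : ℝ => y + τ • ξ := by fun_prop
  have hmax : IsLocalMax g 0 := by
    have e1 : Tendsto (fun τ : ℝ => y + τ • ξ) (𝓝 0) (𝓝 y) := by
      have := hcont.tendsto 0
      rwa [hy0] at this
    have e2 := e1.eventually h
    filter_upwards [e2] with τ hτ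
    simp only [hg, hy0]
    exact hτ
  have hdd : deriv (deriv g) 0 > 0 := by
    rw [(hg2 0).deriv, hy0]
    exact hcon
  have hmin : IsLocalMin g 0 := isLocalMin_of_deriv_deriv_pos hdd hmax.deriv_eq_zero (hg1 0).continuousAt
  have hloc : g =ᶠ[𝓝 0] fun _ => g 0 := by
    filter_upwards [hmax, hmin] with τ h1 h2
    exact le_antisymm h1 h2
  have h3 : deriv g =ᶠ[𝓝 0] deriv (fun _ => g 0) := hloc.deriv
  have h4 : deriv (deriv g) 0 = 0 := by
    rw [h3.deriv_eq]
    simp
  rw [h4] at hdd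
  exact lt_irrefl _ hdd

lemma levi_nonpos {F : Cn n → ℝ} (hF : ContDiff ℝ 2 F) {y : Cn n} (h : IsLocalMax F y) (ζ : Cn n) :
    levi F y ζ ≤ 0 := by
  unfold levi
  have h1 := D2_nonpos hF h ζ
  have h2 := D2_nonpos hF h (Complex.I • ζ)
  linarith

lemma D2_continuous {F : Cn n → ℝ} (hF : ContDiff ℝ 2 F) (ξ ζ : Cn n) : Continuous fun z => D2 F z ξ ζ := by
  have hcont : Continuous (fderiv ℝ (fderiv ℝ F)) :=
    ((hF.fderiv_right (m := 1) (by norm_num)).continuous_fderiv (by norm_num))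
  unfold D2
  exact (hcont.clm_apply continuous_const).clm_apply continuous_const

lemma levi_continuous {F : Cn n → ℝ} (hF : ContDiff ℝ 2 F) (ζ : Cn n) : Continuous fun z => levi F z ζ := by
  unfold levi
  exact ((D2_continuous hF ζ ζ).add (D2_continuous hF _ _)).div_const 4

/-- lower semicontinuity of the Levi form, uniform in the direction -/
lemma levi_near {F : Cn n → ℝ} (hF : ContDiff ℝ 2 F) (x : Cn n) {ε : ℝ} (hε : 0 < ε) :
    ∀ᶠ z in 𝓝 x, ∀ ζ : Cn n, levi F x ζ - ε * ‖ζ‖ ^ 2 ≤ levi F z ζ := by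
  have hcont : Continuous (fderiv ℝ (fderiv ℝ F)) :=
    ((hF.fderiv_right (m := 1) (by norm_num)).continuous_fderiv (by norm_num))
  have h1 : ∀ᶠ z in 𝓝 x, dist (fderiv ℝ (fderiv ℝ F) z) (fderiv ℝ (fderiv ℝ F) x) < ε :=
    (Metric.tendsto_nhds (α := Cn n →L[ℝ] Cn n →L[ℝ] ℝ)).1 (hcont.tendsto x) ε hε
  filter_upwards [h1] with z hz' ζ
  have hz : ‖fderiv ℝ (fderiv ℝ F) z - fderiv ℝ (fderiv ℝ F) x‖ < ε :=
      lt_of_eq_of_lt (dist_eq_norm (E := Cn n →L[ℝ] Cn n →L[ℝ] ℝ) _ _).symm hz'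
  have key : ∀ ξ : Cn n, D2 F x ξ ξ - ε * ‖ξ‖ ^ 2 ≤ D2 F z ξ ξ := by
    intro ξ
    have h3 : |(fderiv ℝ (fderiv ℝ F) z - fderiv ℝ (fderiv ℝ F) x) ξ ξ| ≤ ε * ‖ξ‖ ^ 2 := by
      calc |(fderiv ℝ (fderiv ℝ F) z - fderiv ℝ (fderiv ℝ F) x) ξ ξ|
          = ‖(fderiv ℝ (fderiv ℝ F) z - fderiv ℝ (fderiv ℝ F) x) ξ ξ‖ := (Real.norm_eq_abs _).symm
        _ ≤ ‖fderiv ℝ (fderiv ℝ F) z - fderiv ℝ (fderiv ℝ F) x‖ * ‖ξ‖ * ‖ξ‖ :=
            ContinuousLinearMap.le_opNorm₂ _ _ _
        _ ≤ ε * ‖ξ‖ * ‖ξ‖ := by gcongr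
        _ = ε * ‖ξ‖ ^ 2 := by ring
    rw [sub_apply, sub_apply] at h3
    have h4 := (abs_le.1 h3).1
    unfold D2
    linarith
  have k1 := key ζ
  have k2 := key (Complex.I • ζ)
  rw [norm_smul, Complex.norm_I, one_mul] at k2
  unfold levi
  nlinarith [mul_nonneg hε.le (sq_nonneg ‖ζ‖)]

/-- at an interior maximum point of `φ - h` the complex Hessian of `h` is positive -/
lemma psd_of_max {V : Set (Cn n)} {v : ℕ → Cn n → ℝ} {φ h : Cn n → ℝ} {x : Cn n}
    (hV : IsOpen V) (hxV : x ∈ V) (hvs : ∀ k, ContDiff ℝ ∞ (v k))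
    (hvp : ∀ k, ∀ z ∈ V, (hess (v k) z).PosSemidef)
    (hva : ∀ z ∈ V, Antitone fun k => v k z)
    (hvl : ∀ z ∈ V, Tendsto (fun k => v k z) atTop (𝓝 (φ z)))
    (hφ : ContinuousOn φ V) (hh : ContDiff ℝ ∞ h)
    (hmax : ∀ z ∈ V, φ z - h z ≤ φ x - h x) : (hess h x).PosSemidef := by
  rw [psd_iff hh]
  by_contra hcon
  push Not at hcon
  obtain ⟨ζ, hζ⟩ := hcon
  set c := -levi h x ζ with hc
  have hcpos : 0 < c := by linarith
  obtain ⟨ε, hε, hεζ⟩ : ∃ ε > 0, ε * ‖ζ‖ ^ 2 ≤ c / 4 := by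
    refine ⟨c / 4 / (‖ζ‖ ^ 2 + 1), by positivity, ?_⟩
    rw [div_mul_eq_mul_div, div_le_iff₀ (by positivity)]
    nlinarith [sq_nonneg ‖ζ‖]
  have hn1 : ∀ᶠ z in 𝓝 x, levi h z ζ < -c / 2 := by
    have := (levi_continuous (hh.of_le ss_le) ζ).tendsto x
    exact this.eventually (gt_mem_nhds (by linarith))
  have hn2 : ∀ᶠ z in 𝓝 x, z ∈ V := hV.mem_nhds hxV
  obtain ⟨r, hr, hrsub⟩ := Metric.nhds_basis_closedBall.mem_iff.1 (hn1.and hn2)
  have hK : IsCompact (closedBall x r) := isCompact_closedBall x r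
  have hKV : closedBall x r ⊆ V := fun z hz => (hrsub hz).2
  obtain ⟨k, hk⟩ := dini_lt v φ (fun z => φ z + ε * r ^ 2) hK (fun k => (hvs k).continuous.continuousOn)
    (fun z hz => hva z (hKV hz)) (fun z hz => hvl z (hKV hz)) ((hφ.mono hKV).add continuousOn_const)
    (fun z _ => by
      have : 0 < ε * r ^ 2 := by positivity
      linarith)
  set he : Cn n → ℝ := fun z => h z + ε * sqd x z with hhe
  have hhes : ContDiff ℝ ∞ he := hh.add (contDiff_const.mul (sqd_smooth x))
  set F : Cn n → ℝ := fun z => v k z - he z with hF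
  have hFs : ContDiff ℝ ∞ F := (hvs k).sub hhes
  obtain ⟨y, hyK, hy⟩ := hK.exists_isMaxOn ⟨x, mem_closedBall_self hr.le⟩ hFs.continuous.continuousOn
  have hsx : sqd x x = 0 := by simp [sqd]
  have hFx : φ x - h x ≤ F x := by
    have h1 := (hva x hxV).le_of_tendsto (hvl x hxV) k
    simp only [hF, hhe, hsx]
    linarith
  have hyball : y ∈ ball x r := by
    by_contra hcon2
    have h1 : dist y x = r := by
      rw [mem_ball, not_lt] at hcon2
      exact le_antisymm (mem_closedBall.1 hyK) hcon2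
    have h2 : sqd x y = r ^ 2 := by rw [sqd, ← dist_eq_norm, h1]
    have h3 : F y < φ y - h y := by
      have := hk k le_rfl y hyK
      simp only [hF, hhe, h2]
      linarith
    have h4 := hmax y (hKV hyK)
    have h5 : F x ≤ F y := hy (mem_closedBall_self hr.le)
    linarith
  have hloc : IsLocalMax F y := hy.isLocalMax (closedBall_mem_nhds_of_mem hyball)
  have hlev := levi_nonpos (hFs.of_le ss_le) hloc ζ
  rw [hF, levi_sub ((hvs k).of_le ss_le) (hhes.of_le ss_le), hhe, levi_he hh] at hlev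
  have h3 := (psd_iff (hvs k) y).1 (hvp k y (hKV hyK)) ζ
  have h4 : levi h y ζ < -c / 2 := (hrsub hyK).1
  linarith

/-- the key volume inequality -/
lemma vol_claim {V : Set (Cn n)} {v : ℕ → Cn n → ℝ} {φ he ρ : Cn n → ℝ} {μ : Measure (Cn n)}
    {x : Cn n} {r m0 a α β s s' : ℝ}
    (hvs : ∀ k, ContDiff ℝ ∞ (v k))
    (hvp : ∀ k, ∀ z ∈ V, (hess (v k) z).PosSemidef)
    (hva : ∀ z ∈ V, Antitone fun k => v k z)
    (hvl : ∀ z ∈ V, Tendsto (fun k => v k z) atTop (𝓝 (φ z)))
    (hvc : ∀ χ : Cn n → ℝ, Continuous χ → HasCompactSupport χ → tsupport χ ⊆ V →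
        Tendsto (fun k => ∫ z, χ z * maDensity (v k) z) atTop (𝓝 (∫ z, χ z ∂μ)))
    (hφ : ContinuousOn φ V) (hhe : ContDiff ℝ ∞ he) (hρ : Continuous ρ)
    (hρμ : ∀ χ : Cn n → ℝ, Continuous χ → HasCompactSupport χ → tsupport χ ⊆ V → (∀ z, 0 ≤ χ z) →
      ∫ z, χ z * ρ z ≤ ∫ z, χ z ∂μ)
    (hrV : closedBall x r ⊆ V)
    (hsph : ∀ z ∈ closedBall x r, z ∉ ball x r → φ z - he z ≤ m0 - a)
    (hpsd : ∀ z ∈ closedBall x r, (hess he z).PosSemidef)
    (hα : ∀ z ∈ closedBall x r, maDensity he z ≤ α) (hβ : ∀ z ∈ closedBall x r, β ≤ ρ z)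
    (hβ0 : 0 ≤ β) (hss : s < s') (hsa : s' < a) :
    β * (volume : Measure (Cn n)).real {z | z ∈ closedBall x r ∧ m0 - s ≤ φ z - he z} ≤
      α * (volume : Measure (Cn n)).real {z | z ∈ closedBall x r ∧ m0 - s' ≤ φ z - he z} := by
  set K := closedBall x r with hKdef
  have hK : IsCompact K := isCompact_closedBall x r
  have hφK : ContinuousOn (fun z => φ z - he z) K := (hφ.mono hrV).sub hhe.continuous.continuousOn
  have hCc : ∀ t : ℝ, IsCompact {z | z ∈ K ∧ m0 - t ≤ φ z - he z} := by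
    intro t
    have h1 : IsClosed (K ∩ (fun z => φ z - he z) ⁻¹' Ici (m0 - t)) :=
      hφK.preimage_isClosed_of_isClosed hK.isClosed isClosed_Ici
    exact hK.of_isClosed_subset h1 inter_subset_left
  have hCball : ∀ t : ℝ, t < a → {z | z ∈ K ∧ m0 - t ≤ φ z - he z} ⊆ ball x r := by
    intro t ht z hz
    by_contra hcon
    have := hsph z hz.1 hcon
    linarith [hz.2]
  set C := {z | z ∈ K ∧ m0 - s' ≤ φ z - he z} with hCdef
  set D := {z | z ∈ K ∧ m0 - s ≤ φ z - he z} with hDdef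
  have hCcomp : IsCompact C := hCc s'
  have hDcomp : IsCompact D := hCc s
  have hCb : C ⊆ ball x r := hCball s' hsa
  have hDb : D ⊆ ball x r := hCball s (hss.trans hsa)
  set η : ℝ := (s' - s) / 3 with hη
  have hηpos : 0 < η := by rw [hη]; linarith
  set s1 : ℝ := s + η with hs1
  set s2 : ℝ := s + 2 * η with hs2
  have hs3 : s' = s + 3 * η := by rw [hη]; ring
  set E := {z | z ∈ ball x r ∧ m0 - s1 < φ z - he z} with hEdef
  have hEo : IsOpen E := by
    have h1 : ContinuousOn (fun z => φ z - he z) (ball x r) := hφK.mono ball_subset_closedBall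
    exact h1.isOpen_inter_preimage isOpen_ball isOpen_Ioi
  have hDE : D ⊆ E := fun z hz => ⟨hDb hz, by linarith [hz.2]⟩
  have hEC : E ⊆ C := fun z hz => ⟨ball_subset_closedBall hz.1, by linarith [hz.2]⟩
  have hEV : E ⊆ V := fun z hz => hrV (ball_subset_closedBall hz.1)
  set b : Cn n → ℝ := fun z => he z + (m0 - s2) with hb
  have hbs : ContDiff ℝ ∞ b := hhe.add contDiff_const
  have hbhess : ∀ z, hess b z = hess he z := fun z => hess_add_const _ hhe z
  obtain ⟨k0, hk0⟩ := dini_lt v φ (fun z => φ z + η) hK (fun k => (hvs k).continuous.continuousOn)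
    (fun z hz => hva z (hrV hz)) (fun z hz => hvl z (hrV hz)) ((hφ.mono hrV).add continuousOn_const)
    (fun z _ => by linarith)
  obtain ⟨χ, hχs, hχc, hχE, hχ1, hχ01⟩ := cutoff hDcomp hEo hDE
  obtain ⟨χ1, hχ1s, hχ1c, hχ1b, hχ11, hχ101⟩ := cutoff hCcomp isOpen_ball hCb
  -- the lower estimate
  have hlow : β * (volume : Measure (Cn n)).real D ≤ ∫ z, χ z * ρ z := by
    have h1 : β * (volume : Measure (Cn n)).real D = ∫ z in D, β := by
      rw [setIntegral_const, smul_eq_mul, mul_comm]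
    have h2 : ∫ z in D, β ≤ ∫ z in D, χ z * ρ z := by
      apply setIntegral_mono_on
      · exact continuous_const.continuousOn.integrableOn_compact hDcomp
      · exact (hχs.continuous.mul hρ).continuousOn.integrableOn_compact hDcomp
      · exact hDcomp.measurableSet
      · intro z hz
        rw [hχ1 z hz, one_mul]
        exact hβ z hz.1
    have h3 : ∫ z in D, χ z * ρ z ≤ ∫ z, χ z * ρ z := by
      apply setIntegral_le_integral
      · exact (hχs.continuous.mul hρ).integrable_of_hasCompactSupport hχc.mul_right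
      · refine Eventually.of_forall fun z => ?_
        by_cases hz : z ∈ tsupport χ
        · have h4 := hβ z (ball_subset_closedBall (hχE hz).1)
          exact mul_nonneg (hχ01 z).1 (hβ0.trans h4)
        · simp only [Pi.zero_apply]
          rw [image_eq_zero_of_notMem_tsupport hz, zero_mul]
    rw [h1]
    exact h2.trans h3
  have hmid : ∫ z, χ z * ρ z ≤ ∫ z, χ z ∂μ :=
    hρμ χ hχs.continuous hχc (hχE.trans hEV) fun z => (hχ01 z).1
  refine hlow.trans (hmid.trans ?_)
  refine le_of_tendsto (hvc χ hχs.continuous hχc (hχE.trans hEV)) (eventually_atTop.2 ⟨k0, fun k hk => ?_⟩)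
  -- the glued function
  set G : Cn n → ℝ := glue η b (v k) with hG
  have hGs : ContDiff ℝ ∞ G := glue_smooth η hbs (hvs k)
  set ψ : Cn n → ℝ := fun z => b z + χ1 z * (G z - b z) with hψ
  have hψs : ContDiff ℝ ∞ ψ := hbs.add (hχ1s.mul (hGs.sub hbs))
  have hGb : ∀ z ∈ K, z ∉ C → G z = b z := by
    intro z hz hzC
    apply glue_of_le hηpos
    have h1 := hk0 k hk z hz
    have h2 : φ z - he z < m0 - s' := by
      by_contra hcon
      exact hzC ⟨hz, not_lt.1 hcon⟩
    simp only [hb]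
    linarith
  have hψG : ∀ z ∈ ball x r, ψ z = G z := by
    intro z hz
    simp only [hψ]
    by_cases hzC : z ∈ C
    · rw [hχ11 z hzC]; ring
    · rw [hGb z (ball_subset_closedBall hz) hzC]; ring
  have hψb : ∀ z, z ∉ C → ψ z = b z := by
    intro z hzC
    by_cases hz : z ∈ ball x r
    · rw [hψG z hz, hGb z (ball_subset_closedBall hz) hzC]
    · simp only [hψ]
      rw [image_eq_zero_of_notMem_tsupport (fun h => hz (hχ1b h))]
      ring
  have hψhess : ∀ z ∈ ball x r, hess ψ z = hess G z := by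
    intro z hz
    apply hess_congr
    filter_upwards [isOpen_ball.mem_nhds hz] with y hy
    exact hψG y hy
  have hGE : ∀ z ∈ E, hess G z = hess (v k) z := by
    intro z hz
    have h1 : G =ᶠ[𝓝 z] fun y => v k y + (-(c0 * η)) := by
      filter_upwards [hEo.mem_nhds hz] with y hy
      have h2 : b y + η ≤ v k y := by
        have h3 := (hva y (hEV hy)).le_of_tendsto (hvl y (hEV hy)) k
        have h4 := hy.2
        simp only [hb]
        linarith
      simp only [hG]
      rw [glue_of_ge hηpos h2]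
      ring
    rw [hess_congr h1, hess_add_const _ (hvs k)]
  have hψpsd : ∀ z ∈ C, (hess ψ z).PosSemidef := by
    intro z hz
    rw [hψhess z (hCb hz)]
    apply glue_psd hηpos hbs (hvs k) z _ (hvp k z (hrV hz.1))
    rw [hbhess]
    exact hpsd z hz.1
  have e1 : ∫ z, χ z * maDensity (v k) z = ∫ z in C, χ z * maDensity ψ z := by
    rw [setIntegral_eq_integral_of_forall_compl_eq_zero]
    · apply integral_congr_ae
      refine Eventually.of_forall fun z => ?_
      simp only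
      by_cases hz : z ∈ tsupport χ
      · have hzE := hχE hz
        rw [maDensity, maDensity, hψhess z hzE.1, hGE z hzE]
      · rw [image_eq_zero_of_notMem_tsupport hz, zero_mul, zero_mul]
    · intro z hz
      rw [image_eq_zero_of_notMem_tsupport (fun h => hz (hEC (hχE h))), zero_mul]
  have e2 : ∫ z in C, χ z * maDensity ψ z ≤ ∫ z in C, maDensity ψ z := by
    apply setIntegral_mono_on
    · exact (hχs.continuous.mul (maDensity_continuous hψs)).continuousOn.integrableOn_compact hCcomp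
    · exact (maDensity_continuous hψs).continuousOn.integrableOn_compact hCcomp
    · exact hCcomp.measurableSet
    · intro z hz
      have h1 := maDensity_nonneg (hψpsd z hz)
      have h2 := mul_le_mul_of_nonneg_right (hχ01 z).2 h1
      linarith
  have e3 : ∫ z in C, maDensity ψ z = ∫ z in C, maDensity b z := by
    simp only [maDensity]
    rw [integral_const_mul, integral_const_mul, stokes_on b ψ hbs hψs C hCcomp hψb]
  have e4 : ∫ z in C, maDensity b z ≤ ∫ z in C, α := by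
    apply setIntegral_mono_on
    · exact (maDensity_continuous hbs).continuousOn.integrableOn_compact hCcomp
    · exact continuous_const.continuousOn.integrableOn_compact hCcomp
    · exact hCcomp.measurableSet
    · intro z hz
      rw [maDensity, hbhess]
      exact hα z hz.1
  have e5 : ∫ z in C, α = α * (volume : Measure (Cn n)).real C := by
    rw [setIntegral_const, smul_eq_mul, mul_comm]
  rw [e1, ← e5]
  exact e2.trans (e3.le.trans e4)

end Pool.Agent.H805K.Up

namespace Pool.Agent.H805K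
open Pool.Agent.H805R2 Up

/-- Comparison from above. -/
theorem upper_cmp {n : ℕ} (hn : 0 < n) {Ω : Set (Cn n)} (hΩ : IsOpen Ω) {φ : Cn n → ℝ}
    {μ : Measure (Cn n)}
    (hφ : ContinuousOn φ Ω) (hMA : IsMongeAmpere Ω φ μ)
    {U : Set (Cn n)} (hU : IsOpen U) (hcl : IsCompact (closure U)) (hUΩ : closure U ⊆ Ω)
    {ρ : Cn n → ℝ} (hρ : Continuous ρ)
    (hρμ : ∀ χ : Cn n → ℝ, Continuous χ → HasCompactSupport χ → tsupport χ ⊆ U → (∀ z, 0 ≤ χ z) →
      ∫ z, χ z * ρ z ≤ ∫ z, χ z ∂μ)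
    {h : Cn n → ℝ} (hh : ContDiff ℝ ∞ h)
    (hdet : ∀ z ∈ U, (hess h z).PosSemidef → maDensity h z < ρ z)
    (hb : ∀ z ∈ frontier U, φ z ≤ h z) : ∀ z ∈ U, φ z ≤ h z := by
  by_contra hcon
  push Not at hcon
  obtain ⟨z1, hz1, hz1'⟩ := hcon
  have hc : ContinuousOn (fun z => φ z - h z) (closure U) :=
    (hφ.mono hUΩ).sub hh.continuous.continuousOn
  obtain ⟨x, hxcl, hxmax⟩ := hcl.exists_isMaxOn ⟨z1, subset_closure hz1⟩ hc
  have hpos : 0 < φ x - h x := by
    have h1 : φ z1 - h z1 ≤ φ x - h x := hxmax (subset_closure hz1)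
    linarith
  have hxU : x ∈ U := by
    by_contra hx
    have h1 : x ∈ frontier U := by
      rw [frontier, hU.interior_eq]
      exact ⟨hxcl, hx⟩
    have := hb x h1
    linarith
  obtain ⟨V, v, hV, hxV, hVU, hvs, hvp, hva, hvl, hvc⟩ := extract_pt hMA hU hcl hUΩ hxU
  have hφV : ContinuousOn φ V := hφ.mono (hVU.trans (subset_closure.trans hUΩ))
  have hmax : ∀ z ∈ V, φ z - h z ≤ φ x - h x := fun z hz => hxmax (subset_closure (hVU hz))
  have hP : (hess h x).PosSemidef := psd_of_max hV hxV hvs hvp hva hvl hφV hh hmax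
  have hlt := hdet x hxU hP
  have hheq : ∀ ε : ℝ, ∀ z, hess (fun z => h z + ε * sqd x z) z =
      hess h z + (ε : ℂ) • hess (sqd x) z :=
    fun ε z => hess_add_smul h (sqd x) hh (sqd_smooth x) ε z
  have hcε : Continuous fun ε : ℝ => maDensity (fun z => h z + ε * sqd x z) x := by
    simp only [maDensity, hheq]
    exact continuous_const.mul (Complex.continuous_re.comp (Continuous.matrix_det (by fun_prop)))
  have h0 : maDensity (fun z => h z + (0 : ℝ) * sqd x z) x < ρ x := by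
    simpa using hlt
  have hev : ∀ᶠ ε : ℝ in 𝓝[>] 0, maDensity (fun z => h z + ε * sqd x z) x < ρ x :=
    nhdsWithin_le_nhds ((hcε.tendsto 0).eventually (gt_mem_nhds h0))
  obtain ⟨ε, hερ, hε'⟩ := (hev.and self_mem_nhdsWithin).exists
  have hε : 0 < ε := hε'
  set he : Cn n → ℝ := fun z => h z + ε * sqd x z with hhe
  have hhes : ContDiff ℝ ∞ he := hh.add (contDiff_const.mul (sqd_smooth x))
  have hleh := (psd_iff hh x).1 hP
  have hPx : 0 ≤ maDensity he x := by
    apply maDensity_nonneg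
    rw [psd_iff hhes]
    intro ζ
    rw [hhe, levi_he hh]
    have := hleh ζ
    positivity
  obtain ⟨α, hα1, hα2⟩ := exists_between hερ
  obtain ⟨β, hβ1, hβ2⟩ := exists_between hα2
  have hα0 : 0 < α := lt_of_le_of_lt hPx hα1
  have hβ0 : 0 < β := hα0.trans hβ1
  have n1 : ∀ᶠ z in 𝓝 x, maDensity he z < α :=
    ((maDensity_continuous hhes).tendsto x).eventually (gt_mem_nhds hα1)
  have n2 : ∀ᶠ z in 𝓝 x, β < ρ z := (hρ.tendsto x).eventually (lt_mem_nhds hβ2)
  have n3 := levi_near (hh.of_le ss_le) x hε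
  have n4 : ∀ᶠ z in 𝓝 x, z ∈ V := hV.mem_nhds hxV
  obtain ⟨r, hr, hrsub⟩ := Metric.nhds_basis_closedBall.mem_iff.1 (n1.and (n2.and (n3.and n4)))
  set m0 : ℝ := φ x - h x with hm0
  set a : ℝ := ε * r ^ 2 with ha
  have ha0 : 0 < a := by positivity
  have hrV : closedBall x r ⊆ V := fun z hz => (hrsub hz).2.2.2
  set f : ℝ → ℝ := fun s => (volume : Measure (Cn n)).real
    {z | z ∈ closedBall x r ∧ m0 - s ≤ φ z - he z} with hf
  have hsph : ∀ z ∈ closedBall x r, z ∉ ball x r → φ z - he z ≤ m0 - a := by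
    intro z hz hzb
    have h1 : dist z x = r := by
      rw [mem_ball, not_lt] at hzb
      exact le_antisymm (mem_closedBall.1 hz) hzb
    have h2 : sqd x z = r ^ 2 := by rw [sqd, ← dist_eq_norm, h1]
    have h3 := hmax z (hrV hz)
    simp only [hhe, h2]
    linarith
  have hpsd : ∀ z ∈ closedBall x r, (hess he z).PosSemidef := by
    intro z hz
    rw [psd_iff hhes]
    intro ζ
    rw [hhe, levi_he hh]
    have h1 := (hrsub hz).2.2.1 ζ
    have h2 := hleh ζ
    linarith
  have hstep : ∀ s s', s < s' → s' < a → β * f s ≤ α * f s' := by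
    intro s s' hss hsa
    exact vol_claim hvs hvp hva hvl hvc hφV hhes hρ (fun χ h1 h2 h3 => hρμ χ h1 h2 (h3.trans hVU))
      hrV hsph hpsd (fun z hz => (hrsub hz).1.le) (fun z hz => (hrsub hz).2.1.le) hβ0.le hss hsa
  have hfin : (volume : Measure (Cn n)) (closedBall x r) ≠ ⊤ :=
    (isCompact_closedBall x r).measure_lt_top.ne
  have hfb : ∀ s, f s ≤ (volume : Measure (Cn n)).real (closedBall x r) := fun s =>
    measureReal_mono (fun z hz => hz.1) hfin
  have hq0 : 0 ≤ α / β := by positivity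
  have hq1 : α / β < 1 := (div_lt_one hβ0).2 hβ1
  have hiter : ∀ N : ℕ, ∀ s, s < a → f s ≤ (α / β) ^ N * (volume : Measure (Cn n)).real (closedBall x r) := by
    intro N
    induction N with
    | zero =>
      intro s _
      rw [pow_zero, one_mul]
      exact hfb s
    | succ N ih =>
      intro s hs
      have h1 := hstep s ((s + a) / 2) (by linarith) (by linarith)
      have h2 := ih ((s + a) / 2) (by linarith)
      have h3 : f s ≤ α / β * f ((s + a) / 2) := by
        rw [div_mul_eq_mul_div, le_div_iff₀ hβ0]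
        linarith
      calc f s ≤ α / β * f ((s + a) / 2) := h3
        _ ≤ α / β * ((α / β) ^ N * (volume : Measure (Cn n)).real (closedBall x r)) :=
            mul_le_mul_of_nonneg_left h2 hq0
        _ = (α / β) ^ (N + 1) * (volume : Measure (Cn n)).real (closedBall x r) := by ring
  have hle0 : f (a / 2) ≤ 0 := by
    have h1 : Tendsto (fun N : ℕ => (α / β) ^ N * (volume : Measure (Cn n)).real (closedBall x r)) atTop
        (𝓝 (0 * (volume : Measure (Cn n)).real (closedBall x r))) :=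
      (tendsto_pow_atTop_nhds_zero_of_lt_one hq0 hq1).mul_const _
    rw [zero_mul] at h1
    exact ge_of_tendsto' h1 fun N => hiter N (a / 2) (by linarith)
  have hfpos : 0 < f (a / 2) := by
    set O := {z | z ∈ ball x r ∧ m0 - a / 2 < φ z - he z} with hO
    have hOo : IsOpen O := by
      have h1 : ContinuousOn (fun z => φ z - he z) (ball x r) :=
        (hφV.mono (ball_subset_closedBall.trans hrV)).sub hhes.continuous.continuousOn
      exact h1.isOpen_inter_preimage isOpen_ball isOpen_Ioi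
    have hxO : x ∈ O := by
      refine ⟨mem_ball_self hr, ?_⟩
      have h1 : sqd x x = 0 := by simp [sqd]
      simp only [hhe, h1]
      linarith
    have h1 : 0 < (volume : Measure (Cn n)) O := hOo.measure_pos volume ⟨x, hxO⟩
    have h2 : O ⊆ {z | z ∈ closedBall x r ∧ m0 - a / 2 ≤ φ z - he z} := fun z hz =>
      ⟨ball_subset_closedBall hz.1, hz.2.le⟩
    have h3 : {z | z ∈ closedBall x r ∧ m0 - a / 2 ≤ φ z - he z} ⊆ closedBall x r := fun z hz => hz.1
    simp only [hf]
    exact ENNReal.toReal_pos (lt_of_lt_of_le h1 (measure_mono h2)).ne'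
      (ne_top_of_le_ne_top hfin (measure_mono h3))
  linarith

end Pool.Agent.H805K
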