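import Mathlib
import Pool.Agent.H805K.Asm2
import Pool.Agent.H805K.UpperCmp
import Pool.Agent.H805K.LowerCmp
import Pool.Agent.H805K.TaskG

set_option autoImplicit false
set_option maxHeartbeats 1000000

open MeasureTheory Metric Set Filter Topology
open scoped ContDiff ComplexOrder

namespace Pool.Agent.H805K
open Pool.Agent.H805R2

/-- a solution with zero boundary values is nonpositive -/
lemma phi_nonpos {φ : Cn 3 → ℝ} {μ : Measure (Cn 3)} (hφ : ContinuousOn φ (ball (0 : Cn 3) 3))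
    (hbd : ∀ w ∈ frontier (ball (0 : Cn 3) 3), Tendsto φ (𝓝[ball (0 : Cn 3) 3] w) (𝓝 0))
    (hMA : IsMongeAmpere (ball (0 : Cn 3) 3) φ μ) : ∀ z ∈ ball (0 : Cn 3) 3, φ z ≤ 0 := by
  intro z0 hz0
  by_contra hcon
  have hpos : 0 < φ z0 := not_le.1 hcon
  set θ := φ z0 / 2 with hθ
  have hθ0 : 0 < θ := by positivity
  obtain ⟨C, hC, hCΩ, hCθ⟩ := bdry_compact (Ω := ball (0 : Cn 3) 3) isOpen_ball isBounded_ball
    (u := fun z => -φ z) (fun w hw => by simpa using (hbd w hw).neg) θ hθ0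
  obtain ⟨L, hL, hCL, hLΩ⟩ := exists_compact_between (hC.insert z0) isOpen_ball
    (insert_subset hz0 hCΩ)
  set ε := θ / 20 with hε
  have hε0 : 0 < ε := by positivity
  have hn9 : ContDiff ℝ ∞ (fun z : Cn 3 => ‖z‖ ^ 2 - 9) := nz_sm.sub contDiff_const
  set h : Cn 3 → ℝ := fun z => θ + (-ε) * (‖z‖ ^ 2 - 9) with hh
  have hhs : ContDiff ℝ ∞ h := contDiff_const.add (contDiff_const.mul hn9)
  have hcl : closure (interior L) ⊆ L := closure_minimal interior_subset hL.isClosed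
  have hge : ∀ z ∈ ball (0 : Cn 3) 3, θ ≤ h z := by
    intro z hz
    have h1 : ‖z‖ ^ 2 ≤ 9 := ax10 (by simpa using hz) (norm_nonneg z)
    change θ ≤ θ + (-ε) * (‖z‖ ^ 2 - 9)
    nlinarith
  have h1 := upper_cmp (n := 3) (by norm_num) (Ω := ball (0 : Cn 3) 3) isOpen_ball hφ hMA
    (U := interior L) isOpen_interior (hL.of_isClosed_subset isClosed_closure hcl) (hcl.trans hLΩ)
    (ρ := fun _ => 0) continuous_const
    (by
      intro χ _ _ _ hχ0
      simp only [mul_zero, integral_zero]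
      exact integral_nonneg hχ0)
    (h := h) hhs
    (by
      intro z _ hpsd
      exfalso
      rw [psd_iff hhs] at hpsd
      have h2 := hpsd (EuclideanSpace.single 0 1)
      rw [hh, levi_add' contDiff_const (contDiff_const.mul hn9), levi_const, levi_const_mul' _ hn9,
        sub_const_sm nz_sm, nz_levi] at h2
      simp at h2
      linarith)
    (by
      intro z hz
      have hzL : z ∈ L := hcl (frontier_subset_closure hz)
      have hzC : z ∉ C := by
        intro hzC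
        have h3 : z ∈ interior L := hCL (mem_insert_of_mem _ hzC)
        exact hz.2 (by rwa [isOpen_interior.interior_eq])
      have h4 := hCθ z (hLΩ hzL) hzC
      have h5 := hge z (hLΩ hzL)
      linarith)
  have h2 := h1 z0 (hCL (mem_insert z0 C))
  have h3 : h z0 ≤ θ + 9 * ε := by
    change θ + (-ε) * (‖z0‖ ^ 2 - 9) ≤ θ + 9 * ε
    nlinarith [sq_nonneg ‖z0‖]
  linarith

namespace Sys
variable (S : Sys)

lemma integral_mum (m : ℕ) {χ : Cn 3 → ℝ} (hs : tsupport χ ⊆ (S.B m).U) :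
    ∫ z, χ z ∂(S.mum m) = ∫ z, χ z * (kap * (S.B m).ρ z) := by
  have hm : Measurable fun z => Real.toNNReal (kap * (S.B m).ρ z) :=
    (continuous_const.mul (S.B m).ρ_cont).measurable.real_toNNReal
  have e : S.mum m = (volume.restrict (S.B m).U).withDensity
      fun z => ((Real.toNNReal (kap * (S.B m).ρ z) : NNReal) : ENNReal) := rfl
  rw [e, integral_withDensity_eq_integral_smul hm]
  have h1 : ∫ z in (S.B m).U, Real.toNNReal (kap * (S.B m).ρ z) • χ z =
      ∫ z in (S.B m).U, χ z * (kap * (S.B m).ρ z) := by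
    refine setIntegral_congr_fun (S.B m).U_open.measurableSet fun z hz => ?_
    have h2 := (S.B m).ρ_pos z hz
    have h3 := kap_pos
    simp only [NNReal.smul_def, smul_eq_mul]
    rw [Real.coe_toNNReal _ (by positivity), mul_comm]
  rw [h1]
  refine setIntegral_eq_integral_of_forall_compl_eq_zero fun z hz => ?_
  rw [image_eq_zero_of_notMem_tsupport (fun h => hz (hs h)), zero_mul]

/-- the upper bound for a solution -/
lemma phi_y {φ : Cn 3 → ℝ} (hφ : ContinuousOn φ (ball (0 : Cn 3) 3))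
    (hbd : ∀ w ∈ frontier (ball (0 : Cn 3) 3), Tendsto φ (𝓝[ball (0 : Cn 3) 3] w) (𝓝 0))
    (hMA : IsMongeAmpere (ball (0 : Cn 3) 3) φ S.mu) (m : ℕ) : φ (S.B m).y ≤ -cst := by
  have hneg := phi_nonpos hφ hbd hMA
  have hfin := S.mu_finite
  have hcl : closure (S.B m).U ⊆ closedBall (0 : Cn 3) 2 :=
    closure_minimal ((S.B m).U_ball.trans ball_subset_closedBall) isClosed_closedBall
  have hclΩ : closure (S.B m).U ⊆ ball (0 : Cn 3) 3 :=
    hcl.trans (closedBall_subset_ball (by norm_num))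
  refine (upper_cmp (n := 3) (by norm_num) (Ω := ball (0 : Cn 3) 3) isOpen_ball hφ hMA
    (U := (S.B m).U) (S.B m).U_open ((isCompact_closedBall _ _).of_isClosed_subset isClosed_closure hcl)
    hclΩ (ρ := fun z => kap * (S.B m).ρ z) (continuous_const.mul (S.B m).ρ_cont) ?_ (S.B m).h_sm ?_ ?_
    (S.B m).y (S.B m).y_mem).trans (S.B m).h_y
  · intro χ hχc hχs hχU hχ0
    rw [← S.integral_mum m hχU]
    exact integral_mono_measure (S.mum_le_mu m) (Eventually.of_forall hχ0)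
      (hχc.integrable_of_hasCompactSupport hχs)
  · intro z hz hpsd
    rw [maDensity_eq]
    exact mul_lt_mul_of_pos_left ((S.B m).h_det z hz hpsd) kap_pos
  · intro z hz
    exact (hneg z (hclΩ (frontier_subset_closure hz))).trans ((S.B m).h_bd z hz)

lemma y_lim : Tendsto (fun m => (S.B m).y) atTop (𝓝 0) := by
  rw [tendsto_zero_iff_norm_tendsto_zero]
  refine squeeze_zero (fun m => norm_nonneg _) (fun m => (S.B m).y_norm) S.summable_eta.tendsto_atTop_zero

lemma phi_zero {φ : Cn 3 → ℝ} (hφ : ContinuousOn φ (ball (0 : Cn 3) 3))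
    (hbd : ∀ w ∈ frontier (ball (0 : Cn 3) 3), Tendsto φ (𝓝[ball (0 : Cn 3) 3] w) (𝓝 0))
    (hMA : IsMongeAmpere (ball (0 : Cn 3) 3) φ S.mu) : φ 0 ≤ -cst := by
  have h0 : (0 : Cn 3) ∈ ball (0 : Cn 3) 3 := mem_ball_self (by norm_num)
  have hc : ContinuousAt φ 0 := hφ.continuousAt (isOpen_ball.mem_nhds h0)
  have h1 : Tendsto (fun m => φ (S.B m).y) atTop (𝓝 (φ 0)) := hc.tendsto.comp S.y_lim
  exact le_of_tendsto h1 (Eventually.of_forall fun m => S.phi_y hφ hbd hMA m)

/-! ### lower bound -/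

/-- smooth subsolutions for the partial sums -/
noncomputable def Vs (k : ℕ) (z : Cn 3) : ℝ := ∑ m ∈ Finset.range k, (S.B m).V z

lemma Vs_sm (k : ℕ) : ContDiff ℝ ∞ (S.Vs k) := ContDiff.sum fun m _ => (S.B m).V_sm

lemma Vs_levi (k : ℕ) (z ζ : Cn 3) : levi (S.Vs k) z ζ = ∑ m ∈ Finset.range k, levi (S.B m).V z ζ :=
  levi_sum _ (fun m _ => (S.B m).V_sm) z ζ

lemma V_levi_nonneg (m : ℕ) {z : Cn 3} (hz : z ∈ ball (0 : Cn 3) 3) (ζ : Cn 3) :
    0 ≤ levi (S.B m).V z ζ := (psd_iff (S.B m).V_sm z).1 ((S.B m).V_psd z hz) ζ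

lemma Vs_psd (k : ℕ) {z : Cn 3} (hz : z ∈ ball (0 : Cn 3) 3) : (hess (S.Vs k) z).PosSemidef := by
  rw [psd_iff (S.Vs_sm k)]
  intro ζ
  rw [Vs_levi]
  exact Finset.sum_nonneg fun m _ => S.V_levi_nonneg m hz ζ

noncomputable def Vk (k : ℕ) (z : Cn 3) : ℝ := (S.Vs k z - cst / 8) + (cst / 72) * ‖z‖ ^ 2

lemma Vk_sm (k : ℕ) : ContDiff ℝ ∞ (S.Vk k) :=
  ((S.Vs_sm k).sub contDiff_const).add (contDiff_const.mul nz_sm)

lemma Vk_le (k : ℕ) : ∀ z ∈ ball (0 : Cn 3) 3, S.Vk k z ≤ 0 := by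
  intro z hz
  have h1 : S.Vs k z ≤ 0 := Finset.sum_nonpos fun m _ => (S.B m).V_le z hz
  have h2 : ‖z‖ ^ 2 ≤ 9 := ax10 (by simpa using hz) (norm_nonneg z)
  have := cst_pos
  unfold Vk
  nlinarith

lemma Vk_zero (k : ℕ) : -(cst / 4) ≤ S.Vk k 0 := by
  have h1 : ∑ m ∈ Finset.range k, (-S.η m) ≤ S.Vs k 0 := Finset.sum_le_sum fun m _ => (S.B m).V_0
  rw [Finset.sum_neg_distrib] at h1
  have h2 := S.sum_geo k
  have h3 := S.h1
  unfold Vk
  rw [norm_zero]
  linarith

lemma sub_psd (k : ℕ) {z : Cn 3} (hz : z ∈ ball (0 : Cn 3) 3) :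
    (hess (fun y => S.Vs k y - cst / 8) z).PosSemidef := by
  rw [psd_iff ((S.Vs_sm k).sub contDiff_const)]
  intro ζ
  rw [sub_const_sm (S.Vs_sm k)]
  exact (psd_iff (S.Vs_sm k) z).1 (S.Vs_psd k hz) ζ

lemma sub_hess (k : ℕ) (z : Cn 3) : hess (fun y => S.Vs k y - cst / 8) z = hess (S.Vs k) z := by
  have := hess_add_const (-(cst / 8)) (S.Vs_sm k) z
  simpa only [← sub_eq_add_neg] using this

lemma Vk_psd (k : ℕ) : ∀ z ∈ ball (0 : Cn 3) 3, (hess (S.Vk k) z).PosSemidef := by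
  intro z hz
  rw [psd_iff (S.Vk_sm k)]
  intro ζ
  unfold Vk
  rw [levi_add' ((S.Vs_sm k).sub contDiff_const) (contDiff_const.mul nz_sm), sub_const_sm (S.Vs_sm k),
    levi_const_mul' _ nz_sm, nz_levi]
  have h1 := (psd_iff (S.Vs_sm k) z).1 (S.Vs_psd k hz) ζ
  have := cst_pos
  positivity

lemma Vk_det (k : ℕ) {z : Cn 3} (hz : z ∈ ball (0 : Cn 3) 3) :
    (hess (S.Vs k) z).det.re + (cst / 72) ^ 3 ≤ (hess (S.Vk k) z).det.re := by
  have h := det_add_nz (u := fun y => S.Vs k y - cst / 8) ((S.Vs_sm k).sub contDiff_const) z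
    (e := cst / 72) (by have := cst_pos; positivity) (S.sub_psd k hz)
  rw [sub_hess] at h
  exact h

lemma Vs_det (k : ℕ) {m : ℕ} (hm : m < k) {z : Cn 3} (hz : z ∈ (S.B m).U) :
    (S.B m).ρ z ≤ (hess (S.Vs k) z).det.re := by
  have hz3 := S.U_ball3 m hz
  refine ((S.B m).V_det z hz).trans ?_
  apply det_mono_psd _ _ ((S.B m).V_psd z hz3)
  apply hess_sub_psd (S.Vs_sm k) (S.B m).V_sm
  intro ζ
  rw [Vs_levi]
  exact Finset.single_le_sum (f := fun m => levi (S.B m).V z ζ) (fun j _ => S.V_levi_nonneg j hz3 ζ)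
    (Finset.mem_range.2 hm)

/-- the constant in front of the volume -/
noncomputable def cv : ℝ := kap * (cst / 72) ^ 3

lemma cv_pos : 0 < cv := by
  unfold cv
  have := kap_pos
  have := cst_pos
  positivity

/-- pointwise lower bound for the density -/
lemma dens_ge (k : ℕ) {z : Cn 3} (hz : z ∈ ball (0 : Cn 3) 3) :
    ENNReal.ofReal cv + ∑ m ∈ Finset.range k, (S.B m).U.indicator
      (fun z => ENNReal.ofReal (kap * (S.B m).ρ z)) z ≤ ENNReal.ofReal (maDensity (S.Vk k) z) := by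
  have h0 : 0 ≤ (hess (S.Vs k) z).det.re := det_hess_nonneg (S.Vs_psd k hz)
  have h1 := S.Vk_det k hz
  have hk := kap_pos
  have h2 : cv + kap * (hess (S.Vs k) z).det.re ≤ maDensity (S.Vk k) z := by
    rw [maDensity_eq]
    have := mul_le_mul_of_nonneg_left h1 hk.le
    unfold cv
    linarith
  refine le_trans ?_ (ENNReal.ofReal_le_ofReal h2)
  rw [ENNReal.ofReal_add cv_pos.le (by positivity)]
  gcongr
  by_cases h : ∃ m < k, z ∈ (S.B m).U
  · obtain ⟨m, hm, hzm⟩ := h
    rw [Finset.sum_eq_single m]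
    · rw [indicator_of_mem hzm]
      exact ENNReal.ofReal_le_ofReal (mul_le_mul_of_nonneg_left (S.Vs_det k hm hzm) hk.le)
    · intro j _ hjm
      apply indicator_of_notMem
      intro hzj
      exact S.disj hjm hz ((S.B j).U_N hzj) ((S.B m).U_N hzm)
    · intro h
      exact absurd (Finset.mem_range.2 hm) h
  · push Not at h
    rw [Finset.sum_eq_zero]
    · exact zero_le
    · intro m hm
      exact indicator_of_notMem (h m (Finset.mem_range.1 hm)) _

lemma lower_mass (k : ℕ) {E : Set (Cn 3)} (hE : MeasurableSet E) (hEΩ : E ⊆ ball (0 : Cn 3) 3) :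
    ENNReal.ofReal cv * volume E + S.mup k E ≤ ∫⁻ z in E, ENNReal.ofReal (maDensity (S.Vk k) z) := by
  have h1 : ∫⁻ z in E, (ENNReal.ofReal cv + ∑ m ∈ Finset.range k, (S.B m).U.indicator
      (fun z => ENNReal.ofReal (kap * (S.B m).ρ z)) z) ≤
      ∫⁻ z in E, ENNReal.ofReal (maDensity (S.Vk k) z) :=
    setLIntegral_mono' hE fun z hz => S.dens_ge k (hEΩ hz)
  refine le_trans (le_of_eq ?_) h1
  rw [lintegral_add_left measurable_const, setLIntegral_const, mup_apply]
  congr 1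
  rw [lintegral_finsetSum]
  · apply Finset.sum_congr rfl
    intro m _
    rw [S.mum_apply m hE, lintegral_indicator (S.B m).U_open.measurableSet,
      Measure.restrict_restrict (S.B m).U_open.measurableSet, inter_comm]
  · intro m _
    exact ((continuous_const.mul (S.B m).ρ_cont).measurable.ennreal_ofReal).indicator
      (S.B m).U_open.measurableSet

/-- the tail of the measure -/
noncomputable def tl (k : ℕ) : ENNReal := ∑' m, S.mum (m + k) univ

lemma tl_lim : Tendsto S.tl atTop (𝓝 0) := by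
  have hfin := S.mu_finite
  have h : ∑' m, S.mum m univ ≠ ⊤ := by
    have h1 : S.mu univ = ∑' m, S.mum m univ := by
      unfold mu
      rw [Measure.sum_apply _ MeasurableSet.univ]
    rw [← h1]
    exact measure_ne_top _ _
  exact ENNReal.tendsto_sum_nat_add _ h

lemma mu_le_tl (k : ℕ) {E : Set (Cn 3)} (hE : MeasurableSet E) : S.mu E ≤ S.mup k E + S.tl k := by
  have h1 : S.mu E = ∑' m, S.mum m E := by
    unfold mu
    rw [Measure.sum_apply _ hE]
  rw [h1, ← ENNReal.summable.sum_add_tsum_nat_add' (k := k), mup_apply]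
  gcongr
  unfold tl
  exact ENNReal.tsum_le_tsum fun m => measure_mono (subset_univ _)

end Sys

end Pool.Agent.H805K
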