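import Mathlib
import Pool.Agent.H805K.Asm3

set_option autoImplicit false
set_option maxHeartbeats 1000000

open MeasureTheory Metric Set Filter Topology
open scoped ContDiff ComplexOrder

namespace Pool.Agent.H805K
open Pool.Agent.H805R2

namespace Sys
variable (S : Sys)

/-- volume of the set where a solution is far below the smooth subsolution -/
lemma vol_le {φ : Cn 3 → ℝ} (hφ : ContinuousOn φ (ball (0 : Cn 3) 3))
    (hbd : ∀ w ∈ frontier (ball (0 : Cn 3) 3), Tendsto φ (𝓝[ball (0 : Cn 3) 3] w) (𝓝 0))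
    (hMA : IsMongeAmpere (ball (0 : Cn 3) 3) φ S.mu) (k : ℕ) {t : ℝ} (ht : 0 < t) :
    cv * (volume {z | z ∈ ball (0 : Cn 3) 3 ∧ φ z + t ≤ S.Vk k z}).toReal ≤ (S.tl k).toReal := by
  have hfin := S.mu_finite
  have hfink := S.mup_finite k
  set A : ℝ → Set (Cn 3) := fun s => {z | z ∈ ball (0 : Cn 3) 3 ∧ φ z + s ≤ S.Vk k z} with hA
  change cv * (volume (A t)).toReal ≤ (S.tl k).toReal
  have hcomp : ∀ s, 0 < s → IsCompact (A s) := fun s hs =>
    sub_compact isOpen_ball isBounded_ball hφ hbd (S.Vk_sm k).continuous (S.Vk_le k) hs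
  have hmono : ∀ s s', s ≤ s' → A s' ⊆ A s := fun s s' h z hz => ⟨hz.1, by
    have := hz.2
    linarith⟩
  have hAΩ : ∀ s, A s ⊆ ball (0 : Cn 3) 3 := fun s z hz => hz.1
  have htl : S.tl k ≠ ⊤ := by
    have h1 : S.tl k ≤ S.mu univ := by
      have h2 : S.mu univ = ∑' m, S.mum m univ := by
        unfold mu
        rw [Measure.sum_apply _ MeasurableSet.univ]
      rw [h2, ← ENNReal.summable.sum_add_tsum_nat_add' (k := k)]
      exact le_add_self
    exact (h1.trans_lt (measure_lt_top _ _)).ne
  -- basic inequality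
  have key : ∀ s s', 0 < s → s < s' → cv * (volume (A s')).toReal + (S.mup k (A s')).toReal ≤
      (S.mup k (A s)).toReal + (S.tl k).toReal := by
    intro s s' hs hss
    have hm' : MeasurableSet (A s') := (hcomp s' (hs.trans hss)).measurableSet
    have hm : MeasurableSet (A s) := (hcomp s hs).measurableSet
    have h1 := lower_cmp (n := 3) (by norm_num) isOpen_ball isBounded_ball hφ hbd hMA (S.Vk_sm k) (S.Vk_psd k)
      (S.Vk_le k) hs hss
    have h2 := S.lower_mass k hm' (hAΩ s')
    have hint : IntegrableOn (maDensity (S.Vk k)) (A s') :=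
      (maDensity_continuous (S.Vk_sm k)).continuousOn.integrableOn_compact (hcomp s' (hs.trans hss))
    have h3 : ∫⁻ z in A s', ENNReal.ofReal (maDensity (S.Vk k) z) =
        ENNReal.ofReal (∫ z in A s', maDensity (S.Vk k) z) := by
      rw [ofReal_integral_eq_lintegral_ofReal hint]
      filter_upwards [ae_restrict_mem hm'] with z hz
      exact maDensity_nonneg (S.Vk_psd k z hz.1)
    have h4 : ENNReal.ofReal cv * volume (A s') + S.mup k (A s') ≤ S.mup k (A s) + S.tl k := by
      refine h2.trans ?_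
      rw [h3]
      refine (ENNReal.ofReal_le_ofReal h1).trans ?_
      rw [ENNReal.ofReal_toReal (measure_ne_top _ _)]
      exact S.mu_le_tl k hm
    have hvfin : volume (A s') ≠ ⊤ := (hcomp s' (hs.trans hss)).measure_lt_top.ne
    have h5 := ENNReal.toReal_mono (ENNReal.add_ne_top.2 ⟨measure_ne_top _ _, htl⟩) h4
    rw [ENNReal.toReal_add (ENNReal.mul_ne_top ENNReal.ofReal_ne_top hvfin) (measure_ne_top _ _),
      ENNReal.toReal_mul, ENNReal.toReal_ofReal cv_pos.le, ENNReal.toReal_add (measure_ne_top _ _) htl] at h5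
    exact h5
  -- telescoping
  set M : ℝ := (S.mup k univ).toReal with hM
  have hMb : ∀ s, (S.mup k (A s)).toReal ≤ M := fun s =>
    ENNReal.toReal_mono (measure_ne_top _ _) (measure_mono (subset_univ _))
  have hvmono : ∀ s, 0 < s → s ≤ t → (volume (A t)).toReal ≤ (volume (A s)).toReal := fun s hs hst =>
    ENNReal.toReal_mono (hcomp s hs).measure_lt_top.ne (measure_mono (hmono s t hst))
  have hN : ∀ N : ℕ, 0 < N → cv * (volume (A t)).toReal ≤ (S.tl k).toReal + M / N := by
    intro N hN
    have hN0 : (0 : ℝ) < N := by exact_mod_cast hN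
    set s : ℕ → ℝ := fun i => t / 2 + t / 2 * (i / N) with hs
    have hspos : ∀ i, 0 < s i := fun i => by
      have : (0 : ℝ) ≤ (i : ℝ) / N := by positivity
      rw [hs]
      positivity
    have hslt : ∀ i, s i < s (i + 1) := fun i => by
      simp only [hs]
      have : (i : ℝ) / N < ((i + 1 : ℕ) : ℝ) / N := by
        apply div_lt_div_of_pos_right _ hN0
        push_cast
        linarith
      have h2 : t / 2 * ((i : ℝ) / N) < t / 2 * (((i + 1 : ℕ) : ℝ) / N) :=
        mul_lt_mul_of_pos_left this (by positivity)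
      linarith
    have hsle : ∀ i, i + 1 ≤ N → s (i + 1) ≤ t := fun i hi => by
      simp only [hs]
      have h1 : ((i + 1 : ℕ) : ℝ) / N ≤ 1 := by
        rw [div_le_one hN0]
        exact_mod_cast hi
      have h2 : t / 2 * (((i + 1 : ℕ) : ℝ) / N) ≤ t / 2 * 1 :=
        mul_le_mul_of_nonneg_left h1 (by positivity)
      linarith
    have h1 : ∑ i ∈ Finset.range N, (cv * (volume (A t)).toReal +
        ((S.mup k (A (s (i + 1)))).toReal - (S.mup k (A (s i))).toReal)) ≤
        ∑ i ∈ Finset.range N, (S.tl k).toReal := by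
      apply Finset.sum_le_sum
      intro i hi
      have h2 := key (s i) (s (i + 1)) (hspos i) (hslt i)
      have h3 := mul_le_mul_of_nonneg_left
        (hvmono (s (i + 1)) (hspos _) (hsle i (Finset.mem_range.1 hi))) cv_pos.le
      linarith
    rw [Finset.sum_add_distrib, Finset.sum_range_sub (fun i => (S.mup k (A (s i))).toReal),
      Finset.sum_const, Finset.sum_const, Finset.card_range, nsmul_eq_mul, nsmul_eq_mul] at h1
    have h2 := hMb (s 0)
    have h3 : 0 ≤ (S.mup k (A (s N))).toReal := ENNReal.toReal_nonneg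
    have h4 : (N : ℝ) * (cv * (volume (A t)).toReal) ≤ N * ((S.tl k).toReal + M / N) := by
      rw [mul_add, mul_div_cancel₀ _ hN0.ne']
      linarith
    exact le_of_mul_le_mul_left h4 hN0
  have hlim : Tendsto (fun N : ℕ => (S.tl k).toReal + M / N) atTop (𝓝 ((S.tl k).toReal + 0)) :=
    tendsto_const_nhds.add (tendsto_const_div_atTop_nhds_zero_nat M)
  rw [add_zero] at hlim
  exact ge_of_tendsto hlim (by
    filter_upwards [eventually_gt_atTop 0] with N hN' using hN N hN')

/-- **There is no continuous solution.** -/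
theorem no_solution {φ : Cn 3 → ℝ} (hφ : ContinuousOn φ (ball (0 : Cn 3) 3))
    (hbd : ∀ w ∈ frontier (ball (0 : Cn 3) 3), Tendsto φ (𝓝[ball (0 : Cn 3) 3] w) (𝓝 0))
    (hMA : IsMongeAmpere (ball (0 : Cn 3) 3) φ S.mu) : False := by
  have hc0 := cst_pos
  have h0 := S.phi_zero hφ hbd hMA
  have h0m : (0 : Cn 3) ∈ ball (0 : Cn 3) 3 := mem_ball_self (by norm_num)
  have hc : ContinuousAt φ 0 := hφ.continuousAt (isOpen_ball.mem_nhds h0m)
  obtain ⟨r0, hr0, hr0'⟩ := Metric.continuousAt_iff.1 hc (cst / 4) (by positivity)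
  set r : ℝ := min r0 2 with hr
  have hrpos : 0 < r := lt_min hr0 (by norm_num)
  have hr3 : r < 3 := (min_le_right _ _).trans_lt (by norm_num)
  have hφr : ∀ z ∈ ball (0 : Cn 3) r, φ z ≤ -(3 / 4 * cst) := by
    intro z hz
    have h1 := hr0' (show dist z 0 < r0 from (mem_ball.1 hz).trans_le (min_le_left _ _))
    rw [Real.dist_eq, abs_lt] at h1
    linarith [h1.2]
  set vb : ℝ := (volume (ball (0 : Cn 3) r)).toReal with hvb
  have hvb0 : 0 < vb := ENNReal.toReal_pos (measure_ball_pos volume _ hrpos).ne' measure_ball_lt_top.ne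
  -- for every `k`
  have key : ∀ k, cv * vb ≤ 2 * (S.tl k).toReal := by
    intro k
    set A : Set (Cn 3) := {z | z ∈ ball (0 : Cn 3) 3 ∧ φ z + cst / 4 ≤ S.Vk k z} with hA
    have hAc : IsCompact A := sub_compact isOpen_ball isBounded_ball hφ hbd (S.Vk_sm k).continuous
      (S.Vk_le k) (by positivity)
    have hAm := hAc.measurableSet
    have h1 := S.vol_le hφ hbd hMA k (t := cst / 4) (by positivity)
    have h2 := ball_mean (S.Vk_sm k) hrpos hr3 (S.Vk_psd k)
    have h3 : ∀ z ∈ ball (0 : Cn 3) r, S.Vk k z ≤ -(cst / 2) + A.indicator (fun _ => cst / 2) z := by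
      intro z hz
      have hz3 : z ∈ ball (0 : Cn 3) 3 := ball_subset_ball hr3.le hz
      by_cases hzA : z ∈ A
      · rw [indicator_of_mem hzA]
        have := S.Vk_le k z hz3
        linarith
      · rw [indicator_of_notMem hzA]
        have h4 : S.Vk k z < φ z + cst / 4 := by
          by_contra h
          exact hzA ⟨hz3, not_lt.1 h⟩
        have := hφr z hz
        linarith
    have hfinb : volume (ball (0 : Cn 3) r) ≠ ⊤ := measure_ball_lt_top.ne
    have hi1 : IntegrableOn (fun _ : Cn 3 => -(cst / 2)) (ball (0 : Cn 3) r) := integrableOn_const hfinb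
    have hi2 : IntegrableOn (A.indicator (fun _ : Cn 3 => cst / 2)) (ball (0 : Cn 3) r) := by
      apply IntegrableOn.mono_set _ (subset_univ _)
      rw [integrableOn_univ, integrable_indicator_iff hAm]
      exact integrableOn_const hAc.measure_lt_top.ne
    have h4 : ∫ z in ball (0 : Cn 3) r, S.Vk k z ≤
        ∫ z in ball (0 : Cn 3) r, (-(cst / 2) + A.indicator (fun _ => cst / 2) z) := by
      apply setIntegral_mono_on _ (hi1.add hi2) measurableSet_ball h3
      exact ((S.Vk_sm k).continuous.continuousOn.integrableOn_compact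
        (isCompact_closedBall (0 : Cn 3) r)).mono_set ball_subset_closedBall
    rw [integral_add hi1 hi2, setIntegral_const, smul_eq_mul, setIntegral_indicator hAm,
      setIntegral_const, smul_eq_mul] at h4
    have h5 : volume.real (ball (0 : Cn 3) r ∩ A) ≤ (volume A).toReal :=
      ENNReal.toReal_mono hAc.measure_lt_top.ne (measure_mono inter_subset_right)
    have h6 := S.Vk_zero k
    have h7 : vb * (-(cst / 4)) ≤ vb * S.Vk k 0 := mul_le_mul_of_nonneg_left h6 hvb0.le
    have h8 : volume.real (ball (0 : Cn 3) r) = vb := rfl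
    rw [h8] at h4
    have h9 : volume.real (ball (0 : Cn 3) r ∩ A) * (cst / 2) ≤ (volume A).toReal * (cst / 2) :=
      mul_le_mul_of_nonneg_right h5 (by positivity)
    have h10 : vb * (cst / 4) ≤ (volume A).toReal * (cst / 2) := by
      have h2' : vb * S.Vk k 0 ≤ ∫ z in ball (0 : Cn 3) r, S.Vk k z := h2
      linarith
    have h11 : vb ≤ 2 * (volume A).toReal := by
      have : vb * (cst / 4) ≤ (2 * (volume A).toReal) * (cst / 4) := by linarith
      exact le_of_mul_le_mul_right this (by positivity)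
    have h12 := mul_le_mul_of_nonneg_left h11 cv_pos.le
    linarith
  have hlim : Tendsto (fun k => 2 * (S.tl k).toReal) atTop (𝓝 (2 * 0)) := by
    apply Tendsto.const_mul
    have := (ENNReal.tendsto_toReal ENNReal.zero_ne_top).comp S.tl_lim
    simpa [Function.comp_def] using this
  rw [mul_zero] at hlim
  have h1 := ge_of_tendsto' hlim key
  have := cv_pos
  have : 0 < cv * vb := by positivity
  linarith

end Sys

end Pool.Agent.H805K
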