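import Mathlib
import Pool.Agent.H805R2.Lite

/-!
Definitions used in the disproof of the bounded subsolution problem on compact Kaehler manifolds
(a complex torus).
-/

set_option autoImplicit false

open MeasureTheory Metric Set Filter Topology
open scoped ContDiff ComplexOrder Interval

namespace Pool.Agent.H805K
open Pool.Agent.H805R2

/-- the energy of `u` relative to `q` -/
noncomputable def En {n : ℕ} (q u : Cn n → ℝ) : ℝ :=
  ∫ τ in (0 : ℝ)..1, ∫ z, (u z - q z) * (hess (fun y => q y + τ * (u y - q y)) z).det.re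

/-- side length of the fundamental cell in the `i`-th variable -/
noncomputable def side (a : ℝ) (i : Fin 3) : ℝ := if i = 0 then a else 1

/-- the lattice vector with coordinates `m` -/
noncomputable def lat (a : ℝ) (m : Fin 3 → ℤ × ℤ) : Cn 3 :=
  WithLp.toLp 2 fun i => ((side a i : ℝ) : ℂ) * (((m i).1 : ℂ) + ((m i).2 : ℂ) * Complex.I)

/-- the fundamental cell -/
def FD (a : ℝ) : Set (Cn 3) :=
  {z | ∀ i, 0 ≤ (z i).re ∧ (z i).re < side a i ∧ 0 ≤ (z i).im ∧ (z i).im < side a i}

/-- periodisation of a measure -/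
noncomputable def per (a : ℝ) (μ : Measure (Cn 3)) : Measure (Cn 3) :=
  Measure.sum fun m : Fin 3 → ℤ × ℤ => μ.map fun z => z + lat a m

/-- Gaussian integers -/
noncomputable def gi (m : ℤ × ℤ) : ℂ := (m.1 : ℂ) + (m.2 : ℂ) * Complex.I

end Pool.Agent.H805K
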