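import Mathlib
import Pool.Agent.H805K.Asm4

set_option autoImplicit false
set_option maxHeartbeats 1000000

open MeasureTheory Metric Set Filter Topology
open scoped ContDiff ComplexOrder

namespace Pool.Agent.H805K
open Pool.Agent.H805R2

lemma ball3_hyperconvex : Hyperconvex (ball (0 : Cn 3) 3) := by
  have hs : ContDiff ℝ ∞ (fun z : Cn 3 => ‖z‖ ^ 2 - 9) := nz_sm.sub contDiff_const
  refine ⟨fun z => ((‖z‖ ^ 2 - 9 : ℝ) : EReal), psh_of_smooth isOpen_ball hs ?_, ?_, ?_⟩
  · intro z _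
    rw [psd_iff hs]
    intro ζ
    rw [sub_const_sm nz_sm, nz_levi]
    positivity
  · intro z hz
    rw [mem_ball_zero_iff] at hz
    have : ‖z‖ ^ 2 - 9 < 0 := by nlinarith [norm_nonneg z]
    exact EReal.coe_neg'.2 this
  · intro c hc
    refine ⟨closedBall 0 (Real.sqrt (9 + max c (-9))), isCompact_closedBall _ _, ?_, ?_⟩
    · apply closedBall_subset_ball
      rw [Real.sqrt_lt' (by norm_num)]
      have : max c (-9) < 0 := max_lt hc (by norm_num)
      linarith
    · intro z _ hz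
      have h1 : ‖z‖ ^ 2 - 9 < c := EReal.coe_lt_coe_iff.1 hz
      rw [mem_closedBall_zero_iff]
      apply Real.le_sqrt_of_sq_le
      have := le_max_left c (-9)
      linarith

namespace Sys
variable (S : Sys)

lemma mu_ac : S.mu ≪ volume := by
  apply Measure.absolutelyContinuous_sum_left
  intro m
  exact (withDensity_absolutelyContinuous _ _).trans Measure.restrict_le_self.absolutelyContinuous

end Sys

/-- **Main theorem**: on the ball there is a probability measure with a continuous subsolution and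
without continuous solution. -/
theorem main : ∃ μ : Measure (Cn 3), μ (ball 0 3) = 1 ∧ μ (ball 0 3)ᶜ = 0 ∧ μ ≪ volume ∧
    (∃ (u : Cn 3 → ℝ) (ν : Measure (Cn 3)), ContinuousOn u (ball 0 3) ∧
      PSH (ball 0 3) (fun z => ((u z : ℝ) : EReal)) ∧
      (∀ w ∈ frontier (ball (0 : Cn 3) 3), Tendsto u (𝓝[ball (0 : Cn 3) 3] w) (𝓝 0)) ∧
      IsMongeAmpere (ball 0 3) u ν ∧ ∀ E, MeasurableSet E → E ⊆ ball 0 3 → μ E ≤ ν E) ∧
    ¬ ∃ φ : Cn 3 → ℝ, ContinuousOn φ (ball 0 3) ∧
      (∀ w ∈ frontier (ball (0 : Cn 3) 3), Tendsto φ (𝓝[ball (0 : Cn 3) 3] w) (𝓝 0)) ∧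
      IsMongeAmpere (ball 0 3) φ μ := by
  obtain ⟨S⟩ := exists_sys
  have hfin := S.mu_finite
  have hpos := S.mu_pos
  set M : ℝ := (S.mu (ball (0 : Cn 3) 3)).toReal with hM
  have hM0 : 0 < M := ENNReal.toReal_pos hpos.ne' (measure_ne_top _ _)
  -- the scaling factor
  set t : ℝ := (M⁻¹) ^ ((1 : ℝ) / 3) with ht
  have ht0 : 0 < t := Real.rpow_pos_of_pos (inv_pos.2 hM0) _
  have ht3 : t ^ 3 = M⁻¹ := by
    rw [ht, ← Real.rpow_natCast, ← Real.rpow_mul (inv_pos.2 hM0).le]
    norm_num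
  refine ⟨ENNReal.ofReal (t ^ 3) • S.mu, ?_, ?_, ?_, ?_, ?_⟩
  · rw [Measure.smul_apply, smul_eq_mul, ht3, ENNReal.ofReal_inv_of_pos hM0, hM,
      ENNReal.ofReal_toReal (measure_ne_top _ _)]
    exact ENNReal.inv_mul_cancel hpos.ne' (measure_ne_top _ _)
  · rw [Measure.smul_apply, S.mu_compl, smul_zero]
  · exact S.mu_ac.smul_left _
  · obtain ⟨ν, hν1, hν2, hν3⟩ := S.exists_nu
    have hps : ∀ k, PSH (ball (0 : Cn 3) 3) (fun z => ((t * S.us k z : ℝ) : EReal)) := fun k =>
      psh_of_smooth isOpen_ball (contDiff_const.mul (S.us_sm k)) fun z hz => by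
        rw [psd_iff (contDiff_const.mul (S.us_sm k))]
        intro ζ
        rw [levi_const_mul' _ (S.us_sm k)]
        exact mul_nonneg ht0.le ((psd_iff (S.us_sm k) z).1 (S.us_psd k z hz) ζ)
    refine ⟨fun z => t * S.uinf z, ENNReal.ofReal (t ^ 3) • ν, (continuous_const.mul S.uinf_cont).continuousOn,
      ?_, ?_, ma_scale hν2 ht0.le, ?_⟩
    · refine psh_of_unif (u := fun k z => t * S.us k z) hps ?_
        (continuous_const.mul S.uinf_cont).continuousOn
      have h := S.us_unif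
      rw [Metric.tendstoUniformly_iff] at h
      apply TendstoUniformly.tendstoUniformlyOn
      rw [Metric.tendstoUniformly_iff]
      intro ε hε
      filter_upwards [h (ε / t) (by positivity)] with k hk z
      have h1 := hk z
      rw [Real.dist_eq] at h1 ⊢
      rw [← mul_sub, abs_mul, abs_of_pos ht0]
      rw [lt_div_iff₀ ht0] at h1
      linarith
    · intro w hw
      have := (S.uinf_bdry w hw).const_mul t
      rwa [mul_zero] at this
    · intro E hE hEΩ
      rw [Measure.smul_apply, Measure.smul_apply, smul_eq_mul, smul_eq_mul]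
      exact mul_le_mul_right (hν3 E hE hEΩ) _
  · rintro ⟨φ, h1, h2, h3⟩
    have h4 := ma_scale h3 (t := t⁻¹) (inv_nonneg.2 ht0.le)
    have h5 : ENNReal.ofReal (t⁻¹ ^ 3) • ENNReal.ofReal (t ^ 3) • S.mu = S.mu := by
      rw [smul_smul, ← ENNReal.ofReal_mul (by positivity), ← mul_pow, inv_mul_cancel₀ ht0.ne', one_pow,
        ENNReal.ofReal_one, one_smul]
    rw [h5] at h4
    refine S.no_solution (φ := fun z => t⁻¹ * φ z) (continuousOn_const.mul h1) ?_ h4
    intro w hw
    have := (h2 w hw).const_mul t⁻¹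
    rwa [mul_zero] at this

end Pool.Agent.H805K
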