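import Mathlib
import Pool.Agent.H805K.BaseT

set_option autoImplicit false
set_option maxHeartbeats 1000000

open MeasureTheory Metric Set Filter Topology
open scoped ContDiff ComplexOrder Interval

namespace Pool.Agent.H805K
open Pool.Agent.H805R2

namespace TLAT

lemma side_pos {a : ℝ} (ha : 0 < a) (i : Fin 3) : 0 < side a i := by
  unfold side
  split_ifs
  · exact ha
  · norm_num

lemma lat_apply (a : ℝ) (m : Fin 3 → ℤ × ℤ) (i : Fin 3) :
    lat a m i = ((side a i : ℝ) : ℂ) * (((m i).1 : ℂ) + ((m i).2 : ℂ) * Complex.I) := rfl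

lemma lat_re (a : ℝ) (m : Fin 3 → ℤ × ℤ) (i : Fin 3) :
    (lat a m i).re = side a i * (m i).1 := by
  rw [lat_apply, Complex.re_ofReal_mul]
  simp

lemma lat_im (a : ℝ) (m : Fin 3 → ℤ × ℤ) (i : Fin 3) :
    (lat a m i).im = side a i * (m i).2 := by
  rw [lat_apply, Complex.im_ofReal_mul]
  simp

lemma lat_zero (a : ℝ) : lat a 0 = 0 := by
  ext i
  rw [lat_apply]
  simp

end TLAT

lemma lat_add (a : ℝ) (m m' : Fin 3 → ℤ × ℤ) : lat a (m + m') = lat a m + lat a m' := by
  ext i
  rw [PiLp.add_apply, TLAT.lat_apply, TLAT.lat_apply, TLAT.lat_apply]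
  simp only [Pi.add_apply, Prod.fst_add, Prod.snd_add]
  push_cast
  ring

lemma TLAT.lat_neg (a : ℝ) (m : Fin 3 → ℤ × ℤ) : lat a (-m) = - lat a m := by
  have h := lat_add a m (-m)
  rw [add_neg_cancel, TLAT.lat_zero] at h
  exact (neg_eq_of_add_eq_zero_right h.symm).symm

lemma lat_inj {a : ℝ} (ha : 0 < a) {m m' : Fin 3 → ℤ × ℤ} (h : lat a m = lat a m') : m = m' := by
  funext i
  have h1 : (lat a m i).re = (lat a m' i).re := by rw [h]
  have h2 : (lat a m i).im = (lat a m' i).im := by rw [h]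
  rw [TLAT.lat_re, TLAT.lat_re] at h1
  rw [TLAT.lat_im, TLAT.lat_im] at h2
  have hs := (TLAT.side_pos ha i).ne'
  have h3 := mul_left_cancel₀ hs h1
  have h4 := mul_left_cancel₀ hs h2
  ext
  · exact_mod_cast h3
  · exact_mod_cast h4

/-- a nonzero lattice vector has a coordinate at distance at least `side a i` from `0` -/
lemma lat_far {a : ℝ} (ha : 0 < a) {m : Fin 3 → ℤ × ℤ} {i : Fin 3} (h : m i ≠ 0) : side a i ≤ ‖lat a m i‖ := by
  have hs := TLAT.side_pos ha i
  by_cases h1 : (m i).1 = 0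
  · have h2 : (m i).2 ≠ 0 := by
      intro h2
      apply h
      ext
      · exact h1
      · exact h2
    have h3 : (1 : ℝ) ≤ |((m i).2 : ℝ)| := by
      have := Int.one_le_abs h2
      exact_mod_cast this
    have h4 := Complex.abs_im_le_norm (lat a m i)
    rw [TLAT.lat_im, abs_mul, abs_of_pos hs] at h4
    nlinarith
  · have h3 : (1 : ℝ) ≤ |((m i).1 : ℝ)| := by
      have := Int.one_le_abs h1
      exact_mod_cast this
    have h4 := Complex.abs_re_le_norm (lat a m i)
    rw [TLAT.lat_re, abs_mul, abs_of_pos hs] at h4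
    nlinarith

lemma TLAT.cell {s x : ℝ} (hs : 0 < s) (k : ℤ) : (0 ≤ x - s * k ∧ x - s * k < s) ↔ k = ⌊x / s⌋ := by
  rw [eq_comm, Int.floor_eq_iff, le_div_iff₀ hs, div_lt_iff₀ hs]
  constructor
  · rintro ⟨h1, h2⟩
    constructor <;> nlinarith
  · rintro ⟨h1, h2⟩
    constructor <;> nlinarith

lemma exists_lat {a : ℝ} (ha : 0 < a) (z : Cn 3) : ∃! m : Fin 3 → ℤ × ℤ, z - lat a m ∈ FD a := by
  have key : ∀ m : Fin 3 → ℤ × ℤ, z - lat a m ∈ FD a ↔
      m = fun i => (⌊(z i).re / side a i⌋, ⌊(z i).im / side a i⌋) := by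
    intro m
    rw [funext_iff]
    apply forall_congr'
    intro i
    rw [PiLp.sub_apply, Complex.sub_re, Complex.sub_im, TLAT.lat_re, TLAT.lat_im, Prod.ext_iff]
    rw [← TLAT.cell (TLAT.side_pos ha i), ← TLAT.cell (TLAT.side_pos ha i)]
    tauto
  refine ⟨_, (key _).2 rfl, fun m hm => (key m).1 hm⟩

namespace TLAT

/-- real coordinates -/
noncomputable def coord : Cn 3 ≃ₗᵢ[ℝ] EuclideanSpace ℝ (Fin 3 × Fin 2) where
  toFun z := WithLp.toLp 2 fun p => if p.2 = 0 then (z p.1).re else (z p.1).im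
  invFun x := WithLp.toLp 2 fun i => (⟨x (i, 0), x (i, 1)⟩ : ℂ)
  left_inv z := by
    ext i
    simp
  right_inv x := by
    ext ⟨i, j⟩
    fin_cases j <;> simp
  map_add' z w := by
    ext ⟨i, j⟩
    fin_cases j <;> simp
  map_smul' c z := by
    ext ⟨i, j⟩
    fin_cases j <;> simp
  norm_map' z := by
    rw [EuclideanSpace.norm_eq, EuclideanSpace.norm_eq, Fintype.sum_prod_type]
    congr 1
    apply Finset.sum_congr rfl
    intro i _
    rw [Fin.sum_univ_two, Complex.sq_norm, Complex.normSq_apply]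
    simp
    ring

lemma coord_apply (z : Cn 3) (p : Fin 3 × Fin 2) :
    coord z p = if p.2 = 0 then (z p.1).re else (z p.1).im := rfl

lemma FD_eq (a : ℝ) : FD a = coord ⁻¹' ((WithLp.ofLp : EuclideanSpace ℝ (Fin 3 × Fin 2) → _) ⁻¹'
    (Set.pi univ fun p : Fin 3 × Fin 2 => Ico (0 : ℝ) (side a p.1))) := by
  ext z
  constructor
  · intro h
    rw [mem_preimage, mem_preimage, Set.mem_univ_pi]
    rintro ⟨i, j⟩
    have hi := h i
    fin_cases j
    · exact ⟨hi.1, hi.2.1⟩
    · exact ⟨hi.2.2.1, hi.2.2.2⟩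
  · intro h i
    rw [mem_preimage, mem_preimage, Set.mem_univ_pi] at h
    have h0 := h (i, 0)
    have h1 := h (i, 1)
    exact ⟨h0.1, h0.2, h1.1, h1.2⟩

end TLAT

lemma measurableSet_FD (a : ℝ) : MeasurableSet (FD a) := by
  rw [TLAT.FD_eq]
  apply TLAT.coord.continuous.measurable
  apply (PiLp.volume_preserving_ofLp (Fin 3 × Fin 2)).measurable
  exact MeasurableSet.univ_pi fun _ => measurableSet_Ico

lemma volume_FD {a : ℝ} (ha : 0 < a) : volume (FD a) = ENNReal.ofReal (a ^ 2) := by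
  rw [TLAT.FD_eq]
  have hm : MeasurableSet (Set.pi univ fun p : Fin 3 × Fin 2 => Ico (0 : ℝ) (side a p.1)) :=
    MeasurableSet.univ_pi fun _ => measurableSet_Ico
  rw [TLAT.coord.measurePreserving.measure_preimage
    ((PiLp.volume_preserving_ofLp (Fin 3 × Fin 2)).measurable hm).nullMeasurableSet]
  rw [(PiLp.volume_preserving_ofLp (Fin 3 × Fin 2)).measure_preimage hm.nullMeasurableSet]
  rw [Real.volume_pi_Ico, Fintype.prod_prod_type, Fin.prod_univ_three]
  simp only [Fin.prod_univ_two, side, sub_zero]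
  simp only [if_true, Fin.isValue, one_ne_zero, if_false, ENNReal.ofReal_one, mul_one,
    (by decide : (2 : Fin 3) ≠ 0)]
  rw [sq, ENNReal.ofReal_mul ha.le]

lemma TLAT.meas_shift (v : Cn 3) : Measurable fun z : Cn 3 => z + v :=
  (continuous_id.add continuous_const).measurable

lemma per_apply (a : ℝ) (μ : Measure (Cn 3)) {E : Set (Cn 3)} (hE : MeasurableSet E) :
    per a μ E = ∑' m : Fin 3 → ℤ × ℤ, μ ((fun z => z + lat a m) ⁻¹' E) := by
  rw [per, Measure.sum_apply _ hE]
  congr 1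
  funext m
  rw [Measure.map_apply (TLAT.meas_shift _) hE]

/-- unfolding: the periodisation has on the cell the total mass of the measure -/
lemma per_FD {a : ℝ} (ha : 0 < a) (μ : Measure (Cn 3)) : per a μ (FD a) = μ univ := by
  rw [per_apply a μ (measurableSet_FD a)]
  rw [← measure_iUnion]
  · congr 1
    rw [eq_univ_iff_forall]
    intro z
    obtain ⟨m, hm, _⟩ := exists_lat ha z
    rw [mem_iUnion]
    refine ⟨-m, ?_⟩
    simp only [mem_preimage]
    rw [TLAT.lat_neg, ← sub_eq_add_neg]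
    exact hm
  · intro m m' hne
    rw [Function.onFun, Set.disjoint_left]
    intro z hz hz'
    simp only [mem_preimage] at hz hz'
    apply hne
    have h1 : z - lat a (-m) ∈ FD a := by rw [TLAT.lat_neg, sub_neg_eq_add]; exact hz
    have h2 : z - lat a (-m') ∈ FD a := by rw [TLAT.lat_neg, sub_neg_eq_add]; exact hz'
    have := (exists_lat ha z).unique h1 h2
    exact neg_injective this
  · intro m
    exact TLAT.meas_shift _ (measurableSet_FD a)

lemma per_invariant (a : ℝ) (μ : Measure (Cn 3)) (m : Fin 3 → ℤ × ℤ) :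
    (per a μ).map (fun z => z + lat a m) = per a μ := by
  ext E hE
  rw [Measure.map_apply (TLAT.meas_shift _) hE, per_apply a μ hE,
    per_apply a μ (TLAT.meas_shift _ hE),
    ← Equiv.tsum_eq (Equiv.addRight m) (fun m' => μ ((fun z => z + lat a m') ⁻¹' E))]
  congr 1
  funext m'
  congr 1
  ext z
  simp only [mem_preimage, Equiv.coe_addRight]
  rw [lat_add, add_assoc]

lemma le_per (a : ℝ) (μ : Measure (Cn 3)) : μ ≤ per a μ := by
  rw [Measure.le_iff]
  intro E hE
  rw [per_apply a μ hE]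
  have h := ENNReal.le_tsum (f := fun m : Fin 3 → ℤ × ℤ => μ ((fun z => z + lat a m) ⁻¹' E)) 0
  simp only [TLAT.lat_zero, add_zero, preimage_id'] at h
  exact h

end Pool.Agent.H805K
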