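import Mathlib
import Pool.Agent.H805K.Block2
import Pool.Agent.H805K.BfunT
import Pool.Agent.H805K.BaseT

/-!
The torus block: curve functions and the pointwise inequalities (values of the Levi forms).
-/

set_option autoImplicit false
set_option maxHeartbeats 1000000

open MeasureTheory Metric Set Filter Topology
open scoped ContDiff ComplexOrder

namespace Pool.Agent.H805K
open Pool.Agent.H805R2

/-- `√K` as a complex number -/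
noncomputable def sK (K : ℕ) : ℂ := ((Real.sqrt K : ℝ) : ℂ)

lemma sK_norm_sq (K : ℕ) : ‖sK K‖ ^ 2 = K := by
  unfold sK
  rw [Complex.norm_real, Real.norm_eq_abs, sq_abs, Real.sq_sqrt (Nat.cast_nonneg K)]

/-- the two equations of the rescaled curve -/
noncomputable def Q1 (K N : ℕ) (R : ℝ) (c : ℂ) (z : Cn 3) : ℂ := z 1 - c - sK K * fe K N R (z 0)
noncomputable def Q2 (K N : ℕ) (R : ℝ) (z : Cn 3) : ℂ := z 2 - sK K * fo K N R (z 0)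

lemma Q1_sm (K N : ℕ) (R : ℝ) (c : ℂ) : ContDiff ℂ ∞ (Q1 K N R c) :=
  ((coord_sm 1).sub contDiff_const).sub (contDiff_const.mul (fe_sm K N R))

lemma Q2_sm (K N : ℕ) (R : ℝ) : ContDiff ℂ ∞ (Q2 K N R) :=
  (coord_sm 2).sub (contDiff_const.mul (fo_sm K N R))

lemma Q1_fd (K N : ℕ) (R : ℝ) (c : ℂ) (z ζ : Cn 3) :
    fderiv ℂ (Q1 K N R c) z ζ = ζ 1 - sK K * dfe K N R (z 0) * ζ 0 := by
  have h1 : DifferentiableAt ℂ (fun z : Cn 3 => z 1) z := (coord_sm 1).contDiffAt.differentiableAt (by simp)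
  have h2 : DifferentiableAt ℂ (fun z : Cn 3 => sK K * fe K N R (z 0)) z :=
    (contDiff_const.mul (fe_sm K N R)).contDiffAt.differentiableAt (by simp)
  unfold Q1
  rw [fderiv_fun_sub (h1.sub_const c) h2, fderiv_sub_const, sub_apply, coord_fd,
    fd_comp0 (f := fun w => sK K * fe K N R w) ((fe_deriv K N R (z 0)).const_mul (sK K))]

lemma Q2_fd (K N : ℕ) (R : ℝ) (z ζ : Cn 3) :
    fderiv ℂ (Q2 K N R) z ζ = ζ 2 - sK K * dfo K N R (z 0) * ζ 0 := by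
  have h1 : DifferentiableAt ℂ (fun z : Cn 3 => z 2) z := (coord_sm 2).contDiffAt.differentiableAt (by simp)
  have h2 : DifferentiableAt ℂ (fun z : Cn 3 => sK K * fo K N R (z 0)) z :=
    (contDiff_const.mul (fo_sm K N R)).contDiffAt.differentiableAt (by simp)
  unfold Q2
  rw [fderiv_fun_sub h1 h2, sub_apply, coord_fd,
    fd_comp0 (f := fun w => sK K * fo K N R w) ((fo_deriv K N R (z 0)).const_mul (sK K))]

lemma dfK_ge (K N : ℕ) (hN : 2 ≤ N) {R : ℝ} (hR : 0 < R) (hK : 0 < K) (w : ℂ) :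
    K * gg K N R w / 8 ≤ ‖sK K * dfe K N R w‖ ^ 2 + ‖sK K * dfo K N R w‖ ^ 2 := by
  have h := df_ge K N hN hR hK w
  rw [norm_mul, norm_mul, mul_pow, mul_pow, sK_norm_sq]
  have h2 := mul_le_mul_of_nonneg_left h (Nat.cast_nonneg K : (0 : ℝ) ≤ K)
  nlinarith

/-- Levi form inside the tube, `δ = 1` -/
lemma vf_inT {K Γ Λ kmin g AA : ℝ} (hΓ : 8 ≤ Γ) (hAA : 0 ≤ AA)
    {T b : Cn 3 → ℝ} (hT : ContDiff ℝ ∞ T) (hb : ContDiff ℝ ∞ b) (z ζ : Cn 3) {x1 x2 d1 d2 : ℂ}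
    (hx1 : ζ 1 = x1 + d1 * ζ 0) (hx2 : ζ 2 = x2 + d2 * ζ 0) (hg : K * g / 8 ≤ ‖d1‖ ^ 2 + ‖d2‖ ^ 2)
    (hT0 : 0 ≤ levi T z ζ) (hT1 : levi T z ζ ≤ K * g * ‖ζ 0‖ ^ 2)
    (hT2 : ‖dl T z ζ‖ ^ 2 ≤ 11 / 4 * (K * g * ‖ζ 0‖ ^ 2))
    (hL : Γ * ‖dl b z ζ‖ ^ 2 ≤ levi b z ζ) (hΛ : Λ * (‖x1‖ ^ 2 + ‖x2‖ ^ 2) ≤ levi b z ζ)
    (hk : kmin ≤ k1 (T z - b z)) (hΛk : 2 * AA ≤ Λ * kmin) (hkmin : 0 < kmin) :
    (AA / 16 - 37 / 4) * (K * g) * ‖ζ 0‖ ^ 2 + k1 (T z - b z) / 4 * levi b z ζ ≤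
      AA * ‖ζ‖ ^ 2 + levi (vf 1 T b) z ζ := by
  have hL0 : 0 ≤ levi b z ζ := le_trans (by positivity) hL
  rw [vf_levi hT hb]
  have h2T : |k2 (T z)| ≤ 1 := (k2_abs _).trans (k1_le _)
  have h := alg_in (t := levi T z ζ) (L := levi b z ζ) (Γ := Γ) (q1 := k1 (T z - b z)) (q1T := k1 (T z))
    (q2 := k2 (T z - b z)) (q2T := k2 (T z)) (a := dl T z ζ) (β := dl b z ζ) (by linarith) hT0 hL (k1_pos _).le
    (k1_le _) (k2_abs _) (k1_pos _).le h2T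
  have hn : ‖ζ‖ ^ 2 = ‖ζ 0‖ ^ 2 + ‖ζ 1‖ ^ 2 + ‖ζ 2‖ ^ 2 := by
    rw [EuclideanSpace.norm_sq_eq, Fin.sum_univ_three]
  have tri : ∀ x y : ℂ, ‖y‖ ^ 2 / 2 - ‖x‖ ^ 2 ≤ ‖x + y‖ ^ 2 := by
    intro x y
    have h3 : ‖y‖ ≤ ‖x + y‖ + ‖x‖ := by
      have := norm_sub_le (x + y) x
      rwa [add_sub_cancel_left] at this
    nlinarith [norm_nonneg y, norm_nonneg x, norm_nonneg (x + y), sq_nonneg (‖x + y‖ - ‖x‖)]
  have hz1 : ‖d1‖ ^ 2 * ‖ζ 0‖ ^ 2 / 2 - ‖x1‖ ^ 2 ≤ ‖ζ 1‖ ^ 2 := by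
    have := tri x1 (d1 * ζ 0)
    rw [norm_mul, mul_pow] at this
    rwa [hx1]
  have hz2 : ‖d2‖ ^ 2 * ‖ζ 0‖ ^ 2 / 2 - ‖x2‖ ^ 2 ≤ ‖ζ 2‖ ^ 2 := by
    have := tri x2 (d2 * ζ 0)
    rw [norm_mul, mul_pow] at this
    rwa [hx2]
  set q := k1 (T z - b z) with hq
  set L := levi b z ζ with hLdef
  set X := ‖x1‖ ^ 2 + ‖x2‖ ^ 2 with hX
  have hX0 : 0 ≤ X := by positivity
  have hXL : 2 * AA * X ≤ q * L := by
    have h3 : 2 * AA * X ≤ Λ * kmin * X := mul_le_mul_of_nonneg_right hΛk hX0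
    have h4 : Λ * kmin * X = kmin * (Λ * X) := by ring
    have h5 : kmin * (Λ * X) ≤ kmin * L := mul_le_mul_of_nonneg_left hΛ hkmin.le
    have h6 : kmin * L ≤ q * L := mul_le_mul_of_nonneg_right hk hL0
    linarith
  have hz0 : 0 ≤ ‖ζ 0‖ ^ 2 := by positivity
  have hT3 : levi T z ζ + 3 * ‖dl T z ζ‖ ^ 2 ≤ 37 / 4 * (K * g * ‖ζ 0‖ ^ 2) := by linarith
  have h2Γ : q * (1 - 2 / Γ) * L ≥ q * (3 / 4) * L := by
    have h3 : 2 / Γ ≤ 1 / 4 := by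
      rw [div_le_div_iff₀ (by linarith) (by norm_num)]
      linarith
    apply mul_le_mul_of_nonneg_right _ hL0
    exact mul_le_mul_of_nonneg_left (by linarith) (k1_pos _).le
  have hfg : K * g / 8 * ‖ζ 0‖ ^ 2 ≤ (‖d1‖ ^ 2 + ‖d2‖ ^ 2) * ‖ζ 0‖ ^ 2 := mul_le_mul_of_nonneg_right hg hz0
  have hsum : K * g / 16 * ‖ζ 0‖ ^ 2 - X ≤ ‖ζ‖ ^ 2 := by
    rw [hn]
    linarith
  have hsum2 := mul_le_mul_of_nonneg_left hsum hAA
  nlinarith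

lemma one_sub_sg_sq (x : ℝ) : 1 - sg x ^ 2 ≤ Real.exp (-x) := by
  rw [sg_sq]
  have h := Real.exp_pos (-x)
  have e : 1 - 1 / (1 + Real.exp (-x)) = Real.exp (-x) / (1 + Real.exp (-x)) := by
    field_simp
    ring
  rw [e]
  apply div_le_self h.le
  linarith

lemma k1_exp (x : ℝ) : k1 x ≤ Real.exp (-x) := by
  have h1 := sg_pos x
  have h2 := sg_lt x
  have h3 := one_sub_sg_sq x
  have h4 := sg_sq_lt x
  have e : k1 x = sg x * (1 - sg x ^ 2) := by unfold k1; ring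
  rw [e]
  have h5 : sg x * (1 - sg x ^ 2) ≤ 1 * (1 - sg x ^ 2) := mul_le_mul_of_nonneg_right h2.le (by linarith)
  linarith

lemma one_sub_sg (x : ℝ) : 1 - sg x ≤ Real.exp (-x) := by
  have h1 := sg_pos x
  have h2 := sg_lt x
  have h3 := one_sub_sg_sq x
  nlinarith

/-- far away from the origin of the `z₀`-plane -/
lemma alg_far {t L Γ q1 q1T q2 q2T E : ℝ} {a β : ℂ} (hΓ : 2 ≤ Γ) (ht : 0 ≤ t)
    (hL : Γ * ‖β‖ ^ 2 ≤ L) (h1 : 0 ≤ q1) (h1' : q1 ≤ E) (h2 : |q2| ≤ q1) (h1T : 0 ≤ q1T) (h2T : |q2T| ≤ E) :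
    -(E * (t + 3 * ‖a‖ ^ 2)) ≤ -(q1 * (t - L) + q2 * ‖a - β‖ ^ 2 - q1T * t - q2T * ‖a‖ ^ 2) := by
  have hΓ0 : 0 < Γ := by linarith
  have e1 : q2 * ‖a - β‖ ^ 2 ≤ q1 * (2 * ‖a‖ ^ 2 + 2 * ‖β‖ ^ 2) := by
    calc q2 * ‖a - β‖ ^ 2 ≤ q1 * ‖a - β‖ ^ 2 :=
          mul_le_mul_of_nonneg_right ((le_abs_self _).trans h2) (by positivity)
      _ ≤ _ := mul_le_mul_of_nonneg_left (tri1 a β) h1
  have e2 : q1 * (2 * ‖β‖ ^ 2) ≤ q1 * L := by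
    apply mul_le_mul_of_nonneg_left _ h1
    nlinarith [sq_nonneg ‖β‖]
  have e3 : q1 * t ≤ E * t := mul_le_mul_of_nonneg_right h1' ht
  have e4 : q1 * ‖a‖ ^ 2 ≤ E * ‖a‖ ^ 2 := mul_le_mul_of_nonneg_right h1' (by positivity)
  have e5 : -(E * ‖a‖ ^ 2) ≤ q2T * ‖a‖ ^ 2 := by
    have : -E ≤ q2T := (abs_le.1 h2T).1
    nlinarith [sq_nonneg ‖a‖]
  have e6 : 0 ≤ q1T * t := mul_nonneg h1T ht
  nlinarith

/-- Levi form far away -/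
lemma vf_far {Γ G : ℝ} (hΓ : 2 ≤ Γ) {T b : Cn 3 → ℝ}
    (hT : ContDiff ℝ ∞ T) (hb : ContDiff ℝ ∞ b) (z ζ : Cn 3)
    (hT0 : 0 ≤ levi T z ζ) (hT1 : levi T z ζ ≤ G * ‖ζ 0‖ ^ 2) (hT2 : ‖dl T z ζ‖ ^ 2 ≤ 11 / 4 * (G * ‖ζ 0‖ ^ 2))
    (hL : Γ * ‖dl b z ζ‖ ^ 2 ≤ levi b z ζ) (hb0 : b z ≤ 0) :
    -(37 / 4 * (Real.exp (-T z) * G) * ‖ζ 0‖ ^ 2) ≤ levi (vf 1 T b) z ζ := by
  rw [vf_levi hT hb, one_mul]
  have hE : k1 (T z - b z) ≤ Real.exp (-T z) :=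
    (k1_exp _).trans (Real.exp_le_exp.2 (by linarith))
  have h := alg_far (t := levi T z ζ) (L := levi b z ζ) (Γ := Γ) (q1 := k1 (T z - b z)) (q1T := k1 (T z))
    (q2 := k2 (T z - b z)) (q2T := k2 (T z)) (E := Real.exp (-T z)) (a := dl T z ζ) (β := dl b z ζ) hΓ hT0 hL
    (k1_pos _).le hE (k2_abs _) (k1_pos _).le ((k2_abs _).trans (k1_exp _))
  refine le_trans ?_ h
  have h1 : levi T z ζ + 3 * ‖dl T z ζ‖ ^ 2 ≤ 37 / 4 * (G * ‖ζ 0‖ ^ 2) := by linarith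
  have h2 := mul_le_mul_of_nonneg_left h1 (Real.exp_pos (-T z)).le
  linarith

/-- value of `v` far away -/
lemma vf_far_val (T b : Cn 3 → ℝ) (z : Cn 3) : -(2 * Real.exp (-T z)) ≤ vf 1 T b z := by
  unfold vf
  have h1 := sg_lt (T z - b z)
  have h2 := one_sub_sg (T z)
  linarith

/-- value of `v` outside the tube -/
lemma vf_out_val {e : ℝ} (T b : Cn 3 → ℝ) (z : Cn 3) (hb0 : b z ≤ 0) (hbe : -e ≤ b z) : -e ≤ vf 1 T b z := by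
  have h := Convex.norm_image_sub_le_of_norm_hasDerivWithin_le (f := fun x => 2 * sg x) (f' := k1) (s := univ)
    (C := 1) (x := T z) (y := T z - b z) (fun z _ => (kk_deriv z).hasDerivWithinAt)
    (fun z _ => by
      rw [Real.norm_eq_abs, abs_of_pos (k1_pos z)]
      exact k1_le z) convex_univ (mem_univ _) (mem_univ _)
  have h2 := (le_abs_self _).trans h
  have h3 : ‖T z - b z - T z‖ = -b z := by
    rw [Real.norm_eq_abs, show T z - b z - T z = -b z by ring, abs_of_nonneg (by linarith)]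
  rw [h3] at h2
  unfold vf
  linarith

end Pool.Agent.H805K
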