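import Mathlib
import Pool.Agent.H805K.Tor1

/-!
The torus block: translations, sums of translates and the barrier function `h`.
-/

set_option autoImplicit false
set_option maxHeartbeats 1000000

open MeasureTheory Metric Set Filter Topology
open scoped ContDiff ComplexOrder

namespace Pool.Agent.H805K
open Pool.Agent.H805R2

section shift
variable {n : ℕ}

lemma fderiv_shift {E : Type*} [NormedAddCommGroup E] [NormedSpace ℝ E] (u : Cn n → E) (x : Cn n) :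
    fderiv ℝ (fun y => u (y - x)) = fun y => fderiv ℝ u (y - x) := by
  funext y
  exact fderiv_comp_sub x

lemma D2_shift (u : Cn n → ℝ) (x z ξ ζ : Cn n) : D2 (fun y => u (y - x)) z ξ ζ = D2 u (z - x) ξ ζ := by
  unfold D2
  rw [fderiv_shift, fderiv_shift]

lemma levi_shift (u : Cn n → ℝ) (x z ζ : Cn n) : levi (fun y => u (y - x)) z ζ = levi u (z - x) ζ := by
  unfold levi
  rw [D2_shift, D2_shift]

lemma hess_shift (u : Cn n → ℝ) (x z : Cn n) : hess (fun y => u (y - x)) z = hess u (z - x) := by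
  ext j k
  unfold hess
  simp only [Matrix.of_apply]
  have h1 : ∀ (k : Fin n) (f : Cn n → ℂ), wdb k (fun y => f (y - x)) = fun y => wdb k f (y - x) := by
    intro k f
    funext y
    unfold wdb
    rw [fderiv_shift]
  have h2 : ∀ (k : Fin n) (f : Cn n → ℂ), wd k (fun y => f (y - x)) = fun y => wd k f (y - x) := by
    intro k f
    funext y
    unfold wd
    rw [fderiv_shift]
  rw [h1 k (fun w => (u w : ℂ)), h2]

lemma maDensity_shift (u : Cn n → ℝ) (x z : Cn n) : maDensity (fun y => u (y - x)) z = maDensity u (z - x) := by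
  unfold maDensity
  rw [hess_shift]

lemma shift_sm {u : Cn n → ℝ} (hu : ContDiff ℝ ∞ u) (x : Cn n) : ContDiff ℝ ∞ (fun y => u (y - x)) :=
  hu.comp (contDiff_id.sub contDiff_const)

end shift

/-- `√K f_e` is bounded by `K` in the disc of radius `R` -/
lemma sKfe_le (K N : ℕ) (hK : 0 < K) {R : ℝ} (hR : 0 < R) (w : ℂ) (hw : ‖w‖ ≤ R) : ‖sK K * fe K N R w‖ ≤ K := by
  have hK' : (0 : ℝ) < K := by exact_mod_cast hK
  have hs : (sK K) ≠ 0 := by
    unfold sK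
    exact_mod_cast (Real.sqrt_pos.2 hK').ne'
  have e : sK K * fe K N R w = ∑ j ∈ (Finset.range K).filter (fun j => Even j), (w / (R : ℂ)) ^ nn N j := by
    unfold fe
    rw [← mul_assoc]
    change sK K * (sK K)⁻¹ * _ = _
    rw [mul_inv_cancel₀ hs, one_mul]
  have h1 : ‖w / (R : ℂ)‖ ≤ 1 := by
    rw [norm_div, Complex.norm_real, Real.norm_eq_abs, abs_of_pos hR]
    exact (div_le_one hR).2 hw
  rw [e]
  calc ‖∑ j ∈ (Finset.range K).filter (fun j => Even j), (w / (R : ℂ)) ^ nn N j‖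
      ≤ ∑ j ∈ (Finset.range K).filter (fun j => Even j), ‖(w / (R : ℂ)) ^ nn N j‖ := norm_sum_le _ _
    _ ≤ ∑ j ∈ (Finset.range K).filter (fun j => Even j), (1 : ℝ) := by
        apply Finset.sum_le_sum
        intro j _
        rw [norm_pow]
        exact pow_le_one₀ (norm_nonneg _) h1
    _ ≤ ∑ j ∈ Finset.range K, (1 : ℝ) :=
        Finset.sum_le_sum_of_subset_of_nonneg (Finset.filter_subset _ _) (fun _ _ _ => zero_le_one)
    _ = K := by simp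

lemma sKfo_le (K N : ℕ) (hK : 0 < K) {R : ℝ} (hR : 0 < R) (w : ℂ) (hw : ‖w‖ ≤ R) : ‖sK K * fo K N R w‖ ≤ K := by
  have hK' : (0 : ℝ) < K := by exact_mod_cast hK
  have hs : (sK K) ≠ 0 := by
    unfold sK
    exact_mod_cast (Real.sqrt_pos.2 hK').ne'
  have e : sK K * fo K N R w = ∑ j ∈ (Finset.range K).filter (fun j => ¬ Even j), (w / (R : ℂ)) ^ nn N j := by
    unfold fo
    rw [← mul_assoc]
    change sK K * (sK K)⁻¹ * _ = _
    rw [mul_inv_cancel₀ hs, one_mul]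
  have h1 : ‖w / (R : ℂ)‖ ≤ 1 := by
    rw [norm_div, Complex.norm_real, Real.norm_eq_abs, abs_of_pos hR]
    exact (div_le_one hR).2 hw
  rw [e]
  calc ‖∑ j ∈ (Finset.range K).filter (fun j => ¬ Even j), (w / (R : ℂ)) ^ nn N j‖
      ≤ ∑ j ∈ (Finset.range K).filter (fun j => ¬ Even j), ‖(w / (R : ℂ)) ^ nn N j‖ := norm_sum_le _ _
    _ ≤ ∑ j ∈ (Finset.range K).filter (fun j => ¬ Even j), (1 : ℝ) := by
        apply Finset.sum_le_sum
        intro j _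
        rw [norm_pow]
        exact pow_le_one₀ (norm_nonneg _) h1
    _ ≤ ∑ j ∈ Finset.range K, (1 : ℝ) :=
        Finset.sum_le_sum_of_subset_of_nonneg (Finset.filter_subset _ _) (fun _ _ _ => zero_le_one)
    _ = K := by simp

/-- the barrier -/
noncomputable def hfT (K N : ℕ) (R : ℝ) (b : Cn 3 → ℝ) (z : Cn 3) : ℝ :=
  Phi 50 (Tf K N R) b z + ((-44) * Tf K N R z +
    ((‖sK K * fe K N R (z 0)‖ ^ 2 + ‖sK K * fo K N R (z 0)‖ ^ 2) + 6))

lemma hfT_sm (K N : ℕ) (R : ℝ) {b : Cn 3 → ℝ} (hb : ContDiff ℝ ∞ b) : ContDiff ℝ ∞ (hfT K N R b) := by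
  unfold hfT
  exact (Phi_sm (Tf_sm K N R) hb _).add ((contDiff_const.mul (Tf_sm K N R)).add
    (((nsq_sm (contDiff_const.mul (fe_sm K N R))).add (nsq_sm (contDiff_const.mul (fo_sm K N R)))).add
      contDiff_const))

lemma hfT_levi_le (K N : ℕ) (hN : 2 ≤ N) {R : ℝ} (hR : 0 < R) (hK : 0 < K) {b : Cn 3 → ℝ}
    (hb : ContDiff ℝ ∞ b) (z ζ : Cn 3) (hz : ‖z 0‖ ≤ R) :
    levi (hfT K N R b) z ζ ≤ levi (Phi 50 (Tf K N R) b) z ζ := by
  have hK' : (0 : ℝ) < K := by exact_mod_cast hK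
  have s1 := Phi_sm (Tf_sm K N R) hb 50
  have s2 : ContDiff ℝ ∞ (fun z : Cn 3 => (-44) * Tf K N R z) := contDiff_const.mul (Tf_sm K N R)
  have f1 : ContDiff ℂ ∞ (fun z : Cn 3 => sK K * fe K N R (z 0)) := contDiff_const.mul (fe_sm K N R)
  have f2 : ContDiff ℂ ∞ (fun z : Cn 3 => sK K * fo K N R (z 0)) := contDiff_const.mul (fo_sm K N R)
  have s3 : ContDiff ℝ ∞ (fun z : Cn 3 => ‖sK K * fe K N R (z 0)‖ ^ 2 + ‖sK K * fo K N R (z 0)‖ ^ 2) :=
    (nsq_sm f1).add (nsq_sm f2)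
  have s4 : ContDiff ℝ ∞ (fun z : Cn 3 => (‖sK K * fe K N R (z 0)‖ ^ 2 + ‖sK K * fo K N R (z 0)‖ ^ 2) + 6) :=
    s3.add contDiff_const
  have e : levi (hfT K N R b) z ζ = levi (Phi 50 (Tf K N R) b) z ζ + ((-44) * levi (Tf K N R) z ζ +
      (‖sK K * dfe K N R (z 0) * ζ 0‖ ^ 2 + ‖sK K * dfo K N R (z 0) * ζ 0‖ ^ 2)) := by
    unfold hfT
    rw [levi_add' s1 (s2.add s4), levi_add' s2 s4, levi_const_mul' _ (Tf_sm K N R),
      levi_add' s3 contDiff_const, levi_const, levi_add' (nsq_sm f1) (nsq_sm f2), levi_nsq f1, levi_nsq f2,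
      fd_comp0 (f := fun w => sK K * fe K N R w) ((fe_deriv K N R (z 0)).const_mul (sK K)),
      fd_comp0 (f := fun w => sK K * fo K N R w) ((fo_deriv K N R (z 0)).const_mul (sK K)), add_zero]
  rw [e]
  have h1 := Tf_levi_ge K N hR hK z ζ hz
  have h2 := df_le K N hN hR hK (z 0)
  have h3 : ‖sK K * dfe K N R (z 0) * ζ 0‖ ^ 2 + ‖sK K * dfo K N R (z 0) * ζ 0‖ ^ 2 =
      K * (‖dfe K N R (z 0)‖ ^ 2 + ‖dfo K N R (z 0)‖ ^ 2) * ‖ζ 0‖ ^ 2 := by
    rw [norm_mul, norm_mul, norm_mul, norm_mul, mul_pow, mul_pow, mul_pow, mul_pow, sK_norm_sq]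
    ring
  have h4 : K * (‖dfe K N R (z 0)‖ ^ 2 + ‖dfo K N R (z 0)‖ ^ 2) * ‖ζ 0‖ ^ 2 ≤
      K * (11 * gg K N R (z 0)) * ‖ζ 0‖ ^ 2 :=
    mul_le_mul_of_nonneg_right (mul_le_mul_of_nonneg_left h2 hK'.le) (by positivity)
  rw [h3]
  linarith

lemma sq_bd {a x s K : ℝ} (hx : a ≤ s + x) (ha : 0 ≤ a) (hx0 : 0 ≤ x) (hs : 0 ≤ s) (hxK : x ≤ K)
    (hsK : 4 * s * K ≤ 1) (hs4 : 4 * s ≤ 1) : a ^ 2 ≤ x ^ 2 + 9 / 16 := by
  have h1 : a ^ 2 ≤ (s + x) ^ 2 := pow_le_pow_left₀ ha hx 2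
  have h2 : s * x ≤ s * K := mul_le_mul_of_nonneg_left hxK hs
  nlinarith

/-- boundary values of the barrier -/
lemma hfT_bd (K N : ℕ) {R : ℝ} (hR : 0 < R) (hR1 : R ≤ 1) (hK : 0 < K) {b : Cn 3 → ℝ} {c : ℂ} {s : ℝ} (z : Cn 3)
    (hz : ‖z 0‖ ≤ R) (h : -(1 / 50) ≤ b z ∨ ‖z 0‖ = R) (hs : 0 ≤ s) (hsK : 4 * s * K ≤ 1)
    (h1 : ‖Q1 K N R c z‖ + ‖c‖ ≤ s) (h2 : ‖Q2 K N R z‖ ≤ s) : ‖z‖ ^ 2 ≤ hfT K N R b z := by
  have hK' : (1 : ℝ) ≤ K := by exact_mod_cast hK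
  have hP1 := Phi_ge_T (by norm_num : (0 : ℝ) ≤ 50) (Tf K N R) b z
  have hP2 := Phi_ge_b (by norm_num : (0 : ℝ) ≤ 50) (Tf K N R) b z
  have hT0 := Tf_le_zero K N hR z hz
  have hs4 : 4 * s ≤ 1 := by nlinarith
  have hz1 : ‖z 1‖ ≤ s + ‖sK K * fe K N R (z 0)‖ := by
    have e : z 1 = Q1 K N R c z + c + sK K * fe K N R (z 0) := by unfold Q1; ring
    rw [e]
    have h3 := norm_add_le (Q1 K N R c z + c) (sK K * fe K N R (z 0))
    have h4 := norm_add_le (Q1 K N R c z) c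
    linarith
  have hz2 : ‖z 2‖ ≤ s + ‖sK K * fo K N R (z 0)‖ := by
    have e : z 2 = Q2 K N R z + sK K * fo K N R (z 0) := by unfold Q2; ring
    rw [e]
    have h3 := norm_add_le (Q2 K N R z) (sK K * fo K N R (z 0))
    linarith
  have b1 := sq_bd hz1 (norm_nonneg _) (norm_nonneg _) hs (sKfe_le K N hK hR _ hz) hsK hs4
  have b2 := sq_bd hz2 (norm_nonneg _) (norm_nonneg _) hs (sKfo_le K N hK hR _ hz) hsK hs4
  have b0 : ‖z 0‖ ^ 2 ≤ 1 := pow_le_one₀ (norm_nonneg _) (hz.trans hR1)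
  have hn := norm_sq3 z
  unfold hfT
  rcases h with h | h
  · linarith
  · rw [Tf_eq_zero K N hR z h] at hP1 ⊢
    linarith

/-- value of the barrier at the centre -/
lemma hfT_center (K : ℕ) {N : ℕ} (hN : 2 ≤ N) (R : ℝ) {b : Cn 3 → ℝ} (z : Cn 3)
    (hz : z 0 = 0) (hbz : b z = -(K : ℝ)) : hfT K N R b z ≤ -(4 * K) + 41 := by
  have hK0 : (0 : ℝ) ≤ K := Nat.cast_nonneg K
  have hT := Tf_center K hN R z hz
  have hl1 := Real.log_two_lt_d9
  have hl0 := Real.log_two_gt_d9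
  have h1 : Phi 50 (Tf K N R) b z ≤ 50 * (-(K * Real.log 2) + Real.log 2) := by
    unfold Phi
    rw [hT, hbz]
    have h2 : sp (-(K * Real.log 2) - -(K : ℝ)) ≤ Real.log 2 := by
      unfold sp
      apply Real.log_le_log (by positivity)
      have h3 : Real.exp (-(-(K * Real.log 2) - -(K : ℝ))) ≤ 1 := by
        rw [Real.exp_le_one_iff]
        nlinarith
      linarith
    exact mul_le_mul_of_nonneg_left (by linarith) (by norm_num)
  have e2 : (‖sK K * fe K N R (z 0)‖ ^ 2 + ‖sK K * fo K N R (z 0)‖ ^ 2) = 0 := by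
    rw [hz, fe_zero K hN R, fo_zero K hN R]
    simp
  unfold hfT
  rw [e2, hT]
  nlinarith

end Pool.Agent.H805K
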