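import Mathlib
import Pool.Agent.H805K.Tor2

/-!
The torus block: lattice translations in the last two variables, structure of a block.
-/

set_option autoImplicit false
set_option maxHeartbeats 1000000

open MeasureTheory Metric Set Filter Topology
open scoped ContDiff ComplexOrder

namespace Pool.Agent.H805K
open Pool.Agent.H805R2

/-- numerical constant -/
noncomputable def AA : ℝ := 400000000

/-- the region where the blocks are controlled -/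
def DD : Set (Cn 3) := {z | ‖z 0‖ < 6 / 5 ∧ ‖z 1‖ < 3 ∧ ‖z 2‖ < 3}

/-- translations in the last two variables -/
noncomputable def xv (m : (ℤ × ℤ) × (ℤ × ℤ)) : Cn 3 := WithLp.toLp 2 ![0, gi m.1, gi m.2]

/-- the translations used in a block -/
noncomputable def LL (L : ℕ) : Finset ((ℤ × ℤ) × (ℤ × ℤ)) :=
  ((Finset.Icc (-(L : ℤ)) L ×ˢ Finset.Icc (-(L : ℤ)) L) ×ˢ (Finset.Icc (-(L : ℤ)) L ×ˢ Finset.Icc (-(L : ℤ)) L))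

lemma xv0 (m : (ℤ × ℤ) × (ℤ × ℤ)) : xv m 0 = 0 := by simp [xv]
lemma xv1 (m : (ℤ × ℤ) × (ℤ × ℤ)) : xv m 1 = gi m.1 := by simp [xv]
lemma xv2 (m : (ℤ × ℤ) × (ℤ × ℤ)) : xv m 2 = gi m.2 := by simp [xv]

lemma sub0 (z : Cn 3) (m : (ℤ × ℤ) × (ℤ × ℤ)) : (z - xv m) 0 = z 0 := by
  change z 0 - xv m 0 = z 0
  rw [xv0, sub_zero]
lemma sub1 (z : Cn 3) (m : (ℤ × ℤ) × (ℤ × ℤ)) : (z - xv m) 1 = z 1 - gi m.1 := by
  change z 1 - xv m 1 = _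
  rw [xv1]
lemma sub2 (z : Cn 3) (m : (ℤ × ℤ) × (ℤ × ℤ)) : (z - xv m) 2 = z 2 - gi m.2 := by
  change z 2 - xv m 2 = _
  rw [xv2]

lemma gi_re (m : ℤ × ℤ) : (gi m).re = m.1 := by simp [gi]
lemma gi_im (m : ℤ × ℤ) : (gi m).im = m.2 := by simp [gi]

lemma gi_sub (m m' : ℤ × ℤ) : gi m - gi m' = gi (m - m') := by
  apply Complex.ext
  · rw [Complex.sub_re, gi_re, gi_re, gi_re]; simp
  · rw [Complex.sub_im, gi_im, gi_im, gi_im]; simp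

lemma gi_zero : gi 0 = 0 := by simp [gi]

lemma gi_small {m : ℤ × ℤ} (h : ‖gi m‖ < 1) : m = 0 := by
  have h1 : |((m.1 : ℤ) : ℝ)| < 1 := by
    rw [← gi_re]
    exact (Complex.abs_re_le_norm _).trans_lt h
  have h2 : |((m.2 : ℤ) : ℝ)| < 1 := by
    rw [← gi_im]
    exact (Complex.abs_im_le_norm _).trans_lt h
  have h3 : |m.1| < 1 := by exact_mod_cast h1
  have h4 : |m.2| < 1 := by exact_mod_cast h2
  rw [Int.abs_lt_one_iff] at h3 h4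
  exact Prod.ext h3 h4

lemma gi_norm_le (m : ℤ × ℤ) : ‖gi m‖ ≤ |(m.1 : ℝ)| + |(m.2 : ℝ)| := by
  have h := Complex.norm_le_abs_re_add_abs_im (gi m)
  rwa [gi_re, gi_im] at h

lemma mem_LL {L : ℕ} {m : (ℤ × ℤ) × (ℤ × ℤ)} (h1 : ‖gi m.1‖ < L) (h2 : ‖gi m.2‖ < L) : m ∈ LL L := by
  have a1 : |(m.1.1 : ℝ)| < L := by
    rw [← gi_re]
    exact (Complex.abs_re_le_norm _).trans_lt h1
  have a2 : |(m.1.2 : ℝ)| < L := by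
    rw [← gi_im]
    exact (Complex.abs_im_le_norm _).trans_lt h1
  have a3 : |(m.2.1 : ℝ)| < L := by
    rw [← gi_re]
    exact (Complex.abs_re_le_norm _).trans_lt h2
  have a4 : |(m.2.2 : ℝ)| < L := by
    rw [← gi_im]
    exact (Complex.abs_im_le_norm _).trans_lt h2
  rw [abs_lt] at a1 a2 a3 a4
  have b1 : -(L : ℤ) ≤ m.1.1 ∧ m.1.1 ≤ L := ⟨by exact_mod_cast a1.1.le, by exact_mod_cast a1.2.le⟩
  have b2 : -(L : ℤ) ≤ m.1.2 ∧ m.1.2 ≤ L := ⟨by exact_mod_cast a2.1.le, by exact_mod_cast a2.2.le⟩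
  have b3 : -(L : ℤ) ≤ m.2.1 ∧ m.2.1 ≤ L := ⟨by exact_mod_cast a3.1.le, by exact_mod_cast a3.2.le⟩
  have b4 : -(L : ℤ) ≤ m.2.2 ∧ m.2.2 ≤ L := ⟨by exact_mod_cast a4.1.le, by exact_mod_cast a4.2.le⟩
  simp only [LL, Finset.mem_product, Finset.mem_Icc]
  exact ⟨⟨b1, b2⟩, b3, b4⟩

lemma norm_xv_le {L : ℕ} {m : (ℤ × ℤ) × (ℤ × ℤ)} (h : m ∈ LL L) : ‖gi m.1‖ ≤ 2 * L ∧ ‖gi m.2‖ ≤ 2 * L := by
  simp only [LL, Finset.mem_product, Finset.mem_Icc] at h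
  obtain ⟨⟨⟨a1, a2⟩, a3, a4⟩, ⟨a5, a6⟩, a7, a8⟩ := h
  have c : ∀ k : ℤ, -(L : ℤ) ≤ k → k ≤ L → |(k : ℝ)| ≤ L := by
    intro k h1 h2
    rw [abs_le]
    exact ⟨by exact_mod_cast h1, by exact_mod_cast h2⟩
  constructor
  · have h1 := gi_norm_le m.1
    have h2 := c _ a1 a2
    have h3 := c _ a3 a4
    linarith
  · have h1 := gi_norm_le m.2
    have h2 := c _ a5 a6
    have h3 := c _ a7 a8
    linarith

lemma norm_le_three (z : Cn 3) : ‖z‖ ≤ ‖z 0‖ + ‖z 1‖ + ‖z 2‖ := by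
  have h := norm_sq3 z
  have h0 := norm_nonneg (z 0)
  have h1 := norm_nonneg (z 1)
  have h2 := norm_nonneg (z 2)
  apply le_of_sq_le_sq _ (by positivity)
  nlinarith [mul_nonneg h0 h1, mul_nonneg h0 h2, mul_nonneg h1 h2]

lemma DD_ball {L : ℕ} {z : Cn 3} (hz : z ∈ DD) {m : (ℤ × ℤ) × (ℤ × ℤ)} (hm : m ∈ LL L) :
    z - xv m ∈ ball (0 : Cn 3) (4 * L + 8) := by
  rw [mem_ball_zero_iff]
  have h := norm_le_three (z - xv m)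
  rw [sub0, sub1, sub2] at h
  obtain ⟨h1, h2⟩ := norm_xv_le hm
  have h3 := norm_sub_le (z 1) (gi m.1)
  have h4 := norm_sub_le (z 2) (gi m.2)
  obtain ⟨h5, h6, h7⟩ := hz
  linarith

/-- A building block: everything about one spiralling curve that is needed later. -/
structure BlkT (rm rp η Kr : ℝ) where
  v : Cn 3 → ℝ
  N : Set (Cn 3)
  U : Set (Cn 3)
  ρ : Cn 3 → ℝ
  h : Cn 3 → ℝ
  y : Cn 3
  d : ℝ
  v_sm : ContDiff ℝ ∞ v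
  v_le : ∀ z, v z ≤ 0
  v_ge : ∀ z ∈ DD, -3 ≤ v z
  v_ge_out : ∀ z ∈ DD, z ∉ N → -η ≤ v z
  v_out : ∀ z ∈ DD, z ∉ N → ∀ ζ, -(η * ‖ζ‖ ^ 2) ≤ levi v z ζ
  v_in : ∀ z ∈ DD, z ∈ N → ∀ ζ, 0 ≤ levi (fun y => (AA + 1) * ‖y‖ ^ 2 + v y) z ζ
  v_det : ∀ z ∈ DD, ∀ m, z - xv m ∈ U → z ∈ N ∧
    ρ (z - xv m) ≤ (hess (fun y => (AA + 1) * ‖y‖ ^ 2 + v y) z).det.re
  N_rp : ∀ z ∈ N, ‖z 0‖ < rp
  N_rm : ∀ z ∈ N, ‖z 0‖ ≤ rm → ∃ m1 m2, ‖z 1 - gi m1‖ ^ 2 + ‖z 2 - gi m2‖ ^ 2 < η ^ 2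
  d_pos : 0 < d
  N_d : ∀ z ∈ N, ∀ m1 m2, d ^ 2 ≤ ‖z 1 - gi m1‖ ^ 2 + ‖z 2 - gi m2‖ ^ 2
  U_open : IsOpen U
  U_bd : Bornology.IsBounded U
  U_z0 : ∀ z ∈ U, ‖z 0‖ < rp
  U_disj : ∀ z m m', z - xv m ∈ U → z - xv m' ∈ U → m = m'
  ρ_cont : Continuous ρ
  ρ_nonneg : ∀ z ∈ U, 0 ≤ ρ z
  h_sm : ContDiff ℝ ∞ h
  h_bd : ∀ z ∈ frontier U, ‖z‖ ^ 2 ≤ h z
  h_det : ∀ z ∈ U, (hess h z).PosSemidef → (hess h z).det.re ≤ ρ z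
  y_mem : y ∈ U
  h_y : h y ≤ -Kr

end Pool.Agent.H805K
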