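import Mathlib
import Pool.Agent.H805K.Tor3
import Pool.Agent.H805K.Asm2

/-!
The system of all blocks on the torus, and the measures built from it.
-/

set_option autoImplicit false
set_option maxHeartbeats 1000000

open MeasureTheory Metric Set Filter Topology
open scoped ContDiff ComplexOrder ENNReal

namespace Pool.Agent.H805K
open Pool.Agent.H805R2

/-- The data of infinitely many blocks. -/
structure SysT where
  v : ℕ → Cn 3 → ℝ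
  U : ℕ → Set (Cn 3)
  ρ : ℕ → Cn 3 → ℝ
  h : ℕ → Cn 3 → ℝ
  y : ℕ → Cn 3
  v_sm : ∀ j, ContDiff ℝ ∞ (v j)
  v_le : ∀ j z, v j z ≤ 0
  sum_ge : ∀ k, ∀ z ∈ DD, -4 ≤ ∑ j ∈ Finset.range k, v j z
  sum_psd : ∀ k, ∀ z ∈ DD, ∀ ζ, 0 ≤ levi (fun y => (AA + 2) * ‖y‖ ^ 2 + ∑ j ∈ Finset.range k, v j y) z ζ
  sum_det : ∀ k, ∀ z ∈ DD, ∀ j < k, ∀ m, z - xv m ∈ U j →
    ρ j (z - xv m) ≤ (hess (fun y => (AA + 2) * ‖y‖ ^ 2 + ∑ j ∈ Finset.range k, v j y) z).det.re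
  disj : ∀ z ∈ DD, ∀ j m j' m', z - xv m ∈ U j → z - xv m' ∈ U j' → j = j' ∧ m = m'
  U_open : ∀ j, IsOpen (U j)
  U_bd : ∀ j, Bornology.IsBounded (U j)
  U_z0 : ∀ j, ∀ z ∈ U j, ‖z 0‖ < 1
  ρ_cont : ∀ j, Continuous (ρ j)
  ρ_nonneg : ∀ j, ∀ z ∈ U j, 0 ≤ ρ j z
  h_sm : ∀ j, ContDiff ℝ ∞ (h j)
  h_bd : ∀ j, ∀ z ∈ frontier (U j), ‖z‖ ^ 2 ≤ h j z
  h_det : ∀ j, ∀ z ∈ U j, (hess (h j) z).PosSemidef → (hess (h j) z).det.re ≤ ρ j z
  y_mem : ∀ j, y j ∈ U j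
  h_y : ∀ j, h j (y j) ≤ -(j : ℝ)

namespace SysT
variable (S : SysT)

/-- the density of one block -/
noncomputable def f (j : ℕ) : Cn 3 → ℝ≥0∞ := (S.U j).indicator fun z => ENNReal.ofReal (kap * S.ρ j z)

/-- the periodised density of the first `k` blocks -/
noncomputable def F (a : ℝ) (k : ℕ) (z : Cn 3) : ℝ≥0∞ :=
  ∑ j ∈ Finset.range k, ∑' m : Fin 3 → ℤ × ℤ, S.f j (z - lat a m)

/-- the periodised density of all blocks -/
noncomputable def Finf (a : ℝ) (z : Cn 3) : ℝ≥0∞ := ∑' j, ∑' m : Fin 3 → ℤ × ℤ, S.f j (z - lat a m)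

/-- local subsolution, approximants (centred at the lattice point `lat a l`) -/
noncomputable def ak (a : ℝ) (l : Fin 3 → ℤ × ℤ) (k : ℕ) (z : Cn 3) : ℝ :=
  ((AA + 2) * ‖z - lat a l‖ ^ 2 + ∑ j ∈ Finset.range k, S.v j (z - lat a l)) + ‖z - lat a l‖ ^ 2

/-- the measure `(density of all blocks + s κ) dVol` -/
noncomputable def mT (a s : ℝ) : Measure (Cn 3) :=
  volume.withDensity fun z => S.Finf a z + ENNReal.ofReal (s * kap)

end SysT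

end Pool.Agent.H805K
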