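import Mathlib
import Pool.Agent.H805K.Tor4
import Pool.Agent.H805K.TLAT

/-!
Total mass of the periodised densities (unfolding), choice of the parameters, invariance and local
domination of the measures `mT`.  The results which need the local subsolutions take them as a
hypothesis (`SysT.LocSub`).
-/

set_option autoImplicit false
set_option maxHeartbeats 1000000

open MeasureTheory Metric Set Filter Topology
open scoped ContDiff ComplexOrder ENNReal

namespace Pool.Agent.H805K
open Pool.Agent.H805R2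

namespace TMASS

/-- unfolding for functions -/
lemma unfold {a : ℝ} (ha : 0 < a) {f : Cn 3 → ℝ≥0∞} (hf : Measurable f) :
    ∑' m : Fin 3 → ℤ × ℤ, ∫⁻ z in FD a, f (z - lat a m) = ∫⁻ z, f z := by
  have h1 : ∀ m : Fin 3 → ℤ × ℤ, ∫⁻ z in FD a, f (z - lat a m) =
      (volume.withDensity f) ((fun z => z + lat a m) ⁻¹' FD a) := by
    intro m
    have hm : MeasurableSet ((fun z : Cn 3 => z + lat a m) ⁻¹' FD a) :=
      TLAT.meas_shift _ (measurableSet_FD a)
    rw [withDensity_apply _ hm]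
    have h2 := (measurePreserving_sub_right (volume : Measure (Cn 3)) (lat a m)).setLIntegral_comp_preimage
      hm hf
    rw [← h2]
    congr 1
    congr 1
    ext z
    simp
  have h3 := per_FD ha (volume.withDensity f)
  rw [per_apply a _ (measurableSet_FD a), withDensity_apply _ MeasurableSet.univ,
    Measure.restrict_univ] at h3
  rw [← h3]
  exact tsum_congr h1

lemma FD_bdd (a : ℝ) : ∃ R : ℝ, FD a ⊆ closedBall 0 R := by
  refine ⟨3 * (2 * (|a| + 1)), fun z hz => ?_⟩
  rw [mem_closedBall, dist_zero_right]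
  have hs : ∀ i, side a i ≤ |a| + 1 := by
    intro i
    unfold side
    have := le_abs_self a
    have := abs_nonneg a
    split_ifs <;> linarith
  have hc : ∀ i, ‖z i‖ ≤ 2 * (|a| + 1) := by
    intro i
    obtain ⟨h1, h2, h3, h4⟩ := hz i
    have h5 := Complex.norm_le_abs_re_add_abs_im (z i)
    rw [abs_of_nonneg h1, abs_of_nonneg h3] at h5
    have := hs i
    linarith
  have h6 : ‖z‖ ^ 2 = ∑ i, ‖z i‖ ^ 2 := EuclideanSpace.norm_sq_eq z
  rw [Fin.sum_univ_three] at h6
  have h0 := hc 0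
  have h1 := hc 1
  have h2 := hc 2
  have hp : 0 ≤ 2 * (|a| + 1) := by positivity
  have n0 := norm_nonneg (z 0)
  have n1 := norm_nonneg (z 1)
  have n2 := norm_nonneg (z 2)
  refine (sq_le_sq₀ (norm_nonneg z) (by positivity)).1 ?_
  nlinarith [mul_self_le_mul_self n0 h0, mul_self_le_mul_self n1 h1, mul_self_le_mul_self n2 h2]

end TMASS

namespace SysT
variable (S : SysT)

lemma _root_.Pool.Agent.H805K.TMASS.f_meas (j : ℕ) : Measurable (S.f j) := by
  unfold f
  refine Measurable.indicator ?_ (S.U_open j).measurableSet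
  exact (ENNReal.continuous_ofReal.comp (continuous_const.mul (S.ρ_cont j))).measurable

lemma _root_.Pool.Agent.H805K.TMASS.fs_meas (j : ℕ) (v : Cn 3) : Measurable fun z => S.f j (z - v) :=
  (TMASS.f_meas S j).comp (continuous_id.sub continuous_const).measurable

lemma _root_.Pool.Agent.H805K.TMASS.Finf_meas (a : ℝ) : Measurable (S.Finf a) := by
  unfold Finf
  exact Measurable.tsum fun j => Measurable.tsum fun m => TMASS.fs_meas S j _

/-! ### Task MASS -/
theorem mass_FD {a : ℝ} (ha : 0 < a) : ∫⁻ z in FD a, S.Finf a z = ∑' j, ∫⁻ z, S.f j z := by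
  unfold Finf
  rw [lintegral_tsum fun j => (Measurable.tsum fun m => TMASS.fs_meas S j _).aemeasurable]
  apply tsum_congr
  intro j
  rw [lintegral_tsum fun m => (TMASS.fs_meas S j _).aemeasurable]
  exact TMASS.unfold ha (TMASS.f_meas S j)

/-- local domination near `p` (statement of `local_sub`) -/
def LocSub (a : ℝ) (p : Cn 3) : Prop := ∃ (u : Cn 3 → ℝ) (ν : Measure (Cn 3)),
    IsFiniteMeasure ν ∧ (∃ B : ℝ, ∀ z ∈ ball p (1 / 20), |u z| ≤ B) ∧
    PSH (ball p (1 / 20)) (fun z => ((u z : ℝ) : EReal)) ∧ IsMongeAmpere (ball p (1 / 20)) u ν ∧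
    ∀ E, MeasurableSet E → E ⊆ ball p (1 / 20) →
      (∫⁻ z in E, S.Finf a z) + ENNReal.ofReal kap * volume E ≤ ν E

theorem mass_finite_of (h : ∀ p, S.LocSub 4 p) : (∑' j, ∫⁻ z, S.f j z) < ⊤ := by
  rw [← S.mass_FD (a := 4) (by norm_num)]
  obtain ⟨R, hR⟩ := TMASS.FD_bdd 4
  have hlf : ∀ p : Cn 3, (volume.withDensity (S.Finf 4)).FiniteAtFilter (𝓝 p) := by
    intro p
    obtain ⟨u, ν, hν, -, -, -, hle⟩ := h p
    refine ⟨ball p (1 / 20), ball_mem_nhds p (by norm_num), ?_⟩
    rw [withDensity_apply _ measurableSet_ball]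
    calc (∫⁻ z in ball p (1 / 20), S.Finf 4 z)
        ≤ (∫⁻ z in ball p (1 / 20), S.Finf 4 z) + ENNReal.ofReal kap * volume (ball p (1 / 20)) :=
          le_self_add
      _ ≤ ν (ball p (1 / 20)) := hle _ measurableSet_ball subset_rfl
      _ < ⊤ := measure_lt_top ν _
  have : IsLocallyFiniteMeasure (volume.withDensity (S.Finf 4)) := ⟨hlf⟩
  have hc : (volume.withDensity (S.Finf 4)) (closedBall 0 R) < ⊤ :=
    (isCompact_closedBall (0 : Cn 3) R).measure_lt_top
  rw [withDensity_apply _ measurableSet_closedBall] at hc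
  exact lt_of_le_of_lt (lintegral_mono_set hR) hc

/-! ### Task MU -/
lemma _root_.Pool.Agent.H805K.TMASS.Finf_per (a : ℝ) (z : Cn 3) (l : Fin 3 → ℤ × ℤ) : S.Finf a (z + lat a l) = S.Finf a z := by
  unfold Finf
  apply tsum_congr
  intro j
  rw [← Equiv.tsum_eq (Equiv.addRight l) (fun m => S.f j (z + lat a l - lat a m))]
  apply tsum_congr
  intro m
  rw [Equiv.coe_addRight, lat_add]
  congr 1
  abel

theorem exists_param_of (hfin : (∑' j, ∫⁻ z, S.f j z) < ⊤) :
    ∃ a s : ℝ, 4 ≤ a ∧ 0 < s ∧ s ≤ 1 ∧ S.mT a s (FD a) = ENNReal.ofReal (kap * a ^ 2) := by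
  have hk := kap_pos
  set M0 : ℝ := (∑' j, ∫⁻ z, S.f j z).toReal with hM0
  have hM : 0 ≤ M0 := ENNReal.toReal_nonneg
  have hMk : 0 ≤ M0 / kap := by positivity
  set a : ℝ := 4 + M0 / kap with ha
  have ha4 : 4 ≤ a := by linarith
  have ha0 : 0 < a := by linarith
  have hMa : M0 < kap * a ^ 2 := by
    have h1 : M0 = kap * (M0 / kap) := by field_simp
    have h2 : M0 / kap < a ^ 2 := by nlinarith
    calc M0 = kap * (M0 / kap) := h1
      _ < kap * a ^ 2 := mul_lt_mul_of_pos_left h2 hk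
  have hka : 0 < kap * a ^ 2 := by positivity
  refine ⟨a, 1 - M0 / (kap * a ^ 2), ha4, ?_, ?_, ?_⟩
  · rw [sub_pos, div_lt_one hka]
    exact hMa
  · have : 0 ≤ M0 / (kap * a ^ 2) := by positivity
    linarith
  · have hs : 0 ≤ 1 - M0 / (kap * a ^ 2) := by
      rw [sub_nonneg, div_le_one hka]
      exact hMa.le
    unfold mT
    rw [withDensity_apply _ (measurableSet_FD a), lintegral_add_right _ measurable_const,
      S.mass_FD ha0, setLIntegral_const, volume_FD ha0, ← ENNReal.ofReal_mul (by positivity)]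
    rw [← ENNReal.ofReal_toReal hfin.ne, ← hM0, ← ENNReal.ofReal_add hM (by positivity)]
    congr 1
    field_simp
    ring

theorem mT_invariant (a s : ℝ) (m : Fin 3 → ℤ × ℤ) : (S.mT a s).map (fun z => z + lat a m) = S.mT a s := by
  ext E hE
  rw [Measure.map_apply (TLAT.meas_shift _) hE]
  unfold mT
  rw [withDensity_apply _ hE, withDensity_apply _ (TLAT.meas_shift _ hE)]
  have hm : Measurable fun z => S.Finf a z + ENNReal.ofReal (s * kap) :=
    (TMASS.Finf_meas S a).add measurable_const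
  rw [← (measurePreserving_add_right (volume : Measure (Cn 3)) (lat a m)).setLIntegral_comp_preimage hE hm]
  apply lintegral_congr
  intro z
  rw [TMASS.Finf_per S]

theorem mT_local_of {a s : ℝ} (hs : s ≤ 1) {p : Cn 3} (h : S.LocSub a p) :
    ∃ (u : Cn 3 → ℝ) (ν : Measure (Cn 3)),
    (∃ B : ℝ, ∀ z ∈ ball p (1 / 20), |u z| ≤ B) ∧
    PSH (ball p (1 / 20)) (fun z => ((u z : ℝ) : EReal)) ∧ IsMongeAmpere (ball p (1 / 20)) u ν ∧
    ∀ E, MeasurableSet E → E ⊆ ball p (1 / 20) → S.mT a s E ≤ ν E := by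
  obtain ⟨u, ν, hν, hB, hP, hM, hle⟩ := h
  refine ⟨u, ν, hB, hP, hM, fun E hE hEb => ?_⟩
  unfold mT
  rw [withDensity_apply _ hE, lintegral_add_right _ measurable_const, setLIntegral_const]
  refine le_trans ?_ (hle E hE hEb)
  gcongr
  have := kap_pos
  nlinarith

end SysT

end Pool.Agent.H805K
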