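import Mathlib
import Pool.Agent.H805K.BaseT
import Pool.Agent.H805K.TLAT

/-!
The complex torus as a quotient: definitions.
-/

set_option autoImplicit false

open MeasureTheory Metric Set Filter Topology
open scoped ContDiff ComplexOrder ENNReal

namespace Pool.Agent.H805K
open Pool.Agent.H805R2

/-- the lattice `aℤ[i] × ℤ[i] × ℤ[i]` of `ℂ³` -/
noncomputable def Lam (a : ℝ) : AddSubgroup (Cn 3) where
  carrier := Set.range (lat a)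
  zero_mem' := ⟨0, TLAT.lat_zero a⟩
  add_mem' := by
    rintro _ _ ⟨m, rfl⟩ ⟨m', rfl⟩
    exact ⟨m + m', lat_add a m m'⟩
  neg_mem' := by
    rintro _ ⟨m, rfl⟩
    exact ⟨-m, TLAT.lat_neg a m⟩

/-- the projection of `ℂ³` onto the torus `ℂ³ / Λ` -/
noncomputable def pr (a : ℝ) (z : Cn 3) : Cn 3 ⧸ Lam a := (z : Cn 3 ⧸ Lam a)

/-- the volume `∫_X ω³` of the torus `X = ℂ³ / Λ_a` with `ω = dd^c ‖z‖²` -/
noncomputable def Vol (a : ℝ) : ℝ := ((Nat.factorial 3 : ℕ) : ℝ) * (2 / Real.pi) ^ 3 * a ^ 2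

/-- A measure on the torus is locally dominated by Monge-Ampere measures of bounded
plurisubharmonic functions. -/
def LocDom (a : ℝ) (μ : Measure (Cn 3 ⧸ Lam a)) : Prop :=
  ∀ x : Cn 3 ⧸ Lam a, ∃ (p : Cn 3) (r : ℝ) (u : Cn 3 → ℝ) (ν : Measure (Cn 3)),
    0 < r ∧ pr a p = x ∧ InjOn (pr a) (ball p r) ∧ (∃ B : ℝ, ∀ z ∈ ball p r, |u z| ≤ B) ∧
    PSH (ball p r) (fun z => ((u z : ℝ) : EReal)) ∧ IsMongeAmpere (ball p r) u ν ∧
    ∀ E, MeasurableSet E → E ⊆ ball p r → μ (pr a '' E) ≤ ν E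

/-- `φ` is a bounded `ω`-plurisubharmonic function on the torus with
`(ω + dd^c φ)³ = Vol · μ`. -/
def IsBddSol (a : ℝ) (φ : Cn 3 ⧸ Lam a → ℝ) (μ : Measure (Cn 3 ⧸ Lam a)) : Prop :=
  (∃ B : ℝ, ∀ x, |φ x| ≤ B) ∧
  PSH univ (fun z : Cn 3 => ((‖z‖ ^ 2 + φ (pr a z) : ℝ) : EReal)) ∧
  ∃ ν : Measure (Cn 3), IsMongeAmpere univ (fun z => ‖z‖ ^ 2 + φ (pr a z)) ν ∧
    ∀ E, MeasurableSet E → InjOn (pr a) E → ν E = ENNReal.ofReal (Vol a) * μ (pr a '' E)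

end Pool.Agent.H805K
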