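import Mathlib
import Pool.Agent.H805K.TorQ
import Pool.Agent.H805K.TLAT
import Pool.Agent.H805K.TMASS

/-!
The torus is a compact Hausdorff space.
-/

set_option autoImplicit false

open MeasureTheory Metric Set Filter Topology
open scoped ContDiff ComplexOrder ENNReal

namespace Pool.Agent.H805K
open Pool.Agent.H805R2

lemma compact_X {a : ℝ} (ha : 0 < a) : CompactSpace (Cn 3 ⧸ Lam a) := by
  obtain ⟨R, hR⟩ := TMASS.FD_bdd a
  have hc : Continuous (pr a) := continuous_quot_mk
  have h1 : IsCompact (pr a '' closedBall (0 : Cn 3) R) := (isCompact_closedBall _ _).image hc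
  have h2 : pr a '' closedBall (0 : Cn 3) R = univ := by
    rw [eq_univ_iff_forall]
    intro x
    obtain ⟨z, rfl⟩ : ∃ z, pr a z = x := QuotientAddGroup.mk_surjective x
    obtain ⟨m, hm, -⟩ := exists_lat ha z
    refine ⟨z - lat a m, hR hm, ?_⟩
    change ((z - lat a m : Cn 3) : Cn 3 ⧸ Lam a) = ((z : Cn 3) : Cn 3 ⧸ Lam a)
    rw [QuotientAddGroup.eq]
    have : -(z - lat a m) + z = lat a m := by abel
    rw [this]
    exact ⟨m, rfl⟩
  rw [h2] at h1
  exact ⟨h1⟩

lemma closed_Lam {a : ℝ} (ha : 0 < a) : IsClosed ((Lam a : AddSubgroup (Cn 3)) : Set (Cn 3)) := by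
  have e : ((Lam a : AddSubgroup (Cn 3)) : Set (Cn 3)) =
      ⋂ i : Fin 3, ({z : Cn 3 | (z i).re / side a i ∈ Set.range (Int.cast : ℤ → ℝ)} ∩
        {z : Cn 3 | (z i).im / side a i ∈ Set.range (Int.cast : ℤ → ℝ)}) := by
    ext z
    simp only [mem_iInter, mem_inter_iff, mem_ofPred_eq]
    constructor
    · rintro ⟨m, rfl⟩ i
      have hs := TLAT.side_pos ha i
      rw [TLAT.lat_re, TLAT.lat_im, mul_div_cancel_left₀ _ hs.ne', mul_div_cancel_left₀ _ hs.ne']
      exact ⟨⟨_, rfl⟩, ⟨_, rfl⟩⟩
    · intro h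
      have h' : ∀ i, ∃ k l : ℤ, (k : ℝ) = (z i).re / side a i ∧ (l : ℝ) = (z i).im / side a i := by
        intro i
        obtain ⟨⟨k, hk⟩, l, hl⟩ := h i
        exact ⟨k, l, hk, hl⟩
      choose f g hfg using h'
      refine ⟨fun i => (f i, g i), ?_⟩
      ext i
      have hs := TLAT.side_pos ha i
      apply Complex.ext
      · rw [TLAT.lat_re]
        change side a i * (f i : ℝ) = _
        rw [(hfg i).1]
        field_simp
      · rw [TLAT.lat_im]
        change side a i * (g i : ℝ) = _
        rw [(hfg i).2]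
        field_simp
  rw [e]
  have hZ : IsClosed (Set.range (Int.cast : ℤ → ℝ)) := Int.isClosedEmbedding_coe_real.isClosed_range
  apply isClosed_iInter
  intro i
  have c1 : Continuous fun z : Cn 3 => (z i).re / side a i := by
    have : Continuous fun z : Cn 3 => z i := (coord_sm i).continuous
    fun_prop
  have c2 : Continuous fun z : Cn 3 => (z i).im / side a i := by
    have : Continuous fun z : Cn 3 => z i := (coord_sm i).continuous
    fun_prop
  exact (hZ.preimage c1).inter (hZ.preimage c2)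

lemma t2_X {a : ℝ} (ha : 0 < a) : T2Space (Cn 3 ⧸ Lam a) := by
  have : IsClosed ((Lam a : AddSubgroup (Cn 3)) : Set (Cn 3)) := closed_Lam ha
  infer_instance

end Pool.Agent.H805K
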