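import Mathlib
import Pool.Agent.H805K.Tor4
import Pool.Agent.H805K.TLAT

/-! Density lemmas for the system of blocks on the torus (task DEN, helper935). -/

set_option autoImplicit false
set_option maxHeartbeats 1000000

open MeasureTheory Metric Set Filter Topology
open scoped ContDiff ComplexOrder ENNReal

namespace Pool.Agent.H805K
open Pool.Agent.H805R2

namespace SysT
variable (S : SysT)

/-- the weight near a lattice line, centred at the origin -/
noncomputable def Gk (k : ℕ) (y : Cn 3) : ℝ :=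
  (AA + 2) * ‖y‖ ^ 2 + ∑ j ∈ Finset.range k, S.v j y

/-- the subsolution centred at the origin -/
noncomputable def Wk (k : ℕ) (y : Cn 3) : ℝ := S.Gk k y + 1 * ‖y‖ ^ 2

lemma AA_pos : 0 < AA := by unfold AA; norm_num

lemma Gk_sm (k : ℕ) : ContDiff ℝ ∞ (S.Gk k) :=
  (contDiff_const.mul nz_sm).add (ContDiff.sum fun j _ => S.v_sm j)

lemma Wk_sm (k : ℕ) : ContDiff ℝ ∞ (S.Wk k) := (S.Gk_sm k).add (contDiff_const.mul nz_sm)

lemma ak_eq (a : ℝ) (l : Fin 3 → ℤ × ℤ) (k : ℕ) : S.ak a l k = fun z => S.Wk k (z - lat a l) := by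
  funext z
  unfold ak Wk Gk
  rw [one_mul]

lemma ak_sm (a : ℝ) (l : Fin 3 → ℤ × ℤ) (k : ℕ) : ContDiff ℝ ∞ (S.ak a l k) := by
  rw [ak_eq]
  exact shift_sm (S.Wk_sm k) (lat a l)

lemma Gk_psd (k : ℕ) {z : Cn 3} (hz : z ∈ DD) : (hess (S.Gk k) z).PosSemidef := by
  rw [psd_iff (S.Gk_sm k)]
  exact S.sum_psd k z hz

lemma Wk_psd (k : ℕ) {z : Cn 3} (hz : z ∈ DD) : (hess (S.Wk k) z).PosSemidef := by
  have h1 : hess (S.Wk k) z = hess (S.Gk k) z + ((1:ℝ) : ℂ) • 1 := by
    have := hess_add_smul (S.Gk k) _ (S.Gk_sm k) nz_sm 1 z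
    rw [nz_hess] at this
    exact this
  rw [h1]
  refine (S.Gk_psd k hz).add ?_
  refine Matrix.PosSemidef.one.smul ?_
  norm_num

lemma ak_psd {a : ℝ} {l : Fin 3 → ℤ × ℤ} (k : ℕ) {z : Cn 3} (hz : z - lat a l ∈ DD) :
    (hess (S.ak a l k) z).PosSemidef := by
  rw [ak_eq, hess_shift]
  exact S.Wk_psd k hz

lemma ak_anti (a : ℝ) (l : Fin 3 → ℤ × ℤ) (z : Cn 3) : Antitone fun k => S.ak a l k z := by
  apply antitone_nat_of_succ_le
  intro k
  unfold ak
  rw [Finset.sum_range_succ]
  have := S.v_le k (z - lat a l)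
  linarith

lemma ak_bd {a : ℝ} {l : Fin 3 → ℤ × ℤ} (k : ℕ) {z : Cn 3} (hz : z - lat a l ∈ DD) :
    |S.ak a l k z| ≤ 100 * (AA + 3) := by
  have hA := AA_pos
  have h1 := S.sum_ge k _ hz
  have h2 : ∑ j ∈ Finset.range k, S.v j (z - lat a l) ≤ 0 :=
    Finset.sum_nonpos fun j _ => S.v_le j _
  obtain ⟨h3, h4, h5⟩ := hz
  have h6 := norm_sq3 (z - lat a l)
  have n0 := norm_nonneg ((z - lat a l) 0)
  have n1 := norm_nonneg ((z - lat a l) 1)
  have n2 := norm_nonneg ((z - lat a l) 2)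
  have h7 : ‖z - lat a l‖ ^ 2 ≤ 20 := by
    rw [h6]
    nlinarith
  have h8 : 0 ≤ ‖z - lat a l‖ ^ 2 := by positivity
  unfold ak
  rw [abs_le]
  constructor <;> nlinarith

lemma lat_ap (a : ℝ) (m : Fin 3 → ℤ × ℤ) (i : Fin 3) :
    lat a m i = ((side a i : ℝ) : ℂ) * (((m i).1 : ℂ) + ((m i).2 : ℂ) * Complex.I) := rfl

/-- the position of a block relative to a lattice point -/
lemma block_pos {a : ℝ} (ha : 4 ≤ a) {z : Cn 3} {l m : Fin 3 → ℤ × ℤ} {j : ℕ}
    (hz : z - lat a l ∈ DD) (hm : z - lat a m ∈ S.U j) :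
    m 0 = l 0 ∧ z - lat a m = (z - lat a l) - xv (m 1 - l 1, m 2 - l 2) := by
  have h1 := S.U_z0 j _ hm
  have h2 := hz.1
  have hml : m 0 = l 0 := by
    by_contra hne
    have h3 : (m - l) 0 ≠ 0 := by
      intro h
      exact hne (sub_eq_zero.1 h)
    have h4 := lat_far (show 0 < a by linarith) h3
    have h5 : side a 0 = a := by simp [side]
    rw [h5] at h4
    have h6 : lat a (m - l) 0 = (z - lat a l) 0 - (z - lat a m) 0 := by
      have e1 : lat a (m - l) = lat a m - lat a l := by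
        rw [sub_eq_add_neg, lat_add, TLAT.lat_neg, ← sub_eq_add_neg]
      rw [e1]
      change lat a m 0 - lat a l 0 = (z 0 - lat a l 0) - (z 0 - lat a m 0)
      ring
    rw [h6] at h4
    have h7 := norm_sub_le ((z - lat a l) 0) ((z - lat a m) 0)
    linarith
  refine ⟨hml, ?_⟩
  ext i
  change z i - lat a m i = (z i - lat a l i) - xv (m 1 - l 1, m 2 - l 2) i
  fin_cases i
  · change z 0 - lat a m 0 = (z 0 - lat a l 0) - xv (m 1 - l 1, m 2 - l 2) 0
    rw [xv0, lat_ap, lat_ap, hml, sub_zero]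
  · change z 1 - lat a m 1 = (z 1 - lat a l 1) - xv (m 1 - l 1, m 2 - l 2) 1
    rw [xv1, ← gi_sub, lat_ap, lat_ap]
    simp [side, gi]
  · change z 2 - lat a m 2 = (z 2 - lat a l 2) - xv (m 1 - l 1, m 2 - l 2) 2
    rw [xv2, ← gi_sub, lat_ap, lat_ap]
    simp [side, gi]

lemma f_zero {j : ℕ} {z : Cn 3} (h : z ∉ S.U j) : S.f j z = 0 := by
  unfold f
  rw [indicator_of_notMem h]

/-- near a lattice line of the first variable the density is dominated -/
lemma F_le {a : ℝ} (ha : 4 ≤ a) (k : ℕ) {z : Cn 3} {l : Fin 3 → ℤ × ℤ} (hz : z - lat a l ∈ DD) :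
    ENNReal.ofReal kap + S.F a k z ≤ ENNReal.ofReal (maDensity (S.ak a l k) z) := by
  have hk := kap_pos
  have hdet : (hess (S.Gk k) (z - lat a l)).det.re + 1 ≤ (hess (S.Wk k) (z - lat a l)).det.re := by
    have := det_add_nz (S.Gk_sm k) (z - lat a l) zero_le_one (S.Gk_psd k hz)
    rw [one_pow] at this
    exact this
  have hG0 : 0 ≤ (hess (S.Gk k) (z - lat a l)).det.re :=
    (Complex.le_def.1 (S.Gk_psd k hz).det_nonneg).1
  have hma : maDensity (S.ak a l k) z = kap * (hess (S.Wk k) (z - lat a l)).det.re := by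
    rw [ak_eq, maDensity_shift, maDensity_eq]
  rw [hma]
  by_cases hex : ∃ j < k, ∃ m : Fin 3 → ℤ × ℤ, z - lat a m ∈ S.U j
  · obtain ⟨j0, hj0, m0, hm0⟩ := hex
    obtain ⟨h1, h2⟩ := S.block_pos ha hz hm0
    have huniq : ∀ j m, z - lat a m ∈ S.U j → j = j0 ∧ m = m0 := by
      intro j m hm
      obtain ⟨h3, h4⟩ := S.block_pos ha hz hm
      have h5 := S.disj (z - lat a l) hz j (m 1 - l 1, m 2 - l 2) j0 (m0 1 - l 1, m0 2 - l 2)
        (by rw [← h4]; exact hm) (by rw [← h2]; exact hm0)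
      refine ⟨h5.1, ?_⟩
      have h6 := Prod.mk.inj h5.2
      have h7 : m 1 = m0 1 := sub_left_injective h6.1
      have h8 : m 2 = m0 2 := sub_left_injective h6.2
      funext i
      fin_cases i
      · exact h3.trans h1.symm
      · exact h7
      · exact h8
    have hF : S.F a k z = ENNReal.ofReal (kap * S.ρ j0 (z - lat a m0)) := by
      unfold F
      rw [Finset.sum_eq_single j0]
      · rw [tsum_eq_single m0]
        · unfold f
          rw [indicator_of_mem hm0]
        · intro m hm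
          apply S.f_zero
          intro h
          exact hm (huniq _ _ h).2
      · intro j _ hj
        rw [ENNReal.tsum_eq_zero]
        intro m
        apply S.f_zero
        intro h
        exact hj (huniq _ _ h).1
      · intro h
        exact absurd (Finset.mem_range.2 hj0) h
    have hρ : S.ρ j0 (z - lat a m0) ≤ (hess (S.Gk k) (z - lat a l)).det.re := by
      have h3 := S.sum_det k (z - lat a l) hz j0 hj0 (m0 1 - l 1, m0 2 - l 2)
        (by rw [← h2]; exact hm0)
      rw [← h2] at h3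
      exact h3
    have hρ0 := S.ρ_nonneg j0 _ hm0
    rw [hF, ← ENNReal.ofReal_add hk.le (mul_nonneg hk.le hρ0)]
    apply ENNReal.ofReal_le_ofReal
    nlinarith
  · have hF : S.F a k z = 0 := by
      unfold F
      apply Finset.sum_eq_zero
      intro j hj
      rw [ENNReal.tsum_eq_zero]
      intro m
      apply S.f_zero
      intro h
      exact hex ⟨j, Finset.mem_range.1 hj, m, h⟩
    rw [hF, add_zero]
    apply ENNReal.ofReal_le_ofReal
    nlinarith

/-- far from the lattice lines of the first variable there is no density -/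
lemma Finf_zero {a : ℝ} {z : Cn 3} (hz : ∀ l : Fin 3 → ℤ × ℤ, 1 ≤ ‖(z - lat a l) 0‖) : S.Finf a z = 0 := by
  unfold Finf
  rw [ENNReal.tsum_eq_zero]
  intro j
  rw [ENNReal.tsum_eq_zero]
  intro m
  apply S.f_zero
  intro h
  have h1 := S.U_z0 j _ h
  have h2 := hz m
  linarith

lemma f_meas (j : ℕ) : Measurable (S.f j) := by
  unfold f
  refine Measurable.indicator ?_ (S.U_open j).measurableSet
  exact ENNReal.measurable_ofReal.comp (continuous_const.mul (S.ρ_cont j)).measurable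

lemma F_meas (a : ℝ) (k : ℕ) : Measurable (S.F a k) := by
  unfold F
  refine Finset.measurable_fun_sum _ fun j _ => ?_
  refine Measurable.tsum fun m => ?_
  exact (S.f_meas j).comp (measurable_id.sub_const _)

lemma Finf_eq_iSup (a : ℝ) (z : Cn 3) : S.Finf a z = ⨆ k, S.F a k z := by
  unfold Finf F
  exact ENNReal.tsum_eq_iSup_nat

lemma F_mono (a : ℝ) (z : Cn 3) : Monotone fun k => S.F a k z := by
  intro k k' h
  unfold F
  exact Finset.sum_le_sum_of_subset (Finset.range_subset_range.2 h)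

lemma Finf_periodic (a : ℝ) (z : Cn 3) (l : Fin 3 → ℤ × ℤ) : S.Finf a (z + lat a l) = S.Finf a z := by
  unfold Finf
  apply tsum_congr
  intro j
  rw [← (Equiv.addRight l).tsum_eq]
  apply tsum_congr
  intro m
  have h : z + lat a l - lat a (Equiv.addRight l m) = z - lat a m := by
    change z + lat a l - lat a (m + l) = z - lat a m
    rw [lat_add]
    abel
  rw [h]

end SysT

end Pool.Agent.H805K
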