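import Mathlib
import Pool.Agent.H805K.BaseT

/-!
The energy functional `En` is a primitive of the Monge-Ampère one-form (task E1).
-/

set_option autoImplicit false
set_option maxHeartbeats 1000000

open MeasureTheory Metric Set Filter Topology
open scoped ContDiff ComplexOrder Interval

namespace Pool.Agent.H805K
open Pool.Agent.H805R2

variable {n : ℕ}

namespace TE1

/-- swapping an integral over a compact set with an interval integral -/
lemma swapKI {K : Set (Cn n)} (hK : IsCompact K) {F : Cn n → ℝ → ℝ}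
    (hF : Continuous (fun p : Cn n × ℝ => F p.1 p.2)) :
    ∫ z in K, ∫ t in (0 : ℝ)..1, F z t = ∫ t in (0 : ℝ)..1, ∫ z in K, F z t := by
  simp_rw [intervalIntegral.integral_of_le zero_le_one]
  apply integral_integral_swap
  have h1 : IntegrableOn (fun p : Cn n × ℝ => F p.1 p.2) (K ×ˢ Icc (0 : ℝ) 1) :=
    hF.continuousOn.integrableOn_compact (hK.prod isCompact_Icc)
  have h2 := h1.mono_set (prod_mono_right Ioc_subset_Icc_self)
  rw [IntegrableOn, Measure.volume_eq_prod, ← Measure.prod_restrict] at h2
  exact h2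

lemma swapII {F : ℝ → ℝ → ℝ} (hF : Continuous (fun p : ℝ × ℝ => F p.1 p.2)) :
    ∫ s in (0 : ℝ)..1, ∫ t in (0 : ℝ)..1, F s t = ∫ t in (0 : ℝ)..1, ∫ s in (0 : ℝ)..1, F s t := by
  simp_rw [intervalIntegral.integral_of_le zero_le_one]
  apply integral_integral_swap
  have h1 : IntegrableOn (fun p : ℝ × ℝ => F p.1 p.2) (Icc (0 : ℝ) 1 ×ˢ Icc (0 : ℝ) 1) :=
    hF.continuousOn.integrableOn_compact (isCompact_Icc.prod isCompact_Icc)
  have h2 := h1.mono_set (prod_mono Ioc_subset_Icc_self Ioc_subset_Icc_self)
  rw [IntegrableOn, Measure.volume_eq_prod, ← Measure.prod_restrict] at h2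
  exact h2

/-- abstract form of the exactness of the energy -/
lemma key {K : Set (Cn n)} (hK : IsCompact K) {a b : Cn n → ℝ} (ha : Continuous a) (hb : Continuous b)
    {Q A B : Cn n → Matrix (Fin n) (Fin n) ℂ} (hQ : Continuous Q) (hA : Continuous A) (hB : Continuous B)
    (hibp : ∀ τ r : ℝ, ∫ z in K, ((1 - τ) * a z + τ * b z) *
        (((Q z + (r : ℂ) • (((1 - τ : ℝ) : ℂ) • A z + (τ : ℂ) • B z)).adjugate * (B z - A z)).trace).re =
      ∫ z in K, (b z - a z) * (((Q z + (r : ℂ) • (((1 - τ : ℝ) : ℂ) • A z + (τ : ℂ) • B z)).adjugate *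
        (((1 - τ : ℝ) : ℂ) • A z + (τ : ℂ) • B z)).trace).re) :
    (∫ r in (0 : ℝ)..1, ∫ z in K, b z * (Q z + (r : ℂ) • B z).det.re) -
      (∫ r in (0 : ℝ)..1, ∫ z in K, a z * (Q z + (r : ℂ) • A z).det.re) =
    ∫ τ in (0 : ℝ)..1, ∫ z in K, (b z - a z) *
      (Q z + (((1 - τ : ℝ) : ℂ) • A z + (τ : ℂ) • B z)).det.re := by
  -- the matrices
  set C : Cn n → ℝ → Matrix (Fin n) (Fin n) ℂ := fun z τ => ((1 - τ : ℝ) : ℂ) • A z + (τ : ℂ) • B z with hC
  set M : Cn n → ℝ → ℝ → Matrix (Fin n) (Fin n) ℂ := fun z τ r => Q z + (r : ℂ) • C z τ with hM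
  have hCc : Continuous fun p : Cn n × ℝ × ℝ => C p.1 p.2.1 := by
    have h1 : Continuous fun p : Cn n × ℝ × ℝ => (((1 - p.2.1 : ℝ) : ℂ)) :=
      Complex.continuous_ofReal.comp (continuous_const.sub (continuous_fst.comp continuous_snd))
    have h2 : Continuous fun p : Cn n × ℝ × ℝ => ((p.2.1 : ℝ) : ℂ) :=
      Complex.continuous_ofReal.comp (continuous_fst.comp continuous_snd)
    exact (h1.smul (hA.comp continuous_fst)).add (h2.smul (hB.comp continuous_fst))
  have hMc : Continuous fun p : Cn n × ℝ × ℝ => M p.1 p.2.1 p.2.2 := by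
    have h2 : Continuous fun p : Cn n × ℝ × ℝ => ((p.2.2 : ℝ) : ℂ) :=
      Complex.continuous_ofReal.comp (continuous_snd.comp continuous_snd)
    exact (hQ.comp continuous_fst).add (h2.smul hCc)
  have hdet : Continuous fun p : Cn n × ℝ × ℝ => (M p.1 p.2.1 p.2.2).det.re :=
    Complex.continuous_re.comp hMc.matrix_det
  have hBA : Continuous fun p : Cn n × ℝ × ℝ => B p.1 - A p.1 :=
    (hB.comp continuous_fst).sub (hA.comp continuous_fst)
  have ht1 : Continuous fun p : Cn n × ℝ × ℝ => (((M p.1 p.2.1 p.2.2).adjugate * (B p.1 - A p.1)).trace).re :=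
    Complex.continuous_re.comp ((hMc.matrix_adjugate.matrix_mul hBA).matrix_trace)
  have ht2 : Continuous fun p : Cn n × ℝ × ℝ => (((M p.1 p.2.1 p.2.2).adjugate * C p.1 p.2.1).trace).re :=
    Complex.continuous_re.comp ((hMc.matrix_adjugate.matrix_mul hCc).matrix_trace)
  have hac : Continuous fun p : Cn n × ℝ × ℝ => a p.1 := ha.comp continuous_fst
  have hbc : Continuous fun p : Cn n × ℝ × ℝ => b p.1 := hb.comp continuous_fst
  have hτc : Continuous fun p : Cn n × ℝ × ℝ => p.2.1 := continuous_fst.comp continuous_snd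
  have hrc : Continuous fun p : Cn n × ℝ × ℝ => p.2.2 := continuous_snd.comp continuous_snd
  set F1 : Cn n → ℝ → ℝ → ℝ := fun z τ r => (b z - a z) * (M z τ r).det.re +
    r * (((1 - τ) * a z + τ * b z) * (((M z τ r).adjugate * (B z - A z)).trace).re) with hF1
  set F2 : Cn n → ℝ → ℝ → ℝ := fun z τ r => (b z - a z) * (M z τ r).det.re +
    r * ((b z - a z) * (((M z τ r).adjugate * C z τ).trace).re) with hF2
  have hF1c : Continuous fun p : Cn n × ℝ × ℝ => F1 p.1 p.2.1 p.2.2 :=
    ((hbc.sub hac).mul hdet).add (hrc.mul ((((continuous_const.sub hτc).mul hac).add (hτc.mul hbc)).mul ht1))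
  have hF2c : Continuous fun p : Cn n × ℝ × ℝ => F2 p.1 p.2.1 p.2.2 :=
    ((hbc.sub hac).mul hdet).add (hrc.mul ((hbc.sub hac).mul ht2))
  -- derivative in τ
  have hd1 : ∀ z τ r, HasDerivAt (fun τ : ℝ => ((1 - τ) * a z + τ * b z) * (M z τ r).det.re) (F1 z τ r) τ := by
    intro z τ r
    have e1 : ∀ τ : ℝ, M z τ r = (Q z + (r : ℂ) • A z) + (τ : ℂ) • ((r : ℂ) • (B z - A z)) := by
      intro τ
      simp only [hM, hC]
      push_cast
      module
    have h1 := det_path_real (Q z + (r : ℂ) • A z) ((r : ℂ) • (B z - A z)) τ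
    rw [← e1 τ] at h1
    have h1' : HasDerivAt (fun τ : ℝ => (M z τ r).det.re)
        (((M z τ r).adjugate * ((r : ℂ) • (B z - A z))).trace.re) τ := by
      simpa only [← e1] using h1
    have h2 : HasDerivAt (fun τ : ℝ => (1 - τ) * a z + τ * b z) (b z - a z) τ := by
      have := (((hasDerivAt_const τ (1 : ℝ)).sub (hasDerivAt_id τ)).mul_const (a z)).add
        ((hasDerivAt_id τ).mul_const (b z))
      simp only [zero_sub, neg_mul, one_mul] at this
      have e : b z - a z = -a z + b z := by ring
      rw [e]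
      exact this
    have h3 := h2.mul h1'
    have e2 : (((M z τ r).adjugate * ((r : ℂ) • (B z - A z))).trace.re) =
        r * (((M z τ r).adjugate * (B z - A z)).trace).re := by
      rw [Matrix.mul_smul, Matrix.trace_smul, smul_eq_mul, Complex.re_ofReal_mul]
    rw [e2] at h3
    have e3 : F1 z τ r = (b z - a z) * (M z τ r).det.re + ((1 - τ) * a z + τ * b z) *
        (r * (((M z τ r).adjugate * (B z - A z)).trace).re) := by
      simp only [hF1]; ring
    rw [e3]
    exact h3
  have hI1 : ∀ (z : Cn n) (r : ℝ), b z * (Q z + (r : ℂ) • B z).det.re - a z * (Q z + (r : ℂ) • A z).det.re =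
      ∫ τ in (0 : ℝ)..1, F1 z τ r := by
    intro z r
    rw [intervalIntegral.integral_eq_sub_of_hasDerivAt (fun τ _ => hd1 z τ r)]
    · simp [hM, hC]
    · apply Continuous.intervalIntegrable
      exact hF1c.comp (Continuous.prodMk continuous_const (Continuous.prodMk continuous_id continuous_const))
  -- derivative in r
  have hd2 : ∀ z τ r, HasDerivAt (fun r : ℝ => r * ((b z - a z) * (M z τ r).det.re)) (F2 z τ r) r := by
    intro z τ r
    have h1 : HasDerivAt (fun r : ℝ => (M z τ r).det.re) (((M z τ r).adjugate * C z τ).trace.re) r :=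
      det_path_real (Q z) (C z τ) r
    have h3 := (hasDerivAt_id r).mul (h1.const_mul (b z - a z))
    have e3 : F2 z τ r = 1 * ((b z - a z) * (M z τ r).det.re) + id r *
        ((b z - a z) * (((M z τ r).adjugate * C z τ).trace).re) := by
      simp only [hF2, id]; ring
    rw [e3]
    exact h3
  have hI2 : ∀ z τ, ∫ r in (0 : ℝ)..1, F2 z τ r = (b z - a z) * (M z τ 1).det.re := by
    intro z τ
    rw [intervalIntegral.integral_eq_sub_of_hasDerivAt (fun r _ => hd2 z τ r)]
    · simp
    · apply Continuous.intervalIntegrable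
      exact hF2c.comp (Continuous.prodMk continuous_const (Continuous.prodMk continuous_const continuous_id))
  -- the integrals over `K` of `F1` and `F2` agree
  have hK12 : ∀ τ r, ∫ z in K, F1 z τ r = ∫ z in K, F2 z τ r := by
    intro τ r
    have hs : Continuous fun z : Cn n => ((z, τ, r) : Cn n × ℝ × ℝ) :=
      Continuous.prodMk continuous_id continuous_const
    have i1 : IntegrableOn (fun z => (b z - a z) * (M z τ r).det.re) K :=
      (((hb.sub ha).mul (hdet.comp hs)).continuousOn).integrableOn_compact hK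
    have i2 : IntegrableOn (fun z => r * (((1 - τ) * a z + τ * b z) *
        (((M z τ r).adjugate * (B z - A z)).trace).re)) K :=
      ((continuous_const.mul (((continuous_const.mul ha).add (continuous_const.mul hb)).mul
        (ht1.comp hs))).continuousOn).integrableOn_compact hK
    have i3 : IntegrableOn (fun z => r * ((b z - a z) * (((M z τ r).adjugate * C z τ).trace).re)) K :=
      ((continuous_const.mul ((hb.sub ha).mul (ht2.comp hs))).continuousOn).integrableOn_compact hK
    simp only [hF1, hF2]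
    rw [integral_add i1 i2, integral_add i1 i3, integral_const_mul, integral_const_mul]
    congr 2
    exact hibp τ r
  -- assembly
  have hcb : Continuous fun p : ℝ × Cn n => b p.2 * (Q p.2 + (p.1 : ℂ) • B p.2).det.re := by
    have h2 : Continuous fun p : ℝ × Cn n => ((p.1 : ℝ) : ℂ) := Complex.continuous_ofReal.comp continuous_fst
    exact (hb.comp continuous_snd).mul (Complex.continuous_re.comp
      ((hQ.comp continuous_snd).add (h2.smul (hB.comp continuous_snd))).matrix_det)
  have hca : Continuous fun p : ℝ × Cn n => a p.2 * (Q p.2 + (p.1 : ℂ) • A p.2).det.re := by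
    have h2 : Continuous fun p : ℝ × Cn n => ((p.1 : ℝ) : ℂ) := Complex.continuous_ofReal.comp continuous_fst
    exact (ha.comp continuous_snd).mul (Complex.continuous_re.comp
      ((hQ.comp continuous_snd).add (h2.smul (hA.comp continuous_snd))).matrix_det)
  have hib : Continuous fun r : ℝ => ∫ z in K, b z * (Q z + (r : ℂ) • B z).det.re :=
    continuous_parametric_integral_of_continuous (f := fun (r : ℝ) z => b z * (Q z + (r : ℂ) • B z).det.re) hcb hK
  have hia : Continuous fun r : ℝ => ∫ z in K, a z * (Q z + (r : ℂ) • A z).det.re :=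
    continuous_parametric_integral_of_continuous (f := fun (r : ℝ) z => a z * (Q z + (r : ℂ) • A z).det.re) hca hK
  rw [← intervalIntegral.integral_sub (hib.intervalIntegrable _ _) (hia.intervalIntegrable _ _)]
  have e1 : ∀ r : ℝ, (∫ z in K, b z * (Q z + (r : ℂ) • B z).det.re) -
      (∫ z in K, a z * (Q z + (r : ℂ) • A z).det.re) = ∫ τ in (0 : ℝ)..1, ∫ z in K, F1 z τ r := by
    intro r
    have hs : Continuous fun z : Cn n => ((r, z) : ℝ × Cn n) := Continuous.prodMk continuous_const continuous_id
    have j1 : IntegrableOn (fun z => b z * (Q z + (r : ℂ) • B z).det.re) K :=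
      (hcb.comp hs).continuousOn.integrableOn_compact hK
    have j2 : IntegrableOn (fun z => a z * (Q z + (r : ℂ) • A z).det.re) K :=
      (hca.comp hs).continuousOn.integrableOn_compact hK
    rw [← integral_sub j1 j2]
    simp_rw [hI1]
    apply swapKI hK
    exact hF1c.comp (Continuous.prodMk continuous_fst (Continuous.prodMk continuous_snd continuous_const))
  simp_rw [e1, hK12]
  -- swap τ and r
  have hG : Continuous fun p : ℝ × ℝ => ∫ z in K, F2 z p.1 p.2 := by
    apply continuous_parametric_integral_of_continuous (f := fun (p : ℝ × ℝ) z => F2 z p.1 p.2) _ hK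
    exact hF2c.comp (Continuous.prodMk continuous_snd continuous_fst)
  have hG' : Continuous fun p : ℝ × ℝ => ∫ z in K, F2 z p.2 p.1 := hG.comp continuous_swap
  rw [swapII (F := fun r τ => ∫ z in K, F2 z τ r) hG']
  apply intervalIntegral.integral_congr
  intro τ _
  simp only
  rw [← swapKI hK (F := fun z r => F2 z τ r)
    (hF2c.comp (Continuous.prodMk continuous_fst (Continuous.prodMk continuous_const continuous_snd)))]
  simp_rw [hI2]
  simp only [hM, hC, Complex.ofReal_one, one_smul]

end TE1

theorem En_diff {q u v : Cn n → ℝ} (hq : ContDiff ℝ ∞ q) (hu : ContDiff ℝ ∞ u) (hv : ContDiff ℝ ∞ v)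
    (hcu : HasCompactSupport fun z => u z - q z) (hcv : HasCompactSupport fun z => v z - q z) :
    En q v - En q u =
      ∫ τ in (0 : ℝ)..1, ∫ z, (v z - u z) * (hess (fun y => u y + τ * (v y - u y)) z).det.re := by
  set a : Cn n → ℝ := fun z => u z - q z with ha
  set b : Cn n → ℝ := fun z => v z - q z with hb
  have has : ContDiff ℝ ∞ a := hu.sub hq
  have hbs : ContDiff ℝ ∞ b := hv.sub hq
  set K : Set (Cn n) := tsupport a ∪ tsupport b with hK
  have hKc : IsCompact K := hcu.isCompact.union hcv.isCompact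
  have ha0 : ∀ z, z ∉ K → a z = 0 := fun z hz => image_eq_zero_of_notMem_tsupport fun h => hz (Or.inl h)
  have hb0 : ∀ z, z ∉ K → b z = 0 := fun z hz => image_eq_zero_of_notMem_tsupport fun h => hz (Or.inr h)
  have hres : ∀ f : Cn n → ℝ, (∀ z, z ∉ K → f z = 0) → ∫ z, f z = ∫ z in K, f z := fun f hf =>
    (setIntegral_eq_integral_of_forall_compl_eq_zero hf).symm
  have hQc := hess_continuous (hq.of_le ss_le)
  have hAc := hess_continuous (has.of_le ss_le)
  have hBc := hess_continuous (hbs.of_le ss_le)
  -- the Hessian of the segment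
  have hcτ : ∀ τ : ℝ, ContDiff ℝ ∞ fun y => (1 - τ) * a y + τ * b y := fun τ =>
    (contDiff_const.mul has).add (contDiff_const.mul hbs)
  have hHc : ∀ (τ : ℝ) (z : Cn n), hess (fun y => (1 - τ) * a y + τ * b y) z =
      ((1 - τ : ℝ) : ℂ) • hess a z + (τ : ℂ) • hess b z := by
    intro τ z
    rw [hess_add_smul (fun y => (1 - τ) * a y) b (contDiff_const.mul has) hbs τ z,
      hess_const_mul (1 - τ) has z]
  have hHM : ∀ (τ r : ℝ) (z : Cn n), hess (fun y => q y + r * ((1 - τ) * a y + τ * b y)) z =
      hess q z + (r : ℂ) • (((1 - τ : ℝ) : ℂ) • hess a z + (τ : ℂ) • hess b z) := by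
    intro τ r z
    rw [hess_add_smul q _ hq (hcτ τ) r z, hHc]
  have hHd : ∀ z : Cn n, hess (fun y => b y - a y) z = hess b z - hess a z := by
    intro z
    have h := hess_add_smul b a hbs has (-1) z
    have e : (fun y => b y + (-1) * a y) = fun y => b y - a y := by funext y; ring
    rw [e] at h
    rw [h]
    push_cast
    module
  have hibp : ∀ τ r : ℝ, ∫ z in K, ((1 - τ) * a z + τ * b z) *
        (((hess q z + (r : ℂ) • (((1 - τ : ℝ) : ℂ) • hess a z + (τ : ℂ) • hess b z)).adjugate *
          (hess b z - hess a z)).trace).re =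
      ∫ z in K, (b z - a z) * (((hess q z + (r : ℂ) • (((1 - τ : ℝ) : ℂ) • hess a z +
        (τ : ℂ) • hess b z)).adjugate * (((1 - τ : ℝ) : ℂ) • hess a z + (τ : ℂ) • hess b z)).trace).re := by
    intro τ r
    have hbb : ContDiff ℝ ∞ (fun y => q y + r * ((1 - τ) * a y + τ * b y)) :=
      hq.add (contDiff_const.mul (hcτ τ))
    have hcs : HasCompactSupport fun z => b z - a z := by
      apply HasCompactSupport.of_support_subset_isCompact hKc
      intro z hz
      by_contra h
      exact hz (by simp [ha0 z h, hb0 z h])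
    have h := ibp (fun y => q y + r * ((1 - τ) * a y + τ * b y)) (fun z => b z - a z)
      (fun y => (1 - τ) * a y + τ * b y) hbb (hbs.sub has) (hcτ τ) hcs
    simp_rw [hHM, hHc, hHd] at h
    -- restrict to K and take real parts
    have hCc : Continuous fun z : Cn n => (((1 - τ : ℝ) : ℂ) • hess a z + (τ : ℂ) • hess b z) :=
      (hAc.const_smul ((1 - τ : ℝ) : ℂ)).add (hBc.const_smul (τ : ℂ))
    have hMc : Continuous fun z : Cn n => hess q z + (r : ℂ) • (((1 - τ : ℝ) : ℂ) • hess a z + (τ : ℂ) • hess b z) :=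
      hQc.add (hCc.const_smul (r : ℂ))
    have i1 : IntegrableOn (fun z => (((1 - τ) * a z + τ * b z : ℝ) : ℂ) *
        (((hess q z + (r : ℂ) • (((1 - τ : ℝ) : ℂ) • hess a z + (τ : ℂ) • hess b z)).adjugate *
          (hess b z - hess a z)).trace)) K := by
      refine (Continuous.continuousOn ?_).integrableOn_compact hKc
      exact (Complex.continuous_ofReal.comp (hcτ τ).continuous).mul
        ((hMc.matrix_adjugate.matrix_mul (hBc.sub hAc)).matrix_trace)
    have i2 : IntegrableOn (fun z => ((b z - a z : ℝ) : ℂ) * (((hess q z + (r : ℂ) • (((1 - τ : ℝ) : ℂ) • hess a z +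
        (τ : ℂ) • hess b z)).adjugate * (((1 - τ : ℝ) : ℂ) • hess a z + (τ : ℂ) • hess b z)).trace)) K := by
      refine (Continuous.continuousOn ?_).integrableOn_compact hKc
      exact (Complex.continuous_ofReal.comp (hbs.sub has).continuous).mul
        ((hMc.matrix_adjugate.matrix_mul hCc).matrix_trace)
    have r1 : ∀ f : Cn n → ℂ, (∀ z, z ∉ K → f z = 0) → ∫ z, f z = ∫ z in K, f z := fun f hf =>
      (setIntegral_eq_integral_of_forall_compl_eq_zero hf).symm
    rw [r1 _ (fun z hz => by simp [ha0 z hz, hb0 z hz]), r1 _ (fun z hz => by simp [ha0 z hz, hb0 z hz])] at h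
    have h5 := congrArg Complex.re h
    rw [← Complex.reCLM_apply, ← Complex.reCLM_apply, ← ContinuousLinearMap.integral_comp_comm _ i1,
      ← ContinuousLinearMap.integral_comp_comm _ i2] at h5
    simp only [Complex.reCLM_apply, Complex.re_ofReal_mul] at h5
    exact h5
  have hkey := TE1.key hKc has.continuous hbs.continuous hQc hAc hBc hibp
  have eV : En q v = ∫ r in (0 : ℝ)..1, ∫ z in K, b z * (hess q z + (r : ℂ) • hess b z).det.re := by
    unfold En
    apply intervalIntegral.integral_congr
    intro r _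
    simp only
    rw [hres _ (fun z hz => by
      have : v z - q z = 0 := hb0 z hz
      rw [this, zero_mul])]
    congr 1
    funext z
    rw [hess_add_smul q (fun y => v y - q y) hq hbs r z]
  have eU : En q u = ∫ r in (0 : ℝ)..1, ∫ z in K, a z * (hess q z + (r : ℂ) • hess a z).det.re := by
    unfold En
    apply intervalIntegral.integral_congr
    intro r _
    simp only
    rw [hres _ (fun z hz => by
      have : u z - q z = 0 := ha0 z hz
      rw [this, zero_mul])]
    congr 1
    funext z
    rw [hess_add_smul q (fun y => u y - q y) hq has r z]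
  rw [eV, eU, hkey]
  apply intervalIntegral.integral_congr
  intro τ _
  simp only
  have evu : ∀ z, v z - u z = b z - a z := fun z => by simp only [ha, hb]; ring
  rw [hres (fun z => (v z - u z) * (hess (fun y => u y + τ * (v y - u y)) z).det.re) (fun z hz => by
    rw [evu, ha0 z hz, hb0 z hz, sub_zero, zero_mul])]
  congr 1
  funext z
  have e2 : (fun y => u y + τ * (v y - u y)) = fun y => q y + 1 * ((1 - τ) * a y + τ * b y) := by
    funext y
    simp only [ha, hb]
    ring
  rw [evu, e2, hHM τ 1 z, Complex.ofReal_one, one_smul]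

end Pool.Agent.H805K
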