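import Mathlib
import Pool.Agent.H805K.BaseT

set_option autoImplicit false
set_option maxHeartbeats 1000000

open MeasureTheory Metric Set Filter Topology
open scoped ContDiff ComplexOrder Interval

namespace Pool.Agent.H805K
open Pool.Agent.H805R2

namespace TE2

variable {n : ℕ}

/-- the rank one part of the complex Hessian of `F ^ 2 / 2` is positive -/
lemma rank_one {F : Cn n → ℝ} (hF : ContDiff ℝ ∞ F) (z : Cn n) :
    (hess (fun y => F y ^ 2 / 2) z - ((F z : ℝ) : ℂ) • hess F z).PosSemidef := by
  have hS : ContDiff ℝ ∞ (fun y => F y ^ 2 / 2) := (hF.pow 2).div_const 2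
  have h1 := hess_add_smul (fun y => F y ^ 2 / 2) F hS hF (-(F z)) z
  have h2 : hess (fun y => F y ^ 2 / 2 + -(F z) * F y) z =
      hess (fun y => F y ^ 2 / 2) z - ((F z : ℝ) : ℂ) • hess F z := by
    rw [h1]
    push_cast
    rw [neg_smul, sub_eq_add_neg]
  rw [← h2]
  have hG : ContDiff ℝ ∞ (fun y => F y ^ 2 / 2 + -(F z) * F y) :=
    hS.add (contDiff_const.mul hF)
  rw [psd_iff hG]
  intro ζ
  have hΦ : ContDiff ℝ 2 (fun t : ℝ => t ^ 2 / 2 + -(F z) * t) := by fun_prop
  have h3 := levi_comp hΦ (hF.of_le ss_le) z ζ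
  have h3' : levi (fun y => F y ^ 2 / 2 + -(F z) * F y) z ζ =
      deriv (fun t : ℝ => t ^ 2 / 2 + -(F z) * t) (F z) * levi F z ζ +
      deriv (deriv (fun t : ℝ => t ^ 2 / 2 + -(F z) * t)) (F z) *
      ((fderiv ℝ F z ζ) ^ 2 + (fderiv ℝ F z (Complex.I • ζ)) ^ 2) / 4 := h3
  rw [h3']
  have e1 : deriv (fun t : ℝ => t ^ 2 / 2 + -(F z) * t) = fun t => t + -(F z) := by
    funext t
    have hd : HasDerivAt (fun t : ℝ => t ^ 2 / 2 + -(F z) * t)
        ((2 : ℕ) * t ^ (2 - 1) / 2 + -(F z) * 1) t :=
      ((hasDerivAt_pow 2 t).div_const 2).add ((hasDerivAt_id t).const_mul (-(F z)))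
    rw [hd.deriv]
    push_cast
    ring
  have e2 : deriv (fun t : ℝ => t + -(F z)) (F z) = 1 := by
    rw [deriv_add_const]
    simp
  rw [e1, e2]
  have := sq_nonneg (fderiv ℝ F z ζ)
  have := sq_nonneg (fderiv ℝ F z (Complex.I • ζ))
  simp only [add_neg_cancel, zero_mul, zero_add, one_mul]
  positivity

lemma hess_off {c : Cn n → ℝ} {z : Cn n} (hz : z ∉ tsupport c) : hess c z = 0 := by
  have h : c =ᶠ[𝓝 z] fun _ => 0 := notMem_tsupport_iff_eventuallyEq.1 hz
  rw [hess_congr h, hess_const_zero]

/-- the energy inequality for a fixed positive matrix function -/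
lemma step {b F : Cn n → ℝ} (hb : ContDiff ℝ ∞ b) (hF : ContDiff ℝ ∞ F) (hc : HasCompactSupport F)
    (h1 : ∀ z ∈ tsupport F, (hess b z).PosSemidef) :
    ∫ z, F z * (((hess b z).adjugate * hess F z).trace).re ≤ 0 := by
  have hS : ContDiff ℝ ∞ (fun y => F y ^ 2 / 2) := (hF.pow 2).div_const 2
  have hScs : HasCompactSupport (fun y => F y ^ 2 / 2) := by
    have : (fun y => F y ^ 2 / 2) = (fun t : ℝ => t ^ 2 / 2) ∘ F := rfl
    rw [this]
    exact hc.comp_left (by simp)
  have hsub : tsupport (fun y => F y ^ 2 / 2) ⊆ tsupport F := by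
    apply closure_mono
    intro z hz
    simp only [Function.mem_support] at hz ⊢
    intro h
    apply hz
    rw [h]; norm_num
  have hbc := hess_continuous (hb.of_le ss_le)
  have hFc := hess_continuous (hF.of_le ss_le)
  have hSc := hess_continuous (hS.of_le ss_le)
  have hib := ibp b (fun y => F y ^ 2 / 2) (fun _ => 1) hb hS contDiff_const hScs
  simp_rw [hess_const_zero, mul_zero, Matrix.trace_zero, mul_zero, integral_zero,
    Complex.ofReal_one, one_mul] at hib
  have hi2c : Integrable fun z => ((hess b z).adjugate * hess (fun y => F y ^ 2 / 2) z).trace := by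
    apply Continuous.integrable_of_hasCompactSupport
    · exact (hbc.matrix_adjugate.matrix_mul hSc).matrix_trace
    · apply HasCompactSupport.of_support_subset_isCompact hc.isCompact
      intro z hz
      by_contra h
      apply hz
      simp only
      rw [hess_off (fun h' => h (hsub h'))]
      simp
  have hi2 : Integrable fun z => (((hess b z).adjugate * hess (fun y => F y ^ 2 / 2) z).trace).re :=
    hi2c.re
  have hz : ∫ z, (((hess b z).adjugate * hess (fun y => F y ^ 2 / 2) z).trace).re = 0 := by
    have := integral_re hi2c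
    rw [hib] at this
    simpa using this
  have hi1 : Integrable fun z => F z * (((hess b z).adjugate * hess F z).trace).re := by
    apply Continuous.integrable_of_hasCompactSupport
    · exact hF.continuous.mul (Complex.continuous_re.comp
        (hbc.matrix_adjugate.matrix_mul hFc).matrix_trace)
    · exact hc.mul_right
  rw [← hz]
  apply integral_mono hi1 hi2
  intro z
  by_cases hzs : z ∈ tsupport F
  · have h3 := trace_adj_nonneg (hess b z) _ (h1 z hzs) (rank_one hF z)
    rw [Matrix.mul_sub, Matrix.trace_sub, Matrix.mul_smul, Matrix.trace_smul, Complex.sub_re,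
      smul_eq_mul, Complex.re_ofReal_mul] at h3
    simp only
    linarith
  · simp only
    rw [hess_off hzs, hess_off (fun h' => hzs (hsub h'))]
    simp

end TE2

section
variable {n : ℕ}

theorem energy_neg {b F : Cn n → ℝ} (hb : ContDiff ℝ ∞ b) (hF : ContDiff ℝ ∞ F) (hc : HasCompactSupport F)
    (h1 : ∀ z ∈ tsupport F, (hess b z).PosSemidef)
    (h2 : ∀ z ∈ tsupport F, (hess (fun y => b y + F y) z).PosSemidef) :
    ∫ z, F z * ((hess (fun y => b y + F y) z).det.re - (hess b z).det.re) ≤ 0 := by
  rw [path_formula b F F hb hF hF hc]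
  have key : ∀ τ ∈ Icc (0 : ℝ) 1,
      ∫ z, F z * (((hess b z + (τ : ℂ) • hess F z).adjugate * hess F z).trace).re ≤ 0 := by
    intro τ hτ
    have hbτ : ContDiff ℝ ∞ (fun z => b z + τ * F z) := hb.add (contDiff_const.mul hF)
    have h := TE2.step (b := fun z => b z + τ * F z) hbτ hF hc ?_
    · simp_rw [hess_add_smul b F hb hF τ] at h
      exact h
    · intro z hz
      rw [hess_add_smul b F hb hF τ]
      have e : hess b z + (τ : ℂ) • hess F z =
          ((1 - τ : ℝ) : ℂ) • hess b z + ((τ : ℝ) : ℂ) • hess (fun y => b y + F y) z := by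
        have := hess_add_smul b F hb hF 1 z
        simp only [one_mul, Complex.ofReal_one, one_smul] at this
        rw [this]
        push_cast
        module
      rw [e]
      exact ((h1 z hz).smul (by exact_mod_cast (sub_nonneg.2 hτ.2))).add
        ((h2 z hz).smul (by exact_mod_cast hτ.1))
  have h3 := intervalIntegral.integral_nonneg (a := (0 : ℝ)) (b := 1) (μ := volume)
    (f := fun τ : ℝ => -∫ z, F z * (((hess b z + (τ : ℂ) • hess F z).adjugate * hess F z).trace).re)
    zero_le_one (fun τ hτ => by simpa using key τ hτ)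
  rw [intervalIntegral.integral_neg] at h3
  linarith

end

end Pool.Agent.H805K
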