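import Mathlib
import Pool.Agent.H805R2.Lite
import Pool.Agent.H805K.UpperCmp

/-!
Extension of a decreasing sequence of smooth psh functions near a closed ball to a decreasing
sequence of global smooth psh functions, all equal to the same paraboloid off a compact set.
-/

set_option autoImplicit false
set_option maxHeartbeats 1000000

open MeasureTheory Metric Set Filter Topology
open scoped ContDiff ComplexOrder

namespace Pool.Agent.H805K
open Pool.Agent.H805R2

variable {n : ℕ}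

namespace TE3a

/-- the paraboloid used for the extension -/
noncomputable def qq (x0 : Cn n) (r L c : ℝ) (z : Cn n) : ℝ :=
  L * (‖z - x0‖ ^ 2 - (3 / 4 * r) ^ 2) - c

lemma qq_smooth (x0 : Cn n) (r L c : ℝ) : ContDiff ℝ ∞ (qq x0 r L c) := by
  unfold qq
  exact (contDiff_const.mul ((Up.sqd_smooth x0).sub contDiff_const)).sub contDiff_const

lemma qq_eq (x0 : Cn n) (r L c : ℝ) : qq x0 r L c =
    fun z => (fun y => L * Up.sqd x0 y) z + (-(L * (3 / 4 * r) ^ 2) - c) := by
  funext z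
  simp only [qq, Up.sqd]
  ring

lemma qq_hess (x0 : Cn n) (r L c : ℝ) (z : Cn n) :
    hess (qq x0 r L c) z = (L : ℂ) • hess (Up.sqd x0) z := by
  rw [qq_eq, hess_add_const _ (contDiff_const.mul (Up.sqd_smooth x0)),
    hess_const_mul _ (Up.sqd_smooth x0)]

lemma qq_psd (x0 : Cn n) (r : ℝ) {L : ℝ} (hL : 0 ≤ L) (c : ℝ) (z : Cn n) :
    (hess (qq x0 r L c) z).PosSemidef := by
  rw [qq_eq, hess_add_const _ (contDiff_const.mul (Up.sqd_smooth x0)),
    psd_iff (contDiff_const.mul (Up.sqd_smooth x0))]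
  intro ζ
  rw [levi_const_mul _ ((Up.sqd_smooth x0).of_le ss_le), Up.sqd_levi]
  positivity

/-- the extension with an explicit paraboloid -/
theorem extend_seq' {x0 : Cn n} {r A : ℝ} (hr : 0 < r) {v : ℕ → Cn n → ℝ}
    (hv : ∀ k, ContDiff ℝ ∞ (v k)) (hvp : ∀ k, ∀ z ∈ closedBall x0 r, (hess (v k) z).PosSemidef)
    (hvA : ∀ k, ∀ z ∈ closedBall x0 r, |v k z| ≤ A)
    (hanti : ∀ z ∈ closedBall x0 r, Antitone fun k => v k z) :
    ∃ (L : ℝ) (V : ℕ → Cn n → ℝ) (A' : ℝ), 0 < L ∧ (∀ k, ContDiff ℝ ∞ (V k)) ∧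
      (∀ k z, (hess (V k) z).PosSemidef) ∧
      (∀ k z, z ∉ closedBall x0 (7 / 8 * r) → V k z = qq x0 r L (A + 1) z) ∧
      (∀ z, Antitone fun k => V k z) ∧
      (∀ k z, |V k z - qq x0 r L (A + 1) z| ≤ A') ∧
      (∀ k, ∀ z ∈ ball x0 (5 / 8 * r), V k z = v k z - c0) := by
  have hA : 0 ≤ A := (abs_nonneg _).trans (hvA 0 x0 (mem_closedBall_self hr.le))
  set L : ℝ := 2 * (A + 1) * 64 / (13 * r ^ 2) with hL
  have hLpos : 0 < L := by positivity
  have hLr : L * (13 / 64 * r ^ 2) = 2 * (A + 1) := by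
    rw [hL]
    field_simp
  set q : Cn n → ℝ := qq x0 r L (A + 1) with hq
  have hqs : ContDiff ℝ ∞ q := qq_smooth _ _ _ _
  have hqfar : ∀ z : Cn n, 7 / 8 * r ≤ ‖z - x0‖ → A + 1 ≤ q z := by
    intro z hz
    have h1 : (7 / 8 * r) ^ 2 ≤ ‖z - x0‖ ^ 2 := pow_le_pow_left₀ (by positivity) hz 2
    have h2 : L * (13 / 64 * r ^ 2) ≤ L * (‖z - x0‖ ^ 2 - (3 / 4 * r) ^ 2) := by
      apply mul_le_mul_of_nonneg_left _ hLpos.le
      nlinarith
    simp only [hq, qq]
    linarith
  have hqnear : ∀ z : Cn n, ‖z - x0‖ ≤ 5 / 8 * r → q z ≤ -A - 1 := by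
    intro z hz
    have h1 : ‖z - x0‖ ^ 2 ≤ (5 / 8 * r) ^ 2 := pow_le_pow_left₀ (norm_nonneg _) hz 2
    have h2 : L * (‖z - x0‖ ^ 2 - (3 / 4 * r) ^ 2) ≤ 0 := by
      apply mul_nonpos_of_nonneg_of_nonpos hLpos.le
      nlinarith [sq_nonneg r]
    simp only [hq, qq]
    linarith
  have hqlow : ∀ z : Cn n, -(L * (3 / 4 * r) ^ 2) - (A + 1) ≤ q z := by
    intro z
    have h2 : L * (-(3 / 4 * r) ^ 2) ≤ L * (‖z - x0‖ ^ 2 - (3 / 4 * r) ^ 2) := by
      apply mul_le_mul_of_nonneg_left _ hLpos.le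
      nlinarith [sq_nonneg ‖z - x0‖]
    simp only [hq, qq]
    linarith
  obtain ⟨χ, hχs, hχc, hχb, hχ1, hχ01⟩ := cutoff (isCompact_closedBall x0 (15 / 16 * r)) isOpen_ball
    (closedBall_subset_ball (by linarith : 15 / 16 * r < r))
  have hχ0 : ∀ z, z ∉ closedBall x0 r → χ z = 0 := fun z hz =>
    image_eq_zero_of_notMem_tsupport fun h => hz (ball_subset_closedBall (hχb h))
  set a : ℕ → Cn n → ℝ := fun k z => χ z * v k z with ha
  have has : ∀ k, ContDiff ℝ ∞ (a k) := fun k => hχs.mul (hv k)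
  have haA : ∀ k z, |a k z| ≤ A := by
    intro k z
    simp only [ha]
    by_cases hz : z ∈ closedBall x0 r
    · rw [abs_mul, abs_of_nonneg (hχ01 z).1]
      calc χ z * |v k z| ≤ 1 * A := mul_le_mul (hχ01 z).2 (hvA k z hz) (abs_nonneg _) zero_le_one
        _ = A := one_mul A
    · rw [hχ0 z hz, zero_mul, abs_zero]
      exact hA
  have haanti : ∀ z, Antitone fun k => a k z := by
    intro z k l hkl
    simp only [ha]
    by_cases hz : z ∈ closedBall x0 r
    · exact mul_le_mul_of_nonneg_left (hanti z hz hkl) (hχ01 z).1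
    · rw [hχ0 z hz, zero_mul, zero_mul]
  have hav : ∀ k, ∀ z ∈ closedBall x0 (15 / 16 * r), a k z = v k z := by
    intro k z hz
    simp only [ha]
    rw [hχ1 z hz, one_mul]
  have hfar : ∀ k z, 7 / 8 * r ≤ ‖z - x0‖ → glue 1 q (a k) z = q z := by
    intro k z hz
    apply glue_of_le one_pos
    have h1 := hqfar z hz
    have h2 := (abs_le.1 (haA k z)).2
    linarith
  refine ⟨L, fun k => glue 1 q (a k), 2 * A + 1 + L * (3 / 4 * r) ^ 2, hLpos,
    fun k => glue_smooth 1 hqs (has k), ?_, ?_, ?_, ?_, ?_⟩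
  · intro k z
    by_cases hz : ‖z - x0‖ < 15 / 16 * r
    · apply glue_psd one_pos hqs (has k) z (qq_psd x0 r hLpos.le _ z)
      have h1 : hess (a k) z = hess (v k) z := by
        apply hess_congr
        have h2 : z ∈ ball x0 (15 / 16 * r) := by rwa [mem_ball, dist_eq_norm]
        filter_upwards [isOpen_ball.mem_nhds h2] with y hy
        exact hav k y (ball_subset_closedBall hy)
      rw [h1]
      apply hvp k z
      rw [mem_closedBall, dist_eq_norm]
      linarith
    · have h1 : hess (glue 1 q (a k)) z = hess q z := by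
        apply hess_congr
        have h2 : ∀ᶠ y in 𝓝 z, 7 / 8 * r < ‖y - x0‖ := by
          have h3 : Continuous fun y : Cn n => ‖y - x0‖ := by fun_prop
          exact (h3.tendsto z).eventually (lt_mem_nhds (by linarith))
        filter_upwards [h2] with y hy
        exact hfar k y hy.le
      rw [h1]
      exact qq_psd x0 r hLpos.le _ z
  · intro k z hz
    apply hfar k z
    rw [mem_closedBall, dist_eq_norm, not_le] at hz
    exact hz.le
  · intro z k l hkl
    simp only [glue]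
    have h1 := haanti z hkl
    simp only at h1
    have h2 : sm ((a l z - q z) / 1) ≤ sm ((a k z - q z) / 1) := sm_mono (by linarith)
    linarith
  · intro k z
    have h1 := le_glue_left one_pos q (a k) z
    have h2 := glue_le one_pos q (a k) z
    have h3 := (abs_le.1 (haA k z)).2
    have h4 := hqlow z
    have h5 : 0 ≤ L * (3 / 4 * r) ^ 2 := by positivity
    rw [abs_le]
    constructor
    · linarith
    · rcases max_le_iff.1 (le_refl (max (q z) (a k z))) with ⟨-, -⟩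
      rcases le_total (q z) (a k z) with h6 | h6
      · rw [max_eq_right h6] at h2
        linarith
      · rw [max_eq_left h6] at h2
        linarith
  · intro k z hz
    have hz' : ‖z - x0‖ < 5 / 8 * r := by rwa [mem_ball, dist_eq_norm] at hz
    have h1 := hqnear z hz'.le
    have h2 : z ∈ closedBall x0 (15 / 16 * r) := by
      rw [mem_closedBall, dist_eq_norm]
      linarith
    have h3 := (abs_le.1 (haA k z)).1
    have h4 : q z + 1 ≤ a k z := by linarith
    change glue 1 q (a k) z = v k z - c0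
    rw [glue_of_ge one_pos h4, hav k z h2, mul_one]

end TE3a

theorem extend_seq {x0 : Cn n} {r A : ℝ} (hr : 0 < r) {v : ℕ → Cn n → ℝ}
    (hv : ∀ k, ContDiff ℝ ∞ (v k)) (hvp : ∀ k, ∀ z ∈ closedBall x0 r, (hess (v k) z).PosSemidef)
    (hvA : ∀ k, ∀ z ∈ closedBall x0 r, |v k z| ≤ A)
    (hanti : ∀ z ∈ closedBall x0 r, Antitone fun k => v k z) :
    ∃ (q : Cn n → ℝ) (V : ℕ → Cn n → ℝ) (c A' : ℝ), ContDiff ℝ ∞ q ∧ (∀ k, ContDiff ℝ ∞ (V k)) ∧
      (∀ z, (hess q z).PosSemidef) ∧ (∀ k z, (hess (V k) z).PosSemidef) ∧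
      (∀ k z, z ∉ closedBall x0 (7 / 8 * r) → V k z = q z) ∧ (∀ z, Antitone fun k => V k z) ∧
      (∀ k z, |V k z - q z| ≤ A') ∧ (∀ k, ∀ z ∈ ball x0 (5 / 8 * r), V k z = v k z - c) := by
  obtain ⟨L, V, A', hL, h1, h2, h3, h4, h5, h6⟩ := TE3a.extend_seq' hr hv hvp hvA hanti
  exact ⟨TE3a.qq x0 r L (A + 1), V, c0, A', TE3a.qq_smooth _ _ _ _, h1,
    TE3a.qq_psd _ _ hL.le _, h2, h3, h4, h5, h6⟩

end Pool.Agent.H805K
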