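import Mathlib
import Pool.Agent.H805K.BaseT
import Pool.Agent.H805K.Calc
import Pool.Agent.H805K.UpperCmp
import Pool.Agent.H805K.TE1

/-!
Monge-Ampère integrals along a decreasing sequence: the error is controlled by the energy.
-/

set_option autoImplicit false
set_option maxHeartbeats 1000000

open MeasureTheory Metric Set Filter Topology
open scoped ContDiff ComplexOrder Interval

namespace Pool.Agent.H805K
open Pool.Agent.H805R2

namespace TE3b

variable {n : ℕ}

/-- the determinant of `P + τ` through the eigenvalues -/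
lemma det_add_smul {P : Matrix (Fin n) (Fin n) ℂ} (hP : P.IsHermitian) (τ : ℂ) :
    (P + τ • (1 : Matrix (Fin n) (Fin n) ℂ)).det = ∏ i, ((hP.eigenvalues i : ℂ) + τ) := by
  have h1 := hP.charpoly_eq
  have h2 : (P.charpoly).eval (-τ) = (-1) ^ n * (P + τ • (1 : Matrix (Fin n) (Fin n) ℂ)).det := by
    rw [Matrix.eval_charpoly]
    have h3 : Matrix.scalar (Fin n) (-τ) - P = -(P + τ • (1 : Matrix (Fin n) (Fin n) ℂ)) := by
      rw [Matrix.scalar_apply, ← Matrix.smul_one_eq_diagonal]
      rw [neg_smul, neg_add]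
      abel
    rw [h3, Matrix.det_neg, Fintype.card_fin]
  rw [h1, Polynomial.eval_prod] at h2
  have h4 : ∏ j, Polynomial.eval (-τ) (Polynomial.X - Polynomial.C ((hP.eigenvalues j : ℝ) : ℂ)) =
      (-1) ^ n * ∏ i, ((hP.eigenvalues i : ℂ) + τ) := by
    have : ∀ j, Polynomial.eval (-τ) (Polynomial.X - Polynomial.C ((hP.eigenvalues j : ℝ) : ℂ)) =
        (-1) * ((hP.eigenvalues j : ℂ) + τ) := by
      intro j
      simp only [Polynomial.eval_sub, Polynomial.eval_X, Polynomial.eval_C]
      ring
    simp_rw [this]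
    rw [Finset.prod_mul_distrib, Finset.prod_const, Finset.card_univ, Fintype.card_fin]
  have h5 : ((-1 : ℂ) ^ n) ≠ 0 := pow_ne_zero _ (by norm_num)
  apply mul_left_cancel₀ h5
  rw [← h4]
  exact h2.symm

lemma sum_prod_erase_le (x : Fin n → ℝ) (hx : ∀ i, 0 ≤ x i) :
    ∑ i, ∏ j ∈ Finset.univ.erase i, x j ≤ ∏ i, (x i + 1) := by
  classical
  have h1 : ∏ i, (x i + 1) = ∑ t ∈ (Finset.univ : Finset (Fin n)).powerset, ∏ i ∈ t, x i := by
    rw [Finset.prod_add_one]
  rw [h1]
  have hinj : Set.InjOn (fun i : Fin n => (Finset.univ : Finset (Fin n)).erase i)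
      ((Finset.univ : Finset (Fin n)) : Set (Fin n)) := by
    intro i _ j _ hij
    by_contra hne
    have : i ∈ (Finset.univ : Finset (Fin n)).erase j := Finset.mem_erase.2 ⟨hne, Finset.mem_univ _⟩
    have hij' : (Finset.univ : Finset (Fin n)).erase i = (Finset.univ : Finset (Fin n)).erase j := hij
    rw [← hij'] at this
    simp at this
  calc ∑ i, ∏ j ∈ Finset.univ.erase i, x j
      = ∑ t ∈ Finset.univ.image (fun i : Fin n => (Finset.univ : Finset (Fin n)).erase i),
          ∏ i ∈ t, x i := (Finset.sum_image (f := fun t => ∏ i ∈ t, x i) hinj).symm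
    _ ≤ ∑ t ∈ (Finset.univ : Finset (Fin n)).powerset, ∏ i ∈ t, x i := by
        apply Finset.sum_le_sum_of_subset_of_nonneg
        · intro t _
          simp
        · intro t _ _
          exact Finset.prod_nonneg fun i _ => hx i

lemma trace_adj_le {P : Matrix (Fin n) (Fin n) ℂ} (hP : P.PosSemidef) :
    (P.adjugate.trace).re ≤ ((1 + P).det).re := by
  have hH : P.IsHermitian := hP.1
  have h1 := det_path P 1 0
  simp only [zero_smul, add_zero, mul_one] at h1
  have h2 : (fun τ : ℂ => (P + τ • (1 : Matrix (Fin n) (Fin n) ℂ)).det) =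
      fun τ : ℂ => ∏ i, ((hH.eigenvalues i : ℂ) + τ) := by
    funext τ
    exact det_add_smul hH τ
  rw [h2] at h1
  have h3 : HasDerivAt (fun τ : ℂ => ∏ i, ((hH.eigenvalues i : ℂ) + τ))
      (∑ i, (∏ j ∈ Finset.univ.erase i, ((hH.eigenvalues j : ℂ) + 0)) • (1 : ℂ)) 0 := by
    have := HasDerivAt.fun_finsetProd (u := (Finset.univ : Finset (Fin n)))
      (f := fun i (τ : ℂ) => ((hH.eigenvalues i : ℂ) + τ)) (f' := fun _ => (1 : ℂ)) (x := 0)
      (fun i _ => (hasDerivAt_id (0 : ℂ)).const_add _)
    exact this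
  have h4 := h1.unique h3
  have h5 : (1 + P).det = ∏ i, ((hH.eigenvalues i : ℂ) + 1) := by
    have := det_add_smul hH 1
    rw [one_smul] at this
    rw [add_comm, this]
  rw [h4, h5]
  have e1 : (∑ i, (∏ j ∈ Finset.univ.erase i, ((hH.eigenvalues j : ℂ) + 0)) • (1 : ℂ)) =
      ((∑ i, ∏ j ∈ Finset.univ.erase i, hH.eigenvalues j : ℝ) : ℂ) := by
    push_cast
    simp
  have e2 : (∏ i, ((hH.eigenvalues i : ℂ) + 1)) = ((∏ i, (hH.eigenvalues i + 1) : ℝ) : ℂ) := by
    push_cast
    rfl
  rw [e1, e2, Complex.ofReal_re, Complex.ofReal_re]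
  exact sum_prod_erase_le _ (fun i => hP.eigenvalues_nonneg i)

/-- the complex Hessian of `|z|²` -/
lemma hess_sqd (z : Cn n) : hess (Up.sqd 0) z = 1 := by
  have hs : ContDiff ℝ 2 (Up.sqd (0 : Cn n)) := (Up.sqd_smooth 0).of_le ss_le
  have hform : ∀ x : Fin n → ℂ, star x ⬝ᵥ ((hess (Up.sqd 0) z).mulVec x) =
      star x ⬝ᵥ ((1 : Matrix (Fin n) (Fin n) ℂ).mulVec x) := by
    intro x
    have h1 := levi_eq_qf hs z (WithLp.toLp 2 fun j => star (x j))
    rw [Up.sqd_levi] at h1
    simp only [star_star] at h1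
    have h2 : (fun k => x k) = x := rfl
    rw [h2] at h1
    rw [← h1, Matrix.one_mulVec, EuclideanSpace.norm_sq_eq]
    simp only [dotProduct, Pi.star_apply]
    push_cast
    apply Finset.sum_congr rfl
    intro i _
    simp only [norm_star]
    rw [← Complex.ofReal_pow, ← Complex.normSq_eq_norm_sq, Complex.normSq_eq_conj_mul_self]
    rfl
  have hsub : ∀ x : Fin n → ℂ, star x ⬝ᵥ ((hess (Up.sqd 0) z - 1).mulVec x) = 0 := by
    intro x
    rw [Matrix.sub_mulVec, dotProduct_sub, hform, sub_self]
  have hherm : (hess (Up.sqd 0) z - 1).IsHermitian :=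
    (hess_isHermitian hs z).sub Matrix.isHermitian_one
  have h1 : (hess (Up.sqd 0) z - 1).PosSemidef :=
    Matrix.PosSemidef.of_dotProduct_mulVec_nonneg hherm (fun x => by rw [hsub])
  have h2 : (hess (Up.sqd 0) z - 1).trace = 0 := by
    rw [Matrix.trace]
    apply Finset.sum_eq_zero
    intro i _
    have := hsub (Pi.single i 1)
    simpa using this
  exact sub_eq_zero.1 (h1.trace_eq_zero_iff.1 h2)


lemma sqd_psd_add {u : Cn n → ℝ} (hu : ContDiff ℝ ∞ u) (z : Cn n) :
    hess (fun y => u y + Up.sqd 0 y) z = 1 + hess u z := by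
  have h := hess_add_smul u (Up.sqd 0) hu (Up.sqd_smooth 0) 1 z
  simp only [one_mul, Complex.ofReal_one, one_smul] at h
  rw [h, hess_sqd, add_comm]

/-- the Hessian along the segment from `u` to `v` -/
lemma hess_seg {u v : Cn n → ℝ} (hu : ContDiff ℝ ∞ u) (hv : ContDiff ℝ ∞ v) (τ : ℝ) (z : Cn n) :
    hess u z + (τ : ℂ) • hess (fun y => v y - u y) z =
      ((1 - τ : ℝ) : ℂ) • hess u z + (τ : ℂ) • hess v z := by
  have h1 := hess_add_smul u (fun z => v z - u z) hu (hv.sub hu) 1 z
  have e1 : (fun z => u z + 1 * (v z - u z)) = v := by funext z; ring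
  rw [e1] at h1
  simp only [Complex.ofReal_one, one_smul] at h1
  rw [h1, smul_add]
  push_cast
  module

lemma seg_psd {u v : Cn n → ℝ} (hu : ContDiff ℝ ∞ u) (hv : ContDiff ℝ ∞ v) {τ : ℝ} (hτ : τ ∈ Icc (0 : ℝ) 1)
    {z : Cn n} (h1 : (hess u z).PosSemidef) (h2 : (hess v z).PosSemidef) :
    (hess u z + (τ : ℂ) • hess (fun y => v y - u y) z).PosSemidef := by
  rw [hess_seg hu hv]
  exact (h1.smul (by exact_mod_cast (by linarith [hτ.2] : 0 ≤ 1 - τ))).add
      (h2.smul (by exact_mod_cast hτ.1))

/-- the Hessian of the segment between `u + |z|²` and `v + |z|²` -/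
lemma hess_seg_one {u v : Cn n → ℝ} (hu : ContDiff ℝ ∞ u) (hv : ContDiff ℝ ∞ v) (τ : ℝ) (z : Cn n) :
    hess (fun y => (u y + Up.sqd 0 y) + τ * ((v y + Up.sqd 0 y) - (u y + Up.sqd 0 y))) z =
      1 + (hess u z + (τ : ℂ) • hess (fun y => v y - u y) z) := by
  have e : (fun y => (u y + Up.sqd 0 y) + τ * ((v y + Up.sqd 0 y) - (u y + Up.sqd 0 y))) =
      fun y => (fun y => u y + τ * (v y - u y)) y + Up.sqd 0 y := by
    funext y; ring
  rw [e, sqd_psd_add (hu.add (contDiff_const.mul (hv.sub hu))), hess_add_smul u _ hu (hv.sub hu) τ z]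

lemma psd_one_add {P : Matrix (Fin n) (Fin n) ℂ} (hP : P.PosSemidef) : (1 + P).PosSemidef :=
  Matrix.PosSemidef.one.add hP

lemma det_one_nonneg {P : Matrix (Fin n) (Fin n) ℂ} (hP : P.PosSemidef) : 0 ≤ P.det.re :=
  (Complex.nonneg_iff.1 hP.det_nonneg).1

/-- the pointwise estimate -/
lemma pt_est {P G : Matrix (Fin n) (Fin n) ℂ} {c d : ℝ} (hP : P.PosSemidef)
    (hG : (G + (c : ℂ) • 1).PosSemidef) (hc : 0 ≤ c) (hd : d ≤ 0) :
    d * ((P.adjugate * G).trace).re ≤ (-c * d) * ((1 + P).det).re := by
  have h1 := trace_adj_nonneg P _ hP hG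
  have h2 : ((P.adjugate * (G + (c : ℂ) • 1)).trace).re =
      ((P.adjugate * G).trace).re + c * (P.adjugate.trace).re := by
    rw [Matrix.mul_add, Matrix.trace_add, Complex.add_re, Matrix.mul_smul, Matrix.mul_one,
      Matrix.trace_smul, smul_eq_mul, Complex.re_ofReal_mul]
  rw [h2] at h1
  have h3 := trace_adj_le hP
  have h4 : -c * ((1 + P).det).re ≤ ((P.adjugate * G).trace).re := by
    have : c * (P.adjugate.trace).re ≤ c * ((1 + P).det).re := mul_le_mul_of_nonneg_left h3 hc
    linarith
  have h5 := mul_le_mul_of_nonpos_left h4 hd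
  calc d * ((P.adjugate * G).trace).re ≤ d * (-c * ((1 + P).det).re) := h5
    _ = _ := by ring

/-- one step: the difference of the two integrals is controlled by the difference of energies -/
lemma step {q u v F : Cn n → ℝ} {C : Set (Cn n)} {c : ℝ} (hC : IsCompact C)
    (hq : ContDiff ℝ ∞ q) (hu : ContDiff ℝ ∞ u) (hv : ContDiff ℝ ∞ v) (hF : ContDiff ℝ ∞ F)
    (hup : ∀ z, (hess u z).PosSemidef) (hvp : ∀ z, (hess v z).PosSemidef)
    (huo : ∀ z, z ∉ C → u z = q z) (hvo : ∀ z, z ∉ C → v z = q z) (hle : ∀ z, v z ≤ u z)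
    (hc : 0 ≤ c) (hFc : ∀ z, (hess F z + (c : ℂ) • 1).PosSemidef) :
    ∫ z, F z * ((hess v z).det.re - (hess u z).det.re) ≤
      c * (En (fun y => q y + Up.sqd 0 y) (fun y => u y + Up.sqd 0 y) -
        En (fun y => q y + Up.sqd 0 y) (fun y => v y + Up.sqd 0 y)) := by
  set S : Cn n → ℝ := Up.sqd 0 with hS
  have hSs : ContDiff ℝ ∞ S := Up.sqd_smooth 0
  set D : Cn n → ℝ := fun z => v z - u z with hD
  have hDs : ContDiff ℝ ∞ D := hv.sub hu
  have hD0 : ∀ z, z ∉ C → D z = 0 := fun z hz => by
    simp only [hD]; rw [huo z hz, hvo z hz, sub_self]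
  have hcs : ∀ f : Cn n → ℝ, (∀ z, z ∉ C → f z = 0) → HasCompactSupport f := by
    intro f hf
    apply HasCompactSupport.of_support_subset_isCompact hC
    intro z hz
    by_contra h
    exact hz (hf z h)
  have hDn : ∀ z, D z ≤ 0 := fun z => by simp only [hD]; linarith [hle z]
  have hres : ∀ f : Cn n → ℝ, (∀ z, z ∉ C → f z = 0) → ∫ z, f z = ∫ z in C, f z := fun f hf =>
    (setIntegral_eq_integral_of_forall_compl_eq_zero hf).symm
  have huc := hess_continuous (hu.of_le ss_le)
  have hDc := hess_continuous (hDs.of_le ss_le)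
  have hFcc := hess_continuous (hF.of_le ss_le)
  -- the path formula
  have hpath := path_formula u D F hu hDs hF (hcs D hD0)
  have e1 : (fun z => u z + D z) = v := by funext z; simp only [hD]; ring
  rw [e1] at hpath
  rw [hpath]
  -- the energy difference
  have hen := En_diff (q := fun y => q y + S y) (u := fun y => u y + S y) (v := fun y => v y + S y)
    (hq.add hSs) (hu.add hSs) (hv.add hSs)
    (hcs _ fun z hz => by rw [huo z hz, sub_self])
    (hcs _ fun z hz => by rw [hvo z hz, sub_self])
  have e2 : c * (En (fun y => q y + S y) (fun y => u y + S y) -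
        En (fun y => q y + S y) (fun y => v y + S y)) =
      ∫ τ in (0 : ℝ)..1, ∫ z, (-c * D z) * (1 + (hess u z + (τ : ℂ) • hess D z)).det.re := by
    have h1 : c * (En (fun y => q y + S y) (fun y => u y + S y) -
        En (fun y => q y + S y) (fun y => v y + S y)) = (-c) * (En (fun y => q y + S y) (fun y => v y + S y) -
        En (fun y => q y + S y) (fun y => u y + S y)) := by ring
    rw [h1, hen, ← intervalIntegral.integral_const_mul]
    apply intervalIntegral.integral_congr
    intro τ _
    simp only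
    rw [← integral_const_mul]
    congr 1
    funext z
    rw [hS, hess_seg_one hu hv τ z]
    simp only [hD]
    ring
  rw [e2]
  -- comparison
  have hP : Continuous fun p : ℝ × Cn n => hess u p.2 + (p.1 : ℂ) • hess D p.2 :=
    (huc.comp continuous_snd).add
      ((Complex.continuous_ofReal.comp continuous_fst).smul (hDc.comp continuous_snd))
  have hL : Continuous fun p : ℝ × Cn n => D p.2 *
      (((hess u p.2 + (p.1 : ℂ) • hess D p.2).adjugate * hess F p.2).trace).re :=
    (hDs.continuous.comp continuous_snd).mul (Complex.continuous_re.comp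
      ((hP.matrix_adjugate.matrix_mul (hFcc.comp continuous_snd)).matrix_trace))
  have hR : Continuous fun p : ℝ × Cn n => (-c * D p.2) *
      (1 + (hess u p.2 + (p.1 : ℂ) • hess D p.2)).det.re :=
    (continuous_const.mul (hDs.continuous.comp continuous_snd)).mul (Complex.continuous_re.comp
      (continuous_const.add hP).matrix_det)
  have rL : ∀ τ : ℝ, ∫ z, D z * (((hess u z + (τ : ℂ) • hess D z).adjugate * hess F z).trace).re =
      ∫ z in C, D z * (((hess u z + (τ : ℂ) • hess D z).adjugate * hess F z).trace).re := fun τ =>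
    hres _ fun z hz => by rw [hD0 z hz, zero_mul]
  have rR : ∀ τ : ℝ, ∫ z, (-c * D z) * (1 + (hess u z + (τ : ℂ) • hess D z)).det.re =
      ∫ z in C, (-c * D z) * (1 + (hess u z + (τ : ℂ) • hess D z)).det.re := fun τ =>
    hres _ fun z hz => by rw [hD0 z hz, mul_zero, zero_mul]
  simp_rw [rL, rR]
  have cL : Continuous fun τ : ℝ => ∫ z in C, D z *
      (((hess u z + (τ : ℂ) • hess D z).adjugate * hess F z).trace).re :=
    continuous_parametric_integral_of_continuous (f := fun (τ : ℝ) z => D z *
      (((hess u z + (τ : ℂ) • hess D z).adjugate * hess F z).trace).re) hL hC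
  have cR : Continuous fun τ : ℝ => ∫ z in C, (-c * D z) *
      (1 + (hess u z + (τ : ℂ) • hess D z)).det.re :=
    continuous_parametric_integral_of_continuous (f := fun (τ : ℝ) z => (-c * D z) *
      (1 + (hess u z + (τ : ℂ) • hess D z)).det.re) hR hC
  apply intervalIntegral.integral_mono_on zero_le_one (cL.intervalIntegrable _ _) (cR.intervalIntegrable _ _)
  intro τ hτ
  have hs : Continuous fun z : Cn n => ((τ, z) : ℝ × Cn n) := Continuous.prodMk continuous_const continuous_id
  apply setIntegral_mono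
  · exact (hL.comp hs).continuousOn.integrableOn_compact hC
  · exact (hR.comp hs).continuousOn.integrableOn_compact hC
  · intro z
    exact pt_est (seg_psd hu hv hτ (hup z) (hvp z)) (hFc z) hc (hDn z)

end TE3b

open TE3b in
theorem energy_cauchy {n : ℕ} {q : Cn n → ℝ} {V : ℕ → Cn n → ℝ} {A' : ℝ} {C : Set (Cn n)} (hC : IsCompact C)
    (hq : ContDiff ℝ ∞ q) (hV : ∀ k, ContDiff ℝ ∞ (V k))
    (hqp : ∀ z, (hess q z).PosSemidef) (hVp : ∀ k z, (hess (V k) z).PosSemidef)
    (hoff : ∀ k z, z ∉ C → V k z = q z) (hanti : ∀ z, Antitone fun k => V k z)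
    (hA : ∀ k z, |V k z - q z| ≤ A') :
    ∃ e : ℕ → ℝ, Tendsto e atTop (𝓝 0) ∧ ∀ j k, j ≤ k → ∀ (F : Cn n → ℝ) (c : ℝ), ContDiff ℝ ∞ F →
      HasCompactSupport F → 0 ≤ c → (∀ z, (hess F z + (c : ℂ) • 1).PosSemidef) →
      ∫ z, F z * (hess (V k) z).det.re ≤ (∫ z, F z * (hess (V j) z).det.re) + c * e j := by
  set S : Cn n → ℝ := Up.sqd 0 with hS
  have hSs : ContDiff ℝ ∞ S := Up.sqd_smooth 0
  set E : ℕ → ℝ := fun k => En (fun y => q y + S y) (fun y => V k y + S y) with hE
  have hcs : ∀ f : Cn n → ℝ, (∀ z, z ∉ C → f z = 0) → HasCompactSupport f := by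
    intro f hf
    apply HasCompactSupport.of_support_subset_isCompact hC
    intro z hz
    by_contra h
    exact hz (hf z h)
  -- E is antitone
  have hEanti : Antitone E := by
    intro j k hjk
    have hen := En_diff (q := fun y => q y + S y) (u := fun y => V j y + S y) (v := fun y => V k y + S y)
      (hq.add hSs) ((hV j).add hSs) ((hV k).add hSs)
      (hcs _ fun z hz => by rw [hoff j z hz, sub_self])
      (hcs _ fun z hz => by rw [hoff k z hz, sub_self])
    have h0 : (∫ τ in (0 : ℝ)..1, ∫ z, ((V k z + S z) - (V j z + S z)) *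
        (hess (fun y => (V j y + S y) + τ * ((V k y + S y) - (V j y + S y))) z).det.re) ≤ 0 := by
      have h1 : 0 ≤ ∫ τ in (0 : ℝ)..1, -∫ z, ((V k z + S z) - (V j z + S z)) *
        (hess (fun y => (V j y + S y) + τ * ((V k y + S y) - (V j y + S y))) z).det.re := by
        apply intervalIntegral.integral_nonneg zero_le_one
        intro τ hτ
        rw [← integral_neg]
        apply integral_nonneg
        intro z
        simp only [Pi.zero_apply]
        rw [hS, hess_seg_one (hV j) (hV k) τ z]
        have h2 := det_one_nonneg (psd_one_add (seg_psd (hV j) (hV k) hτ (hVp j z) (hVp k z)))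
        have h3 : V k z ≤ V j z := hanti z hjk
        nlinarith
      rw [intervalIntegral.integral_neg] at h1
      linarith
    rw [← hen] at h0
    simp only [hE]
    linarith
  -- E is bounded below
  have hEbdd : BddBelow (range E) := by
    refine ⟨-(A' * ∫ z in C, (hess (fun y => q y + S y) z).det.re), ?_⟩
    rintro _ ⟨k, rfl⟩
    have hstk : ∀ τ : ℝ, ∫ z in C, (hess (fun y => (q y + S y) + τ * ((V k y + S y) - (q y + S y))) z).det.re =
        ∫ z in C, (hess (fun y => q y + S y) z).det.re := by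
      intro τ
      apply stokes_on _ _ (hq.add hSs) ((hq.add hSs).add (contDiff_const.mul (((hV k).add hSs).sub (hq.add hSs)))) C hC
      intro z hz
      rw [hoff k z hz]
      ring
    have hk : E k = ∫ τ in (0 : ℝ)..1, ∫ z in C, (V k z - q z) *
        (1 + (hess q z + (τ : ℂ) • hess (fun y => V k y - q y) z)).det.re := by
      simp only [hE]
      unfold En
      apply intervalIntegral.integral_congr
      intro τ _
      simp only
      rw [← setIntegral_eq_integral_of_forall_compl_eq_zero (s := C)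
        (f := fun z => ((V k z + S z) - (q z + S z)) *
          (hess (fun y => (q y + S y) + τ * ((V k y + S y) - (q y + S y))) z).det.re)
        (fun z hz => by rw [hoff k z hz, sub_self, zero_mul])]
      congr 1
      funext z
      rw [hS, hess_seg_one hq (hV k) τ z]
      ring
    have hst2 : ∀ τ : ℝ, ∫ z in C, (1 + (hess q z + (τ : ℂ) • hess (fun y => V k y - q y) z)).det.re =
        ∫ z in C, (hess (fun y => q y + S y) z).det.re := by
      intro τ
      rw [← hstk τ]
      congr 1
      funext z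
      rw [hS, hess_seg_one hq (hV k) τ z]
    have hqc := hess_continuous (hq.of_le ss_le)
    have hDs : ContDiff ℝ ∞ (fun y => V k y - q y) := (hV k).sub hq
    have hDc := hess_continuous (hDs.of_le ss_le)
    have hP : Continuous fun p : ℝ × Cn n => (1 + (hess q p.2 + (p.1 : ℂ) • hess (fun y => V k y - q y) p.2)).det.re :=
      Complex.continuous_re.comp (continuous_const.add ((hqc.comp continuous_snd).add
        ((Complex.continuous_ofReal.comp continuous_fst).smul (hDc.comp continuous_snd)))).matrix_det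
    have hL : Continuous fun p : ℝ × Cn n => (V k p.2 - q p.2) *
        (1 + (hess q p.2 + (p.1 : ℂ) • hess (fun y => V k y - q y) p.2)).det.re :=
      (hDs.continuous.comp continuous_snd).mul hP
    have cL : Continuous fun τ : ℝ => ∫ z in C, (V k z - q z) *
        (1 + (hess q z + (τ : ℂ) • hess (fun y => V k y - q y) z)).det.re :=
      continuous_parametric_integral_of_continuous (f := fun (τ : ℝ) z => (V k z - q z) *
        (1 + (hess q z + (τ : ℂ) • hess (fun y => V k y - q y) z)).det.re) hL hC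
    rw [hk]
    have hconst : -(A' * ∫ z in C, (hess (fun y => q y + S y) z).det.re) =
        ∫ τ in (0 : ℝ)..1, -(A' * ∫ z in C, (hess (fun y => q y + S y) z).det.re) := by
      simp
    rw [hconst]
    apply intervalIntegral.integral_mono_on zero_le_one (by simp) (cL.intervalIntegrable _ _)
    intro τ hτ
    have hs : Continuous fun z : Cn n => ((τ, z) : ℝ × Cn n) := Continuous.prodMk continuous_const continuous_id
    rw [← hst2 τ, ← integral_const_mul, ← integral_neg]
    apply setIntegral_mono
    · exact ((continuous_const.mul (hP.comp hs)).neg).continuousOn.integrableOn_compact hC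
    · exact (hL.comp hs).continuousOn.integrableOn_compact hC
    · intro z
      simp only
      have h2 := det_one_nonneg (psd_one_add (seg_psd hq (hV k) hτ (hqp z) (hVp k z)))
      have h3 := (abs_le.1 (hA k z)).1
      nlinarith
  refine ⟨fun j => E j - ⨅ i, E i, ?_, ?_⟩
  · have h1 := tendsto_atTop_ciInf hEanti hEbdd
    have h2 := h1.sub_const (⨅ i, E i)
    rwa [sub_self] at h2
  · intro j k hjk F c hF hFc hc hFp
    have h1 := step (q := q) hC hq (hV j) (hV k) hF (hVp j) (hVp k) (hoff j) (hoff k)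
      (fun z => hanti z hjk) hc hFp
    have i1 : ∀ i, Integrable fun z => F z * (hess (V i) z).det.re := fun i =>
      (hF.continuous.mul (det_hess_continuous (hV i))).integrable_of_hasCompactSupport hFc.mul_right
    have h2 : ∫ z, F z * ((hess (V k) z).det.re - (hess (V j) z).det.re) =
        (∫ z, F z * (hess (V k) z).det.re) - ∫ z, F z * (hess (V j) z).det.re := by
      rw [← integral_sub (i1 k) (i1 j)]
      congr 1
      funext z
      ring
    rw [h2] at h1
    have h3 : ⨅ i, E i ≤ E k := ciInf_le hEbdd k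
    have h4 : c * (E j - E k) ≤ c * (E j - ⨅ i, E i) := mul_le_mul_of_nonneg_left (by linarith) hc
    simp only
    simp only [hE] at h1 h4 ⊢
    linarith

end Pool.Agent.H805K
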