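import Mathlib
import Pool.Agent.H805R2.Gauss
import Pool.Agent.H805K.BaseT
import Pool.Agent.H805K.UpperCmp
import Pool.Agent.H805K.TaskD
import Pool.Agent.H805K.TE2

set_option autoImplicit false
set_option maxHeartbeats 1000000

open MeasureTheory Metric Set Filter Topology
open scoped ContDiff ComplexOrder Interval

namespace Pool.Agent.H805K
open Pool.Agent.H805R2

variable {n : ℕ}

namespace TE3c

/-- positivity of `hess F + c` -/
lemma psd_add {F : Cn n → ℝ} (hF : ContDiff ℝ ∞ F) (c : ℝ) (z : Cn n)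
    (h : ∀ ζ, 0 ≤ levi F z ζ + c * ‖ζ‖ ^ 2) : (hess F z + (c : ℂ) • 1).PosSemidef := by
  have hF2 : ContDiff ℝ 2 F := hF.of_le ss_le
  have hherm : (hess F z + (c : ℂ) • (1 : Matrix (Fin n) (Fin n) ℂ)).IsHermitian := by
    apply (hess_isHermitian hF2 z).add
    rw [Matrix.IsHermitian, Matrix.conjTranspose_smul, Matrix.conjTranspose_one]
    simp
  refine Matrix.PosSemidef.of_dotProduct_mulVec_nonneg hherm ?_
  intro x
  have h1 := h (WithLp.toLp 2 (fun j => star (x j)))
  rw [← QF_levi hF2, ← QF_add_smul_one] at h1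
  unfold QF Gram.qf at h1
  simp only [star_star] at h1
  rw [Complex.nonneg_iff]
  refine ⟨h1, ?_⟩
  have h3 := hherm.im_star_dotProduct_mulVec_self x
  exact h3.symm

/-- the Levi form is bounded on compact sets -/
lemma levi_bdd {F : Cn n → ℝ} (hF : ContDiff ℝ ∞ F) {K : Set (Cn n)} (hK : IsCompact K) :
    ∃ C : ℝ, 0 ≤ C ∧ ∀ z ∈ K, ∀ ζ, levi F z ζ ≤ C * ‖ζ‖ ^ 2 := by
  have hF2 : ContDiff ℝ 2 F := hF.of_le ss_le
  have hcont : Continuous (fderiv ℝ (fderiv ℝ F)) :=
    ((hF2.fderiv_right (m := 1) (by norm_num)).continuous_fderiv (by norm_num))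
  obtain ⟨C, hC⟩ := hK.exists_bound_of_continuousOn (E := Cn n →L[ℝ] Cn n →L[ℝ] ℝ) hcont.continuousOn
  refine ⟨max C 0, le_max_right _ _, fun z hz ζ => ?_⟩
  have key : ∀ ξ : Cn n, D2 F z ξ ξ ≤ max C 0 * ‖ξ‖ ^ 2 := by
    intro ξ
    calc D2 F z ξ ξ ≤ |D2 F z ξ ξ| := le_abs_self _
      _ = ‖(fderiv ℝ (fderiv ℝ F) z) ξ ξ‖ := (Real.norm_eq_abs _).symm
      _ ≤ ‖fderiv ℝ (fderiv ℝ F) z‖ * ‖ξ‖ * ‖ξ‖ := ContinuousLinearMap.le_opNorm₂ _ _ _
      _ ≤ max C 0 * ‖ξ‖ * ‖ξ‖ := by
          have : ‖fderiv ℝ (fderiv ℝ F) z‖ ≤ max C 0 := (hC z hz).trans (le_max_left _ _)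
          gcongr
      _ = max C 0 * ‖ξ‖ ^ 2 := by ring
  have k1 := key ζ
  have k2 := key (Complex.I • ζ)
  rw [norm_smul, Complex.norm_I, one_mul] at k2
  unfold levi
  have : 0 ≤ max C 0 * ‖ζ‖ ^ 2 := by positivity
  linarith

/-- translation of the hessian -/
lemma hess_translate {u : Cn n → ℝ} (x z : Cn n) :
    hess (fun y => u (y + x)) z = hess u (z + x) := by
  have e1 : ∀ k : Fin n, (wdb k fun w => ((u (w + x) : ℝ) : ℂ)) = fun w => wdb k (fun w => (u w : ℂ)) (w + x) := by
    intro k
    funext w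
    unfold wdb
    have : fderiv ℝ (fun w => ((u (w + x) : ℝ) : ℂ)) w = fderiv ℝ (fun w => (u w : ℂ)) (w + x) :=
      fderiv_comp_add_right (f := fun w => (u w : ℂ)) x
    rw [this]
  ext j k
  simp only [hess, Matrix.of_apply]
  rw [e1 k]
  unfold wd
  have : fderiv ℝ (fun w => wdb k (fun w => (u w : ℂ)) (w + x)) z =
      fderiv ℝ (wdb k (fun w => (u w : ℂ))) (z + x) :=
    fderiv_comp_add_right (f := wdb k (fun w => (u w : ℂ))) x
  rw [this]

/-- submean value property on balls -/
lemma mean_at {u : Cn n → ℝ} (hu : ContDiff ℝ ∞ u) {x : Cn n} {s R : ℝ} (hs : 0 < s) (hsR : s < R)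
    (h : ∀ z ∈ ball x R, (hess u z).PosSemidef) :
    (volume (ball x s)).toReal * u x ≤ ∫ z in ball x s, u z := by
  have hu' : ContDiff ℝ ∞ (fun y => u (y + x)) := hu.comp (contDiff_id.add contDiff_const)
  have h1 := ball_mean hu' hs hsR (fun z hz => by
    rw [hess_translate]
    apply h
    rw [mem_ball_iff_norm]
    simpa using hz)
  simp only [zero_add] at h1
  have h2 : (volume (ball (0 : Cn n) s)) = volume (ball x s) :=
    (Measure.addHaar_ball_center volume x s).symm
  have h3 : ∫ z in ball (0 : Cn n) s, u (z + x) = ∫ z in ball x s, u z := by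
    have h4 : MeasurePreserving (fun z : Cn n => z + x) volume volume := measurePreserving_add_right volume x
    have h5 := h4.setIntegral_preimage_emb (MeasurableEquiv.addRight x).measurableEmbedding u (ball x s)
    rw [← h5]
    congr 2
    ext z
    simp
  rw [h2, h3] at h1
  exact h1

lemma levi_congr {f g : Cn n → ℝ} (hf : ContDiff ℝ ∞ f) (hg : ContDiff ℝ ∞ g) {z : Cn n}
    (h : f =ᶠ[𝓝 z] g) (ζ : Cn n) : levi f z ζ = levi g z ζ := by
  rw [← QF_levi (hf.of_le ss_le), ← QF_levi (hg.of_le ss_le), hess_congr h]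

lemma psd_congr {f g : Cn n → ℝ} {z : Cn n} (h : f =ᶠ[𝓝 z] g) (hg : (hess g z).PosSemidef) :
    (hess f z).PosSemidef := by
  rw [hess_congr h]; exact hg

/-- one step of the argument: the estimate of the mass of the glued function -/
lemma step {x0 : Cn n} {r α β η Ch M δ : ℝ} (hr : 0 < r) (hη : 0 < η)
    {Vj h2 : Cn n → ℝ} (hVj : ContDiff ℝ ∞ Vj) (hVp : ∀ z, (hess Vj z).PosSemidef)
    (hh2 : ContDiff ℝ ∞ h2) (hhp : ∀ z ∈ closedBall x0 r, (hess h2 z).PosSemidef)
    (hhα : ∀ z ∈ closedBall x0 r, maDensity h2 z ≤ α) (hCh0 : 0 ≤ Ch)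
    (hCh : ∀ z ∈ closedBall x0 r, ∀ ζ, levi h2 z ζ ≤ Ch * ‖ζ‖ ^ 2)
    (hout : ∀ z ∈ closedBall x0 (9 / 16 * r), r / 2 ≤ ‖z - x0‖ → Vj z < h2 z)
    (hM : ∫ z in closedBall x0 (7 / 8 * r), maDensity Vj z ≤ M)
    (hδ : ∀ F : Cn n → ℝ, ContDiff ℝ ∞ F → HasCompactSupport F → tsupport F ⊆ ball x0 (9 / 16 * r) →
      (∀ z, 0 ≤ F z) → (∀ z, (hess F z + (Ch : ℂ) • 1).PosSemidef) →
      β * ∫ z, F z ≤ (∫ z, F z * maDensity Vj z) + δ) :
    ∃ F : Cn n → ℝ, ContDiff ℝ ∞ F ∧ HasCompactSupport F ∧ (∀ z, 0 ≤ F z) ∧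
      (∀ z ∈ ball x0 (r / 2), Vj z - h2 z - η ≤ F z) ∧
      β * (∫ z, F z) ≤ α * (∫ z, F z) + η * M + δ := by
  set w : Cn n → ℝ := glue η h2 Vj with hw
  have hws : ContDiff ℝ ∞ w := glue_smooth η hh2 hVj
  obtain ⟨χ, hχs, hχc, hχb, hχ1, hχ01⟩ := cutoff (isCompact_closedBall x0 (r / 2))
    (isOpen_ball (x := x0) (ε := 9 / 16 * r)) (closedBall_subset_ball (by linarith))
  set F : Cn n → ℝ := fun z => χ z * (w z - h2 z) with hF
  have hFs : ContDiff ℝ ∞ F := hχs.mul (hws.sub hh2)
  have hFc : HasCompactSupport F := hχc.mul_right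
  have hwh : ∀ z, h2 z ≤ w z := fun z => le_glue_left hη h2 Vj z
  have hF0 : ∀ z, 0 ≤ F z := fun z => mul_nonneg (hχ01 z).1 (by linarith [hwh z])
  have hFts : tsupport F ⊆ ball x0 (9 / 16 * r) := by
    refine subset_trans (closure_mono ?_) hχb
    intro z hz hz2
    exact hz (by simp [hF, hz2])
  have hsub : ball x0 (9 / 16 * r) ⊆ closedBall x0 r :=
    ball_subset_closedBall.trans (closedBall_subset_closedBall (by linarith))
  have hFw : ∀ z ∈ ball x0 (9 / 16 * r), F z = w z - h2 z := by
    intro z hz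
    simp only [hF]
    by_cases hzK : z ∈ closedBall x0 (r / 2)
    · rw [hχ1 z hzK, one_mul]
    · have h1 : Vj z < h2 z := hout z (ball_subset_closedBall hz) (by
        rw [mem_closedBall, dist_eq_norm, not_le] at hzK
        exact hzK.le)
      have h3 : w z = h2 z := glue_of_le hη h1.le
      rw [h3]; ring
  have hwp : ∀ z ∈ ball x0 (9 / 16 * r), (hess w z).PosSemidef := fun z hz =>
    glue_psd hη hh2 hVj z (hhp z (hsub hz)) (hVp z)
  have hnear : ∀ z ∈ ball x0 (9 / 16 * r), F =ᶠ[𝓝 z] fun y => w y - h2 y := by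
    intro z hz
    filter_upwards [isOpen_ball.mem_nhds hz] with y hy
    exact hFw y hy
  have hFlev : ∀ z, (hess F z + (Ch : ℂ) • 1).PosSemidef := by
    intro z
    apply psd_add hFs
    intro ζ
    by_cases hz : z ∈ tsupport F
    · have hz' := hFts hz
      rw [levi_congr hFs (hws.sub hh2) (hnear z hz') ζ, levi_sub (hws.of_le ss_le) (hh2.of_le ss_le)]
      have h1 := (psd_iff hws z).1 (hwp z hz') ζ
      have h3 := hCh z (hsub hz') ζ
      linarith
    · have h1 : F =ᶠ[𝓝 z] fun _ => 0 := notMem_tsupport_iff_eventuallyEq.1 hz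
      rw [levi_congr hFs contDiff_const h1 ζ, levi_const]
      positivity
  have hmain := hδ F hFs hFc hFts hF0 hFlev
  refine ⟨F, hFs, hFc, hF0, ?_, ?_⟩
  · intro z hz
    rw [hFw z (ball_subset_ball (by linarith) hz)]
    have h1 := le_glue_right hη h2 Vj z
    have h3 := mul_le_mul_of_nonneg_right c0_le_one hη.le
    simp only [hw]
    linarith
  · -- the comparison
    have hκ : 0 ≤ (n.factorial : ℝ) * (2 / Real.pi) ^ n := by
      have := Real.pi_pos
      positivity
    have iV : Integrable fun z => F z * maDensity Vj z :=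
      (hFs.continuous.mul (maDensity_continuous hVj)).integrable_of_hasCompactSupport hFc.mul_right
    have iw : Integrable fun z => F z * maDensity w z :=
      (hFs.continuous.mul (maDensity_continuous hws)).integrable_of_hasCompactSupport hFc.mul_right
    have ih : Integrable fun z => F z * maDensity h2 z :=
      (hFs.continuous.mul (maDensity_continuous hh2)).integrable_of_hasCompactSupport hFc.mul_right
    have iF : Integrable F := hFs.continuous.integrable_of_hasCompactSupport hFc
    have iC : IntegrableOn (maDensity Vj) (closedBall x0 (7 / 8 * r)) :=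
      (maDensity_continuous hVj).continuousOn.integrableOn_compact (isCompact_closedBall _ _)
    have iC' : Integrable ((closedBall x0 (7 / 8 * r)).indicator (fun z => η * maDensity Vj z)) :=
      (integrable_indicator_iff measurableSet_closedBall).2 (iC.const_mul η)
    have s1 : ∫ z, F z * maDensity Vj z ≤ (∫ z, F z * maDensity w z) + η * M := by
      have hpt : ∀ z, F z * maDensity Vj z ≤ F z * maDensity w z +
          (closedBall x0 (7 / 8 * r)).indicator (fun z => η * maDensity Vj z) z := by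
        intro z
        have hVn := maDensity_nonneg (hVp z)
        have hind : 0 ≤ (closedBall x0 (7 / 8 * r)).indicator (fun z => η * maDensity Vj z) z :=
          indicator_nonneg (fun y _ => mul_nonneg hη.le (maDensity_nonneg (hVp y))) z
        by_cases hz : z ∈ tsupport F
        · have hz' := hFts hz
          by_cases hcase : h2 z + η < Vj z
          · have h1 : w =ᶠ[𝓝 z] fun y => Vj y + (-(c0 * η)) := by
              have hopen : ∀ᶠ y in 𝓝 z, h2 y + η < Vj y := by
                have := (hh2.continuous.add continuous_const).continuousAt.eventually_lt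
                  hVj.continuous.continuousAt hcase
                exact this
              filter_upwards [hopen] with y hy
              simp only [hw]
              rw [glue_of_ge hη hy.le]
              ring
            have h3 : maDensity w z = maDensity Vj z := by
              unfold maDensity
              rw [hess_congr h1, hess_add_const _ hVj]
            rw [h3]
            linarith
          · have h1 : F z ≤ η := by
              rw [hFw z hz']
              have h3 := glue_le hη h2 Vj z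
              have h4 : max (h2 z) (Vj z) ≤ h2 z + η := max_le (by linarith) (not_lt.1 hcase)
              simp only [hw]
              linarith
            have h3 : z ∈ closedBall x0 (7 / 8 * r) :=
              closedBall_subset_closedBall (by linarith) (ball_subset_closedBall hz')
            rw [indicator_of_mem h3]
            have h4 := mul_nonneg (hF0 z) (maDensity_nonneg (hwp z hz'))
            have h5 := mul_le_mul_of_nonneg_right h1 hVn
            linarith
        · rw [image_eq_zero_of_notMem_tsupport hz, zero_mul, zero_mul, zero_add]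
          exact hind
      have h1 := integral_mono iV (iw.add iC') hpt
      have h3 : ∫ z, (F z * maDensity w z +
          (closedBall x0 (7 / 8 * r)).indicator (fun z => η * maDensity Vj z) z) =
          (∫ z, F z * maDensity w z) + η * ∫ z in closedBall x0 (7 / 8 * r), maDensity Vj z := by
        rw [integral_add iw iC', integral_indicator measurableSet_closedBall, integral_const_mul]
      have h4 : ∫ z, F z * maDensity Vj z ≤ (∫ z, F z * maDensity w z) +
          η * ∫ z in closedBall x0 (7 / 8 * r), maDensity Vj z := by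
        rw [← h3]; exact h1
      have h5 := mul_le_mul_of_nonneg_left hM hη.le
      linarith
    have hsum : ∀ z ∈ ball x0 (9 / 16 * r), (fun y => h2 y + F y) =ᶠ[𝓝 z] w := by
      intro z hz
      filter_upwards [isOpen_ball.mem_nhds hz] with y hy
      rw [hFw y hy]; ring
    have s2 : ∫ z, F z * maDensity w z ≤ ∫ z, F z * maDensity h2 z := by
      have h1 := energy_neg hh2 hFs hFc (fun z hz => hhp z (hsub (hFts hz)))
        (fun z hz => psd_congr (hsum z (hFts hz)) (hwp z (hFts hz)))
      have h3 : ∫ z, F z * ((hess (fun y => h2 y + F y) z).det.re - (hess h2 z).det.re) =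
          (∫ z, F z * (hess w z).det.re) - ∫ z, F z * (hess h2 z).det.re := by
        rw [← integral_sub]
        · apply integral_congr_ae
          refine Eventually.of_forall fun z => ?_
          simp only
          by_cases hz : z ∈ tsupport F
          · rw [hess_congr (hsum z (hFts hz))]; ring
          · rw [image_eq_zero_of_notMem_tsupport hz]; ring
        · exact (hFs.continuous.mul (det_hess_continuous hws)).integrable_of_hasCompactSupport hFc.mul_right
        · exact (hFs.continuous.mul (det_hess_continuous hh2)).integrable_of_hasCompactSupport hFc.mul_right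
      rw [h3] at h1
      have e : ∀ u : Cn n → ℝ, ∫ z, F z * maDensity u z =
          ((n.factorial : ℝ) * (2 / Real.pi) ^ n) * ∫ z, F z * (hess u z).det.re := by
        intro u
        rw [← integral_const_mul]
        congr 1
        funext z
        unfold maDensity
        ring
      rw [e, e]
      apply mul_le_mul_of_nonneg_left _ hκ
      linarith
    have s3 : ∫ z, F z * maDensity h2 z ≤ α * ∫ z, F z := by
      rw [← integral_const_mul]
      apply integral_mono ih (iF.const_mul α)
      intro z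
      simp only
      by_cases hz : z ∈ tsupport F
      · have h1 := mul_le_mul_of_nonneg_left (hhα z (hsub (hFts hz))) (hF0 z)
        linarith
      · rw [image_eq_zero_of_notMem_tsupport hz]; simp
    linarith

/-- The statement of `extend_seq` (task E3a). -/
def ExtendSeq (n : ℕ) : Prop :=
  ∀ {x0 : Cn n} {r A : ℝ}, 0 < r → ∀ {v : ℕ → Cn n → ℝ},
    (∀ k, ContDiff ℝ ∞ (v k)) → (∀ k, ∀ z ∈ closedBall x0 r, (hess (v k) z).PosSemidef) →
    (∀ k, ∀ z ∈ closedBall x0 r, |v k z| ≤ A) →
    (∀ z ∈ closedBall x0 r, Antitone fun k => v k z) →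
    ∃ (q : Cn n → ℝ) (V : ℕ → Cn n → ℝ) (c A' : ℝ), ContDiff ℝ ∞ q ∧ (∀ k, ContDiff ℝ ∞ (V k)) ∧
      (∀ z, (hess q z).PosSemidef) ∧ (∀ k z, (hess (V k) z).PosSemidef) ∧
      (∀ k z, z ∉ closedBall x0 (7 / 8 * r) → V k z = q z) ∧ (∀ z, Antitone fun k => V k z) ∧
      (∀ k z, |V k z - q z| ≤ A') ∧ (∀ k, ∀ z ∈ ball x0 (5 / 8 * r), V k z = v k z - c)

/-- The statement of `energy_cauchy` (task E3b). -/
def EnergyCauchy (n : ℕ) : Prop :=
  ∀ {q : Cn n → ℝ} {V : ℕ → Cn n → ℝ} {A' : ℝ} {C : Set (Cn n)}, IsCompact C →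
    ContDiff ℝ ∞ q → (∀ k, ContDiff ℝ ∞ (V k)) →
    (∀ z, (hess q z).PosSemidef) → (∀ k z, (hess (V k) z).PosSemidef) →
    (∀ k z, z ∉ C → V k z = q z) → (∀ z, Antitone fun k => V k z) →
    (∀ k z, |V k z - q z| ≤ A') →
    ∃ e : ℕ → ℝ, Tendsto e atTop (𝓝 0) ∧ ∀ j k, j ≤ k → ∀ (F : Cn n → ℝ) (c : ℝ), ContDiff ℝ ∞ F →
      HasCompactSupport F → 0 ≤ c → (∀ z, (hess F z + (c : ℂ) • 1).PosSemidef) →
      ∫ z, F z * (hess (V k) z).det.re ≤ (∫ z, F z * (hess (V j) z).det.re) + c * e j

end TE3c

open TE3c in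
/-- `core_dom` from `extend_seq` and `energy_cauchy`. -/
theorem core_dom_of (hext : ExtendSeq n) (hen : EnergyCauchy n) (_hn : 0 < n) {x0 : Cn n} {r A α β : ℝ} (hr : 0 < r) (_hα : 0 ≤ α) (hαβ : α < β)
    {v : ℕ → Cn n → ℝ} {g h : Cn n → ℝ}
    (hv : ∀ k, ContDiff ℝ ∞ (v k)) (hvp : ∀ k, ∀ z ∈ closedBall x0 r, (hess (v k) z).PosSemidef)
    (hvA : ∀ k, ∀ z ∈ closedBall x0 r, |v k z| ≤ A)
    (hanti : ∀ z ∈ closedBall x0 r, Antitone fun k => v k z)
    (hlim : ∀ z ∈ closedBall x0 r, Tendsto (fun k => v k z) atTop (𝓝 (g z)))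
    (hweak : ∀ χ : Cn n → ℝ, Continuous χ → HasCompactSupport χ → tsupport χ ⊆ ball x0 r →
      (∀ z, 0 ≤ χ z) → ∃ L : ℝ, β * ∫ z, χ z ≤ L ∧
        Tendsto (fun k => ∫ z, χ z * maDensity (v k) z) atTop (𝓝 L))
    (hh : ContDiff ℝ ∞ h) (hhp : ∀ z ∈ closedBall x0 r, (hess h z).PosSemidef)
    (hhα : ∀ z ∈ closedBall x0 r, maDensity h z ≤ α)
    (hout : ∀ z ∈ closedBall x0 r, r / 2 ≤ ‖z - x0‖ → g z < h z) : g x0 ≤ h x0 := by
  by_contra hcon
  push Not at hcon
  obtain ⟨q, V, c, A', hq, hV, hqp, hVp, hoff, hVanti, hA', hVv⟩ := hext hr hv hvp hvA hanti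
  obtain ⟨e, he, hec⟩ := hen (isCompact_closedBall x0 (7 / 8 * r)) hq hV hqp hVp hoff hVanti hA'
  set h2 : Cn n → ℝ := fun z => h z + (-c) with hh2def
  have hh2 : ContDiff ℝ ∞ h2 := hh.add contDiff_const
  have hh2h : ∀ z, hess h2 z = hess h z := fun z => hess_add_const _ hh z
  obtain ⟨Ch, hCh0, hCh⟩ := levi_bdd hh2 (isCompact_closedBall x0 r)
  have hxr : x0 ∈ closedBall x0 r := mem_closedBall_self hr.le
  set κ : ℝ := (n.factorial : ℝ) * (2 / Real.pi) ^ n with hκdef
  have hκ : 0 ≤ κ := by
    have := Real.pi_pos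
    positivity
  have h916 : closedBall x0 (9 / 16 * r) ⊆ closedBall x0 r := closedBall_subset_closedBall (by linarith)
  have h58 : closedBall x0 (9 / 16 * r) ⊆ ball x0 (5 / 8 * r) := closedBall_subset_ball (by linarith)
  -- Dini
  set K : Set (Cn n) := closedBall x0 (9 / 16 * r) ∩ {z | r / 2 ≤ ‖z - x0‖} with hKdef
  have hK : IsCompact K := (isCompact_closedBall x0 (9 / 16 * r)).inter_right
    (isClosed_le continuous_const (by fun_prop))
  obtain ⟨j0, hj0⟩ := dini_lt v g h hK (fun k => (hv k).continuous.continuousOn)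
    (fun z hz => hanti z (h916 hz.1)) (fun z hz => hlim z (h916 hz.1)) hh.continuous.continuousOn
    (fun z hz => hout z (h916 hz.1) hz.2)
  set M : ℝ := ∫ z in closedBall x0 (7 / 8 * r), maDensity q z with hMdef
  have hM : ∀ j, ∫ z in closedBall x0 (7 / 8 * r), maDensity (V j) z = M := by
    intro j
    simp only [hMdef, maDensity]
    rw [integral_const_mul, integral_const_mul,
      stokes_on q (V j) hq (hV j) _ (isCompact_closedBall x0 (7 / 8 * r)) (hoff j)]
  -- the small ball
  set γ : ℝ := (g x0 - h x0) / 2 with hγ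
  have hγ0 : 0 < γ := by rw [hγ]; linarith
  obtain ⟨s0, hs0, hs0h⟩ : ∃ s0 > 0, ∀ z ∈ ball x0 s0, h z ≤ h x0 + γ := by
    have h1 : ∀ᶠ z in 𝓝 x0, h z < h x0 + γ :=
      hh.continuous.continuousAt.eventually_lt continuousAt_const (by linarith)
    obtain ⟨s0, hs0, hs⟩ := Metric.eventually_nhds_iff_ball.1 h1
    exact ⟨s0, hs0, fun z hz => (hs z hz).le⟩
  set s : ℝ := min s0 (r / 2) with hs
  have hspos : 0 < s := lt_min hs0 (by linarith)
  have hsr : s ≤ r / 2 := min_le_right _ _
  set vol : ℝ := (volume (ball x0 s)).toReal with hvol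
  have hvolpos : 0 < vol := ENNReal.toReal_pos (measure_ball_pos volume x0 hspos).ne' measure_ball_lt_top.ne
  have key : ∀ η : ℝ, 0 < η → ∀ j ≥ j0, (β - α) * (vol * (γ - η)) ≤ η * M + κ * (Ch * e j) := by
    intro η hη j hj
    obtain ⟨F, hFs, hFc, hF0, hFlow, hFm⟩ := step (α := α) (β := β) (δ := κ * (Ch * e j)) (M := M) hr hη (hV j) (hVp j) hh2
      (fun z hz => by rw [hh2h]; exact hhp z hz)
      (fun z hz => by
        have := hhα z hz
        unfold maDensity at this ⊢
        rw [hh2h]; exact this) hCh0 hCh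
      (fun z hz hz2 => by
        rw [hVv j z (h58 hz)]
        have := hj0 j hj z ⟨hz, hz2⟩
        simp only [hh2def]
        linarith) (hM j).le
      (by
        intro F hFs hFc hFts hF0 hFp
        have hFts' : tsupport F ⊆ closedBall x0 (9 / 16 * r) := hFts.trans ball_subset_closedBall
        obtain ⟨L, hL1, hL2⟩ := hweak F hFs.continuous hFc
          (hFts.trans (ball_subset_ball (by linarith))) hF0
        refine hL1.trans (le_of_tendsto hL2 (eventually_atTop.2 ⟨j, fun k hk => ?_⟩))
        have e1 : ∫ z, F z * maDensity (v k) z = κ * ∫ z, F z * (hess (V k) z).det.re := by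
          rw [← integral_const_mul]
          apply integral_congr_ae
          refine Eventually.of_forall fun z => ?_
          simp only
          by_cases hz : z ∈ tsupport F
          · have h3 : V k =ᶠ[𝓝 z] fun y => v k y + (-c) := by
              filter_upwards [isOpen_ball.mem_nhds (h58 (hFts' hz))] with y hy
              rw [hVv k y hy]; ring
            rw [hess_congr h3, hess_add_const _ (hv k)]
            unfold maDensity
            ring
          · rw [image_eq_zero_of_notMem_tsupport hz]; ring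
        have e2 : ∫ z, F z * maDensity (V j) z = κ * ∫ z, F z * (hess (V j) z).det.re := by
          rw [← integral_const_mul]
          congr 1
          funext z
          unfold maDensity
          ring
        rw [e1, e2, ← mul_add]
        exact mul_le_mul_of_nonneg_left (hec j k hk F Ch hFs hFc hCh0 hFp) hκ)
    have hbs : ball x0 s ⊆ ball x0 (r / 2) := ball_subset_ball hsr
    have iF : Integrable F := hFs.continuous.integrable_of_hasCompactSupport hFc
    have hbd : ∀ u : Cn n → ℝ, Continuous u → IntegrableOn u (ball x0 s) := fun u hu =>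
      (hu.continuousOn.integrableOn_compact (isCompact_closedBall x0 s)).mono_set ball_subset_closedBall
    have l1 : ∫ z in ball x0 s, F z ≤ ∫ z, F z :=
      setIntegral_le_integral iF (Eventually.of_forall hF0)
    have l2 : ∫ z in ball x0 s, (v j z - (h x0 + γ + η)) ≤ ∫ z in ball x0 s, F z := by
      apply setIntegral_mono_on (hbd _ ((hv j).continuous.sub continuous_const)) (hbd _ hFs.continuous)
        measurableSet_ball
      intro z hz
      have h1 := hFlow z (hbs hz)
      have h3 : z ∈ ball x0 (5 / 8 * r) := ball_subset_ball (by linarith) (hbs hz)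
      rw [hVv j z h3] at h1
      have h4 := hs0h z (ball_subset_ball (min_le_left _ _) hz)
      simp only [hh2def] at h1
      change v j z - (h x0 + γ + η) ≤ F z
      linarith
    have l3 : ∫ z in ball x0 s, (v j z - (h x0 + γ + η)) =
        (∫ z in ball x0 s, v j z) - vol * (h x0 + γ + η) := by
      rw [integral_sub (hbd _ (hv j).continuous) (hbd _ continuous_const), setIntegral_const, smul_eq_mul]
      rfl
    have l4 : vol * v j x0 ≤ ∫ z in ball x0 s, v j z :=
      mean_at (hv j) hspos (R := r) (by linarith) (fun z hz => hvp j z (ball_subset_closedBall hz))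
    have l5 : g x0 ≤ v j x0 := (hanti x0 hxr).le_of_tendsto (hlim x0 hxr) j
    have l6 := mul_le_mul_of_nonneg_left l5 hvolpos.le
    have l7 : vol * (γ - η) ≤ ∫ z, F z := by
      have : vol * (γ - η) = vol * g x0 - vol * (h x0 + γ + η) := by
        rw [hγ]; ring
      linarith
    have l8 := mul_le_mul_of_nonneg_left l7 (by linarith : 0 ≤ β - α)
    linarith
  have key2 : ∀ η : ℝ, 0 < η → (β - α) * (vol * (γ - η)) ≤ η * M := by
    intro η hη
    have h1 : Tendsto (fun j => η * M + κ * (Ch * e j)) atTop (𝓝 (η * M + κ * (Ch * 0))) :=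
      tendsto_const_nhds.add ((he.const_mul Ch).const_mul κ)
    have h3 := ge_of_tendsto h1 (eventually_atTop.2 ⟨j0, fun j hj => key η hη j hj⟩)
    simpa using h3
  have key3 : (β - α) * (vol * (γ - 0)) ≤ 0 * M := by
    have c1 : Continuous fun η : ℝ => (β - α) * (vol * (γ - η)) := by fun_prop
    have c2 : Continuous fun η : ℝ => η * M := by fun_prop
    refine le_of_tendsto_of_tendsto ((c1.tendsto 0).mono_left (nhdsWithin_le_nhds (s := Ioi 0)))
      ((c2.tendsto 0).mono_left (nhdsWithin_le_nhds (s := Ioi 0))) ?_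
    filter_upwards [self_mem_nhdsWithin] with η hη using key2 η hη
  have : 0 < (β - α) * (vol * (γ - 0)) := by
    rw [sub_zero]
    exact mul_pos (by linarith) (mul_pos hvolpos hγ0)
  linarith

end Pool.Agent.H805K
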