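import Mathlib
import Pool.Agent.H805R2.Lite
import Pool.Agent.H805K.UpperCmp
import Pool.Agent.H805K.BaseT

/-!
Comparison from above without continuity of the Monge-Ampère potential: an upper barrier `h` with
`(dd^c h)ⁿ` smaller than the Monge-Ampère measure of `g` and `g ≤ h` on the boundary satisfies `g ≤ h`
inside.
-/

set_option autoImplicit false
set_option maxHeartbeats 1000000

open MeasureTheory Metric Set Filter Topology
open scoped ContDiff ComplexOrder

namespace Pool.Agent.H805K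
open Pool.Agent.H805R2

namespace TE4
open Up

variable {n : ℕ}

/-- The statement of `core_dom` (task E3c). -/
def CoreDom (n : ℕ) : Prop :=
  0 < n → ∀ {x0 : Cn n} {r A α β : ℝ}, 0 < r → 0 ≤ α → α < β →
    ∀ {v : ℕ → Cn n → ℝ} {g h : Cn n → ℝ},
    (∀ k, ContDiff ℝ ∞ (v k)) → (∀ k, ∀ z ∈ closedBall x0 r, (hess (v k) z).PosSemidef) →
    (∀ k, ∀ z ∈ closedBall x0 r, |v k z| ≤ A) →
    (∀ z ∈ closedBall x0 r, Antitone fun k => v k z) →
    (∀ z ∈ closedBall x0 r, Tendsto (fun k => v k z) atTop (𝓝 (g z))) →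
    (∀ χ : Cn n → ℝ, Continuous χ → HasCompactSupport χ → tsupport χ ⊆ ball x0 r →
      (∀ z, 0 ≤ χ z) → ∃ L : ℝ, β * ∫ z, χ z ≤ L ∧
        Tendsto (fun k => ∫ z, χ z * maDensity (v k) z) atTop (𝓝 L)) →
    ContDiff ℝ ∞ h → (∀ z ∈ closedBall x0 r, (hess h z).PosSemidef) →
    (∀ z ∈ closedBall x0 r, maDensity h z ≤ α) →
    (∀ z ∈ closedBall x0 r, r / 2 ≤ ‖z - x0‖ → g z < h z) → g x0 ≤ h x0

/-- at a maximum point of `φ - h` the complex Hessian of `h` is positive; `φ` need not be continuous -/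
lemma psd_of_max' {V : Set (Cn n)} {v : ℕ → Cn n → ℝ} {φ h : Cn n → ℝ} {x : Cn n}
    (hV : IsOpen V) (hxV : x ∈ V) (hvs : ∀ k, ContDiff ℝ ∞ (v k))
    (hvp : ∀ k, ∀ z ∈ V, (hess (v k) z).PosSemidef)
    (hva : ∀ z ∈ V, Antitone fun k => v k z)
    (hvl : ∀ z ∈ V, Tendsto (fun k => v k z) atTop (𝓝 (φ z)))
    (hh : ContDiff ℝ ∞ h)
    (hmax : ∀ z ∈ V, φ z - h z ≤ φ x - h x) : (hess h x).PosSemidef := by
  rw [psd_iff hh]
  by_contra hcon
  push Not at hcon
  obtain ⟨ζ, hζ⟩ := hcon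
  set c := -levi h x ζ with hc
  have hcpos : 0 < c := by linarith
  obtain ⟨ε, hε, hεζ⟩ : ∃ ε > 0, ε * ‖ζ‖ ^ 2 ≤ c / 4 := by
    refine ⟨c / 4 / (‖ζ‖ ^ 2 + 1), by positivity, ?_⟩
    rw [div_mul_eq_mul_div, div_le_iff₀ (by positivity)]
    nlinarith [sq_nonneg ‖ζ‖]
  have hn1 : ∀ᶠ z in 𝓝 x, levi h z ζ < -c / 2 := by
    have := (levi_continuous (hh.of_le ss_le) ζ).tendsto x
    exact this.eventually (gt_mem_nhds (by linarith))
  have hn2 : ∀ᶠ z in 𝓝 x, z ∈ V := hV.mem_nhds hxV
  obtain ⟨r, hr, hrsub⟩ := Metric.nhds_basis_closedBall.mem_iff.1 (hn1.and hn2)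
  have hK : IsCompact (closedBall x r) := isCompact_closedBall x r
  have hKV : closedBall x r ⊆ V := fun z hz => (hrsub hz).2
  obtain ⟨k, hk⟩ := dini_lt v φ (fun z => h z + (φ x - h x) + ε * r ^ 2) hK
    (fun k => (hvs k).continuous.continuousOn)
    (fun z hz => hva z (hKV hz)) (fun z hz => hvl z (hKV hz))
    (((hh.continuous.add continuous_const).add continuous_const).continuousOn)
    (fun z hz => by
      have h0 : 0 < ε * r ^ 2 := by positivity
      have h1 := hmax z (hKV hz)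
      linarith)
  set he : Cn n → ℝ := fun z => h z + ε * sqd x z with hhe
  have hhes : ContDiff ℝ ∞ he := hh.add (contDiff_const.mul (sqd_smooth x))
  set F : Cn n → ℝ := fun z => v k z - he z with hF
  have hFs : ContDiff ℝ ∞ F := (hvs k).sub hhes
  obtain ⟨y, hyK, hy⟩ := hK.exists_isMaxOn ⟨x, mem_closedBall_self hr.le⟩ hFs.continuous.continuousOn
  have hsx : sqd x x = 0 := by simp [sqd]
  have hFx : φ x - h x ≤ F x := by
    have h1 := (hva x hxV).le_of_tendsto (hvl x hxV) k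
    simp only [hF, hhe, hsx]
    linarith
  have hyball : y ∈ ball x r := by
    by_contra hcon2
    have h1 : dist y x = r := by
      rw [mem_ball, not_lt] at hcon2
      exact le_antisymm (mem_closedBall.1 hyK) hcon2
    have h2 : sqd x y = r ^ 2 := by rw [sqd, ← dist_eq_norm, h1]
    have h3 : F y < φ x - h x := by
      have := hk k le_rfl y hyK
      simp only [hF, hhe, h2]
      linarith
    have h5 : F x ≤ F y := hy (mem_closedBall_self hr.le)
    linarith
  have hloc : IsLocalMax F y := hy.isLocalMax (closedBall_mem_nhds_of_mem hyball)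
  have hlev := levi_nonpos (hFs.of_le ss_le) hloc ζ
  rw [hF, levi_sub ((hvs k).of_le ss_le) (hhes.of_le ss_le), hhe, levi_he hh] at hlev
  have h3 := (psd_iff (hvs k) y).1 (hvp k y (hKV hyK)) ζ
  have h4 : levi h y ζ < -c / 2 := (hrsub hyK).1
  linarith

/-- the potential is upper semicontinuous on compact subsets -/
lemma usc_of_MA {Ω : Set (Cn n)} (hΩ : IsOpen Ω) {g : Cn n → ℝ} {μ : Measure (Cn n)}
    (hMA : IsMongeAmpere Ω g μ) {K : Set (Cn n)} (hK : IsCompact K) (hKΩ : K ⊆ Ω) :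
    UpperSemicontinuousOn g K := by
  obtain ⟨L, hL, hKL, hLΩ⟩ := exists_compact_between hK hΩ hKΩ
  have hcl : IsCompact (closure (interior L)) :=
    hL.of_isClosed_subset isClosed_closure (closure_minimal interior_subset hL.isClosed)
  have hclΩ : closure (interior L) ⊆ Ω :=
    (closure_minimal interior_subset hL.isClosed).trans hLΩ
  obtain ⟨w, hw1, hw2, hw3, hw4, hw5⟩ := hMA.2 (interior L) isOpen_interior hcl hclΩ
  intro x hx y hy
  have hxL : x ∈ interior L := hKL hx
  obtain ⟨k, hk⟩ := ((hw4 x hxL).eventually (gt_mem_nhds hy)).exists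
  have hcont : ContinuousAt (w k) x :=
    ((hw1 k).continuousOn).continuousAt (isOpen_interior.mem_nhds hxL)
  have h1 : ∀ᶠ z in 𝓝 x, w k z < y := hcont.eventually (gt_mem_nhds hk)
  have h2 : ∀ᶠ z in 𝓝 x, z ∈ interior L := isOpen_interior.mem_nhds hxL
  apply nhdsWithin_le_nhds
  filter_upwards [h1, h2] with z hz1 hz2
  have h3 := (hw3 z hz2).le_of_tendsto (hw4 z hz2) k
  exact lt_of_le_of_lt h3 hz1

end TE4

open Up TE4

theorem dom_principle_of {n : ℕ} (hcore : CoreDom n) (hn : 0 < n) {Ω : Set (Cn n)} (hΩ : IsOpen Ω)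
    {g : Cn n → ℝ} {μ : Measure (Cn n)}
    {A : ℝ} (hgA : ∀ z ∈ Ω, -A ≤ g z) (hMA : IsMongeAmpere Ω g μ)
    {U : Set (Cn n)} (hU : IsOpen U) (hcl : IsCompact (closure U)) (hUΩ : closure U ⊆ Ω)
    {ρ : Cn n → ℝ} (hρ : Continuous ρ)
    (hρμ : ∀ χ : Cn n → ℝ, Continuous χ → HasCompactSupport χ → tsupport χ ⊆ U → (∀ z, 0 ≤ χ z) →
      ∫ z, χ z * ρ z ≤ ∫ z, χ z ∂μ)
    {h : Cn n → ℝ} (hh : ContDiff ℝ ∞ h)
    (hdet : ∀ z ∈ U, (hess h z).PosSemidef → maDensity h z < ρ z)
    (hb : ∀ z ∈ frontier U, g z ≤ h z) : ∀ z ∈ U, g z ≤ h z := by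
  by_contra hcon
  push Not at hcon
  obtain ⟨z1, hz1, hz1'⟩ := hcon
  have husc : UpperSemicontinuousOn (fun z => g z + -h z) (closure U) := by
    refine (usc_of_MA hΩ hMA hcl hUΩ).add ?_
    exact (hh.continuous.neg.continuousOn).upperSemicontinuousOn
  obtain ⟨x, hxcl, hxmax0⟩ := husc.exists_isMaxOn ⟨z1, subset_closure hz1⟩ hcl
  have hxmax : ∀ z ∈ closure U, g z - h z ≤ g x - h x := by
    intro z hz
    have := hxmax0 hz
    simp only [mem_setOf_eq] at this
    linarith
  have hpos : 0 < g x - h x := by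
    have h1 := hxmax z1 (subset_closure hz1)
    linarith
  have hxU : x ∈ U := by
    by_contra hx
    have h1 : x ∈ frontier U := by
      rw [frontier, hU.interior_eq]
      exact ⟨hxcl, hx⟩
    have := hb x h1
    linarith
  obtain ⟨V, v, hV, hxV, hVU, hvs, hvp, hva, hvl, hvc⟩ := extract_pt hMA hU hcl hUΩ hxU
  have hmax : ∀ z ∈ V, g z - h z ≤ g x - h x := fun z hz => hxmax z (subset_closure (hVU hz))
  have hP : (hess h x).PosSemidef := psd_of_max' hV hxV hvs hvp hva hvl hh hmax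
  have hlt := hdet x hxU hP
  have hheq : ∀ ε : ℝ, ∀ z, hess (fun z => h z + ε * sqd x z) z =
      hess h z + (ε : ℂ) • hess (sqd x) z :=
    fun ε z => hess_add_smul h (sqd x) hh (sqd_smooth x) ε z
  have hcε : Continuous fun ε : ℝ => maDensity (fun z => h z + ε * sqd x z) x := by
    simp only [maDensity, hheq]
    exact continuous_const.mul (Complex.continuous_re.comp (Continuous.matrix_det (by fun_prop)))
  have h0 : maDensity (fun z => h z + (0 : ℝ) * sqd x z) x < ρ x := by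
    simpa using hlt
  have hev : ∀ᶠ ε : ℝ in 𝓝[>] 0, maDensity (fun z => h z + ε * sqd x z) x < ρ x :=
    nhdsWithin_le_nhds ((hcε.tendsto 0).eventually (gt_mem_nhds h0))
  obtain ⟨ε, hερ, hε'⟩ := (hev.and self_mem_nhdsWithin).exists
  have hε : 0 < ε := hε'
  set he : Cn n → ℝ := fun z => h z + ε * sqd x z with hhe
  have hhes : ContDiff ℝ ∞ he := hh.add (contDiff_const.mul (sqd_smooth x))
  have hleh := (psd_iff hh x).1 hP
  have hPx : 0 ≤ maDensity he x := by
    apply maDensity_nonneg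
    rw [psd_iff hhes]
    intro ζ
    rw [hhe, levi_he hh]
    have := hleh ζ
    positivity
  obtain ⟨α, hα1, hα2⟩ := exists_between hερ
  obtain ⟨β, hβ1, hβ2⟩ := exists_between hα2
  have hα0 : 0 < α := lt_of_le_of_lt hPx hα1
  have hβ0 : 0 < β := hα0.trans hβ1
  have n1 : ∀ᶠ z in 𝓝 x, maDensity he z < α :=
    ((maDensity_continuous hhes).tendsto x).eventually (gt_mem_nhds hα1)
  have n2 : ∀ᶠ z in 𝓝 x, β < ρ z := (hρ.tendsto x).eventually (lt_mem_nhds hβ2)
  have n3 := levi_near (hh.of_le ss_le) x hε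
  have n4 : ∀ᶠ z in 𝓝 x, z ∈ V := hV.mem_nhds hxV
  obtain ⟨r, hr, hrsub⟩ := Metric.nhds_basis_closedBall.mem_iff.1 (n1.and (n2.and (n3.and n4)))
  have hrV : closedBall x r ⊆ V := fun z hz => (hrsub hz).2.2.2
  have hrΩ : closedBall x r ⊆ Ω := hrV.trans (hVU.trans (subset_closure.trans hUΩ))
  set δ : ℝ := ε * r ^ 2 / 8 with hδ
  have hδ0 : 0 < δ := by positivity
  set h1 : Cn n → ℝ := fun z => he z + (g x - h x - δ) with hh1
  have hh1s : ContDiff ℝ ∞ h1 := hhes.add contDiff_const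
  have hh1h : ∀ z, hess h1 z = hess he z := fun z => hess_add_const _ hhes z
  have hpsd : ∀ z ∈ closedBall x r, (hess h1 z).PosSemidef := by
    intro z hz
    rw [hh1h, psd_iff hhes]
    intro ζ
    rw [hhe, levi_he hh]
    have h1 := (hrsub hz).2.2.1 ζ
    have h2 := hleh ζ
    linarith
  -- bounds for the approximants
  obtain ⟨B, hB⟩ := (isCompact_closedBall x r).exists_bound_of_continuousOn
    (hvs 0).continuous.continuousOn
  have hvA : ∀ k, ∀ z ∈ closedBall x r, |v k z| ≤ max |A| B := by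
    intro k z hz
    rw [abs_le]
    have e1 := (hva z (hrV hz)).le_of_tendsto (hvl z (hrV hz)) k
    have e2 := hgA z (hrΩ hz)
    have e3 : v k z ≤ v 0 z := hva z (hrV hz) (Nat.zero_le k)
    have e4 := hB z hz
    rw [Real.norm_eq_abs] at e4
    have e5 := (abs_le.1 e4).2
    have e6 := le_abs_self A
    have e7 := le_max_left |A| B
    have e8 := le_max_right |A| B
    constructor <;> linarith
  have hout : ∀ z ∈ closedBall x r, r / 2 ≤ ‖z - x‖ → g z < h1 z := by
    intro z hz hz2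
    have e1 := hmax z (hrV hz)
    have e2 : ε * (r / 2) ^ 2 ≤ ε * sqd x z := by
      unfold sqd
      gcongr
    have e3 : δ < ε * (r / 2) ^ 2 := by
      rw [hδ]
      have : 0 < ε * r ^ 2 := by positivity
      nlinarith
    simp only [hh1, hhe]
    linarith
  have hfin := hcore hn (x0 := x) (r := r) (A := max |A| B) (α := α) (β := β) hr hα0.le hβ1
    (v := v) (g := g) (h := h1) hvs (fun k z hz => hvp k z (hrV hz)) hvA
    (fun z hz => hva z (hrV hz)) (fun z hz => hvl z (hrV hz))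
    (by
      intro χ hχ hχc hχr hχ0
      have hχV : tsupport χ ⊆ V := hχr.trans (ball_subset_closedBall.trans hrV)
      refine ⟨∫ z, χ z ∂μ, ?_, hvc χ hχ hχc hχV⟩
      refine le_trans ?_ (hρμ χ hχ hχc (hχV.trans hVU) hχ0)
      rw [← integral_const_mul]
      apply integral_mono
      · exact (continuous_const.mul hχ).integrable_of_hasCompactSupport hχc.mul_left
      · exact (hχ.mul hρ).integrable_of_hasCompactSupport hχc.mul_right
      · intro z
        simp only
        by_cases hz : z ∈ tsupport χ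
        · have e1 := (hrsub (ball_subset_closedBall (hχr hz))).2.1
          have e2 := mul_le_mul_of_nonneg_left e1.le (hχ0 z)
          linarith
        · rw [image_eq_zero_of_notMem_tsupport hz, zero_mul, mul_zero])
    hh1s hpsd
    (by
      intro z hz
      rw [maDensity, hh1h]
      exact (hrsub hz).1.le)
    hout
  have hsx : sqd x x = 0 := by simp [sqd]
  simp only [hh1, hhe, hsx] at hfin
  linarith

end Pool.Agent.H805K
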