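import Mathlib
import Pool.Agent.H805K.Tor4
import Pool.Agent.H805K.TLAT
import Pool.Agent.H805K.TE4

/-!
There is no bounded solution on the covering space of the torus (domination principle).
-/

set_option autoImplicit false
set_option maxHeartbeats 1000000

open MeasureTheory Metric Set Filter Topology
open scoped ContDiff ComplexOrder ENNReal

namespace Pool.Agent.H805K
open Pool.Agent.H805R2

namespace SysT
variable (S : SysT)

lemma f_le_Finf (a : ℝ) (j : ℕ) (z : Cn 3) : S.f j z ≤ S.Finf a z := by
  unfold Finf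
  have h1 := ENNReal.le_tsum (f := fun j => ∑' m : Fin 3 → ℤ × ℤ, S.f j (z - lat a m)) j
  have h2 := ENNReal.le_tsum (f := fun m : Fin 3 → ℤ × ℤ => S.f j (z - lat a m)) 0
  simp only [TLAT.lat_zero, sub_zero] at h2
  exact h2.trans h1

/-- the part of the measure belonging to one block -/
noncomputable def nuT (s : ℝ) (j : ℕ) : Measure (Cn 3) :=
  (volume.restrict (S.U j)).withDensity fun z => ENNReal.ofReal (kap * (S.ρ j z + s))

lemma nuT_le (a : ℝ) {s : ℝ} (hs : 0 < s) (j : ℕ) : S.nuT s j ≤ S.mT a s := by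
  have hk := kap_pos
  rw [Measure.le_iff]
  intro E hE
  rw [nuT, mT, withDensity_apply _ hE, withDensity_apply _ hE, Measure.restrict_restrict hE,
    inter_comm, ← Measure.restrict_restrict (S.U_open j).measurableSet,
    ← lintegral_indicator (S.U_open j).measurableSet]
  apply lintegral_mono
  intro z
  by_cases hz : z ∈ S.U j
  · rw [indicator_of_mem hz]
    have h1 := S.ρ_nonneg j z hz
    have h2 : kap * (S.ρ j z + s) = kap * S.ρ j z + s * kap := by ring
    rw [h2, ENNReal.ofReal_add (by positivity) (by positivity)]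
    have h3 := S.f_le_Finf a j z
    rw [f, indicator_of_mem hz] at h3
    exact add_le_add h3 le_rfl
  · rw [indicator_of_notMem hz]
    exact zero_le

lemma integral_nuT {s : ℝ} (hs : 0 < s) (j : ℕ) {χ : Cn 3 → ℝ} (hs' : tsupport χ ⊆ S.U j) :
    ∫ z, χ z ∂(S.nuT s j) = ∫ z, χ z * (kap * (S.ρ j z + s)) := by
  have hm : Measurable fun z => Real.toNNReal (kap * (S.ρ j z + s)) :=
    (continuous_const.mul ((S.ρ_cont j).add continuous_const)).measurable.real_toNNReal
  have e : S.nuT s j = (volume.restrict (S.U j)).withDensity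
      fun z => ((Real.toNNReal (kap * (S.ρ j z + s)) : NNReal) : ENNReal) := rfl
  rw [e, integral_withDensity_eq_integral_smul hm]
  have h1 : ∫ z in S.U j, Real.toNNReal (kap * (S.ρ j z + s)) • χ z =
      ∫ z in S.U j, χ z * (kap * (S.ρ j z + s)) := by
    refine setIntegral_congr_fun (S.U_open j).measurableSet fun z hz => ?_
    have h2 := S.ρ_nonneg j z hz
    have h3 := kap_pos
    simp only [NNReal.smul_def, smul_eq_mul]
    rw [Real.coe_toNNReal _ (by positivity), mul_comm]
  rw [h1]
  refine setIntegral_eq_integral_of_forall_compl_eq_zero fun z hz => ?_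
  rw [image_eq_zero_of_notMem_tsupport (fun h => hz (hs' h)), zero_mul]

theorem no_solT (hcore : TE4.CoreDom 3) {a s : ℝ} (ha : 4 ≤ a) (hs : 0 < s) :
    ¬ ∃ φ : Cn 3 → ℝ, (∃ B : ℝ, ∀ z, |φ z| ≤ B) ∧ IsMongeAmpere univ (fun z => ‖z‖ ^ 2 + φ z) (S.mT a s) := by
  rintro ⟨φ, ⟨B, hB⟩, hMA⟩
  obtain ⟨j, hj⟩ := exists_nat_gt (2 * B)
  have : IsFiniteMeasureOnCompacts (S.mT a s) := ⟨fun K hK => hMA.1 K hK (subset_univ K)⟩
  have hk := kap_pos
  have hcpt : IsCompact (closure (S.U j)) := (S.U_bd j).isCompact_closure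
  have hh : ContDiff ℝ ∞ (fun z => S.h j z + B) := (S.h_sm j).add contDiff_const
  have key := dom_principle_of hcore (by norm_num) (Ω := univ) isOpen_univ
    (g := fun z => ‖z‖ ^ 2 + φ z) (μ := S.mT a s) (A := B)
    (fun z _ => by
      have := (abs_le.1 (hB z)).1
      have := sq_nonneg ‖z‖
      linarith) hMA
    (U := S.U j) (S.U_open j) hcpt (subset_univ _)
    (ρ := fun z => kap * (S.ρ j z + s)) (continuous_const.mul ((S.ρ_cont j).add continuous_const))
    (by
      intro χ hχc hχs hχU hχ0
      rw [← S.integral_nuT hs j hχU]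
      exact integral_mono_measure (S.nuT_le a hs j) (Eventually.of_forall hχ0)
        (hχc.integrable_of_hasCompactSupport hχs))
    (h := fun z => S.h j z + B) hh
    (by
      intro z hz hpsd
      rw [maDensity_eq]
      rw [hess_add_const B (S.h_sm j)] at hpsd ⊢
      have h1 := S.h_det j z hz hpsd
      apply mul_lt_mul_of_pos_left _ hk
      linarith)
    (by
      intro z hz
      have h1 := S.h_bd j z hz
      have h2 := (abs_le.1 (hB z)).2
      linarith)
  have h1 := key (S.y j) (S.y_mem j)
  have h2 := S.h_y j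
  have h3 := (abs_le.1 (hB (S.y j))).1
  have h4 := sq_nonneg ‖S.y j‖
  linarith

end SysT

end Pool.Agent.H805K
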