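import Mathlib
import Pool.Agent.H805K.BaseT
import Pool.Agent.H805K.Fun
import Pool.Agent.H805K.F

set_option autoImplicit false
set_option maxHeartbeats 1000000

open MeasureTheory Metric Set Filter Topology
open scoped ContDiff ComplexOrder Interval

namespace Pool.Agent.H805K
open Pool.Agent.H805R2

namespace TH

theorem nn_sum {K N i : ℕ} (hK : 2 ≤ K) (hi : i < K) :
    nn N i + N ≤ ∑ j ∈ Finset.range K, nn N j := by
  obtain ⟨i', hi', hne⟩ : ∃ i', i' < K ∧ i ≠ i' := by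
    rcases Nat.eq_zero_or_pos i with h | h
    · exact ⟨1, by omega, by omega⟩
    · exact ⟨0, by omega, by omega⟩
  have h1 : ∑ j ∈ ({i, i'} : Finset ℕ), nn N j ≤ ∑ j ∈ Finset.range K, nn N j := by
    apply Finset.sum_le_sum_of_subset
    intro j hj
    rw [Finset.mem_insert, Finset.mem_singleton] at hj
    rw [Finset.mem_range]
    omega
  rw [Finset.sum_pair hne] at h1
  have := le_nn N i'
  omega

theorem exp_T (K N : ℕ) (R : ℝ) (z : Cn 3) (hz : 0 < ‖z 0 / (R : ℂ)‖) :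
    Real.exp (-Tf K N R z) ≤ 2 ^ K / (‖z 0 / (R : ℂ)‖ ^ ∑ j ∈ Finset.range K, nn N j) ^ 2 := by
  set x := ‖z 0 / (R : ℂ)‖ with hx
  unfold Tf
  rw [← Finset.sum_neg_distrib, Real.exp_sum]
  have h1 : ∀ j ∈ Finset.range K,
      Real.exp (-(Real.log (1 + ‖(z 0 / (R : ℂ)) ^ nn N j‖ ^ 2) - Real.log 2)) ≤
        2 / (x ^ nn N j) ^ 2 := by
    intro j _
    have h2 : (0 : ℝ) < 1 + ‖(z 0 / (R : ℂ)) ^ nn N j‖ ^ 2 := by positivity
    rw [neg_sub, Real.exp_sub, Real.exp_log two_pos, Real.exp_log h2, norm_pow, ← hx]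
    apply div_le_div_of_nonneg_left two_pos.le (by positivity)
    linarith
  refine (Finset.prod_le_prod (fun j _ => (Real.exp_pos _).le) h1).trans (le_of_eq ?_)
  rw [Finset.prod_div_distrib, Finset.prod_const, Finset.card_range, Finset.prod_pow,
    Finset.prod_pow_eq_pow_sum]

end TH

theorem exp_T_small (K : ℕ) (hK : 2 ≤ K) {R rp ε : ℝ} (hR : 0 < R) (hRr : R < rp) (hε : 0 < ε) :
    ∃ N0 : ℕ, ∀ N : ℕ, N0 ≤ N → ∀ z : Cn 3, rp ≤ ‖z 0‖ →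
      Real.exp (-Tf K N R z) * (1 + K * gg K N R (z 0)) ≤ ε := by
  have hK0 : (0 : ℝ) < K := by exact_mod_cast (by omega : 0 < K)
  have hq : 1 < rp / R := (one_lt_div hR).2 hRr
  set q : ℝ := rp / R with hqd
  have hq0 : 0 < q := by linarith
  have hs : |(q⁻¹) ^ 2| < 1 := by
    rw [abs_of_nonneg (by positivity)]
    exact pow_lt_one₀ (by positivity) (inv_lt_one_of_one_lt₀ hq) (by norm_num)
  have t0 := tendsto_pow_const_mul_const_pow_of_abs_lt_one 0 hs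
  have t2 := tendsto_pow_const_mul_const_pow_of_abs_lt_one 2 hs
  have t : Tendsto (fun N : ℕ => 2 ^ K * ((N : ℝ) ^ 0 * ((q⁻¹) ^ 2) ^ N) +
      (2 ^ K * (K * (16 ^ K) ^ 2 / R ^ 2)) * ((N : ℝ) ^ 2 * ((q⁻¹) ^ 2) ^ N)) atTop (𝓝 0) := by
    have := (t0.const_mul (2 ^ K)).add (t2.const_mul (2 ^ K * (K * (16 ^ K) ^ 2 / R ^ 2)))
    simpa using this
  obtain ⟨N0, hN0⟩ := eventually_atTop.1 (t.eventually (ge_mem_nhds hε))
  refine ⟨N0, fun N hN z hz => ?_⟩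
  refine le_trans ?_ (hN0 N hN)
  set x := ‖z 0 / (R : ℂ)‖ with hx
  have hxq : q ≤ x := by
    rw [hx, norm_div, Complex.norm_real, Real.norm_of_nonneg hR.le, hqd]
    gcongr
  have hx1 : 1 ≤ x := hq.le.trans hxq
  have hx0 : 0 < x := by linarith
  have hxN : 1 / (x ^ N) ^ 2 ≤ ((q⁻¹) ^ 2) ^ N := by
    have h1 : q ^ N ≤ x ^ N := pow_le_pow_left₀ hq0.le hxq N
    have h2 : (q ^ N) ^ 2 ≤ (x ^ N) ^ 2 := pow_le_pow_left₀ (by positivity) h1 2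
    have h3 : ((q⁻¹) ^ 2) ^ N = 1 / (q ^ N) ^ 2 := by
      rw [← pow_mul, mul_comm 2 N, pow_mul, inv_pow, inv_pow, one_div]
    rw [h3]
    exact one_div_le_one_div_of_le (by positivity) h2
  have hE := TH.exp_T K N R z hx0
  rw [← hx] at hE
  set S := ∑ j ∈ Finset.range K, nn N j with hS
  have hE0 : 0 ≤ Real.exp (-Tf K N R z) := (Real.exp_pos _).le
  -- first term
  have hA : ∀ i < K, Real.exp (-Tf K N R z) * (x ^ nn N i) ^ 2 ≤ 2 ^ K * (1 / (x ^ N) ^ 2) := by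
    intro i hi
    have h1 : x ^ nn N i * x ^ N ≤ x ^ S := by
      rw [← pow_add]
      exact pow_le_pow_right₀ hx1 (TH.nn_sum hK hi)
    have h2 : (x ^ nn N i * x ^ N) ^ 2 ≤ (x ^ S) ^ 2 := pow_le_pow_left₀ (by positivity) h1 2
    calc Real.exp (-Tf K N R z) * (x ^ nn N i) ^ 2
        ≤ 2 ^ K / (x ^ S) ^ 2 * (x ^ nn N i) ^ 2 := mul_le_mul_of_nonneg_right hE (by positivity)
      _ ≤ 2 ^ K / (x ^ nn N i * x ^ N) ^ 2 * (x ^ nn N i) ^ 2 := by gcongr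
      _ = 2 ^ K * (1 / (x ^ N) ^ 2) := by
          field_simp
  have hB : Real.exp (-Tf K N R z) ≤ 2 ^ K * (1 / (x ^ N) ^ 2) := by
    have h1 := hA 0 (by omega)
    have h2 : 1 ≤ (x ^ nn N 0) ^ 2 := one_le_pow₀ (one_le_pow₀ hx1)
    calc Real.exp (-Tf K N R z) = Real.exp (-Tf K N R z) * 1 := (mul_one _).symm
      _ ≤ Real.exp (-Tf K N R z) * (x ^ nn N 0) ^ 2 := mul_le_mul_of_nonneg_left h2 hE0
      _ ≤ _ := h1
  have hC : ∀ i ∈ Finset.range K, Real.exp (-Tf K N R z) *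
      (((nn N i : ℝ) * ‖z 0 / (R : ℂ)‖ ^ (nn N i - 1)) ^ 2 / R ^ 2) ≤
        (16 ^ K * N) ^ 2 / R ^ 2 * (2 ^ K * (1 / (x ^ N) ^ 2)) := by
    intro i hi
    have hi' : i < K := Finset.mem_range.1 hi
    have h1 : (nn N i : ℝ) ≤ 16 ^ K * N := by
      unfold nn
      push_cast
      rw [mul_comm]
      gcongr
      · norm_num
    have h2 : x ^ (nn N i - 1) ≤ x ^ nn N i := pow_le_pow_right₀ hx1 (Nat.sub_le _ _)
    rw [← hx]
    calc Real.exp (-Tf K N R z) * (((nn N i : ℝ) * x ^ (nn N i - 1)) ^ 2 / R ^ 2)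
        ≤ Real.exp (-Tf K N R z) * (((16 ^ K * N) * x ^ nn N i) ^ 2 / R ^ 2) := by gcongr
      _ = (16 ^ K * N) ^ 2 / R ^ 2 * (Real.exp (-Tf K N R z) * (x ^ nn N i) ^ 2) := by ring
      _ ≤ (16 ^ K * N) ^ 2 / R ^ 2 * (2 ^ K * (1 / (x ^ N) ^ 2)) :=
          mul_le_mul_of_nonneg_left (hA i hi') (by positivity)
  have hgg : K * gg K N R (z 0) =
      ∑ j ∈ Finset.range K, ((nn N j : ℝ) * ‖z 0 / (R : ℂ)‖ ^ (nn N j - 1)) ^ 2 / R ^ 2 := by
    unfold gg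
    rw [← Finset.sum_div]
    field_simp
  rw [mul_add, mul_one, hgg, Finset.mul_sum]
  have hsum := Finset.sum_le_sum hC
  rw [Finset.sum_const, Finset.card_range, nsmul_eq_mul] at hsum
  calc Real.exp (-Tf K N R z) + _ ≤ 2 ^ K * (1 / (x ^ N) ^ 2) +
        K * ((16 ^ K * N) ^ 2 / R ^ 2 * (2 ^ K * (1 / (x ^ N) ^ 2))) := add_le_add hB hsum
    _ ≤ 2 ^ K * (((q⁻¹) ^ 2) ^ N) +
        K * ((16 ^ K * N) ^ 2 / R ^ 2 * (2 ^ K * (((q⁻¹) ^ 2) ^ N))) := by gcongr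
    _ = _ := by ring

end Pool.Agent.H805K
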