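import Mathlib
import Pool.Agent.H805K.BaseT
import Pool.Agent.H805K.F

set_option autoImplicit false
set_option maxHeartbeats 1000000

open MeasureTheory Metric Set Filter Topology
open scoped ContDiff ComplexOrder Interval

namespace Pool.Agent.H805K
open Pool.Agent.H805R2

namespace TI

/-- the lacunary sum -/
noncomputable def Fs (P : ℕ → Prop) [DecidablePred P] (K N : ℕ) (R : ℝ) (w : ℂ) : ℂ :=
  ∑ j ∈ (Finset.range K).filter P, (w / (R : ℂ)) ^ nn N j

theorem sqrt_mul (K : ℕ) (hK : 2 ≤ K) (z : ℂ) :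
    ((Real.sqrt K : ℝ) : ℂ) * (((Real.sqrt K : ℝ) : ℂ)⁻¹ * z) = z := by
  have hK0 : (0 : ℝ) < K := by exact_mod_cast (by omega : 0 < K)
  have : ((Real.sqrt K : ℝ) : ℂ) ≠ 0 := by exact_mod_cast (Real.sqrt_pos.2 hK0).ne'
  rw [← mul_assoc, mul_inv_cancel₀ this, one_mul]

theorem fe_Fs (K : ℕ) (hK : 2 ≤ K) (N : ℕ) (R : ℝ) (w : ℂ) :
    ((Real.sqrt K : ℝ) : ℂ) * fe K N R w = Fs (fun j => Even j) K N R w := sqrt_mul K hK _

theorem fo_Fs (K : ℕ) (hK : 2 ≤ K) (N : ℕ) (R : ℝ) (w : ℂ) :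
    ((Real.sqrt K : ℝ) : ℂ) * fo K N R w = Fs (fun j => ¬ Even j) K N R w := sqrt_mul K hK _

theorem continuous_Fs (P : ℕ → Prop) [DecidablePred P] (K N : ℕ) (R : ℝ) :
    Continuous (Fs P K N R) := by
  unfold Fs
  fun_prop

theorem nn_ne {N : ℕ} (hN : 2 ≤ N) (j : ℕ) : nn N j ≠ 0 := by
  have := le_nn N j
  omega

theorem finite_fib (K : ℕ) (hK : 2 ≤ K) {N : ℕ} (hN : 2 ≤ N) {R : ℝ} (hR : 0 < R) (b : ℂ) :
    {w : ℂ | Fs (fun j => ¬ Even j) K N R w = b}.Finite := by
  classical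
  have hRC : (R : ℂ) ≠ 0 := by exact_mod_cast hR.ne'
  set Pp : Polynomial ℂ := (∑ j ∈ (Finset.range K).filter (fun j => ¬ Even j),
    (Polynomial.C ((R : ℂ)⁻¹) * Polynomial.X) ^ nn N j) - Polynomial.C b with hPp
  have hev : ∀ w : ℂ, Pp.eval w = Fs (fun j => ¬ Even j) K N R w - b := by
    intro w
    rw [hPp, Polynomial.eval_sub, Polynomial.eval_finset_sum, Polynomial.eval_C]
    congr 1
    refine Finset.sum_congr rfl fun j _ => ?_
    rw [Polynomial.eval_pow, Polynomial.eval_mul, Polynomial.eval_C, Polynomial.eval_X]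
    congr 1
    rw [div_eq_mul_inv, mul_comm]
  have hne : Pp ≠ 0 := by
    intro h0
    have h1 := hev (R : ℂ)
    have h2 := hev 0
    rw [h0, Polynomial.eval_zero] at h1 h2
    unfold Fs at h1 h2
    rw [div_self hRC] at h1
    have h3 : ∑ j ∈ (Finset.range K).filter (fun j => ¬ Even j), ((0 : ℂ) / (R : ℂ)) ^ nn N j = 0 :=
      Finset.sum_eq_zero fun j _ => by rw [zero_div, zero_pow (nn_ne hN j)]
    rw [h3] at h2
    have hb : b = 0 := by
      have : (0 : ℂ) = -b := by rw [h2]; ring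
      rw [← neg_eq_zero]; exact this.symm
    rw [hb] at h1
    simp only [one_pow, Finset.sum_const, nsmul_eq_mul, mul_one, sub_zero] at h1
    have h2 : ((Finset.range K).filter (fun j => ¬ Even j)).card = 0 := by
      exact_mod_cast h1.symm
    rw [Finset.card_eq_zero] at h2
    have h3 : 1 ∈ (Finset.range K).filter (fun j => ¬ Even j) :=
      Finset.mem_filter.2 ⟨Finset.mem_range.2 (by omega), by decide⟩
    rw [h2] at h3
    simp at h3
  refine (Pp.roots.toFinset.finite_toSet).subset ?_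
  intro w hw
  have hw' : Fs (fun j => ¬ Even j) K N R w = b := hw
  have h4 : Pp.eval w = 0 := by rw [hev, hw', sub_self]
  simp only [Finset.mem_coe, Multiset.mem_toFinset]
  exact (Polynomial.mem_roots hne).2 h4

/-- the Gaussian integers as a closed set -/
theorem isClosed_gi : IsClosed (range gi) := by
  have h : range gi = Complex.re ⁻¹' (range ((↑) : ℤ → ℝ)) ∩ Complex.im ⁻¹' (range ((↑) : ℤ → ℝ)) := by
    ext z
    constructor
    · rintro ⟨m, rfl⟩
      refine ⟨⟨m.1, ?_⟩, ⟨m.2, ?_⟩⟩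
      · simp [gi]
      · simp [gi]
    · rintro ⟨⟨a, ha⟩, ⟨b, hb⟩⟩
      refine ⟨(a, b), ?_⟩
      apply Complex.ext
      · simp [gi, ha]
      · simp [gi, hb]
  rw [h]
  exact (Int.isClosedEmbedding_coe_real.isClosed_range.preimage Complex.continuous_re).inter
    (Int.isClosedEmbedding_coe_real.isClosed_range.preimage Complex.continuous_im)

end TI

theorem curve_geom_T (K : ℕ) (hK : 2 ≤ K) {rm R η : ℝ} (hrm : 0 < rm) (hrmR : rm < R) (hη : 0 < η) :
    ∃ N0 : ℕ, ∀ N : ℕ, N0 ≤ N → 2 ≤ N →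
      (∀ w : ℂ, ‖w‖ ≤ rm → ‖((Real.sqrt K : ℝ) : ℂ) * fe K N R w‖ ≤ η ∧
        ‖((Real.sqrt K : ℝ) : ℂ) * fo K N R w‖ ≤ η) ∧
      ∃ c : ℂ, ‖c‖ ≤ η ∧ ∃ d : ℝ, 0 < d ∧ ∀ w : ℂ, ‖w‖ ≤ 3 → ∀ m1 m2 : ℤ × ℤ,
        2 * d ≤ ‖c + ((Real.sqrt K : ℝ) : ℂ) * fe K N R w - gi m1‖ ∨
          2 * d ≤ ‖((Real.sqrt K : ℝ) : ℂ) * fo K N R w - gi m2‖ := by
  have hR : 0 < R := hrm.trans hrmR
  have hq0 : 0 ≤ rm / R := by positivity
  have hq0' : rm / R < 1 := (div_lt_one hR).2 hrmR
  have t1 : Tendsto (fun N : ℕ => (K : ℝ) * (rm / R) ^ N) atTop (𝓝 0) := by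
    have := (tendsto_pow_atTop_nhds_zero_of_lt_one hq0 hq0').const_mul (K : ℝ)
    rwa [mul_zero] at this
  obtain ⟨N0, hN0⟩ := eventually_atTop.1 (t1.eventually (ge_mem_nhds hη))
  refine ⟨N0, fun N hN hN2 => ⟨?_, ?_⟩⟩
  · intro w hw
    have hz : ‖w / (R : ℂ)‖ ≤ rm / R := by
      rw [norm_div, Complex.norm_real, Real.norm_of_nonneg hR.le]
      gcongr
    rw [TI.fe_Fs K hK, TI.fo_Fs K hK]
    exact ⟨(cg_small _ K N _ _ hq0 hq0'.le hz).trans (hN0 N hN),
      (cg_small _ K N _ _ hq0 hq0'.le hz).trans (hN0 N hN)⟩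
  · have hcount : (⋃ m1 : ℤ × ℤ, ⋃ m2 : ℤ × ℤ, (fun w => gi m1 - TI.Fs (fun j => Even j) K N R w) ''
        {w : ℂ | TI.Fs (fun j => ¬ Even j) K N R w = gi m2}).Countable :=
      countable_iUnion fun m1 => countable_iUnion fun m2 =>
        ((TI.finite_fib K hK hN2 hR (gi m2)).image _).countable
    obtain ⟨c, hcη, hc⟩ := (hcount.dense_compl ℂ).exists_mem_open isOpen_ball
      ⟨(0 : ℂ), mem_ball_self hη⟩
    refine ⟨c, by simpa using (mem_ball_zero_iff.1 hc).le, ?_⟩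
    have hG := TI.isClosed_gi
    have hGne : (range gi).Nonempty := range_nonempty _
    have hcont : Continuous (fun w => max (infDist (c + TI.Fs (fun j => Even j) K N R w) (range gi))
        (infDist (TI.Fs (fun j => ¬ Even j) K N R w) (range gi))) := by
      have h1 := TI.continuous_Fs (fun j => Even j) K N R
      have h2 := TI.continuous_Fs (fun j => ¬ Even j) K N R
      exact ((continuous_infDist_pt _).comp (continuous_const.add h1)).max
        ((continuous_infDist_pt _).comp h2)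
    have hpos : ∀ w : ℂ, 0 < max (infDist (c + TI.Fs (fun j => Even j) K N R w) (range gi))
        (infDist (TI.Fs (fun j => ¬ Even j) K N R w) (range gi)) := by
      intro w
      by_cases h0 : TI.Fs (fun j => ¬ Even j) K N R w ∈ range gi
      · apply lt_max_of_lt_left
        rw [← hG.notMem_iff_infDist_pos hGne]
        rintro ⟨m1, hm1⟩
        obtain ⟨m2, hm2⟩ := h0
        apply hcη
        simp only [mem_iUnion]
        exact ⟨m1, m2, w, hm2.symm, by simp only; rw [hm1]; ring⟩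
      · exact lt_max_of_lt_right ((hG.notMem_iff_infDist_pos hGne).1 h0)
    obtain ⟨w0, -, hmin⟩ := (isCompact_closedBall (0 : ℂ) 3).exists_isMinOn
      ⟨0, by simp⟩ hcont.continuousOn
    refine ⟨_, half_pos (hpos w0), ?_⟩
    intro w hw m1 m2
    have h7 := hmin (show w ∈ Metric.closedBall (0 : ℂ) 3 by simpa using hw)
    simp only [mem_setOf_eq] at h7
    rw [TI.fe_Fs K hK, TI.fo_Fs K hK, mul_div_cancel₀ _ two_ne_zero]
    rcases le_max_iff.1 h7 with h9 | h9
    · left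
      refine h9.trans ?_
      rw [← dist_eq_norm]
      exact infDist_le_dist_of_mem (mem_range_self m1)
    · right
      refine h9.trans ?_
      rw [← dist_eq_norm]
      exact infDist_le_dist_of_mem (mem_range_self m2)

end Pool.Agent.H805K
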