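import Mathlib
import Pool.Agent.H805R2.Lite
import Pool.Agent.H805K.C
import Pool.Agent.H805K.TaskD
import Pool.Agent.H805K.TE3a

/-!
Decreasing limits of smooth psh functions are psh, and carry Monge-Ampere measures locally.
-/

set_option autoImplicit false
set_option maxHeartbeats 1000000

open MeasureTheory Metric Set Filter Topology
open scoped ContDiff ComplexOrder

namespace Pool.Agent.H805K
open Pool.Agent.H805R2

variable {n : ℕ}

/-- `u` is a decreasing limit of smooth psh functions -/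
theorem psh_of_decr {Ω : Set (Cn n)} (hΩ : IsOpen Ω) {u : ℕ → Cn n → ℝ} {uinf : Cn n → ℝ}
    (hu : ∀ k, ContDiff ℝ ∞ (u k)) (hp : ∀ k, ∀ z ∈ Ω, (hess (u k) z).PosSemidef)
    (hanti : ∀ z ∈ Ω, Antitone fun k => u k z)
    (hlim : ∀ z ∈ Ω, Tendsto (fun k => u k z) atTop (𝓝 (uinf z))) :
    PSH Ω (fun z => ((uinf z : ℝ) : EReal)) := by
  refine ⟨?_, fun z _ => EReal.coe_lt_top _, ?_⟩
  · intro z hz c hc
    obtain ⟨c', hc1, hc2⟩ := EReal.lt_iff_exists_real_btwn.1 hc
    have h1 : uinf z < c' := EReal.coe_lt_coe_iff.1 hc1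
    obtain ⟨k, hk⟩ := ((hlim z hz).eventually (gt_mem_nhds h1)).exists
    have h2 : ∀ᶠ y in 𝓝[Ω] z, u k y < c' :=
      (((hu k).continuous.tendsto z).eventually (gt_mem_nhds hk)).filter_mono nhdsWithin_le_nhds
    filter_upwards [h2, self_mem_nhdsWithin] with y hy hyΩ
    have h3 : uinf y ≤ u k y := (hanti y hyΩ).le_of_tendsto (hlim y hyΩ) k
    exact (EReal.coe_lt_coe_iff.2 (h3.trans_lt hy)).trans hc2
  · intro a b hab φ hφ hle
    have haΩ : a ∈ Ω := by simpa using hab 0 (by simp)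
    have h1 : ∀ ζ : ℂ, ‖ζ‖ = 1 → uinf (a + ζ • b) ≤ φ ζ := fun ζ hζ =>
      EReal.coe_le_coe_iff.1 (hle ζ hζ)
    have h7 : uinf a ≤ Real.circleAverage φ 0 1 := by
      apply le_of_forall_pos_le_add
      intro ε hε
      have hmem : ∀ ζ ∈ sphere (0 : ℂ) 1, a + ζ • b ∈ Ω := fun ζ hζ =>
        hab ζ (mem_sphere_zero_iff_norm.1 hζ).le
      obtain ⟨k0, hk0⟩ := dini_lt (fun k (ζ : ℂ) => u k (a + ζ • b)) (fun ζ => uinf (a + ζ • b))
        (fun ζ => φ ζ + ε) (isCompact_sphere (0 : ℂ) 1)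
        (fun k => ((hu k).continuous.comp (by fun_prop)).continuousOn)
        (fun ζ hζ => hanti _ (hmem ζ hζ)) (fun ζ hζ => hlim _ (hmem ζ hζ))
        (hφ.add continuous_const).continuousOn
        (fun ζ hζ => by
          have := h1 ζ (mem_sphere_zero_iff_norm.1 hζ)
          linarith)
      have h2 := (psh_of_smooth hΩ (hu k0) (hp k0)).2.2 a b hab (fun ζ => φ ζ + ε)
        (hφ.add continuous_const) (fun ζ hζ => EReal.coe_le_coe_iff.2
          (hk0 k0 le_rfl ζ (mem_sphere_zero_iff_norm.2 hζ)).le)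
      have h4 : u k0 a ≤ Real.circleAverage (fun ζ => φ ζ + ε) 0 1 := EReal.coe_le_coe_iff.1 h2
      have h5 : Real.circleAverage (fun ζ => φ ζ + ε) 0 1 = Real.circleAverage φ 0 1 + ε := by
        rw [show (fun ζ => φ ζ + ε) = φ + fun _ => ε from rfl, Real.circleAverage_add,
          Real.circleAverage_const]
        · exact hφ.continuousOn.circleIntegrable'
        · exact continuous_const.continuousOn.circleIntegrable'
      have h6 : uinf a ≤ u k0 a := (hanti a haΩ).le_of_tendsto (hlim a haΩ) k0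
      linarith
    exact EReal.coe_le_coe_iff.2 h7

namespace TLD

lemma sqd_posDef (x z : Cn n) : (hess (Up.sqd x) z).PosDef := by
  have hs : ContDiff ℝ 2 (Up.sqd x) := (Up.sqd_smooth x).of_le ss_le
  refine Matrix.PosDef.of_dotProduct_mulVec_pos (hess_isHermitian hs z) ?_
  intro c hc
  have h1 := levi_eq_qf hs z (WithLp.toLp 2 (fun j => star (c j)))
  simp only [star_star] at h1
  rw [Up.sqd_levi] at h1
  have h2 : (WithLp.toLp 2 (fun j => star (c j)) : Cn n) ≠ 0 := by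
    intro h
    apply hc
    funext j
    have h3 := congrFun (congrArg WithLp.ofLp h) j
    simpa using h3
  have h3 : 0 < ‖(WithLp.toLp 2 (fun j => star (c j)) : Cn n)‖ ^ 2 := by
    have := norm_pos_iff.2 h2
    positivity
  have h4 : (0 : ℂ) < ((‖(WithLp.toLp 2 (fun j => star (c j)) : Cn n)‖ ^ 2 : ℝ) : ℂ) := by
    exact_mod_cast h3
  rw [h1] at h4
  exact h4

lemma qq_mass_pos (x0 : Cn n) (r : ℝ) {L : ℝ} (hL : 0 < L) (c : ℝ) {R : ℝ} (hR : 0 < R) :
    0 < ∫ z in ball x0 R, maDensity (TE3a.qq x0 r L c) z := by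
  have hpos : ∀ z, 0 < maDensity (TE3a.qq x0 r L c) z := by
    intro z
    have h1 : 0 < (hess (TE3a.qq x0 r L c) z).det := by
      rw [TE3a.qq_hess, Matrix.det_smul]
      have h2 := (sqd_posDef x0 z).det_pos
      have h3 : (0 : ℂ) < (L : ℂ) := by exact_mod_cast hL
      exact mul_pos (pow_pos h3 _) h2
    have h2 : 0 < (hess (TE3a.qq x0 r L c) z).det.re := (Complex.pos_iff.1 h1).1
    unfold maDensity
    have := Real.pi_pos
    positivity
  have hcont : Continuous (maDensity (TE3a.qq x0 r L c)) :=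
    maDensity_continuous (TE3a.qq_smooth _ _ _ _)
  have hint : IntegrableOn (maDensity (TE3a.qq x0 r L c)) (ball x0 R) :=
    (hcont.continuousOn.integrableOn_compact (isCompact_closedBall x0 R)).mono_set
      ball_subset_closedBall
  rw [setIntegral_pos_iff_support_of_nonneg_ae (Eventually.of_forall fun z => (hpos z).le) hint]
  have h1 : Function.support (maDensity (TE3a.qq x0 r L c)) = univ := by
    ext z
    simp [(hpos z).ne']
  rw [h1, univ_inter]
  exact measure_ball_pos volume x0 hR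

open TaskC in
/-- variant of `exists_MA` with the subsequence -/
theorem exists_MA_seq {Ω : Set (Cn n)} (hΩ : IsOpen Ω) (hΩb : Bornology.IsBounded Ω)
    {u : ℕ → Cn n → ℝ} {b0 uinf : Cn n → ℝ} {C0 : Set (Cn n)} (hC0 : IsCompact C0) (hC0Ω : C0 ⊆ Ω)
    (hb0 : ContDiff ℝ ∞ b0) (hu : ∀ k, ContDiff ℝ ∞ (u k))
    (hpsd : ∀ k, ∀ z ∈ Ω, (hess (u k) z).PosSemidef) (hoff : ∀ k, ∀ z, z ∉ C0 → u k z = b0 z)
    (hmass : 0 < ∫ z in Ω, maDensity b0 z)
    (hanti : ∀ z ∈ Ω, Antitone fun k => u k z)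
    (hlim : ∀ z ∈ Ω, Tendsto (fun k => u k z) atTop (𝓝 (uinf z))) :
    ∃ (ν : Measure (Cn n)) (sub : ℕ → ℕ), IsFiniteMeasure ν ∧ StrictMono sub ∧
      IsMongeAmpere Ω uinf ν ∧
      ∀ χ : Cn n → ℝ, Continuous χ → HasCompactSupport χ → tsupport χ ⊆ Ω →
        Tendsto (fun k => ∫ z, χ z * maDensity (u (sub k)) z) atTop (𝓝 (∫ z, χ z ∂ν)) := by
  set m : ℝ := ∫ z in Ω, maDensity b0 z with hm
  have hPu : ∀ k, P Ω (u k) univ = ENNReal.ofReal m := fun k => by
    rw [P_univ hΩ hΩb (hu k) (hpsd k), mass_eq hΩb hC0 hC0Ω hb0 (hu k) (hoff k)]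
  have hm0 : ENNReal.ofReal m ≠ 0 := by
    rw [Ne, ENNReal.ofReal_eq_zero, not_le]
    exact hmass
  have hmt : ENNReal.ofReal m ≠ ⊤ := ENNReal.ofReal_ne_top
  have hprob : ∀ k, IsProbabilityMeasure ((ENNReal.ofReal m)⁻¹ • P Ω (u k)) := fun k =>
    ⟨by rw [Measure.smul_apply, hPu k, smul_eq_mul, ENNReal.inv_mul_cancel hm0 hmt]⟩
  set Q : ℕ → ProbabilityMeasure (Cn n) := fun k => ⟨(ENNReal.ofReal m)⁻¹ • P Ω (u k), hprob k⟩
    with hQ
  have hcomp : IsCompact {μ : ProbabilityMeasure (Cn n) | ∀ _j : ℕ, μ (closure Ω)ᶜ ≤ 0} :=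
    isCompact_setOfPred_probabilityMeasure_mass_eq_compl_isCompact_le (u := fun _ => 0)
      (K := fun _ => closure Ω) tendsto_const_nhds (fun _ => hΩb.isCompact_closure)
      (Or.inl inferInstance)
  have hmem : ∀ k, Q k ∈ {μ : ProbabilityMeasure (Cn n) | ∀ _j : ℕ, μ (closure Ω)ᶜ ≤ 0} := by
    intro k _
    have h1 : ((Q k : ProbabilityMeasure (Cn n)) : Measure (Cn n)) (closure Ω)ᶜ = 0 := by
      change ((ENNReal.ofReal m)⁻¹ • P Ω (u k)) (closure Ω)ᶜ = 0
      rw [Measure.smul_apply, P_compl, smul_zero]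
    rw [nonpos_iff_eq_zero]
    exact (ProbabilityMeasure.null_iff_toMeasure_null _ _).2 h1
  obtain ⟨Q0, -, sub, hsub, hconv⟩ := hcomp.isSeqCompact hmem
  rw [ProbabilityMeasure.tendsto_iff_forall_integral_tendsto] at hconv
  set ν : Measure (Cn n) := ENNReal.ofReal m • (Q0 : Measure (Cn n)) with hν
  have hνfin : IsFiniteMeasure ν := ⟨by
    rw [hν, Measure.smul_apply, measure_univ, smul_eq_mul, mul_one]
    exact ENNReal.ofReal_lt_top⟩
  have hlimχ : ∀ χ : Cn n → ℝ, Continuous χ → HasCompactSupport χ → tsupport χ ⊆ Ω →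
      Tendsto (fun k => ∫ z, χ z * maDensity (u (sub k)) z) atTop (𝓝 (∫ z, χ z ∂ν)) := by
    intro χ hχ hχc hχs
    obtain ⟨B, hB⟩ := hχc.exists_bound_of_continuous hχ
    have h1 := hconv (BoundedContinuousFunction.ofNormedAddCommGroup χ hχ B hB)
    simp only [BoundedContinuousFunction.coe_ofNormedAddCommGroup, Function.comp] at h1
    have h2 := h1.const_mul m
    have e1 : m * ∫ z, χ z ∂(Q0 : Measure (Cn n)) = ∫ z, χ z ∂ν := by
      rw [hν, integral_smul_measure, ENNReal.toReal_ofReal hmass.le, smul_eq_mul]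
    rw [e1] at h2
    refine h2.congr fun k => ?_
    have e2 : ∫ z, χ z ∂(Q (sub k) : Measure (Cn n)) =
        m⁻¹ * ∫ z, χ z * maDensity (u (sub k)) z := by
      change ∫ z, χ z ∂((ENNReal.ofReal m)⁻¹ • P Ω (u (sub k))) = _
      rw [integral_smul_measure, ENNReal.toReal_inv, ENNReal.toReal_ofReal hmass.le, smul_eq_mul,
        integral_P hΩ (hu _) (hpsd _) hχs]
    rw [e2, ← mul_assoc, mul_inv_cancel₀ hmass.ne', one_mul]
  refine ⟨ν, sub, hνfin, hsub, ⟨fun K _ _ => measure_lt_top ν K, fun U hU hUc hUΩ => ?_⟩, hlimχ⟩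
  have hUΩ' : U ⊆ Ω := subset_closure.trans hUΩ
  refine ⟨fun k => u (sub k), fun k => (hu _).contDiffOn, fun k z hz => hpsd _ z (hUΩ' hz),
    fun z hz => (hanti z (hUΩ' hz)).comp_monotone hsub.monotone,
    fun z hz => (hlim z (hUΩ' hz)).comp hsub.tendsto_atTop, fun χ hχ hχc hχs => ?_⟩
  exact hlimχ χ hχ hχc (hχs.trans hUΩ')

end TLD

theorem local_dom {p : Cn n} {r A : ℝ} (hr : 0 < r) {a : ℕ → Cn n → ℝ}
    (ha : ∀ k, ContDiff ℝ ∞ (a k)) (hap : ∀ k, ∀ z ∈ ball p (2 * r), (hess (a k) z).PosSemidef)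
    (haA : ∀ k, ∀ z ∈ ball p (2 * r), |a k z| ≤ A)
    (hanti : ∀ z ∈ ball p (2 * r), Antitone fun k => a k z) :
    ∃ (u : Cn n → ℝ) (ν : Measure (Cn n)), IsFiniteMeasure ν ∧ (∃ B : ℝ, ∀ z ∈ ball p r, |u z| ≤ B) ∧
      PSH (ball p r) (fun z => ((u z : ℝ) : EReal)) ∧ IsMongeAmpere (ball p r) u ν ∧
      ∀ μ' : Measure (Cn n), IsFiniteMeasure μ' → ∀ k0 : ℕ,
        (∀ j ≥ k0, ∀ χ : Cn n → ℝ, Continuous χ → HasCompactSupport χ → tsupport χ ⊆ ball p r →
          (∀ z, 0 ≤ χ z) → ∫ z, χ z ∂μ' ≤ ∫ z, χ z * maDensity (a j) z) →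
        ∀ E, MeasurableSet E → E ⊆ ball p r → μ' E ≤ ν E := by
  set r' : ℝ := 17 / 10 * r with hr'
  have hr'0 : 0 < r' := by positivity
  have hsub : closedBall p r' ⊆ ball p (2 * r) := closedBall_subset_ball (by rw [hr']; linarith)
  obtain ⟨L, V, A', hL, hVs, hVp, hVoff, hVanti, hVA, hVeq⟩ := TE3a.extend_seq' hr'0 ha
    (fun k z hz => hap k z (hsub hz)) (fun k z hz => haA k z (hsub hz)) (fun z hz => hanti z (hsub hz))
  set q : Cn n → ℝ := TE3a.qq p r' L (A + 1) with hq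
  have hbdd : ∀ z, BddBelow (range fun k => V k z) := by
    intro z
    refine ⟨q z - A', ?_⟩
    rintro _ ⟨k, rfl⟩
    have := (abs_le.1 (hVA k z)).1
    simp only
    linarith
  set u : Cn n → ℝ := fun z => ⨅ k, V k z with hu
  have hlim : ∀ z, Tendsto (fun k => V k z) atTop (𝓝 (u z)) := fun z =>
    tendsto_atTop_ciInf (hVanti z) (hbdd z)
  have hball : ball p r ⊆ ball p (5 / 8 * r') := ball_subset_ball (by rw [hr']; linarith)
  have hball2 : ball p r ⊆ ball p (2 * r) := ball_subset_ball (by linarith)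
  obtain ⟨ν, sub, hν, hsubm, hMA, hconv⟩ := TLD.exists_MA_seq (Ω := ball p (2 * r)) isOpen_ball
    isBounded_ball (isCompact_closedBall p (7 / 8 * r'))
    (closedBall_subset_ball (by rw [hr']; linarith)) (TE3a.qq_smooth p r' L (A + 1)) hVs
    (fun k z _ => hVp k z) hVoff (TLD.qq_mass_pos p r' hL (A + 1) (by positivity))
    (fun z _ => hVanti z) (fun z _ => hlim z)
  refine ⟨u, ν, hν, ⟨A + 1, ?_⟩, ?_, ?_, ?_⟩
  · intro z hz
    have h1 : ∀ k, V k z ∈ Icc (-(A + 1)) (A + 1) := by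
      intro k
      rw [hVeq k z (hball hz)]
      have h2 := abs_le.1 (haA k z (hball2 hz))
      have h3 := c0_nonneg
      have h4 := c0_le_one
      constructor
      · linarith [h2.1]
      · linarith [h2.2]
    rw [abs_le]
    exact isClosed_Icc.mem_of_tendsto (hlim z) (Eventually.of_forall h1)
  · exact psh_of_decr isOpen_ball hVs (fun k z _ => hVp k z) (fun z _ => hVanti z)
      (fun z _ => hlim z)
  · exact ⟨fun K hK hKb => hMA.1 K hK (hKb.trans hball2),
      fun U hU hUc hUb => hMA.2 U hU hUc (hUb.trans hball2)⟩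
  · intro μ' hμ' k0 h
    refine TaskC.compare_measures isOpen_ball μ' ν fun χ hχ hχc hχs hχ0 => ?_
    refine ge_of_tendsto (hconv χ hχ hχc (hχs.trans hball2)) ?_
    filter_upwards [eventually_ge_atTop k0] with k hk
    refine (h (sub k) (hk.trans hsubm.le_apply) χ hχ hχc hχs hχ0).trans (le_of_eq ?_)
    apply integral_congr_ae
    refine Eventually.of_forall fun z => ?_
    simp only
    by_cases hz : z ∈ tsupport χ
    · have h1 : hess (V (sub k)) z = hess (a (sub k)) z := by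
        have h2 : V (sub k) =ᶠ[𝓝 z] fun y => a (sub k) y + (-c0) := by
          filter_upwards [isOpen_ball.mem_nhds (hball (hχs hz))] with y hy
          rw [hVeq _ y hy]
          ring
        rw [hess_congr h2, hess_add_const _ (ha _)]
      rw [maDensity, maDensity, h1]
    · rw [image_eq_zero_of_notMem_tsupport hz, zero_mul, zero_mul]

end Pool.Agent.H805K
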