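import Mathlib
import Pool.Agent.H805K.Tor4
import Pool.Agent.H805K.TLAT
import Pool.Agent.H805K.TLD

/-!
Local domination of the torus measure in a chart ball.
-/

set_option autoImplicit false
set_option maxHeartbeats 1000000

open MeasureTheory Metric Set Filter Topology
open scoped ContDiff ComplexOrder ENNReal

namespace Pool.Agent.H805K
open Pool.Agent.H805R2

namespace TLOC

/-- `local_dom` for a measure given by an increasing sequence of densities -/
theorem dens_dom {p : Cn 3} {r A : ℝ} (hr : 0 < r) {a : ℕ → Cn 3 → ℝ}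
    (ha : ∀ k, ContDiff ℝ ∞ (a k)) (hap : ∀ k, ∀ z ∈ ball p (2 * r), (hess (a k) z).PosSemidef)
    (haA : ∀ k, ∀ z ∈ ball p (2 * r), |a k z| ≤ A)
    (hanti : ∀ z ∈ ball p (2 * r), Antitone fun k => a k z)
    {G : ℕ → Cn 3 → ℝ≥0∞} (hG : ∀ k, Measurable (G k)) (hGm : ∀ z, Monotone fun k => G k z)
    (hle : ∀ k, ∀ z ∈ ball p (2 * r), G k z ≤ ENNReal.ofReal (maDensity (a k) z)) :
    ∃ (u : Cn 3 → ℝ) (ν : Measure (Cn 3)), IsFiniteMeasure ν ∧ (∃ B : ℝ, ∀ z ∈ ball p r, |u z| ≤ B) ∧
      PSH (ball p r) (fun z => ((u z : ℝ) : EReal)) ∧ IsMongeAmpere (ball p r) u ν ∧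
      ∀ E, MeasurableSet E → E ⊆ ball p r → (∫⁻ z in E, ⨆ k, G k z) ≤ ν E := by
  obtain ⟨u, ν, h1, h2, h3, h4, h5⟩ := local_dom hr ha hap haA hanti
  refine ⟨u, ν, h1, h2, h3, h4, fun E hE hEb => ?_⟩
  have hbb : ball p r ⊆ ball p (2 * r) := ball_subset_ball (by linarith)
  have key : ∀ k, ∫⁻ z in E, G k z ≤ ν E := by
    intro k
    have hfin : IsFiniteMeasure ((volume.restrict (ball p r)).withDensity (G k)) := by
      apply isFiniteMeasure_withDensity
      have h6 : ∫⁻ z in ball p r, G k z ≤ ∫⁻ z in ball p r, ENNReal.ofReal (maDensity (a k) z) :=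
        setLIntegral_mono' measurableSet_ball fun z hz => hle k z (hbb hz)
      refine (h6.trans_lt ?_).ne
      have hc : IntegrableOn (maDensity (a k)) (closedBall p r) volume :=
        (maDensity_continuous (ha k)).continuousOn.integrableOn_compact (isCompact_closedBall p r)
      exact (hc.mono_set ball_subset_closedBall).lintegral_lt_top
    have h7 := h5 ((volume.restrict (ball p r)).withDensity (G k)) hfin k ?_ E hE hEb
    · rw [withDensity_apply _ hE, Measure.restrict_restrict hE, inter_eq_left.2 hEb] at h7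
      exact h7
    · intro j hj χ hχ hχc hχs hχ0
      have hlt : ∀ᵐ z ∂(volume.restrict (ball p r)), G k z < ⊤ := by
        refine (ae_restrict_iff' measurableSet_ball).2 (Eventually.of_forall fun z hz => ?_)
        exact (hle k z (hbb hz)).trans_lt ENNReal.ofReal_lt_top
      rw [integral_withDensity_eq_integral_toReal_smul (hG k) hlt]
      have hint : Integrable fun z => χ z * maDensity (a j) z :=
        (hχ.mul (maDensity_continuous (ha j))).integrable_of_hasCompactSupport hχc.mul_right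
      have hmono : ∫ z in ball p r, (G k z).toReal • χ z ≤ ∫ z in ball p r, χ z * maDensity (a j) z := by
        apply integral_mono_of_nonneg
        · exact Eventually.of_forall fun z => mul_nonneg ENNReal.toReal_nonneg (hχ0 z)
        · exact hint.integrableOn
        · refine (ae_restrict_iff' measurableSet_ball).2 (Eventually.of_forall fun z hz => ?_)
          simp only [smul_eq_mul]
          rw [mul_comm]
          apply mul_le_mul_of_nonneg_left _ (hχ0 z)
          apply ENNReal.toReal_le_of_le_ofReal (maDensity_nonneg (hap j z (hbb hz)))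
          exact (hGm z hj).trans (hle j z (hbb hz))
      refine hmono.trans (le_of_eq ?_)
      apply setIntegral_eq_integral_of_forall_compl_eq_zero
      intro z hz
      rw [image_eq_zero_of_notMem_tsupport fun h => hz (hχs h), zero_mul]
  rw [lintegral_iSup hG fun i j hij z => hGm z hij]
  exact iSup_le key

lemma coord_le (z : Cn 3) (i : Fin 3) : ‖z i‖ ≤ ‖z‖ := PiLp.norm_apply_le z i

lemma psd_nz (z : Cn 3) : (hess (fun z : Cn 3 => ‖z‖ ^ 2) z).PosSemidef := by
  rw [nz_hess]
  exact Matrix.PosSemidef.one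

lemma det_nz (z : Cn 3) : maDensity (fun z : Cn 3 => ‖z‖ ^ 2) z = kap := by
  rw [maDensity_eq, nz_hess]
  simp

end TLOC

namespace SysT
variable (S : SysT)

/-- Local domination; the density lemmas (task DEN) are hypotheses. -/
theorem local_sub_of
    (ak_sm : ∀ (a : ℝ) (l : Fin 3 → ℤ × ℤ) (k : ℕ), ContDiff ℝ ∞ (S.ak a l k))
    (ak_psd : ∀ {a : ℝ} {l : Fin 3 → ℤ × ℤ} (k : ℕ) {z : Cn 3}, z - lat a l ∈ DD →
      (hess (S.ak a l k) z).PosSemidef)
    (ak_anti : ∀ (a : ℝ) (l : Fin 3 → ℤ × ℤ) (z : Cn 3), Antitone fun k => S.ak a l k z)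
    (ak_bd : ∀ {a : ℝ} {l : Fin 3 → ℤ × ℤ} (k : ℕ) {z : Cn 3}, z - lat a l ∈ DD →
      |S.ak a l k z| ≤ 100 * (AA + 3))
    (F_le : ∀ {a : ℝ}, 4 ≤ a → ∀ (k : ℕ) {z : Cn 3} {l : Fin 3 → ℤ × ℤ}, z - lat a l ∈ DD →
      ENNReal.ofReal kap + S.F a k z ≤ ENNReal.ofReal (maDensity (S.ak a l k) z))
    (Finf_zero : ∀ {a : ℝ} {z : Cn 3}, (∀ l : Fin 3 → ℤ × ℤ, 1 ≤ ‖(z - lat a l) 0‖) → S.Finf a z = 0)
    (F_meas : ∀ (a : ℝ) (k : ℕ), Measurable (S.F a k))
    (Finf_eq_iSup : ∀ (a : ℝ) (z : Cn 3), S.Finf a z = ⨆ k, S.F a k z)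
    (F_mono : ∀ (a : ℝ) (z : Cn 3), Monotone fun k => S.F a k z)
    {a : ℝ} (ha : 4 ≤ a) (p : Cn 3) : ∃ (u : Cn 3 → ℝ) (ν : Measure (Cn 3)),
    IsFiniteMeasure ν ∧ (∃ B : ℝ, ∀ z ∈ ball p (1 / 20), |u z| ≤ B) ∧
    PSH (ball p (1 / 20)) (fun z => ((u z : ℝ) : EReal)) ∧ IsMongeAmpere (ball p (1 / 20)) u ν ∧
    ∀ E, MeasurableSet E → E ⊆ ball p (1 / 20) →
      (∫⁻ z in E, S.Finf a z) + ENNReal.ofReal kap * volume E ≤ ν E := by
  have ha0 : 0 < a := by linarith
  have h2r : (2 : ℝ) * (1 / 20) = 1 / 10 := by norm_num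
  by_cases hA : ∃ l : Fin 3 → ℤ × ℤ, ‖(p - lat a l) 0‖ < 11 / 10
  · obtain ⟨l0, hl0⟩ := hA
    -- correct the coordinates 1, 2
    obtain ⟨m, hm, -⟩ := exists_lat ha0 p
    set l : Fin 3 → ℤ × ℤ := fun i => if i = 0 then l0 0 else m i with hl
    have e0 : (p - lat a l) 0 = (p - lat a l0) 0 := by
      change p 0 - lat a l 0 = p 0 - lat a l0 0
      rw [TLAT.lat_apply, TLAT.lat_apply]
      simp [hl]
    have e1 : (p - lat a l) 1 = (p - lat a m) 1 := by
      change p 1 - lat a l 1 = p 1 - lat a m 1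
      rw [TLAT.lat_apply, TLAT.lat_apply]
      simp [hl]
    have e2 : (p - lat a l) 2 = (p - lat a m) 2 := by
      change p 2 - lat a l 2 = p 2 - lat a m 2
      rw [TLAT.lat_apply, TLAT.lat_apply]
      simp [hl]
    have hb : ∀ i : Fin 3, i ≠ 0 → ‖(p - lat a m) i‖ ≤ 2 := by
      intro i hi
      obtain ⟨b1, b2, b3, b4⟩ := hm i
      simp only [side, if_neg hi] at b2 b4
      refine (Complex.norm_le_abs_re_add_abs_im _).trans ?_
      rw [abs_of_nonneg b1, abs_of_nonneg b3]
      linarith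
    have hDD : ∀ z ∈ ball p (2 * (1 / 20 : ℝ)), z - lat a l ∈ DD := by
      intro z hz
      rw [h2r, mem_ball, dist_eq_norm] at hz
      have hc : ∀ i, ‖(z - lat a l) i‖ ≤ ‖(p - lat a l) i‖ + 1 / 10 := by
        intro i
        have h : (z - lat a l) i = (p - lat a l) i + (z - p) i := by
          change z i - lat a l i = p i - lat a l i + (z i - p i)
          ring
        rw [h]
        refine (norm_add_le _ _).trans ?_
        have := TLOC.coord_le (z - p) i
        linarith
      have h0 := hc 0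
      have h1 := hc 1
      have h2 := hc 2
      rw [e0] at h0
      rw [e1] at h1
      rw [e2] at h2
      have h3 := hb 1 (by decide)
      have h4 := hb 2 (by decide)
      refine ⟨?_, ?_, ?_⟩ <;> linarith
    obtain ⟨u, ν, h1, h2, h3, h4, h5⟩ := TLOC.dens_dom (p := p) (r := 1 / 20) (A := 100 * (AA + 3))
      (by norm_num) (a := fun k => S.ak a l k) (fun k => ak_sm a l k)
      (fun k z hz => ak_psd k (hDD z hz)) (fun k z hz => ak_bd k (hDD z hz))
      (fun z _ => ak_anti a l z) (G := fun k z => ENNReal.ofReal kap + S.F a k z)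
      (fun k => measurable_const.add (F_meas a k)) (fun z i j hij => add_le_add_right (F_mono a z hij) _)
      (fun k z hz => F_le ha k (hDD z hz))
    refine ⟨u, ν, h1, h2, h3, h4, fun E hE hEb => ?_⟩
    refine le_trans (le_of_eq ?_) (h5 E hE hEb)
    have e : ∀ z, (⨆ k, ENNReal.ofReal kap + S.F a k z) = S.Finf a z + ENNReal.ofReal kap := by
      intro z
      rw [Finf_eq_iSup, ENNReal.iSup_add]
      congr 1
      funext k
      rw [add_comm]
    simp only [e]
    rw [lintegral_add_right _ measurable_const, setLIntegral_const]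
  · push Not at hA
    obtain ⟨u, ν, h1, h2, h3, h4, h5⟩ := TLOC.dens_dom (p := p) (r := 1 / 20) (A := (‖p‖ + 1) ^ 2)
      (by norm_num) (a := fun _ => fun z : Cn 3 => ‖z‖ ^ 2) (fun _ => nz_sm)
      (fun _ z _ => TLOC.psd_nz z) (fun _ z hz => by
        rw [h2r, mem_ball, dist_eq_norm] at hz
        have : ‖z‖ ≤ ‖p‖ + ‖z - p‖ := by
          calc ‖z‖ = ‖p + (z - p)‖ := by rw [add_sub_cancel]
            _ ≤ _ := norm_add_le _ _
        rw [abs_of_nonneg (by positivity)]
        exact pow_le_pow_left₀ (norm_nonneg _) (by linarith) 2)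
      (fun z _ => antitone_const) (G := fun _ _ => ENNReal.ofReal kap)
      (fun _ => measurable_const) (fun z => monotone_const)
      (fun k z hz => by rw [TLOC.det_nz])
    refine ⟨u, ν, h1, h2, h3, h4, fun E hE hEb => ?_⟩
    refine le_trans (le_of_eq ?_) (h5 E hE hEb)
    have hz : ∫⁻ z in E, S.Finf a z = 0 := by
      rw [setLIntegral_congr_fun (g := fun _ => 0) hE fun z hz => ?_, lintegral_zero]
      apply Finf_zero
      intro l
      have h := hEb hz
      rw [mem_ball, dist_eq_norm] at h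
      have e : (p - lat a l) 0 = (z - lat a l) 0 - (z - p) 0 := by
        change p 0 - lat a l 0 = z 0 - lat a l 0 - (z 0 - p 0)
        ring
      have h6 := hA l
      rw [e] at h6
      have h7 := norm_sub_le ((z - lat a l) 0) ((z - p) 0)
      have h8 := TLOC.coord_le (z - p) 0
      linarith
    rw [hz, zero_add, ciSup_const, setLIntegral_const]

end SysT

end Pool.Agent.H805K
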