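import Mathlib
import Pool.Agent.H805K.TE3a
import Pool.Agent.H805K.TE3b
import Pool.Agent.H805K.TE3c
import Pool.Agent.H805K.TE4
import Pool.Agent.H805K.TDEN
import Pool.Agent.H805K.TLOC
import Pool.Agent.H805K.TMASS

/-!
Wiring of the general domination principle and of the local domination.
-/

set_option autoImplicit false
set_option maxHeartbeats 1000000

open MeasureTheory Metric Set Filter Topology
open scoped ContDiff ComplexOrder ENNReal

namespace Pool.Agent.H805K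
open Pool.Agent.H805R2

theorem coreDom (n : ℕ) : TE4.CoreDom n := by
  intro hn x0 r A α β hr hα hαβ v g h hv hvp hvA hanti hlim hweak hh hhp hhα hout
  exact core_dom_of (by
      intro x0 r A hr v hv hvp hvA ha
      exact extend_seq hr hv hvp hvA ha)
    (by
      intro q V A' C hC hq hV hqp hVp ho ha hA
      exact energy_cauchy hC hq hV hqp hVp ho ha hA)
    hn hr hα hαβ hv hvp hvA hanti hlim hweak hh hhp hhα hout

/-- **Domination principle.** A smooth barrier `h` whose Monge-Ampere density is smaller than that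
of the bounded potential `g` wherever `h` is plurisubharmonic, and which is above `g` on the
boundary, is above `g` inside; `g` need not be continuous. -/
theorem dom_principle {n : ℕ} (hn : 0 < n) {Ω : Set (Cn n)} (hΩ : IsOpen Ω) {g : Cn n → ℝ}
    {μ : Measure (Cn n)}
    {A : ℝ} (hgA : ∀ z ∈ Ω, -A ≤ g z) (hMA : IsMongeAmpere Ω g μ)
    {U : Set (Cn n)} (hU : IsOpen U) (hcl : IsCompact (closure U)) (hUΩ : closure U ⊆ Ω)
    {ρ : Cn n → ℝ} (hρ : Continuous ρ)
    (hρμ : ∀ χ : Cn n → ℝ, Continuous χ → HasCompactSupport χ → tsupport χ ⊆ U → (∀ z, 0 ≤ χ z) →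
      ∫ z, χ z * ρ z ≤ ∫ z, χ z ∂μ)
    {h : Cn n → ℝ} (hh : ContDiff ℝ ∞ h)
    (hdet : ∀ z ∈ U, (hess h z).PosSemidef → maDensity h z < ρ z)
    (hb : ∀ z ∈ frontier U, g z ≤ h z) : ∀ z ∈ U, g z ≤ h z :=
  dom_principle_of (coreDom n) hn hΩ hgA hMA hU hcl hUΩ hρ hρμ hh hdet hb

namespace SysT
variable (S : SysT)

theorem local_sub {a : ℝ} (ha : 4 ≤ a) (p : Cn 3) : S.LocSub a p :=
  S.local_sub_of S.ak_sm S.ak_psd S.ak_anti S.ak_bd S.F_le S.Finf_zero S.F_meas S.Finf_eq_iSup S.F_mono ha p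

theorem mass_finite : (∑' j, ∫⁻ z, S.f j z) < ⊤ := S.mass_finite_of fun p => S.local_sub (by norm_num) p

theorem exists_param : ∃ a s : ℝ, 4 ≤ a ∧ 0 < s ∧ s ≤ 1 ∧ S.mT a s (FD a) = ENNReal.ofReal (kap * a ^ 2) :=
  S.exists_param_of S.mass_finite

theorem mT_local {a s : ℝ} (ha : 4 ≤ a) (hs : s ≤ 1) (p : Cn 3) : ∃ (u : Cn 3 → ℝ) (ν : Measure (Cn 3)),
    (∃ B : ℝ, ∀ z ∈ ball p (1 / 20), |u z| ≤ B) ∧
    PSH (ball p (1 / 20)) (fun z => ((u z : ℝ) : EReal)) ∧ IsMongeAmpere (ball p (1 / 20)) u ν ∧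
    ∀ E, MeasurableSet E → E ⊆ ball p (1 / 20) → S.mT a s E ≤ ν E :=
  S.mT_local_of hs (S.local_sub ha p)

end SysT

end Pool.Agent.H805K
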