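import Mathlib
import Pool.Agent.H805K.TWire
import Pool.Agent.H805K.TFIN
import Pool.Agent.H805K.TorQ

/-!
The main theorem on the covering space of the torus.
-/

set_option autoImplicit false
set_option maxHeartbeats 1000000

open MeasureTheory Metric Set Filter Topology
open scoped ContDiff ComplexOrder ENNReal

namespace Pool.Agent.H805K
open Pool.Agent.H805R2

lemma Vol_eq (a : ℝ) : Vol a = kap * a ^ 2 := rfl

lemma kap_ge : 3 / 4 ≤ kap := by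
  have h1 : (1 / 2 : ℝ) ≤ 2 / Real.pi := by
    rw [div_le_div_iff₀ (by norm_num) Real.pi_pos]
    have := Real.pi_le_four
    linarith
  have h2 : (1 / 2 : ℝ) ^ 3 ≤ (2 / Real.pi) ^ 3 := by gcongr
  have h3 : kap = 6 * (2 / Real.pi) ^ 3 := by
    unfold kap
    norm_num [Nat.factorial]
  rw [h3]
  linarith

theorem mainT (hcore : TE4.CoreDom 3) (S : SysT) : ∃ (a : ℝ) (μ : Measure (Cn 3)), 4 ≤ a ∧
    (∀ m, μ.map (fun z => z + lat a m) = μ) ∧ μ (FD a) = 1 ∧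
    (∀ p : Cn 3, ∃ (u : Cn 3 → ℝ) (ν : Measure (Cn 3)), (∃ B : ℝ, ∀ z ∈ ball p (1 / 20), |u z| ≤ B) ∧
      PSH (ball p (1 / 20)) (fun z => ((u z : ℝ) : EReal)) ∧ IsMongeAmpere (ball p (1 / 20)) u ν ∧
      ∀ E, MeasurableSet E → E ⊆ ball p (1 / 20) → μ E ≤ ν E) ∧
    ¬ ∃ φ : Cn 3 → ℝ, (∃ B : ℝ, ∀ z, |φ z| ≤ B) ∧
      IsMongeAmpere univ (fun z => ‖z‖ ^ 2 + φ z) (ENNReal.ofReal (Vol a) • μ) := by
  obtain ⟨a, s, ha, hs0, hs1, hFD⟩ := S.exists_param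
  have hV1 : 1 ≤ Vol a := by
    rw [Vol_eq]
    have := kap_ge
    nlinarith
  have hVpos : 0 < Vol a := by linarith
  have hne : ENNReal.ofReal (Vol a) ≠ 0 := by
    rw [Ne, ENNReal.ofReal_eq_zero]
    linarith
  have hnt : ENNReal.ofReal (Vol a) ≠ ⊤ := ENNReal.ofReal_ne_top
  refine ⟨a, (ENNReal.ofReal (Vol a))⁻¹ • S.mT a s, ha, ?_, ?_, ?_, ?_⟩
  · intro m
    rw [Measure.map_smul, S.mT_invariant]
  · rw [Measure.smul_apply, smul_eq_mul, hFD, ← Vol_eq]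
    exact ENNReal.inv_mul_cancel hne hnt
  · intro p
    obtain ⟨u, ν, h1, h2, h3, h4⟩ := S.mT_local ha hs1 p
    refine ⟨u, ν, h1, h2, h3, fun E hE hEp => ?_⟩
    refine le_trans ?_ (h4 E hE hEp)
    rw [Measure.smul_apply, smul_eq_mul]
    have h5 : (ENNReal.ofReal (Vol a))⁻¹ ≤ 1 := by
      rw [ENNReal.inv_le_one]
      rw [← ENNReal.ofReal_one]
      exact ENNReal.ofReal_le_ofReal hV1
    calc (ENNReal.ofReal (Vol a))⁻¹ * S.mT a s E ≤ 1 * S.mT a s E := by gcongr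
      _ = S.mT a s E := one_mul _
  · have h6 : ENNReal.ofReal (Vol a) • (ENNReal.ofReal (Vol a))⁻¹ • S.mT a s = S.mT a s := by
      rw [smul_smul, ENNReal.mul_inv_cancel hne hnt, one_smul]
    rw [h6]
    exact S.no_solT hcore ha hs0

end Pool.Agent.H805K
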