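import Mathlib
import Pool.Agent.H805R2.Lite
import Pool.Agent.H805R2.Sanity
import Pool.Agent.H805K.BaseT
import Pool.Agent.H805K.TLAT
import Pool.Agent.H805K.TorQ
import Pool.Agent.H805K.TaskD

/-!
Transfer between periodic measures on `ℂ³` and measures on the torus.
-/

set_option autoImplicit false
set_option maxHeartbeats 1000000

open MeasureTheory Metric Set Filter Topology
open scoped ContDiff ComplexOrder ENNReal

namespace Pool.Agent.H805K
open Pool.Agent.H805R2

namespace TQ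

lemma pr_eq_iff {a : ℝ} {z w : Cn 3} : pr a z = pr a w ↔ ∃ m : Fin 3 → ℤ × ℤ, z = w + lat a m := by
  unfold pr
  rw [eq_comm, QuotientAddGroup.eq]
  constructor
  · rintro ⟨m, hm⟩
    exact ⟨m, by rw [hm]; abel⟩
  · rintro ⟨m, hm⟩
    exact ⟨m, by rw [hm]; abel⟩

lemma pr_surj (a : ℝ) : Function.Surjective (pr a) := QuotientAddGroup.mk_surjective

lemma meas_pr (a : ℝ) : Measurable (pr a) := measurable_quotient_mk''

lemma pre_image (a : ℝ) (E : Set (Cn 3)) :
    pr a ⁻¹' (pr a '' E) = ⋃ m : Fin 3 → ℤ × ℤ, (fun z => z + lat a m) ⁻¹' E := by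
  ext z
  simp only [mem_preimage, mem_image, mem_iUnion]
  constructor
  · rintro ⟨w, hw, h⟩
    obtain ⟨m, hm⟩ := pr_eq_iff.1 h
    exact ⟨m, by rw [← hm]; exact hw⟩
  · rintro ⟨m, hm⟩
    exact ⟨z + lat a m, hm, pr_eq_iff.2 ⟨m, rfl⟩⟩

lemma meas_image (a : ℝ) {E : Set (Cn 3)} (hE : MeasurableSet E) : MeasurableSet (pr a '' E) := by
  refine measurableSet_quotient.2 ?_
  change MeasurableSet (pr a ⁻¹' (pr a '' E))
  rw [pre_image]
  exact MeasurableSet.iUnion fun m => TLAT.meas_shift _ hE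

/-- pieces of a set in the translates of the cell -/
lemma piece_meas (a : ℝ) (m : Fin 3 → ℤ × ℤ) : MeasurableSet ((fun z : Cn 3 => z - lat a m) ⁻¹' FD a) :=
  (continuous_id.sub continuous_const).measurable (measurableSet_FD a)

lemma measure_pieces {a : ℝ} (ha : 0 < a) (μ : Measure (Cn 3)) {E : Set (Cn 3)} (hE : MeasurableSet E) :
    μ E = ∑' m : Fin 3 → ℤ × ℤ, μ (E ∩ (fun z => z - lat a m) ⁻¹' FD a) := by
  rw [← measure_iUnion]
  · congr 1
    ext z
    simp only [mem_iUnion, mem_inter_iff, mem_preimage]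
    constructor
    · intro hz
      obtain ⟨m, hm, _⟩ := exists_lat ha z
      exact ⟨m, hz, hm⟩
    · rintro ⟨m, hz, _⟩
      exact hz
  · intro m m' hne
    rw [Function.onFun, Set.disjoint_left]
    rintro z ⟨_, hz⟩ ⟨_, hz'⟩
    exact hne ((exists_lat ha z).unique hz hz')
  · exact fun m => hE.inter (piece_meas a m)

/-- the measure on the torus -/
noncomputable def muX (a : ℝ) (μ : Measure (Cn 3)) : Measure (Cn 3 ⧸ Lam a) :=
  (μ.restrict (FD a)).map (pr a)

lemma muX_univ (a : ℝ) (μ : Measure (Cn 3)) : muX a μ univ = μ (FD a) := by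
  rw [muX, Measure.map_apply (meas_pr a) MeasurableSet.univ, preimage_univ, Measure.restrict_apply_univ]

lemma muX_image {a : ℝ} (ha : 0 < a) {μ : Measure (Cn 3)}
    (hinv : ∀ m, μ.map (fun z => z + lat a m) = μ) {E : Set (Cn 3)} (hE : MeasurableSet E)
    (hinj : InjOn (pr a) E) : muX a μ (pr a '' E) = μ E := by
  rw [muX, Measure.map_apply (meas_pr a) (meas_image a hE),
    Measure.restrict_apply ((meas_pr a) (meas_image a hE)), pre_image, iUnion_inter, measure_iUnion]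
  · rw [measure_pieces ha μ hE]
    congr 1
    funext m
    have h1 : (fun z => z + lat a m) ⁻¹' E ∩ FD a =
        (fun z => z + lat a m) ⁻¹' (E ∩ (fun z => z - lat a m) ⁻¹' FD a) := by
      ext z
      simp only [mem_inter_iff, mem_preimage, add_sub_cancel_right]
    rw [h1, ← Measure.map_apply (TLAT.meas_shift _) (hE.inter (piece_meas a m)), hinv m]
  · intro m m' hne
    rw [Function.onFun, Set.disjoint_left]
    rintro z ⟨hz, _⟩ ⟨hz', _⟩
    simp only [mem_preimage] at hz hz'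
    apply hne
    have h1 : pr a (z + lat a m) = pr a (z + lat a m') := by
      rw [pr_eq_iff.2 ⟨m, rfl⟩, pr_eq_iff.2 ⟨m', rfl⟩]
    exact lat_inj ha (add_left_cancel (hinj hz hz' h1))
  · exact fun m => (TLAT.meas_shift _ hE).inter (measurableSet_FD a)

lemma inj_ball {a : ℝ} (ha : 4 ≤ a) (p : Cn 3) : InjOn (pr a) (ball p (1 / 20)) := by
  intro z hz w hw h
  obtain ⟨m, hm⟩ := pr_eq_iff.1 h
  by_cases h0 : m = 0
  · rw [h0, TLAT.lat_zero, add_zero] at hm
    exact hm
  · exfalso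
    obtain ⟨i, hi⟩ := Function.ne_iff.1 h0
    have h1 := lat_far (by linarith : 0 < a) hi
    have h2 : lat a m = z - w := by rw [hm]; abel
    have h3 : ‖(z - w) i‖ ≤ ‖z - w‖ := PiLp.norm_apply_le (z - w) i
    have h4 : ‖z - w‖ < 1 / 10 := by
      rw [← dist_eq_norm]
      have := dist_triangle_right z w p
      rw [mem_ball] at hz hw
      linarith
    have h5 : 1 ≤ side a i := by
      unfold side
      split_ifs
      · linarith
      · exact le_rfl
    rw [h2] at h1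
    linarith

lemma inj_piece {a : ℝ} (ha : 0 < a) (m : Fin 3 → ℤ × ℤ) (E : Set (Cn 3)) :
    InjOn (pr a) (E ∩ (fun z => z - lat a m) ⁻¹' FD a) := by
  rintro z ⟨_, hz⟩ w ⟨_, hw⟩ h
  simp only [mem_preimage] at hz hw
  obtain ⟨k, hk⟩ := pr_eq_iff.1 h
  have h1 : z - lat a (m + k) ∈ FD a := by
    have : z - lat a (m + k) = w - lat a m := by
      rw [hk, lat_add]; abel
    rw [this]
    exact hw
  have h2 := (exists_lat ha z).unique hz h1
  have h3 : k = 0 := by
    have : m + 0 = m + k := by rw [add_zero]; exact h2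
    exact (add_left_cancel this).symm
  rw [hk, h3, TLAT.lat_zero, add_zero]

end TQ

open TQ

theorem to_quotient {a : ℝ} (ha : 4 ≤ a) {μ : Measure (Cn 3)} (hinv : ∀ m, μ.map (fun z => z + lat a m) = μ)
    (h1 : μ (FD a) = 1)
    (hloc : ∀ p : Cn 3, ∃ (u : Cn 3 → ℝ) (ν : Measure (Cn 3)), (∃ B : ℝ, ∀ z ∈ ball p (1 / 20), |u z| ≤ B) ∧
      PSH (ball p (1 / 20)) (fun z => ((u z : ℝ) : EReal)) ∧ IsMongeAmpere (ball p (1 / 20)) u ν ∧
      ∀ E, MeasurableSet E → E ⊆ ball p (1 / 20) → μ E ≤ ν E) :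
    ∃ μX : Measure (Cn 3 ⧸ Lam a), μX univ = 1 ∧ LocDom a μX ∧
      ∀ φ : Cn 3 ⧸ Lam a → ℝ, IsBddSol a φ μX →
        IsMongeAmpere univ (fun z => ‖z‖ ^ 2 + φ (pr a z)) (ENNReal.ofReal (Vol a) • μ) := by
  have ha0 : 0 < a := by linarith
  refine ⟨muX a μ, by rw [muX_univ, h1], ?_, ?_⟩
  · intro x
    obtain ⟨p, rfl⟩ := pr_surj a x
    obtain ⟨u, ν, hB, hpsh, hMA, hdom⟩ := hloc p
    refine ⟨p, 1 / 20, u, ν, by norm_num, rfl, inj_ball ha p, hB, hpsh, hMA, ?_⟩
    intro E hE hEb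
    rw [muX_image ha0 hinv hE ((inj_ball ha p).mono hEb)]
    exact hdom E hE hEb
  · rintro φ ⟨-, -, ν, hMA, hν⟩
    have h2 : ν = ENNReal.ofReal (Vol a) • μ := by
      ext E hE
      rw [Measure.smul_apply, smul_eq_mul, measure_pieces ha0 ν hE, measure_pieces ha0 μ hE,
        ← ENNReal.tsum_mul_left]
      congr 1
      funext m
      rw [hν _ (hE.inter (piece_meas a m)) (inj_piece ha0 m E),
        muX_image ha0 hinv (hE.inter (piece_meas a m)) (inj_piece ha0 m E)]
    rw [← h2]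
    exact hMA

namespace TQ

lemma hess_nsq0 (z : Cn 3) : hess (fun z : Cn 3 => ‖z‖ ^ 2 + (0 : ℝ)) z = 1 := by
  have h := hess_add_const (n := 3) 1 nsq_smooth z
  rw [nsq_hess] at h
  rw [← h]
  congr 1
  funext y
  ring

lemma ma0 : IsMongeAmpere univ (fun z : Cn 3 => ‖z‖ ^ 2 + (0 : ℝ))
    (ENNReal.ofReal (((Nat.factorial 3 : ℕ) : ℝ) * (2 / Real.pi) ^ 3) • volume) := by
  have hs : ContDiff ℝ ∞ (fun z : Cn 3 => ‖z‖ ^ 2 + (0 : ℝ)) := (contDiff_norm_sq ℝ).add contDiff_const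
  refine ⟨?_, ?_⟩
  · intro K hK _
    rw [Measure.smul_apply, smul_eq_mul]
    exact ENNReal.mul_lt_top ENNReal.ofReal_lt_top hK.measure_lt_top
  · intro U _ _ _
    refine ⟨fun _ z => ‖z‖ ^ 2 + (0 : ℝ), fun _ => hs.contDiffOn, ?_, fun _ _ => antitone_const,
      fun _ _ => tendsto_const_nhds, ?_⟩
    · intro _ z _
      rw [hess_nsq0]
      exact Matrix.PosSemidef.one
    · intro χ _ _ _
      have h0 : (0 : ℝ) ≤ ((Nat.factorial 3 : ℕ) : ℝ) * (2 / Real.pi) ^ 3 := by positivity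
      rw [integral_smul_measure, ENNReal.toReal_ofReal h0, smul_eq_mul]
      have : ∀ z, χ z * maDensity (fun w : Cn 3 => ‖w‖ ^ 2 + (0 : ℝ)) z =
          (((Nat.factorial 3 : ℕ) : ℝ) * (2 / Real.pi) ^ 3) * χ z := fun z => by
        rw [maDensity, hess_nsq0, Matrix.det_one, Complex.one_re, mul_one, mul_comm]
      simp only [this, integral_const_mul]
      exact tendsto_const_nhds

end TQ

/-- sanity check: for the normalised Lebesgue measure the function `0` is a solution -/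
theorem defs_check {a : ℝ} (ha : 0 < a) :
    ∃ μX : Measure (Cn 3 ⧸ Lam a), μX univ = 1 ∧ IsBddSol a (fun _ => 0) μX := by
  set κ : ℝ := ((Nat.factorial 3 : ℕ) : ℝ) * (2 / Real.pi) ^ 3 with hκ
  have hpi := Real.pi_pos
  have hκ0 : 0 < κ := by positivity
  have hV : Vol a = κ * a ^ 2 := rfl
  have hV0 : 0 < Vol a := by rw [hV]; positivity
  set μ : Measure (Cn 3) := ENNReal.ofReal (κ / Vol a) • volume with hμ
  have hinv : ∀ m, μ.map (fun z => z + lat a m) = μ := by
    intro m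
    rw [hμ, Measure.map_smul, (measurePreserving_add_right volume (lat a m)).map_eq]
  refine ⟨muX a μ, ?_, ⟨0, fun _ => by simp⟩, ?_, ENNReal.ofReal κ • volume, TQ.ma0, ?_⟩
  · rw [muX_univ, hμ, Measure.smul_apply, volume_FD ha, smul_eq_mul, ← ENNReal.ofReal_mul (by positivity),
      hV]
    have h1 : κ / (κ * a ^ 2) * a ^ 2 = 1 := by field_simp
    rw [h1, ENNReal.ofReal_one]
  · refine psh_of_smooth (n := 3) isOpen_univ ((contDiff_norm_sq ℝ).add contDiff_const) ?_
    intro z _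
    rw [TQ.hess_nsq0]
    exact Matrix.PosSemidef.one
  · intro E hE hinj
    rw [muX_image ha hinv hE hinj, hμ, Measure.smul_apply, Measure.smul_apply, smul_eq_mul, smul_eq_mul,
      ← mul_assoc, ← ENNReal.ofReal_mul hV0.le, mul_div_cancel₀ _ hV0.ne']

end Pool.Agent.H805K
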