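import Mathlib
import Pool.Agent.H805K.Tor4
import Pool.Agent.H805K.Asm1

/-! Task SEQ: choice of the sequence of blocks on the torus. -/

set_option autoImplicit false
set_option maxHeartbeats 1000000

open MeasureTheory Metric Set Filter Topology
open scoped ContDiff ComplexOrder ENNReal

namespace Pool.Agent.H805K
open Pool.Agent.H805R2

namespace TSEQ

/-- existence of blocks -/
abbrev Hyp : Prop := ∀ rm rp η Kr : ℝ, 0 < rm → rm < rp → rp ≤ 1 → 0 < η → η ≤ 1 →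
  Nonempty (BlkT rm rp η Kr)

/-- a choice of blocks -/
noncomputable def blkOf (H : Hyp) (m : ℕ) (η : {x : ℝ // 0 < x ∧ x ≤ 1}) :
    BlkT (sr m) (sr (m + 1)) η.1 (m : ℝ) :=
  (H _ _ _ _ (sr_pos m) (sr_strictMono (Nat.lt_succ_self m)) (sr_lt_one _).le η.2.1 η.2.2).some

/-- the next parameter -/
noncomputable def nxt (H : Hyp) (m : ℕ) (η : {x : ℝ // 0 < x ∧ x ≤ 1}) : {x : ℝ // 0 < x ∧ x ≤ 1} :=
  ⟨min (η.1 / 2) (blkOf H m η).d, lt_min (half_pos η.2.1) (blkOf H m η).d_pos,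
    (min_le_left _ _).trans ((half_le_self η.2.1.le).trans η.2.2)⟩

/-- the sequence of parameters -/
noncomputable def etaSeq (H : Hyp) (η0 : {x : ℝ // 0 < x ∧ x ≤ 1}) : ℕ → {x : ℝ // 0 < x ∧ x ≤ 1}
  | 0 => η0
  | m + 1 => nxt H m (etaSeq H η0 m)

/-- the sequence of blocks -/
theorem exists_seq (H : Hyp) {η0 : ℝ} (h0 : 0 < η0) (h1 : η0 ≤ 1) :
    ∃ (η : ℕ → ℝ) (B : ∀ m : ℕ, BlkT (sr m) (sr (m + 1)) (η m) (m : ℝ)), (∀ m, 0 < η m) ∧
      (∀ m, η m ≤ η0 / 2 ^ m) ∧ ∀ m m', m < m' → η m' ≤ (B m).d := by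
  set E := etaSeq H ⟨η0, h0, h1⟩ with hE
  have hstep : ∀ m, (E (m + 1)).1 = min ((E m).1 / 2) (blkOf H m (E m)).d := fun m => rfl
  have hle : ∀ m, (E (m + 1)).1 ≤ (E m).1 / 2 := fun m => by rw [hstep]; exact min_le_left _ _
  have hanti : Antitone fun m => (E m).1 := antitone_nat_of_succ_le fun m =>
    (hle m).trans (half_le_self (E m).2.1.le)
  refine ⟨fun m => (E m).1, fun m => blkOf H m (E m), fun m => (E m).2.1, ?_, ?_⟩
  · intro m
    induction m with
    | zero => simp [hE, etaSeq]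
    | succ m ih =>
      refine (hle m).trans ?_
      rw [pow_succ, ← div_div]
      exact div_le_div_of_nonneg_right ih (by norm_num)
  · intro m m' hmm
    have h2 : (E m').1 ≤ (E (m + 1)).1 := hanti hmm
    refine h2.trans ?_
    rw [hstep]
    exact min_le_right _ _

/-- tubes are pairwise disjoint -/
lemma tubes_disjoint {η : ℕ → ℝ} (B : ∀ m : ℕ, BlkT (sr m) (sr (m + 1)) (η m) (m : ℝ))
    (hη : ∀ m, 0 < η m) (hd : ∀ m m', m < m' → η m' ≤ (B m).d) {m m' : ℕ} {z : Cn 3}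
    (h1 : z ∈ (B m).N) (h2 : z ∈ (B m').N) : m = m' := by
  have key : ∀ m m', m < m' → z ∈ (B m).N → z ∈ (B m').N → False := by
    intro m m' hlt h1 h2
    have h3 := (B m).N_rp z h1
    have h4 : ‖z 0‖ ≤ sr m' := h3.le.trans (sr_strictMono.monotone hlt)
    obtain ⟨m1, m2, h5⟩ := (B m').N_rm z h2 h4
    have h6 := (B m).N_d z h1 m1 m2
    have h7 := hd m m' hlt
    have h8 := pow_le_pow_left₀ (hη m').le h7 2
    linarith
  by_contra hne
  rcases lt_or_gt_of_ne hne with h | h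
  · exact key m m' h h1 h2
  · exact key m' m h h2 h1

lemma sum_geo {η : ℕ → ℝ} {η0 : ℝ} (h0 : 0 < η0) (hle : ∀ m, η m ≤ η0 / 2 ^ m) (k : ℕ) :
    ∑ m ∈ Finset.range k, η m ≤ 2 * η0 := by
  have h1 : ∑ m ∈ Finset.range k, η m ≤ ∑ m ∈ Finset.range k, η0 * (1 / 2) ^ m := by
    apply Finset.sum_le_sum
    intro m _
    refine (hle m).trans (le_of_eq ?_)
    rw [div_pow, one_pow]
    ring
  refine h1.trans ?_
  rw [← Finset.mul_sum, mul_comm]
  apply mul_le_mul_of_nonneg_right _ h0.le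
  have h2 : Summable fun m : ℕ => ((1 : ℝ) / 2) ^ m := summable_geometric_two
  have h3 := h2.sum_le_tsum (Finset.range k) (fun m _ => by positivity)
  rwa [tsum_geometric_two] at h3

/-- abstract sum estimate: all terms but at most one are `≥ -η_j c` -/
lemma sum_est {η x : ℕ → ℝ} {c M : ℝ} (hc : 0 ≤ c) (hM : 0 ≤ M) (hη : ∀ m, 0 < η m)
    (hsum : ∀ k, ∑ m ∈ Finset.range k, η m ≤ 1 / 2) (P : ℕ → Prop)
    (hP : ∀ i j, P i → P j → i = j) (hout : ∀ j, ¬ P j → -(η j * c) ≤ x j)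
    (hin : ∀ j, P j → -M ≤ x j) (k : ℕ) : -M - 1 / 2 * c ≤ ∑ j ∈ Finset.range k, x j := by
  by_cases h : ∃ i < k, P i
  · obtain ⟨i, hi, hPi⟩ := h
    rw [← Finset.add_sum_erase _ _ (Finset.mem_range.2 hi)]
    have h1 : ∑ j ∈ (Finset.range k).erase i, (-(η j * c)) ≤
        ∑ j ∈ (Finset.range k).erase i, x j :=
      Finset.sum_le_sum fun j hj => hout j fun hPj => Finset.ne_of_mem_erase hj (hP _ _ hPj hPi)
    rw [Finset.sum_neg_distrib, ← Finset.sum_mul] at h1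
    have h2 : ∑ j ∈ (Finset.range k).erase i, η j ≤ ∑ j ∈ Finset.range k, η j :=
      Finset.sum_le_sum_of_subset_of_nonneg (Finset.erase_subset _ _) fun j _ _ => (hη j).le
    have h3 := hsum k
    have h5 : (∑ j ∈ (Finset.range k).erase i, η j) * c ≤ 1 / 2 * c :=
      mul_le_mul_of_nonneg_right (by linarith) hc
    have h6 := hin i hPi
    linarith
  · push Not at h
    have h1 : ∑ j ∈ Finset.range k, (-(η j * c)) ≤ ∑ j ∈ Finset.range k, x j :=
      Finset.sum_le_sum fun j hj => hout j (h j (Finset.mem_range.1 hj))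
    rw [Finset.sum_neg_distrib, ← Finset.sum_mul] at h1
    have h5 : (∑ j ∈ Finset.range k, η j) * c ≤ 1 / 2 * c :=
      mul_le_mul_of_nonneg_right (hsum k) hc
    linarith

lemma AA_pos : 0 < AA := by unfold AA; norm_num

end TSEQ

open TSEQ in
theorem exists_sysT (H : ∀ rm rp η Kr : ℝ, 0 < rm → rm < rp → rp ≤ 1 → 0 < η → η ≤ 1 → Nonempty (BlkT rm rp η Kr)) :
    Nonempty SysT := by
  obtain ⟨η, B, hη, hle, hd⟩ := TSEQ.exists_seq H (η0 := 1 / 4) (by norm_num) (by norm_num)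
  have hsum : ∀ k, ∑ m ∈ Finset.range k, η m ≤ 1 / 2 := fun k =>
    (TSEQ.sum_geo (by norm_num) hle k).trans (by norm_num)
  have hdis : ∀ {i j : ℕ} {z : Cn 3}, z ∈ (B i).N → z ∈ (B j).N → i = j := fun h1 h2 =>
    TSEQ.tubes_disjoint B hη hd h1 h2
  have hAA := TSEQ.AA_pos
  have hsm : ∀ k, ContDiff ℝ ∞ (fun y : Cn 3 => ∑ j ∈ Finset.range k, (B j).v y) := fun k =>
    ContDiff.sum fun m _ => (B m).v_sm
  have hlev : ∀ k (z ζ : Cn 3),
      levi (fun y => (AA + 2) * ‖y‖ ^ 2 + ∑ j ∈ Finset.range k, (B j).v y) z ζ =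
        (AA + 2) * ‖ζ‖ ^ 2 + ∑ j ∈ Finset.range k, levi (B j).v z ζ := by
    intro k z ζ
    rw [levi_add' (contDiff_const.mul nz_sm) (hsm k), levi_const_mul' _ nz_sm, nz_levi,
      levi_sum _ (fun m _ => (B m).v_sm) z ζ]
  have hlev1 : ∀ j (z ζ : Cn 3), levi (fun y => (AA + 1) * ‖y‖ ^ 2 + (B j).v y) z ζ =
        (AA + 1) * ‖ζ‖ ^ 2 + levi (B j).v z ζ := by
    intro j z ζ
    rw [levi_add' (contDiff_const.mul nz_sm) (B j).v_sm, levi_const_mul' _ nz_sm, nz_levi]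
  have hpsd : ∀ k, ∀ z ∈ DD, ∀ ζ : Cn 3,
      0 ≤ levi (fun y => (AA + 2) * ‖y‖ ^ 2 + ∑ j ∈ Finset.range k, (B j).v y) z ζ := by
    intro k z hz ζ
    rw [hlev]
    have hζ : 0 ≤ ‖ζ‖ ^ 2 := by positivity
    have h1 := TSEQ.sum_est (η := η) (x := fun j => levi (B j).v z ζ) (c := ‖ζ‖ ^ 2)
      (M := (AA + 1) * ‖ζ‖ ^ 2) hζ (by positivity) hη hsum (fun j => z ∈ (B j).N)
      (fun i j hi hj => hdis hi hj) (fun j hj => (B j).v_out z hz hj ζ)
      (fun j hj => by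
        have := (B j).v_in z hz hj ζ
        rw [hlev1] at this
        linarith) k
    linarith
  refine ⟨{
    v := fun j => (B j).v
    U := fun j => (B j).U
    ρ := fun j => (B j).ρ
    h := fun j => (B j).h
    y := fun j => (B j).y
    v_sm := fun j => (B j).v_sm
    v_le := fun j => (B j).v_le
    sum_ge := ?_
    sum_psd := hpsd
    sum_det := ?_
    disj := ?_
    U_open := fun j => (B j).U_open
    U_bd := fun j => (B j).U_bd
    U_z0 := fun j z hz => ((B j).U_z0 z hz).trans (sr_lt_one _)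
    ρ_cont := fun j => (B j).ρ_cont
    ρ_nonneg := fun j => (B j).ρ_nonneg
    h_sm := fun j => (B j).h_sm
    h_bd := fun j => (B j).h_bd
    h_det := fun j => (B j).h_det
    y_mem := fun j => (B j).y_mem
    h_y := fun j => (B j).h_y }⟩
  · intro k z hz
    have h1 := TSEQ.sum_est (η := η) (x := fun j => (B j).v z) (c := 1) (M := 3) (by norm_num)
      (by norm_num) hη hsum (fun j => z ∈ (B j).N) (fun i j hi hj => hdis hi hj)
      (fun j hj => by rw [mul_one]; exact (B j).v_ge_out z hz hj)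
      (fun j _ => (B j).v_ge z hz) k
    linarith
  · intro k z hz j hj m hm
    obtain ⟨hN, hdet⟩ := (B j).v_det z hz m hm
    refine hdet.trans ?_
    have hw : ContDiff ℝ ∞ (fun y : Cn 3 => (AA + 1) * ‖y‖ ^ 2 + (B j).v y) :=
      (contDiff_const.mul nz_sm).add (B j).v_sm
    have hw2 : ContDiff ℝ ∞
        (fun y : Cn 3 => (AA + 2) * ‖y‖ ^ 2 + ∑ j ∈ Finset.range k, (B j).v y) :=
      (contDiff_const.mul nz_sm).add (hsm k)
    apply det_mono_psd
    · rw [psd_iff hw]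
      exact (B j).v_in z hz hN
    · refine hess_sub_psd hw2 hw z fun ζ => ?_
      rw [hlev, hlev1, ← Finset.add_sum_erase _ _ (Finset.mem_range.2 hj)]
      have hζ : 0 ≤ ‖ζ‖ ^ 2 := by positivity
      have h1 : ∑ i ∈ (Finset.range k).erase j, (-(η i * ‖ζ‖ ^ 2)) ≤
          ∑ i ∈ (Finset.range k).erase j, levi (B i).v z ζ :=
        Finset.sum_le_sum fun i hi => (B i).v_out z hz
          (fun hPi => Finset.ne_of_mem_erase hi (hdis hPi hN)) ζ
      rw [Finset.sum_neg_distrib, ← Finset.sum_mul] at h1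
      have h2 : ∑ i ∈ (Finset.range k).erase j, η i ≤ ∑ i ∈ Finset.range k, η i :=
        Finset.sum_le_sum_of_subset_of_nonneg (Finset.erase_subset _ _) fun i _ _ => (hη i).le
      have h3 := hsum k
      have h5 : (∑ i ∈ (Finset.range k).erase j, η i) * ‖ζ‖ ^ 2 ≤ 1 / 2 * ‖ζ‖ ^ 2 :=
        mul_le_mul_of_nonneg_right (by linarith) hζ
      linarith
  · intro z hz j m j' m' h1 h2
    have h3 := ((B j).v_det z hz m h1).1
    have h4 := ((B j').v_det z hz m' h2).1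
    obtain rfl := hdis h3 h4
    exact ⟨rfl, (B j).U_disj z m m' h1 h2⟩

end Pool.Agent.H805K
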