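import Mathlib
import Pool.Agent.H805K.Tor3
import Pool.Agent.H805K.Block3
import Pool.Agent.H805K.TH
import Pool.Agent.H805K.TI

/-!
Existence of the torus blocks.
-/

set_option autoImplicit false
set_option maxHeartbeats 2000000

open MeasureTheory Metric Set Filter Topology
open scoped ContDiff ComplexOrder

namespace Pool.Agent.H805K
open Pool.Agent.H805R2

lemma sum_ge_all {ι : Type*} (s : Finset ι) (g : ι → ℝ) {c : ℝ} (h : ∀ i ∈ s, -c ≤ g i) :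
    -((s.card : ℝ) * c) ≤ ∑ i ∈ s, g i := by
  have h1 := Finset.sum_le_sum h
  rw [Finset.sum_const, nsmul_eq_mul] at h1
  linarith

lemma sum_ge_one {ι : Type*} [DecidableEq ι] (s : Finset ι) (g : ι → ℝ) {c : ℝ} (hc : 0 ≤ c) {i0 : ι} (hi : i0 ∈ s)
    (h : ∀ i ∈ s, i ≠ i0 → -c ≤ g i) : g i0 - (s.card : ℝ) * c ≤ ∑ i ∈ s, g i := by
  rw [← Finset.add_sum_erase s g hi]
  have h1 := sum_ge_all (s.erase i0) g (c := c) (fun i hi' => h i (Finset.mem_of_mem_erase hi') (Finset.ne_of_mem_erase hi'))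
  have h2 : ((s.erase i0).card : ℝ) ≤ s.card := by exact_mod_cast Finset.card_erase_le
  have h3 : ((s.erase i0).card : ℝ) * c ≤ s.card * c := mul_le_mul_of_nonneg_right h2 hc
  linarith

lemma AA_pos : 0 < AA := by unfold AA; norm_num

/-- **Existence of torus blocks.** -/
theorem exists_blkT {rm rp η Kr : ℝ} (hrm : 0 < rm) (hrmp : rm < rp) (hrp : rp ≤ 1) (hη : 0 < η) (hη1 : η ≤ 1) :
    Nonempty (BlkT rm rp η Kr) := by
  -- the number of terms
  obtain ⟨K, hK⟩ : ∃ K : ℕ, max 2 ((Kr + 41) / 4) ≤ K := exists_nat_ge _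
  have hK2 : (2 : ℝ) ≤ K := (le_max_left _ _).trans hK
  have hKr : (Kr + 41) / 4 ≤ K := (le_max_right _ _).trans hK
  have hKn : 2 ≤ K := by exact_mod_cast hK2
  have hKpos : 0 < K := by omega
  have hK0 : (0 : ℝ) < K := by linarith
  -- the radius
  set R : ℝ := (rm + rp) / 2 with hR
  have hR0 : 0 < R := by rw [hR]; linarith
  have hR1 : R < 1 := by rw [hR]; linarith
  have hRp : R < rp := by rw [hR]; linarith
  have hRm : rm < R := by rw [hR]; linarith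
  -- translations
  set L : ℕ := K + 4 with hL
  have hLr : (L : ℝ) = K + 4 := by rw [hL]; push_cast; ring
  set M : ℝ := ((LL L).card : ℝ) with hM
  have hM1 : 1 ≤ M := by
    have h0 : (0 : (ℤ × ℤ) × (ℤ × ℤ)) ∈ LL L := by
      apply mem_LL
      · change ‖gi 0‖ < _
        rw [gi_zero, norm_zero, hLr]
        linarith
      · change ‖gi 0‖ < _
        rw [gi_zero, norm_zero, hLr]
        linarith
    have h1 : 1 ≤ (LL L).card := Finset.one_le_card.2 ⟨0, h0⟩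
    rw [hM]
    exact_mod_cast h1
  have hM0 : 0 < M := by linarith
  -- the exponent
  have hηc : 0 < min (η / 4) (1 / (8 * (K : ℝ))) := lt_min (by positivity) (by positivity)
  obtain ⟨N1, hN1⟩ := exp_T_small K hKn (R := R) (rp := rp) (ε := η / (40 * M)) hR0 hRp (by positivity)
  obtain ⟨N2, hN2⟩ := curve_geom_T K hKn (rm := rm) (R := R) (η := min (η / 4) (1 / (8 * (K : ℝ)))) hrm hRm hηc
  obtain ⟨N, hN, hNN1, hNN2⟩ : ∃ N : ℕ, 2 ≤ N ∧ N1 ≤ N ∧ N2 ≤ N :=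
    ⟨max 2 (max N1 N2), le_max_left _ _, (le_max_left _ _).trans (le_max_right _ _),
      (le_max_right _ _).trans (le_max_right _ _)⟩
  have hfar := hN1 N hNN1
  obtain ⟨hNrm, c, hc, d0, hd0, hd⟩ := hN2 N hNN2 hN
  have hcη : ‖c‖ ≤ η / 4 := hc.trans (min_le_left _ _)
  have hcK : ‖c‖ ≤ 1 / (8 * (K : ℝ)) := hc.trans (min_le_right _ _)
  set T : Cn 3 → ℝ := Tf K N R with hT
  have hTs : ContDiff ℝ ∞ T := Tf_sm K N R
  have hp := Q1_sm K N R c
  have hq := Q2_sm K N R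
  set Rad : ℝ := 4 * (L : ℝ) + 8 with hRad
  have hRad0 : 0 < Rad := by rw [hRad]; positivity
  -- bounds
  obtain ⟨G, hG0, hG⟩ : ∃ G : ℝ, 0 ≤ G ∧ ∀ w : ℂ, ‖w‖ ≤ 3 → gg K N R w ≤ G := by
    obtain ⟨x, hx, hmax⟩ := (isCompact_closedBall (0 : ℂ) 3).exists_isMaxOn
      ⟨0, mem_closedBall_self (by norm_num)⟩ (gg_cont K N R).continuousOn
    refine ⟨gg K N R x, gg_nonneg _ _ _ _, fun w hw => hmax (by simpa using hw)⟩
  obtain ⟨T1, hT1⟩ : ∃ T1 : ℝ, ∀ z ∈ ball (0 : Cn 3) Rad, T z ≤ T1 := by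
    obtain ⟨x, hx, hmax⟩ := (isCompact_closedBall (0 : Cn 3) Rad).exists_isMaxOn
      ⟨0, mem_closedBall_self hRad0.le⟩ hTs.continuous.continuousOn
    exact ⟨T x, fun z hz => hmax (ball_subset_closedBall hz)⟩
  -- parameters
  set KG : ℝ := K * G with hKG
  have hKG0 : 0 ≤ KG := by positivity
  set Γ : ℝ := 8 + 11 * M * KG / η with hΓ
  have hΓ8 : 8 ≤ Γ := by
    have : 0 ≤ 11 * M * KG / η := by positivity
    linarith
  have hΓ' : 11 * M * KG ≤ Γ * η := by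
    rw [hΓ, add_mul, div_mul_cancel₀ _ hη.ne']
    linarith
  set e : ℝ := min (1 / 50) (η / (41 * M * (KG + 1))) with he
  have he0 : 0 < e := lt_min (by norm_num) (by positivity)
  have he1 : e ≤ 1 / 50 := min_le_left _ _
  have he2 : e * (41 * M * (KG + 1)) ≤ η := by
    have h1 : e ≤ η / (41 * M * (KG + 1)) := min_le_right _ _
    rwa [le_div_iff₀ (by positivity)] at h1
  obtain ⟨kmin, hkmin0, hkmin⟩ : ∃ kmin : ℝ, 0 < kmin ∧ ∀ x ∈ Icc (-(K : ℝ)) (T1 + K), kmin ≤ k1 x := by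
    rcases (Icc (-(K : ℝ)) (T1 + K)).eq_empty_or_nonempty with h | h
    · exact ⟨1, one_pos, fun x hx => by rw [h] at hx; exact absurd hx (notMem_empty x)⟩
    · have hc : Continuous k1 := continuous_iff_continuousAt.2 fun x => (k1_deriv x).continuousAt
      obtain ⟨x, hx, hmin⟩ := isCompact_Icc.exists_isMinOn h hc.continuousOn
      exact ⟨k1 x, k1_pos x, fun y hy => hmin hy⟩
  -- the function `b`
  have hr0 : 0 < min (min d0 (η / 4)) (1 / (8 * (K : ℝ))) := lt_min (lt_min hd0 (by positivity)) (by positivity)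
  obtain ⟨b, r1, hr1, hr1le, hbs, hbge, hble, hbe, hbΓ, hbΛ, hbc, hbz⟩ := exists_bR hRad0 hp hq (β := (K : ℝ))
    (Γ := Γ) hK0 (by linarith) (e := e) (r := min (min d0 (η / 4)) (1 / (8 * (K : ℝ)))) (Λ := 2 * AA / kmin) he0
    hr0
  have hr1d : r1 ≤ d0 := hr1le.trans ((min_le_left _ _).trans (min_le_left _ _))
  have hr1η : r1 ≤ η / 4 := hr1le.trans ((min_le_left _ _).trans (min_le_right _ _))
  have hr1K : r1 ≤ 1 / (8 * (K : ℝ)) := hr1le.trans (min_le_right _ _)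
  have h8K : 1 / (8 * (K : ℝ)) ≤ 1 / 16 := by
    apply one_div_le_one_div_of_le (by norm_num)
    linarith
  set p := Q1 K N R c with hpdef
  set q := Q2 K N R with hqdef
  -- coordinates in terms of `p`, `q`
  have hz1 : ∀ (z : Cn 3) m, z 1 - gi m.1 = p (z - xv m) + (c + sK K * fe K N R (z 0)) := fun z m => by
    rw [hpdef, Q1, sub0, sub1]; ring
  have hz2 : ∀ (z : Cn 3) m, z 2 - gi m.2 = q (z - xv m) + sK K * fo K N R (z 0) := fun z m => by
    rw [hqdef, Q2, sub0, sub2]; ring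
  have hpr : ∀ z, ‖p z‖ ^ 2 + ‖q z‖ ^ 2 ≤ r1 ^ 2 → ‖p z‖ ≤ r1 ∧ ‖q z‖ ≤ r1 := by
    intro z hz
    constructor
    · exact le_of_sq_le_sq (ax1 hz) hr1.le
    · exact le_of_sq_le_sq (ax1 (by rw [add_comm]; exact hz)) hr1.le
  -- disjointness of the translated tubes
  have htd : ∀ (z : Cn 3) m m', ‖p (z - xv m)‖ ^ 2 + ‖q (z - xv m)‖ ^ 2 ≤ r1 ^ 2 →
      ‖p (z - xv m')‖ ^ 2 + ‖q (z - xv m')‖ ^ 2 ≤ r1 ^ 2 → m = m' := by
    intro z m m' h1 h2
    obtain ⟨a1, a2⟩ := hpr _ h1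
    obtain ⟨b1, b2⟩ := hpr _ h2
    have e1 : gi (m.1 - m'.1) = p (z - xv m') - p (z - xv m) := by
      rw [← gi_sub]
      have := hz1 z m
      have := hz1 z m'
      linear_combination hz1 z m' - hz1 z m
    have e2 : gi (m.2 - m'.2) = q (z - xv m') - q (z - xv m) := by
      rw [← gi_sub]
      linear_combination hz2 z m' - hz2 z m
    have c1 : m.1 - m'.1 = 0 := by
      apply gi_small
      rw [e1]
      have := norm_sub_le (p (z - xv m')) (p (z - xv m))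
      linarith
    have c2 : m.2 - m'.2 = 0 := by
      apply gi_small
      rw [e2]
      have := norm_sub_le (q (z - xv m')) (q (z - xv m))
      linarith
    exact Prod.ext (sub_eq_zero.1 c1) (sub_eq_zero.1 c2)
  -- facts on the Levi forms
  have hTl0 : ∀ z ζ, 0 ≤ levi T z ζ := Tf_levi_nonneg K N hR0
  have hTl1 : ∀ z ζ, levi T z ζ ≤ K * gg K N R (z 0) * ‖ζ 0‖ ^ 2 := Tf_levi_le K N hR0 hKpos
  have hTd : ∀ z ζ, ‖dl T z ζ‖ ^ 2 ≤ 11 / 4 * (K * gg K N R (z 0) * ‖ζ 0‖ ^ 2) :=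
    Tf_dl_sq_le K N hN hR0 hKpos
  have hbl0 : ∀ z ∈ ball (0 : Cn 3) Rad, ∀ ζ, 0 ≤ levi b z ζ := fun z hz ζ =>
    le_trans (by positivity) (hbΓ z hz ζ)
  have hbp : ∀ z ∈ ball (0 : Cn 3) Rad, (hess b z).PosSemidef := fun z hz =>
    (psd_iff hbs z).2 (hbl0 z hz)
  have hbdet : ∀ z ∈ ball (0 : Cn 3) Rad, (hess b z).det = 0 := by
    intro z hz
    set ζ : Cn 3 := WithLp.toLp 2 ![1, sK K * dfe K N R (z 0), sK K * dfo K N R (z 0)] with hζ
    have e0 : ζ 0 = 1 := by simp [hζ]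
    have e1 : ζ 1 = sK K * dfe K N R (z 0) := by simp [hζ]
    have e2 : ζ 2 = sK K * dfo K N R (z 0) := by simp [hζ]
    apply det_zero_of_levi hbs (hbp z hz) (ζ := ζ)
    · intro h
      rw [h] at e0
      simp at e0
    · apply hbz z hz ζ
      · rw [hpdef, Q1_fd, e0, e1]; ring
      · rw [hqdef, Q2_fd, e0, e2]; ring
  have hmn : ∀ z ∈ ball (0 : Cn 3) Rad, 0 ≤ (mnr (hess b z)).re := fun z hz => mnr_nonneg (hbp z hz)
  have hgz : ∀ z ζ : Cn 3, ‖z 0‖ ≤ 3 → K * gg K N R (z 0) * ‖ζ 0‖ ^ 2 ≤ KG * ‖ζ‖ ^ 2 := by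
    intro z ζ hz
    have h1 : K * gg K N R (z 0) ≤ KG := mul_le_mul_of_nonneg_left (hG _ hz) hK0.le
    have h2 : ‖ζ 0‖ ^ 2 ≤ ‖ζ‖ ^ 2 := pow_le_pow_left₀ (norm_nonneg _) (norm_coord_le ζ 0) 2
    exact mul_le_mul h1 h2 (by positivity) hKG0
  -- outside the tubes
  have hvs : ContDiff ℝ ∞ (vf 1 T b) := vf_sm hTs hbs 1
  have hout : ∀ x ∈ ball (0 : Cn 3) Rad, ‖x 0‖ ≤ 3 →
      ((¬ (‖p x‖ ^ 2 + ‖q x‖ ^ 2 ≤ r1 ^ 2)) ∨ rp ≤ ‖x 0‖) →
      (∀ ζ, -(η / M * ‖ζ‖ ^ 2) ≤ levi (vf 1 T b) x ζ) ∧ -(η / M) ≤ vf 1 T b x := by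
    intro x hx hx0 hor
    by_cases hfx : rp ≤ ‖x 0‖
    · have hE := hfar x hfx
      have hE0 : 0 < Real.exp (-T x) := Real.exp_pos _
      have hgn : 0 ≤ K * gg K N R (x 0) := mul_nonneg hK0.le (gg_nonneg _ _ _ _)
      have hE1 : Real.exp (-T x) * (K * gg K N R (x 0)) ≤ η / (40 * M) := by
        have : Real.exp (-T x) * (1 + K * gg K N R (x 0)) =
          Real.exp (-T x) + Real.exp (-T x) * (K * gg K N R (x 0)) := by ring
        rw [hT] at hE0 this ⊢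
        linarith
      have hE2 : Real.exp (-T x) ≤ η / (40 * M) := by
        have h1 : 0 ≤ Real.exp (-T x) * (K * gg K N R (x 0)) := by positivity
        have : Real.exp (-T x) * (1 + K * gg K N R (x 0)) =
          Real.exp (-T x) + Real.exp (-T x) * (K * gg K N R (x 0)) := by ring
        rw [hT] at h1 this ⊢
        linarith
      have h40 : η / (40 * M) = η / M / 40 := by rw [div_div]; ring_nf
      have hηM : 0 < η / M := by positivity
      refine ⟨fun ζ => ?_, ?_⟩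
      · have h := vf_far (Γ := Γ) (G := K * gg K N R (x 0)) (by linarith) hTs hbs x ζ (hTl0 x ζ) (hTl1 x ζ)
          (hTd x ζ) (hbΓ x hx ζ) (hble x)
        refine le_trans ?_ h
        apply neg_le_neg
        have h2 : ‖ζ 0‖ ^ 2 ≤ ‖ζ‖ ^ 2 := pow_le_pow_left₀ (norm_nonneg _) (norm_coord_le ζ 0) 2
        have h3 : 37 / 4 * (Real.exp (-T x) * (K * gg K N R (x 0))) ≤ η / M := by
          rw [h40] at hE1
          linarith
        exact mul_le_mul h3 h2 (by positivity) hηM.le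
      · have h := vf_far_val T b x
        rw [h40] at hE2
        linarith
    · have hnt : ¬ (‖p x‖ ^ 2 + ‖q x‖ ^ 2 ≤ r1 ^ 2) := by
        rcases hor with h | h
        · exact h
        · exact absurd h hfx
      have hnt' : r1 ^ 2 ≤ ‖p x‖ ^ 2 + ‖q x‖ ^ 2 := (not_le.1 hnt).le
      have hbe' := hbe x hnt'
      have heM : 41 * (e * KG) ≤ η / M ∧ e ≤ η / M := by
        rw [le_div_iff₀ hM0, le_div_iff₀ hM0]
        have h1 : 0 ≤ e * M := by positivity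
        have h2 : 0 ≤ e * M * KG := by positivity
        constructor <;> nlinarith
      have hΓM : 11 / (2 * Γ) * KG ≤ η / M / 2 := by
        rw [div_mul_eq_mul_div, div_le_iff₀ (by positivity), div_div, div_mul_eq_mul_div, le_div_iff₀ (by positivity)]
        nlinarith
      refine ⟨fun ζ => ?_, ?_⟩
      · have h := vf_out (δ := 1) (Γ := Γ) (e := e) (G := K * gg K N R (x 0)) zero_le_one (by linarith) he0.le hTs
          hbs x ζ (hTl0 x ζ) (hTl1 x ζ) (hTd x ζ) (hbΓ x hx ζ) (hble x) hbe'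
        refine le_trans ?_ h
        apply neg_le_neg
        have h1 := hgz x ζ hx0
        have h2 : (81 / 4 * e + 11 / (2 * Γ)) * (K * gg K N R (x 0) * ‖ζ 0‖ ^ 2) ≤
            (81 / 4 * e + 11 / (2 * Γ)) * (KG * ‖ζ‖ ^ 2) := mul_le_mul_of_nonneg_left h1 (by positivity)
        have h3 : (81 / 4 * e + 11 / (2 * Γ)) * KG ≤ η / M := by
          have : (81 / 4 * e + 11 / (2 * Γ)) * KG = 81 / 4 * (e * KG) + 11 / (2 * Γ) * KG := by ring
          have h4 : 0 ≤ e * KG := by positivity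
          rw [this]
          linarith [heM.1]
        have h4 := mul_le_mul_of_nonneg_right h3 (by positivity : 0 ≤ ‖ζ‖ ^ 2)
        calc 1 * (81 / 4 * e + 11 / (2 * Γ)) * (K * gg K N R (x 0)) * ‖ζ 0‖ ^ 2
            = (81 / 4 * e + 11 / (2 * Γ)) * (K * gg K N R (x 0) * ‖ζ 0‖ ^ 2) := by ring
          _ ≤ (81 / 4 * e + 11 / (2 * Γ)) * (KG * ‖ζ‖ ^ 2) := h2
          _ = (81 / 4 * e + 11 / (2 * Γ)) * KG * ‖ζ‖ ^ 2 := by ring
          _ ≤ _ := h4
      · have h := vf_out_val T b x (hble x) hbe'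
        linarith [heM.2]
  -- inside the tube
  have hin : ∀ x ∈ ball (0 : Cn 3) Rad, ‖p x‖ ^ 2 + ‖q x‖ ^ 2 ≤ r1 ^ 2 → ∀ ζ,
      (AA / 16 - 37 / 4) * (K * gg K N R (x 0)) * ‖ζ 0‖ ^ 2 + k1 (T x - b x) / 4 * levi b x ζ ≤
        AA * ‖ζ‖ ^ 2 + levi (vf 1 T b) x ζ := by
    intro z hz hzN ζ
    have hD : T z - b z ∈ Icc (-(K : ℝ)) (T1 + K) := by
      have h1 := hT1 z hz
      have h2 := hbge z
      have h3 := hble z
      have h4 : -(K * Real.log 2) ≤ T z := Tf_ge K N R z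
      have h5 := Real.log_two_lt_d9
      constructor
      · exact ax2 (T1 := T1) h4 (by linarith) hK0 h3
      · linarith
    refine vf_inT (Γ := Γ) (Λ := 2 * AA / kmin) (kmin := kmin) hΓ8 AA_pos.le hTs hbs z ζ
      (x1 := fderiv ℂ p z ζ) (x2 := fderiv ℂ q z ζ) (d1 := sK K * dfe K N R (z 0)) (d2 := sK K * dfo K N R (z 0))
      ?_ ?_ (dfK_ge K N hN hR0 hKpos (z 0)) (hTl0 z ζ) (hTl1 z ζ) (hTd z ζ)
      (hbΓ z hz ζ) (hbΛ z hz hzN ζ) (hkmin _ hD) ?_ hkmin0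
    · rw [hpdef, Q1_fd]; ring
    · rw [hqdef, Q2_fd]; ring
    · rw [div_mul_cancel₀ _ hkmin0.ne']
  have hA0 : 0 ≤ AA / 16 - 37 / 4 := by unfold AA; norm_num
  have hin0 : ∀ x ∈ ball (0 : Cn 3) Rad, ‖p x‖ ^ 2 + ‖q x‖ ^ 2 ≤ r1 ^ 2 → ∀ ζ,
      0 ≤ AA * ‖ζ‖ ^ 2 + levi (vf 1 T b) x ζ := by
    intro x hx hxN ζ
    refine le_trans ?_ (hin x hx hxN ζ)
    have h1 : 0 ≤ (K : ℝ) * gg K N R (x 0) := mul_nonneg hK0.le (gg_nonneg _ _ _ _)
    have h2 := (k1_pos (T x - b x)).le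
    have h3 := hbl0 x hx ζ
    positivity
  -- `Φ`
  have hΦs : ContDiff ℝ ∞ (Phi 50 T b) := Phi_sm hTs hbs _
  have hm0 : (0 : ℝ) ≤ 50 := by norm_num
  have hΦp : ∀ z ∈ ball (0 : Cn 3) Rad, (hess (Phi 50 T b) z).PosSemidef := fun z hz =>
    (psd_iff hΦs z).2 fun ζ => Phi_nonneg_levi hm0 hTs hbs z ζ (hTl0 z ζ) (hbl0 z hz ζ)
  have hΦdet : ∀ z ∈ ball (0 : Cn 3) Rad, (hess (Phi 50 T b) z).det.re ≤
      50 * (13 / 2) * (K * gg K N R (z 0)) * sg (T z - b z) ^ 2 *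
        (50 * (5 / 4) * (1 - sg (T z - b z) ^ 2)) ^ 2 * (mnr (hess b z)).re := by
    intro z hz
    refine quad_up hΦs hbs (hΦp z hz) (hbdet z hz) ?_
    intro ζ
    exact Phi_up (Γ := Γ) hm0 hΓ8 hTs hbs z ζ (hTl1 z ζ) (hTd z ζ) (hbΓ z hz ζ)
  have hΦc : Continuous fun z => (hess (Phi 50 T b) z).det.re := det_hess_continuous hΦs
  -- the sum of the translates
  set vS : Cn 3 → ℝ := fun z => ∑ m ∈ LL L, vf 1 T b (z - xv m) with hvS
  have hvSs : ContDiff ℝ ∞ vS := ContDiff.sum fun m _ => shift_sm hvs (xv m)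
  have hvSl : ∀ z ζ, levi vS z ζ = ∑ m ∈ LL L, levi (vf 1 T b) (z - xv m) ζ := by
    intro z ζ
    rw [hvS, levi_sum _ fun m _ => shift_sm hvs (xv m)]
    apply Finset.sum_congr rfl
    intro m _
    rw [levi_shift]
  have hcard : ∀ t : ℝ, ((LL L).card : ℝ) * (η / M * t) = η * t := by
    intro t
    rw [← hM]
    field_simp
  have hcard' : ((LL L).card : ℝ) * (η / M) = η := by
    rw [← hM]
    field_simp
  have hDB : ∀ z ∈ DD, ∀ m ∈ LL L, z - xv m ∈ ball (0 : Cn 3) Rad := fun z hz m hm => DD_ball hz hm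
  have hD3 : ∀ z ∈ DD, ∀ m, ‖(z - xv m) 0‖ ≤ 3 := fun z hz m => by
    rw [sub0]
    linarith [hz.1]
  have hηM : 0 ≤ η / M := by positivity
  have hsum_in : ∀ z ∈ DD, ‖z 0‖ < rp → ∀ m ∈ LL L, ‖p (z - xv m)‖ ^ 2 + ‖q (z - xv m)‖ ^ 2 ≤ r1 ^ 2 →
      (∀ ζ, levi (vf 1 T b) (z - xv m) ζ - η * ‖ζ‖ ^ 2 ≤ levi vS z ζ) ∧ vf 1 T b (z - xv m) - η ≤ vS z := by
    intro z hz hz0 m hm hmt
    have hoth : ∀ i ∈ LL L, i ≠ m → ¬ (‖p (z - xv i)‖ ^ 2 + ‖q (z - xv i)‖ ^ 2 ≤ r1 ^ 2) :=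
      fun i _ hne h => hne (htd z i m h hmt)
    refine ⟨fun ζ => ?_, ?_⟩
    · rw [hvSl]
      have h := sum_ge_one (LL L) (fun m => levi (vf 1 T b) (z - xv m) ζ) (c := η / M * ‖ζ‖ ^ 2) (by positivity) hm
        (fun i hi hne => (hout _ (hDB z hz i hi) (hD3 z hz i) (Or.inl (hoth i hi hne))).1 ζ)
      rwa [hcard] at h
    · have h := sum_ge_one (LL L) (fun m => vf 1 T b (z - xv m)) (c := η / M) hηM hm
        (fun i hi hne => (hout _ (hDB z hz i hi) (hD3 z hz i) (Or.inl (hoth i hi hne))).2)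
      rwa [hcard'] at h
  set Nt : Set (Cn 3) := {z | ‖z 0‖ < rp ∧ ∃ m ∈ LL L, ‖p (z - xv m)‖ ^ 2 + ‖q (z - xv m)‖ ^ 2 ≤ r1 ^ 2} with hNt
  have hsum_out : ∀ z ∈ DD, z ∉ Nt → (∀ ζ, -(η * ‖ζ‖ ^ 2) ≤ levi vS z ζ) ∧ -η ≤ vS z := by
    intro z hz hzN
    have hor : ∀ i ∈ LL L, (¬ (‖p (z - xv i)‖ ^ 2 + ‖q (z - xv i)‖ ^ 2 ≤ r1 ^ 2)) ∨ rp ≤ ‖(z - xv i) 0‖ := by
      intro i hi
      by_cases h : rp ≤ ‖z 0‖
      · right
        rwa [sub0]
      · left
        intro h2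
        exact hzN ⟨not_le.1 h, i, hi, h2⟩
    refine ⟨fun ζ => ?_, ?_⟩
    · rw [hvSl]
      have h := sum_ge_all (LL L) (fun m => levi (vf 1 T b) (z - xv m) ζ) (c := η / M * ‖ζ‖ ^ 2)
        (fun i hi => (hout _ (hDB z hz i hi) (hD3 z hz i) (hor i hi)).1 ζ)
      rwa [hcard] at h
    · have h := sum_ge_all (LL L) (fun m => vf 1 T b (z - xv m)) (c := η / M)
        (fun i hi => (hout _ (hDB z hz i hi) (hD3 z hz i) (hor i hi)).2)
      rwa [hcard'] at h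
  -- the domain `U`
  set U : Set (Cn 3) := {z | ‖p z‖ ^ 2 + ‖q z‖ ^ 2 < r1 ^ 2 ∧ ‖z 0‖ < R} with hU
  have hpc := hp.continuous
  have hqc := hq.continuous
  have hUo : IsOpen U := by
    have o1 : IsOpen {z : Cn 3 | ‖p z‖ ^ 2 + ‖q z‖ ^ 2 < r1 ^ 2} := isOpen_lt (by fun_prop) continuous_const
    have o2 : IsOpen {z : Cn 3 | ‖z 0‖ < R} := isOpen_lt (by fun_prop) continuous_const
    exact o1.inter o2
  -- sizes of the coordinates over the disc of radius `R`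
  have hsz : ∀ (z : Cn 3) m, ‖p (z - xv m)‖ ^ 2 + ‖q (z - xv m)‖ ^ 2 ≤ r1 ^ 2 → ‖z 0‖ ≤ R →
      ‖z 1 - gi m.1‖ ≤ K + 1 ∧ ‖z 2 - gi m.2‖ ≤ K + 1 := by
    intro z m h1 h2
    obtain ⟨a1, a2⟩ := hpr _ h1
    have s1 := sKfe_le K N hKpos hR0 _ h2
    have s2 := sKfo_le K N hKpos hR0 _ h2
    constructor
    · rw [hz1]
      have t1 := norm_add_le (p (z - xv m)) (c + sK K * fe K N R (z 0))
      have t2 := norm_add_le c (sK K * fe K N R (z 0))
      linarith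
    · rw [hz2]
      have t1 := norm_add_le (q (z - xv m)) (sK K * fo K N R (z 0))
      linarith
  have hx0 : ∀ z : Cn 3, z - xv 0 = z := fun z => by
    have : xv 0 = 0 := by
      ext i
      fin_cases i
      · exact xv0 0
      · change xv 0 1 = 0
        rw [xv1]
        exact gi_zero
      · change xv 0 2 = 0
        rw [xv2]
        exact gi_zero
    rw [this, sub_zero]
  have hUb : ∀ z ∈ U, z ∈ ball (0 : Cn 3) Rad := fun z hz => by
    rw [mem_ball_zero_iff]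
    have h1 := hsz z 0 (by rw [hx0]; exact hz.1.le) hz.2.le
    have e1 : z 1 - gi (0 : (ℤ × ℤ) × (ℤ × ℤ)).1 = z 1 := by
      change z 1 - gi 0 = z 1
      rw [gi_zero, sub_zero]
    have e2 : z 2 - gi (0 : (ℤ × ℤ) × (ℤ × ℤ)).2 = z 2 := by
      change z 2 - gi 0 = z 2
      rw [gi_zero, sub_zero]
    rw [e1, e2] at h1
    have h2 := norm_le_three z
    have h3 := hz.2
    rw [hRad, hLr]
    linarith [h1.1, h1.2]
  have hUdd : ∀ z ∈ DD, ∀ m, z - xv m ∈ U → m ∈ LL L ∧ z ∈ Nt := by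
    intro z hz m hm
    have h0 : ‖z 0‖ < R := by
      have := hm.2
      rwa [sub0] at this
    have h1 := hsz z m hm.1.le h0.le
    have hmL : m ∈ LL L := by
      apply mem_LL
      · have t := norm_sub_le (z 1) (z 1 - gi m.1)
        rw [sub_sub_cancel] at t
        rw [hLr]
        linarith [hz.2.1, h1.1]
      · have t := norm_sub_le (z 2) (z 2 - gi m.2)
        rw [sub_sub_cancel] at t
        rw [hLr]
        linarith [hz.2.2, h1.2]
    exact ⟨hmL, h0.trans hRp, m, hmL, hm.1.le⟩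
  have hwS : ContDiff ℝ ∞ (fun y : Cn 3 => (AA + 1) * ‖y‖ ^ 2 + vS y) := (contDiff_const.mul nz_sm).add hvSs
  have hwSl : ∀ z ζ, levi (fun y : Cn 3 => (AA + 1) * ‖y‖ ^ 2 + vS y) z ζ =
      (AA + 1) * ‖ζ‖ ^ 2 + levi vS z ζ := by
    intro z ζ
    rw [levi_add' (contDiff_const.mul nz_sm) hvSs, levi_const_mul' _ nz_sm, nz_levi]
  have hk1sq : ∀ x, k1 x ^ 2 = sg x ^ 2 * (1 - sg x ^ 2) ^ 2 := fun x => by unfold k1; ring
  have hyc : ∀ z : Cn 3, z 0 = 0 → p z = z 1 - c ∧ q z = z 2 := by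
    intro z hz
    rw [hpdef, hqdef, Q1, Q2, hz, fe_zero K hN R, fo_zero K hN R]
    simp
  have e0 : (WithLp.toLp 2 ![0, c, 0] : Cn 3) 0 = 0 := by simp
  have e1 : (WithLp.toLp 2 ![0, c, 0] : Cn 3) 1 = c := by simp
  have e2 : (WithLp.toLp 2 ![0, c, 0] : Cn 3) 2 = 0 := by simp
  refine ⟨{
    v := vS
    N := Nt
    U := U
    ρ := fun z => (hess (Phi 50 T b) z).det.re
    h := hfT K N R b
    y := WithLp.toLp 2 ![0, c, 0]
    d := d0
    v_sm := hvSs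
    v_le := fun z => Finset.sum_nonpos fun m _ => vf_le zero_le_one T b _ (hble _)
    v_ge := ?_
    v_ge_out := fun z hz hzN => (hsum_out z hz hzN).2
    v_out := fun z hz hzN => (hsum_out z hz hzN).1
    v_in := ?_
    v_det := ?_
    N_rp := fun z hz => hz.1
    N_rm := ?_
    d_pos := hd0
    N_d := ?_
    U_open := hUo
    U_bd := isBounded_ball.subset hUb
    U_z0 := fun z hz => hz.2.trans hRp
    U_disj := fun z m m' h1 h2 => htd z m m' h1.1.le h2.1.le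
    ρ_cont := hΦc
    ρ_nonneg := fun z hz => det_hess_nonneg (hΦp z (hUb z hz))
    h_sm := hfT_sm K N R hbs
    h_bd := ?_
    h_det := ?_
    y_mem := ?_
    h_y := ?_ }⟩
  · -- v_ge
    intro z hz
    by_cases hzN : z ∈ Nt
    · obtain ⟨h0, m, hm, hmt⟩ := hzN
      have h1 := (hsum_in z hz h0 m hm hmt).2
      have h2 := vf_ge zero_le_one T b (z - xv m)
      linarith
    · have h1 := (hsum_out z hz hzN).2
      linarith
  · -- v_in
    intro z hz hzN ζ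
    obtain ⟨h0, m, hm, hmt⟩ := hzN
    rw [hwSl]
    have h1 := (hsum_in z hz h0 m hm hmt).1 ζ
    have h2 := hin0 _ (hDB z hz m hm) hmt ζ
    have h3 : 0 ≤ ‖ζ‖ ^ 2 := by positivity
    nlinarith
  · -- v_det
    intro z hz m hm
    obtain ⟨hmL, hzN⟩ := hUdd z hz m hm
    refine ⟨hzN, ?_⟩
    have h0 := hzN.1
    have hx := hDB z hz m hmL
    have hbs' : ContDiff ℝ ∞ (fun y => b (y - xv m)) := shift_sm hbs (xv m)
    have hbh : hess (fun y => b (y - xv m)) z = hess b (z - xv m) := hess_shift b (xv m) z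
    have hbl : ∀ ζ, levi (fun y => b (y - xv m)) z ζ = levi b (z - xv m) ζ := fun ζ => levi_shift b (xv m) z ζ
    have h2 := quad_low (A := (AA / 16 - 37 / 4) * (K * gg K N R (z 0)))
      (B := k1 (T (z - xv m) - b (z - xv m)) / 4) hwS hbs' (z := z)
      (mul_nonneg hA0 (mul_nonneg hK0.le (gg_nonneg _ _ _ _))) (by have := k1_pos (T (z - xv m) - b (z - xv m)); positivity)
      (by rw [hbh]; exact hbp _ hx) (by rw [hbh]; exact hbdet _ hx)
      (fun ζ => by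
        rw [hwSl, hbl]
        have a1 := (hsum_in z hz h0 m hmL hm.1.le).1 ζ
        have a2 := hin _ hx hm.1.le ζ
        rw [sub0] at a2
        have a3 : 0 ≤ ‖ζ‖ ^ 2 := by positivity
        nlinarith)
    rw [hbh] at h2
    refine le_trans ?_ h2
    refine (hΦdet _ hx).trans ?_
    rw [sub0]
    apply mul_le_mul_of_nonneg_right _ (hmn _ hx)
    set t := T (z - xv m) - b (z - xv m) with ht
    have hgn : 0 ≤ (K : ℝ) * gg K N R (z 0) := mul_nonneg hK0.le (gg_nonneg _ _ _ _)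
    have e1 : (AA / 16 - 37 / 4) * (K * gg K N R (z 0)) * (k1 t / 4) ^ 2 =
        (AA / 16 - 37 / 4) / 16 * ((K * gg K N R (z 0)) * (sg t ^ 2 * (1 - sg t ^ 2) ^ 2)) := by
      rw [div_pow, hk1sq]
      ring
    have e2 : 50 * (13 / 2) * (K * gg K N R (z 0)) * sg t ^ 2 * (50 * (5 / 4) * (1 - sg t ^ 2)) ^ 2 =
        (325 * (125 / 2) ^ 2) * ((K * gg K N R (z 0)) * (sg t ^ 2 * (1 - sg t ^ 2) ^ 2)) := by
      ring
    rw [e1, e2]
    apply mul_le_mul_of_nonneg_right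
    · unfold AA
      norm_num
    · positivity
  · -- N_rm
    rintro z ⟨-, m, hm, hmt⟩ hzrm
    obtain ⟨h1, h2⟩ := hpr _ hmt
    obtain ⟨h3, h4⟩ := hNrm (z 0) hzrm
    have h3' : ‖sK K * fe K N R (z 0)‖ ≤ η / 4 := h3.trans (min_le_left _ _)
    have h4' : ‖sK K * fo K N R (z 0)‖ ≤ η / 4 := h4.trans (min_le_left _ _)
    refine ⟨m.1, m.2, ?_⟩
    have h5 : ‖z 1 - gi m.1‖ ≤ 3 / 4 * η := by
      rw [hz1]
      have t1 := norm_add_le (p (z - xv m)) (c + sK K * fe K N R (z 0))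
      have t2 := norm_add_le c (sK K * fe K N R (z 0))
      linarith
    have h6 : ‖z 2 - gi m.2‖ ≤ 1 / 2 * η := by
      rw [hz2]
      have t1 := norm_add_le (q (z - xv m)) (sK K * fo K N R (z 0))
      linarith
    have h7 := pow_le_pow_left₀ (norm_nonneg _) h5 2
    have h8 := pow_le_pow_left₀ (norm_nonneg _) h6 2
    exact ax6 h7 h8 hη
  · -- N_d
    rintro z ⟨hz0, m, hm, hmt⟩ m1 m2
    obtain ⟨h1, h2⟩ := hpr _ hmt
    have h0 : ‖z 0‖ ≤ 3 := by linarith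
    rcases hd (z 0) h0 (m1 - m.1) (m2 - m.2) with h3 | h3
    · have h4 : c + sK K * fe K N R (z 0) - gi (m1 - m.1) = (z 1 - gi m1) - p (z - xv m) := by
        rw [← gi_sub]
        linear_combination -(hz1 z m)
      have h5 : ‖c + sK K * fe K N R (z 0) - gi (m1 - m.1)‖ ≤ ‖z 1 - gi m1‖ + ‖p (z - xv m)‖ := by
        rw [h4]
        exact norm_sub_le _ _
      have h3' : 2 * d0 ≤ ‖c + sK K * fe K N R (z 0) - gi (m1 - m.1)‖ := h3
      have h6 : d0 ≤ ‖z 1 - gi m1‖ := by linarith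
      exact ax7 (pow_le_pow_left₀ hd0.le h6 2)
    · have h4 : sK K * fo K N R (z 0) - gi (m2 - m.2) = (z 2 - gi m2) - q (z - xv m) := by
        rw [← gi_sub]
        linear_combination -(hz2 z m)
      have h5 : ‖sK K * fo K N R (z 0) - gi (m2 - m.2)‖ ≤ ‖z 2 - gi m2‖ + ‖q (z - xv m)‖ := by
        rw [h4]
        exact norm_sub_le _ _
      have h3' : 2 * d0 ≤ ‖sK K * fo K N R (z 0) - gi (m2 - m.2)‖ := h3
      have h6 : d0 ≤ ‖z 2 - gi m2‖ := by linarith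
      exact ax7' (pow_le_pow_left₀ hd0.le h6 2)
  · -- h_bd
    intro z hz
    have hcl : z ∈ closure U := frontier_subset_closure hz
    have hnU : z ∉ U := by
      have := hz.2
      rwa [hUo.interior_eq] at this
    have hC : IsClosed {z : Cn 3 | ‖p z‖ ^ 2 + ‖q z‖ ^ 2 ≤ r1 ^ 2 ∧ ‖z 0‖ ≤ R} := by
      have o1 : IsClosed {z : Cn 3 | ‖p z‖ ^ 2 + ‖q z‖ ^ 2 ≤ r1 ^ 2} := isClosed_le (by fun_prop) continuous_const
      have o2 : IsClosed {z : Cn 3 | ‖z 0‖ ≤ R} := isClosed_le (by fun_prop) continuous_const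
      exact o1.inter o2
    have hsub : U ⊆ {z : Cn 3 | ‖p z‖ ^ 2 + ‖q z‖ ^ 2 ≤ r1 ^ 2 ∧ ‖z 0‖ ≤ R} := by
      intro x hx
      exact ⟨hx.1.le, hx.2.le⟩
    obtain ⟨h1, h2⟩ := closure_minimal hsub hC hcl
    obtain ⟨h3, h4⟩ := hpr z h1
    have hs1 : 0 < 1 / (8 * (K : ℝ)) := by positivity
    apply hfT_bd K N hR0 hR1.le hKpos (c := c) (s := 1 / (4 * K)) z h2 ?_ (by positivity)
      (by field_simp; norm_num) ?_ ?_
    · by_cases c1 : r1 ^ 2 ≤ ‖p z‖ ^ 2 + ‖q z‖ ^ 2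
      · left
        have := hbe z c1
        linarith
      · right
        apply le_antisymm h2
        by_contra h
        exact hnU ⟨not_le.1 c1, not_le.1 h⟩
    · have : 1 / (4 * (K : ℝ)) = 1 / (8 * K) + 1 / (8 * K) := by field_simp; norm_num
      rw [this]
      linarith
    · have : 1 / (4 * (K : ℝ)) = 1 / (8 * K) + 1 / (8 * K) := by field_simp; norm_num
      rw [this]
      linarith
  · -- h_det
    intro z hz hhp
    have h1 := hess_sub_psd hΦs (hfT_sm K N R hbs) z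
      (fun ζ => hfT_levi_le K N hN hR0 hKpos hbs z ζ hz.2.le)
    exact det_mono_psd _ _ hhp h1
  · -- y_mem
    obtain ⟨h1, h2⟩ := hyc _ e0
    refine ⟨?_, ?_⟩
    · rw [h1, h2, e1, e2, sub_self, norm_zero]
      have : (0 : ℝ) < r1 ^ 2 := by positivity
      simpa using this
    · rw [e0, norm_zero]
      exact hR0
  · -- h_y
    obtain ⟨h1, h2⟩ := hyc _ e0
    have h3 := hfT_center K hN R (b := b) _ e0 (hbc _ (by rw [h1, e1, sub_self]) (by rw [h2, e2]))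
    linarith

end Pool.Agent.H805K
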