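import Mathlib
import Pool.Agent.H805K.TWire
import Pool.Agent.H805K.TMAIN
import Pool.Agent.H805K.TQUOT
import Pool.Agent.H805K.TCpt
import Pool.Agent.H805K.Tor5
import Pool.Agent.H805K.TSEQ

/-!
Bounded subsolution problem on compact Kaehler manifolds: the counterexample on a complex torus.
-/

set_option autoImplicit false

open MeasureTheory Metric Set Filter Topology
open scoped ContDiff ComplexOrder ENNReal

namespace Pool.Agent.H805K
open Pool.Agent.H805R2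

theorem torus_main : ∃ (a : ℝ) (μX : Measure (Cn 3 ⧸ Lam a)), 0 < a ∧ CompactSpace (Cn 3 ⧸ Lam a) ∧
    T2Space (Cn 3 ⧸ Lam a) ∧ μX univ = 1 ∧ LocDom a μX ∧
    ¬ ∃ φ : Cn 3 ⧸ Lam a → ℝ, IsBddSol a φ μX := by
  obtain ⟨S⟩ := exists_sysT (fun rm rp η Kr h1 h2 h3 h4 h5 => exists_blkT h1 h2 h3 h4 h5)
  obtain ⟨a, μ, ha, hinv, h1, hloc, hno⟩ := mainT (coreDom 3) S
  obtain ⟨μX, hX1, hX2, hX3⟩ := to_quotient ha hinv h1 hloc
  have ha0 : 0 < a := by linarith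
  refine ⟨a, μX, ha0, compact_X ha0, t2_X ha0, hX1, hX2, ?_⟩
  rintro ⟨φ, hφ⟩
  obtain ⟨B, hB⟩ := hφ.1
  exact hno ⟨fun z => φ (pr a z), ⟨B, fun z => hB _⟩, hX3 φ hφ⟩

end Pool.Agent.H805K
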